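import Pool.Agent.LNG.Defs

/-! # LNG, Alg1: elementary facts on `pol`, `ev`, `res`, `wd`, `tri` -/

namespace Pool.Agent.LNG

open Polynomial

variable {k : Type*} [Field k] {d : ℕ}

theorem pol_natDegree_le (F : Coef k d) (i : Fin 2) : (pol F i).natDegree ≤ d := by
  unfold pol
  refine natDegree_sum_le_of_forall_le _ _ fun j _ => ?_
  refine (natDegree_C_mul_X_pow_le _ _).trans ?_
  have := j.2
  omega

theorem pol_coeff (F : Coef k d) (i : Fin 2) (j : Fin (d + 1)) :
    (pol F i).coeff (j : ℕ) = F (i, j) := by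
  unfold pol
  simp only [finsetSum_coeff, coeff_C_mul, coeff_X_pow]
  rw [Finset.sum_eq_single j]
  · simp
  · intro b _ hb
    rw [if_neg, mul_zero]
    intro h
    exact hb (Fin.ext h.symm)
  · simp

theorem pol_smul (c : k) (F : Coef k d) (i : Fin 2) : pol (c • F) i = C c * pol F i := by
  unfold pol
  rw [Finset.mul_sum]
  refine Finset.sum_congr rfl fun j _ => ?_
  simp [mul_assoc]

theorem ev_smul (c : k) (F : Coef k d) (X : Fin 2 → k) : ev (c • F) X = c • ev F X := by
  funext i
  simp only [ev, Pi.smul_apply, smul_eq_mul, Finset.mul_sum, mul_assoc]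

theorem ev_smul_vec (c : k) (F : Coef k d) (X : Fin 2 → k) : ev F (c • X) = c ^ d • ev F X := by
  funext i
  simp only [ev, Pi.smul_apply, smul_eq_mul, Finset.mul_sum]
  refine Finset.sum_congr rfl fun j _ => ?_
  have hj : (j : ℕ) + (d - (j : ℕ)) = d := by have := j.2; omega
  calc F (i, j) * ((c * X 0) ^ (j : ℕ) * (c * X 1) ^ (d - (j : ℕ)))
      = c ^ ((j : ℕ) + (d - (j : ℕ))) * (F (i, j) * (X 0 ^ (j : ℕ) * X 1 ^ (d - (j : ℕ)))) := by
        rw [pow_add]; ring
    _ = _ := by rw [hj]

theorem res_smul (c : k) (F : Coef k d) : res (c • F) = c ^ (2 * d) * res F := by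
  unfold res
  rw [pol_smul, pol_smul, resultant_C_mul_left, resultant_C_mul_right]
  ring

theorem pol_eval (F : Coef k d) (i : Fin 2) (x : k) : (pol F i).eval x = ev F ![x, 1] i := by
  unfold pol ev
  rw [eval_finset_sum]
  refine Finset.sum_congr rfl fun j _ => ?_
  simp

theorem pol_map {L : Type*} [Field L] (ι : k →+* L) (F : Coef k d) (i : Fin 2) :
    pol (mapC ι F) i = (pol F i).map ι := by
  unfold pol mapC
  rw [Polynomial.map_sum]
  refine Finset.sum_congr rfl fun j _ => ?_
  simp

theorem res_map {L : Type*} [Field L] (ι : k →+* L) (F : Coef k d) :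
    res (mapC ι F) = ι (res F) := by
  unfold res
  rw [pol_map, pol_map, resultant_map_map]

theorem ev_map {L : Type*} [Field L] (ι : k →+* L) (F : Coef k d) (X : Fin 2 → k) :
    ev (mapC ι F) (mapV ι X) = mapV ι (ev F X) := by
  funext i
  simp [ev, mapC, mapV, map_sum]

theorem iter_map {L : Type*} [Field L] (ι : k →+* L) (F : Coef k d) (X : Fin 2 → k) (n : ℕ) :
    (ev (mapC ι F))^[n] (mapV ι X) = mapV ι ((ev F)^[n] X) := by
  induction n generalizing X with
  | zero => rfl
  | succ n ih => rw [Function.iterate_succ_apply, Function.iterate_succ_apply, ev_map, ih]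

theorem wd_map {L : Type*} [Field L] (ι : k →+* L) (X Y : Fin 2 → k) :
    wd (mapV ι X) (mapV ι Y) = ι (wd X Y) := by
  simp [wd, mapV]

theorem subs_map {L : Type*} [Field L] (ι : k →+* L) (F : Coef k d)
    (A : Matrix (Fin 2) (Fin 2) k) : subs (mapC ι F) (A.map ι) = mapC ι (subs F A) := by
  funext p
  unfold subs mapC
  rw [← coeff_map]
  congr 1
  rw [Polynomial.map_sum]
  refine Finset.sum_congr rfl fun j _ => ?_
  simp

theorem conj_map {L : Type*} [Field L] (ι : k →+* L) (F : Coef k d)
    (A : Matrix (Fin 2) (Fin 2) k) : conj (mapC ι F) (A.map ι) = mapC ι (conj F A) := by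
  have hinv : (A.map ι)⁻¹ = A⁻¹.map ι := by
    rw [Matrix.inv_def, Matrix.inv_def]
    have h1 : (A.map ι).det = ι A.det := by
      rw [RingHom.map_det]; rfl
    have h2 : (A.map ι).adjugate = A.adjugate.map ι := by
      have := RingHom.map_adjugate ι A
      simpa using this.symm
    rw [h1, h2]
    ext i j
    simp [Ring.inverse_eq_inv']
  funext p
  unfold conj
  rw [subs_map, hinv]
  simp [mapC, map_sum]

theorem wd_self (X : Fin 2 → k) : wd X X = 0 := by unfold wd; ring

theorem wd_neg_swap (X Y : Fin 2 → k) : wd Y X = - wd X Y := by unfold wd; ring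

theorem wd_smul_left (c : k) (X Y : Fin 2 → k) : wd (c • X) Y = c * wd X Y := by
  unfold wd; simp; ring

theorem wd_smul_right (c : k) (X Y : Fin 2 → k) : wd X (c • Y) = c * wd X Y := by
  unfold wd; simp; ring

theorem wd_add_left (X X' Y : Fin 2 → k) : wd (X + X') Y = wd X Y + wd X' Y := by
  unfold wd; simp; ring

theorem wd_add_right (X Y Y' : Fin 2 → k) : wd X (Y + Y') = wd X Y + wd X Y' := by
  unfold wd; simp; ring

theorem wd_mulVec (A : Matrix (Fin 2) (Fin 2) k) (X Y : Fin 2 → k) :
    wd (A.mulVec X) (A.mulVec Y) = A.det * wd X Y := by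
  unfold wd
  simp only [Matrix.mulVec, dotProduct, Fin.sum_univ_two, Matrix.det_fin_two]
  ring

/-- Plücker identity. -/
theorem plucker (X Y Z : Fin 2 → k) : wd X Y • Z + wd Y Z • X + wd Z X • Y = 0 := by
  funext i
  fin_cases i <;> simp [wd] <;> ring

theorem tri_mulVec (X Y : Fin 2 → k) (α β u w : k) :
    (tri X Y α β).mulVec ![u, w] = (w * α) • X + (u * β) • Y := by
  funext i
  fin_cases i <;> simp [tri, Matrix.mulVec, dotProduct, Fin.sum_univ_two] <;> ring

theorem tri_det (X Y : Fin 2 → k) (α β : k) : (tri X Y α β).det = - (α * β * wd X Y) := by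
  simp [tri, Matrix.det_fin_two, wd]; ring

end Pool.Agent.LNG
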