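import Pool.Agent.LNG.Alg1

/-! # LNG, Alg2: homogeneous evaluation of polynomials with a formal degree; conjugation -/

namespace Pool.Agent.LNG

open Polynomial

variable {k : Type*} [Field k] {d : ℕ}

/-- Homogeneous evaluation of a polynomial of formal degree `n`. -/
def hev (n : ℕ) (p : k[X]) (X : Fin 2 → k) : k :=
  ∑ m ∈ Finset.range (n + 1), p.coeff m * (X 0 ^ m * X 1 ^ (n - m))

theorem hev_of_ne {n : ℕ} {p : k[X]} (hp : p.natDegree ≤ n) {X : Fin 2 → k} (hX : X 1 ≠ 0) :
    hev n p X = X 1 ^ n * p.eval (X 0 / X 1) := by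
  unfold hev
  rw [eval_eq_sum_range' (n := n + 1) (by omega), Finset.mul_sum]
  refine Finset.sum_congr rfl fun m hm => ?_
  have hm' : m ≤ n := by have := Finset.mem_range.mp hm; omega
  rw [div_pow]
  have : X 1 ^ n = X 1 ^ (n - m) * X 1 ^ m := by rw [← pow_add]; congr 1; omega
  rw [this]
  field_simp

theorem hev_of_eq_zero {n : ℕ} {p : k[X]} {X : Fin 2 → k} (hX : X 1 = 0) :
    hev n p X = p.coeff n * X 0 ^ n := by
  unfold hev
  rw [Finset.sum_eq_single n]
  · simp
  · intro m hm hne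
    have hm' : m < n := by have := Finset.mem_range.mp hm; omega
    rw [hX, zero_pow (by omega)]; simp
  · intro h; exact absurd (Finset.mem_range.mpr (by omega)) h

theorem hev_mul {m n : ℕ} {p q : k[X]} (hp : p.natDegree ≤ m) (hq : q.natDegree ≤ n)
    (X : Fin 2 → k) : hev (m + n) (p * q) X = hev m p X * hev n q X := by
  by_cases hX : X 1 = 0
  · rw [hev_of_eq_zero hX, hev_of_eq_zero hX, hev_of_eq_zero hX,
      coeff_mul_add_eq_of_natDegree_le hp hq, pow_add]
    ring
  · rw [hev_of_ne hp hX, hev_of_ne hq hX, hev_of_ne (natDegree_mul_le_of_le hp hq) hX, eval_mul,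
      pow_add]
    ring

theorem hev_pow {m : ℕ} {p : k[X]} (hp : p.natDegree ≤ m) (X : Fin 2 → k) (n : ℕ) :
    hev (m * n) (p ^ n) X = hev m p X ^ n := by
  induction n with
  | zero => simp [hev]
  | succ n ih =>
    rw [pow_succ, Nat.mul_succ, hev_mul (natDegree_pow_le_of_le n hp |>.trans (by rw [mul_comm])) hp,
      ih, pow_succ]

theorem hev_add {n : ℕ} (p q : k[X]) (X : Fin 2 → k) : hev n (p + q) X = hev n p X + hev n q X := by
  simp [hev, add_mul, Finset.sum_add_distrib]

theorem hev_C_mul {n : ℕ} (c : k) (p : k[X]) (X : Fin 2 → k) : hev n (C c * p) X = c * hev n p X := by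
  simp [hev, Finset.mul_sum, mul_assoc]

theorem hev_sum {n : ℕ} {ι : Type*} (s : Finset ι) (p : ι → k[X]) (X : Fin 2 → k) :
    hev n (∑ i ∈ s, p i) X = ∑ i ∈ s, hev n (p i) X := by
  simp only [hev, finsetSum_coeff, Finset.sum_mul]
  rw [Finset.sum_comm]

theorem hev_linear (a b : k) (X : Fin 2 → k) : hev 1 (C a * Polynomial.X + C b) X = a * X 0 + b * X 1 := by
  simp [hev, Finset.sum_range_succ]
  ring

theorem hev_X_pow {n m : ℕ} (hm : m ≤ n) (X : Fin 2 → k) :
    hev n (Polynomial.X ^ m) X = X 0 ^ m * X 1 ^ (n - m) := by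
  unfold hev
  rw [Finset.sum_eq_single m]
  · simp
  · intro b _ hb
    rw [coeff_X_pow, if_neg hb]; simp
  · intro h; exact absurd (Finset.mem_range.mpr (by omega)) h

theorem ev_eq_hev (F : Coef k d) (X : Fin 2 → k) (i : Fin 2) : ev F X i = hev d (pol F i) X := by
  unfold ev hev
  rw [Finset.sum_range]
  refine Finset.sum_congr rfl fun j _ => ?_
  rw [pol_coeff]

/-- The substitution polynomial. -/
noncomputable def subsPol (F : Coef k d) (A : Matrix (Fin 2) (Fin 2) k) (i : Fin 2) : k[X] :=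
  ∑ j : Fin (d + 1), C (F (i, j)) *
    ((C (A 0 0) * X + C (A 0 1)) ^ (j : ℕ) * (C (A 1 0) * X + C (A 1 1)) ^ (d - (j : ℕ)))

theorem linear_natDegree_le (a b : k) : (C a * X + C b : k[X]).natDegree ≤ 1 := by
  exact natDegree_linear_le

theorem subsPol_natDegree_le (F : Coef k d) (A : Matrix (Fin 2) (Fin 2) k) (i : Fin 2) :
    (subsPol F A i).natDegree ≤ d := by
  unfold subsPol
  refine natDegree_sum_le_of_forall_le _ _ fun j _ => ?_
  refine (natDegree_C_mul_le _ _).trans ?_
  have h1 : ((C (A 0 0) * X + C (A 0 1) : k[X]) ^ (j : ℕ)).natDegree ≤ (j : ℕ) * 1 :=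
    natDegree_pow_le_of_le _ (linear_natDegree_le _ _)
  have h2 : ((C (A 1 0) * X + C (A 1 1) : k[X]) ^ (d - (j : ℕ))).natDegree ≤ (d - (j : ℕ)) * 1 :=
    natDegree_pow_le_of_le _ (linear_natDegree_le _ _)
  refine (natDegree_mul_le_of_le h1 h2).trans ?_
  have := j.2
  omega

theorem subs_eq (F : Coef k d) (A : Matrix (Fin 2) (Fin 2) k) (p : Fin 2 × Fin (d + 1)) :
    subs F A p = (subsPol F A p.1).coeff (p.2 : ℕ) := rfl

theorem pol_subs (F : Coef k d) (A : Matrix (Fin 2) (Fin 2) k) (i : Fin 2) :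
    pol (subs F A) i = subsPol F A i := by
  ext m
  by_cases hm : m < d + 1
  · have := pol_coeff (subs F A) i ⟨m, hm⟩
    simp only at this
    rw [this, subs_eq]
  · rw [coeff_eq_zero_of_natDegree_lt (by have := pol_natDegree_le (subs F A) i; omega),
      coeff_eq_zero_of_natDegree_lt (by have := subsPol_natDegree_le F A i; omega)]

theorem hev_lin_pow (a b c e : k) (X : Fin 2 → k) {m n N : ℕ} (h : m + n = N) :
    hev N ((C a * Polynomial.X + C b : k[X]) ^ m * (C c * Polynomial.X + C e) ^ n) X =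
      (a * X 0 + b * X 1) ^ m * (c * X 0 + e * X 1) ^ n := by
  have h1 : ((C a * Polynomial.X + C b : k[X]) ^ m).natDegree ≤ 1 * m :=
    le_trans (natDegree_pow_le_of_le m (linear_natDegree_le a b)) (by omega)
  have h2 : ((C c * Polynomial.X + C e : k[X]) ^ n).natDegree ≤ 1 * n :=
    le_trans (natDegree_pow_le_of_le n (linear_natDegree_le c e)) (by omega)
  have hN : N = 1 * m + 1 * n := by omega
  rw [hN, hev_mul h1 h2, hev_pow (linear_natDegree_le _ _), hev_pow (linear_natDegree_le _ _),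
    hev_linear, hev_linear]

theorem ev_subs (F : Coef k d) (A : Matrix (Fin 2) (Fin 2) k) (X : Fin 2 → k) :
    ev (subs F A) X = ev F (A.mulVec X) := by
  funext i
  rw [ev_eq_hev, pol_subs]
  unfold subsPol ev
  rw [hev_sum]
  refine Finset.sum_congr rfl fun j _ => ?_
  have hj : (j : ℕ) + (d - (j : ℕ)) = d := by have := j.2; omega
  rw [hev_C_mul, hev_lin_pow _ _ _ _ _ hj]
  simp only [Matrix.mulVec, dotProduct, Fin.sum_univ_two]

/-- Conjugation on the level of homogeneous maps. -/
theorem ev_conj (F : Coef k d) (A : Matrix (Fin 2) (Fin 2) k) (X : Fin 2 → k) :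
    ev (conj F A) X = A⁻¹.mulVec (ev F (A.mulVec X)) := by
  funext i
  rw [← ev_subs]
  unfold conj
  simp only [ev, Matrix.mulVec, dotProduct, Fin.sum_univ_two, Finset.sum_add_distrib, add_mul,
    Finset.mul_sum, mul_assoc]

theorem conj_smul (c : k) (F : Coef k d) (A : Matrix (Fin 2) (Fin 2) k) :
    conj (c • F) A = c • conj F A := by
  have h : ∀ i, subsPol (c • F) A i = C c * subsPol F A i := by
    intro i
    unfold subsPol
    rw [Finset.mul_sum]
    refine Finset.sum_congr rfl fun j _ => ?_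
    simp [mul_assoc]
  funext p
  simp only [conj, Pi.smul_apply, smul_eq_mul, Fin.sum_univ_two, subs_eq, h, coeff_C_mul]
  ring

theorem iter_conj (F : Coef k d) {A : Matrix (Fin 2) (Fin 2) k} (hA : A.det ≠ 0) (X : Fin 2 → k)
    (n : ℕ) : (ev (conj F A))^[n] X = A⁻¹.mulVec ((ev F)^[n] (A.mulVec X)) := by
  have hu : IsUnit A.det := isUnit_iff_ne_zero.mpr hA
  induction n generalizing X with
  | zero =>
    rw [Function.iterate_zero, Function.iterate_zero, id, id, Matrix.mulVec_mulVec,
      Matrix.nonsing_inv_mul A hu, Matrix.one_mulVec]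
  | succ n ih =>
    rw [Function.iterate_succ_apply, Function.iterate_succ_apply, ih, ev_conj]
    congr 2
    rw [Matrix.mulVec_mulVec, Matrix.mul_nonsing_inv A hu, Matrix.one_mulVec]

/-- Over an infinite field a coefficient vector is determined by its homogeneous map. -/
theorem ev_injective [Infinite k] {F F' : Coef k d} (h : ∀ X, ev F X = ev F' X) : F = F' := by
  have hp : ∀ i, pol F i = pol F' i := by
    intro i
    apply Polynomial.funext
    intro x
    rw [pol_eval, pol_eval, h]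
  funext p
  obtain ⟨i, j⟩ := p
  rw [← pol_coeff F i j, ← pol_coeff F' i j, hp]

theorem conj_mul [Infinite k] (F : Coef k d) {A B : Matrix (Fin 2) (Fin 2) k} :
    conj (conj F A) B = conj F (A * B) := by
  apply ev_injective
  intro X
  rw [ev_conj, ev_conj, ev_conj, Matrix.mul_inv_rev, Matrix.mulVec_mulVec, Matrix.mulVec_mulVec]

theorem conj_one [Infinite k] (F : Coef k d) : conj F 1 = F := by
  apply ev_injective
  intro X
  rw [ev_conj]
  simp

theorem conj_smul_mat [Infinite k] (hd : 1 ≤ d) (F : Coef k d) {c : k} (hc : c ≠ 0)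
    (A : Matrix (Fin 2) (Fin 2) k) : conj F (c • A) = c ^ (d - 1) • conj F A := by
  apply ev_injective
  intro X
  rw [ev_conj, ev_smul, ev_conj, Matrix.smul_mulVec, ev_smul_vec]
  have hinv : (c • A)⁻¹ = c⁻¹ • A⁻¹ := by
    by_cases hA : A.det = 0
    · have h0 : (c • A).det = 0 := by rw [Matrix.det_smul, hA, mul_zero]
      rw [Matrix.nonsing_inv_apply_not_isUnit _ (by rw [h0]; simp),
        Matrix.nonsing_inv_apply_not_isUnit A (by rw [hA]; simp), smul_zero]
    · have hu : IsUnit A.det := isUnit_iff_ne_zero.mpr hA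
      apply Matrix.inv_eq_left_inv
      rw [Matrix.smul_mul, Matrix.mul_smul, smul_smul, inv_mul_cancel₀ hc, one_smul,
        Matrix.nonsing_inv_mul A hu]
  rw [hinv, Matrix.smul_mulVec, Matrix.mulVec_smul, smul_smul]
  congr 1
  obtain ⟨e, rfl⟩ : ∃ e, d = e + 1 := ⟨d - 1, by omega⟩
  rw [Nat.add_sub_cancel, pow_succ]
  field_simp

end Pool.Agent.LNG
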