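import Pool.Agent.LNG.Van

/-!
# LNG, Sym (difficulty 2): the symmetric power of a 2 x 2 matrix

For every `n` and `A` there is a matrix `S` (the substitution `X ↦ A X` on the monomials of degree `n-1`) with
`mon n (A X) = S (mon n X)`, and `det S = det(A)^{n(n-1)/2}`.
Proof. `n = 0`: trivial. Existence of `S`: the `c`-th entry of `mon n (A X)` is
`(A₀₀X₀+A₀₁X₁)^c (A₁₀X₀+A₁₁X₁)^(n-1-c) = hev (n-1) p_c X` with `p_c = (C A₀₀ X + C A₀₁)^c (C A₁₀ X + C A₁₁)^(n-1-c)`
(`hev_lin_pow` in Alg2), and `hev (n-1) p X = Σ_j p.coeff j * mon n X j`; so `S c j = p_c.coeff j`.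
Determinant: choose `Z : Fin n → Fin 2 → k`, `Z i = ![t i, 1]` with `t` injective (`k` infinite: `Infinite.natEmbedding`
or `Function.Embedding`), so that `V = det (mon n (Z i))_i = ∏∏ wd (Z j) (Z i) ≠ 0` (`det_mon`, `wd ![a,1] ![b,1] = a - b`).
The matrix `(mon n (A Z_i))_i = (mon n (Z_i))_i * Sᵀ`; its determinant is `∏∏ wd (A Z_j) (A Z_i) = det(A)^{#pairs} V`
(`wd_mulVec`), and `#pairs = Σ_i card (Ioi i) = n(n-1)/2`.
-/

namespace Pool.Agent.LNG

open Polynomial

variable {k : Type*} [Field k] {d : ℕ}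

private theorem Sym_pairs (n : ℕ) : ∑ i : Fin n, (Finset.Ioi i).card = n * (n - 1) / 2 := by
  simp only [Fin.card_Ioi]
  rw [Fin.sum_univ_eq_sum_range (fun i => n - 1 - i) n, Finset.sum_range_reflect (fun i => i) n,
    Finset.sum_range_id]

private theorem Sym_hev (n : ℕ) (hn : 0 < n) (p : k[X]) (X : Fin 2 → k) :
    hev (n - 1) p X = ∑ j : Fin n, p.coeff (j : ℕ) * mon n X j := by
  unfold hev mon
  rw [Nat.sub_add_cancel hn, Finset.sum_range]

theorem exists_sym [Infinite k] (n : ℕ) (A : Matrix (Fin 2) (Fin 2) k) :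
    ∃ S : Matrix (Fin n) (Fin n) k, (∀ X, mon n (A.mulVec X) = S.mulVec (mon n X)) ∧
      S.det = A.det ^ (n * (n - 1) / 2) := by
  rcases Nat.eq_zero_or_pos n with rfl | hn
  · refine ⟨0, fun X => funext fun i => i.elim0, ?_⟩
    simp
  have hex : ∃ S : Matrix (Fin n) (Fin n) k, ∀ X, mon n (A.mulVec X) = S.mulVec (mon n X) := by
    refine ⟨Matrix.of fun c j => ((C (A 0 0) * Polynomial.X + C (A 0 1) : k[X]) ^ (c : ℕ) *
      (C (A 1 0) * Polynomial.X + C (A 1 1)) ^ (n - 1 - (c : ℕ))).coeff (j : ℕ), fun X => ?_⟩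
    funext c
    have hc : (c : ℕ) + (n - 1 - (c : ℕ)) = n - 1 := by have := c.2; omega
    have h1 := hev_lin_pow (A 0 0) (A 0 1) (A 1 0) (A 1 1) X hc
    rw [Sym_hev n hn] at h1
    have hA0 : A.mulVec X 0 = A 0 0 * X 0 + A 0 1 * X 1 := by
      simp only [Matrix.mulVec, dotProduct, Fin.sum_univ_two]
    have hA1 : A.mulVec X 1 = A 1 0 * X 0 + A 1 1 * X 1 := by
      simp only [Matrix.mulVec, dotProduct, Fin.sum_univ_two]
    have h2 : mon n (A.mulVec X) c = (A.mulVec X 0) ^ (c : ℕ) * (A.mulVec X 1) ^ (n - 1 - (c : ℕ)) :=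
      rfl
    rw [h2, hA0, hA1, ← h1]
    simp only [Matrix.mulVec, dotProduct, Matrix.of_apply]
  obtain ⟨S, hS⟩ := hex
  refine ⟨S, hS, ?_⟩
  let t : ℕ ↪ k := Infinite.natEmbedding k
  let Z : Fin n → Fin 2 → k := fun i => ![t i, 1]
  have hV : (Matrix.of fun i => mon n (Z i)).det ≠ 0 := by
    rw [det_mon]
    refine Finset.prod_ne_zero_iff.2 fun i _ => Finset.prod_ne_zero_iff.2 fun j hj => ?_
    have hij : i < j := Finset.mem_Ioi.1 hj
    have : wd (Z j) (Z i) = t j - t i := by simp [wd, Z]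
    rw [this, sub_ne_zero]
    intro h
    have := t.injective h
    omega
  have hmul : (Matrix.of fun i => mon n (A.mulVec (Z i))) =
      (Matrix.of fun i => mon n (Z i)) * S.transpose := by
    ext i j
    rw [Matrix.of_apply, hS, Matrix.mul_apply]
    simp only [Matrix.mulVec, dotProduct, Matrix.transpose_apply, Matrix.of_apply]
    exact Finset.sum_congr rfl fun l _ => mul_comm _ _
  have hdet := congrArg Matrix.det hmul
  rw [Matrix.det_mul, Matrix.det_transpose, det_mon n (fun i => A.mulVec (Z i))] at hdet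
  have hpow : ∏ i : Fin n, ∏ j ∈ Finset.Ioi i, wd (A.mulVec (Z j)) (A.mulVec (Z i)) =
      A.det ^ (n * (n - 1) / 2) * (Matrix.of fun i => mon n (Z i)).det := by
    simp only [wd_mulVec, Finset.prod_mul_distrib, Finset.prod_const]
    rw [Finset.prod_pow_eq_pow_sum, Sym_pairs, det_mon]
  rw [hpow, mul_comm] at hdet
  exact (mul_left_cancel₀ hV hdet).symm

end Pool.Agent.LNG
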