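import Pool.Agent.LNG.Syl
import Pool.Agent.LNG.Sym

/-!
# LNG, RC2 (difficulty 2): the resultant of `F ∘ A`

`Res(F ∘ A) = det(A)^{d²} Res(F)` for `det A ≠ 0`, `d ≥ 1`, `k` infinite.
Proof. Let `n = d + d`, `f = pol F 0`, `g = pol F 1`. Choose `Z : Fin n → Fin 2 → k`, `Z i = ![t i, 1]`, `t` injective, so that
`V(Z) := det (mon n (Z i))_i ≠ 0` (`det_mon`). For a coefficient vector `F` let `N(F,Z)` be the `n x n` matrix with rows
`i ↦ vecMul (mon n (Z i)) (sylvester (pol F 0) (pol F 1) d d)`; so `det N(F,Z) = V(Z) · res F` (`N(F,Z) = (mon n (Z i))_i * sylvester`),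
and by `mon_vecMul_sylvester`, `ev_eq_hev` its entries are `mon d (Z i) j₁ * ev F (Z i) 1` resp. `mon d (Z i) j₁ * ev F (Z i) 0`.
Now `ev (subs F A) X = ev F (A X)` (`ev_subs`) and `mon d (A X) = S (mon d X)` (`exists_sym` for `d`), hence
`N(F, AZ) = N(subs F A, Z) * (fromBlocks Sᵀ 0 0 Sᵀ)` (reindexed by `finSumFinEquiv`), so
`V(AZ) res F = V(Z) res (subs F A) (det S)²`, `(det S)² = det(A)^{d(d-1)}`; and `V(AZ) = det(A)^{n(n-1)/2} V(Z) = det(A)^{d(2d-1)} V(Z)`
(`wd_mulVec`, or `exists_sym` for `n`). Cancel `V(Z) ≠ 0` and `det(A)^{d(d-1)} ≠ 0`: `d(2d-1) - d(d-1) = d²`.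
-/

namespace Pool.Agent.LNG

open Polynomial

set_option linter.unusedSimpArgs false

variable {k : Type*} [Field k] {d : ℕ}

/-- A matrix vanishing on all vectors of monomials vanishes: matrices are determined by the action
on monomial vectors. -/
theorem mat_ext_mon [Infinite k] {n : ℕ} {M N : Matrix (Fin n) (Fin n) k}
    (h : ∀ X : Fin 2 → k, Matrix.vecMul (mon n X) M = Matrix.vecMul (mon n X) N) : M = N := by
  let t : Fin n → k := fun i => (Infinite.natEmbedding k) (i : ℕ)
  have ht : Function.Injective t := fun i j hij => by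
    have := (Infinite.natEmbedding k).injective hij
    exact Fin.ext this
  let Z : Fin n → Fin 2 → k := fun i => ![t i, 1]
  let V : Matrix (Fin n) (Fin n) k := Matrix.of fun i => mon n (Z i)
  have hV : V.det ≠ 0 := by
    show (Matrix.of fun i => mon n (Z i)).det ≠ 0
    rw [det_mon]
    refine Finset.prod_ne_zero_iff.mpr fun i _ => Finset.prod_ne_zero_iff.mpr fun j hj => ?_
    have hij : i < j := Finset.mem_Ioi.mp hj
    have : wd (Z j) (Z i) = t j - t i := by simp [wd, Z]
    rw [this]
    exact sub_ne_zero.mpr fun h => absurd (ht h) (ne_of_gt hij)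
  have hu : IsUnit V.det := isUnit_iff_ne_zero.mpr hV
  have hVM : V * M = V * N := by
    ext i j
    have := congrFun (h (Z i)) j
    simpa [Matrix.mul_apply, Matrix.vecMul, dotProduct, V] using this
  have := congrArg (fun W => V⁻¹ * W) hVM
  simpa [← Matrix.mul_assoc, Matrix.nonsing_inv_mul V hu] using this

theorem res_subs [Infinite k] (F : Coef k d) {A : Matrix (Fin 2) (Fin 2) k} (hA : A.det ≠ 0) :
    res (subs F A) = A.det ^ (d * d) * res F := by
  obtain ⟨S, hS, hSd⟩ := exists_sym d A
  obtain ⟨T, hT, hTd⟩ := exists_sym (d + d) A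
  set M : Matrix (Fin (d + d)) (Fin (d + d)) k := sylvester (pol F 0) (pol F 1) d d with hM
  set M' : Matrix (Fin (d + d)) (Fin (d + d)) k :=
    sylvester (pol (subs F A) 0) (pol (subs F A) 1) d d with hM'
  set B : Matrix (Fin (d + d)) (Fin (d + d)) k :=
    Matrix.reindex finSumFinEquiv finSumFinEquiv (Matrix.fromBlocks S.transpose 0 0 S.transpose)
    with hB
  have hev : ∀ (X : Fin 2 → k) (i : Fin 2),
      hev d (pol F i) (A.mulVec X) = hev d (pol (subs F A) i) X := by
    intro X i
    rw [← ev_eq_hev, ← ev_eq_hev, ev_subs]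
  have key : T.transpose * M = M' * B := by
    apply mat_ext_mon
    intro X
    rw [← Matrix.vecMul_vecMul, ← Matrix.vecMul_vecMul, Matrix.vecMul_transpose, ← hT]
    funext j
    rw [hM, mon_vecMul_sylvester d d _ _ (pol_natDegree_le F 0) (pol_natDegree_le F 1)]
    rw [Matrix.vecMul, dotProduct, ← finSumFinEquiv.sum_comp, Fintype.sum_sum_type]
    simp only [finSumFinEquiv_apply_left, finSumFinEquiv_apply_right]
    simp only [hM', mon_vecMul_sylvester d d _ _ (pol_natDegree_le (subs F A) 0)
      (pol_natDegree_le (subs F A) 1), Fin.addCases_left, Fin.addCases_right]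
    refine Fin.addCases (fun j₁ => ?_) (fun j₁ => ?_) j
    · rw [Fin.addCases_left, hS, hev]
      have e1 : ∀ i : Fin d, B (Fin.castAdd d i) (Fin.castAdd d j₁) = S j₁ i := by
        intro i
        rw [hB, Matrix.reindex_apply, Matrix.submatrix_apply]
        simp only [finSumFinEquiv_symm_apply_castAdd, finSumFinEquiv_symm_apply_natAdd,
          Matrix.fromBlocks_apply₁₁, Matrix.fromBlocks_apply₁₂, Matrix.fromBlocks_apply₂₁,
          Matrix.fromBlocks_apply₂₂, Matrix.transpose_apply, Matrix.zero_apply]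
      have e2 : ∀ i : Fin d, B (Fin.natAdd d i) (Fin.castAdd d j₁) = 0 := by
        intro i
        rw [hB, Matrix.reindex_apply, Matrix.submatrix_apply]
        simp only [finSumFinEquiv_symm_apply_castAdd, finSumFinEquiv_symm_apply_natAdd,
          Matrix.fromBlocks_apply₁₁, Matrix.fromBlocks_apply₁₂, Matrix.fromBlocks_apply₂₁,
          Matrix.fromBlocks_apply₂₂, Matrix.transpose_apply, Matrix.zero_apply]
      simp only [e1, e2, mul_zero, Finset.sum_const_zero, add_zero]
      rw [Matrix.mulVec, dotProduct, Finset.sum_mul]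
      refine Finset.sum_congr rfl fun i _ => ?_
      ring
    · rw [Fin.addCases_right, hS, hev]
      have e1 : ∀ i : Fin d, B (Fin.castAdd d i) (Fin.natAdd d j₁) = 0 := by
        intro i
        rw [hB, Matrix.reindex_apply, Matrix.submatrix_apply]
        simp only [finSumFinEquiv_symm_apply_castAdd, finSumFinEquiv_symm_apply_natAdd,
          Matrix.fromBlocks_apply₁₁, Matrix.fromBlocks_apply₁₂, Matrix.fromBlocks_apply₂₁,
          Matrix.fromBlocks_apply₂₂, Matrix.transpose_apply, Matrix.zero_apply]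
      have e2 : ∀ i : Fin d, B (Fin.natAdd d i) (Fin.natAdd d j₁) = S j₁ i := by
        intro i
        rw [hB, Matrix.reindex_apply, Matrix.submatrix_apply]
        simp only [finSumFinEquiv_symm_apply_castAdd, finSumFinEquiv_symm_apply_natAdd,
          Matrix.fromBlocks_apply₁₁, Matrix.fromBlocks_apply₁₂, Matrix.fromBlocks_apply₂₁,
          Matrix.fromBlocks_apply₂₂, Matrix.transpose_apply, Matrix.zero_apply]
      simp only [e1, e2, mul_zero, Finset.sum_const_zero, zero_add]
      rw [Matrix.mulVec, dotProduct, Finset.sum_mul]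
      refine Finset.sum_congr rfl fun i _ => ?_
      ring
  have hdet := congrArg Matrix.det key
  rw [Matrix.det_mul, Matrix.det_mul, Matrix.det_transpose, hTd, hB, Matrix.det_reindex_self,
    Matrix.det_fromBlocks_zero₂₁, Matrix.det_transpose, hSd] at hdet
  have hr : res F = M.det := rfl
  have hr' : res (subs F A) = M'.det := rfl
  rw [hr, hr']
  have e1 : (d + d) * (d + d - 1) / 2 = d * (d - 1) + d * d := by
    rcases d with _ | e
    · rfl
    · have : (e + 1 + (e + 1)) * (e + 1 + (e + 1) - 1) = 2 * ((e + 1) * (e + 1 - 1) + (e + 1) * (e + 1)) := by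
        have h1 : e + 1 + (e + 1) - 1 = 2 * e + 1 := by omega
        rw [h1, Nat.add_sub_cancel]
        ring
      rw [this]
      simp
  have e2 : d * (d - 1) / 2 + d * (d - 1) / 2 = d * (d - 1) := by
    have h2 : 2 ∣ d * (d - 1) := (Nat.even_mul_pred_self d).two_dvd
    omega
  rw [e1, ← pow_add, e2, pow_add] at hdet
  have hne : A.det ^ (d * (d - 1)) ≠ 0 := pow_ne_zero _ hA
  apply mul_left_cancel₀ hne
  rw [mul_comm _ M'.det, ← hdet]
  ring

end Pool.Agent.LNG
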