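import Pool.Agent.LNG.RC1
import Pool.Agent.LNG.RC2

/-!
# LNG, RC: the resultant of the conjugate
-/

namespace Pool.Agent.LNG

open Polynomial

variable {k : Type*} [Field k] {d : ℕ}

theorem conj_eq_lin (F : Coef k d) (A : Matrix (Fin 2) (Fin 2) k) :
    conj F A = lin A⁻¹ (subs F A) := rfl

theorem res_conj [Infinite k] (F : Coef k d) {A : Matrix (Fin 2) (Fin 2) k} (hA : A.det ≠ 0) :
    res (conj F A) = A.det ^ (d * (d - 1)) * res F := by
  rw [conj_eq_lin, res_lin, res_subs F hA, Matrix.det_nonsing_inv, Ring.inverse_eq_inv', inv_pow]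
  have h : d * d = d + d * (d - 1) := by
    cases d with
    | zero => rfl
    | succ n => rw [Nat.add_sub_cancel]; ring
  rw [h, pow_add]
  field_simp

end Pool.Agent.LNG
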