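import Pool.Agent.LNG.Est1
import Pool.Agent.LNG.RC

/-!
# LNG, Est3 (difficulty 2): the size of the conjugate

`subs_le`: the coefficients of `(a x + b)^j (c x + e)^(d-j)` are `≤ (σ ‖A‖)^d` (multiplying a polynomial by a linear polynomial gives a sum of 2 terms per
coefficient; `2 ≤ bigM d`; induct on the number of factors), then sum over `j` (`d+1` terms) with weights `F (i,j)`.
`conj_le`: `A⁻¹ = (det A)⁻¹ • adjugate A` (`Matrix.inv_def`), the entries of the adjugate are `±` entries of `A`, a sum of two terms.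
`rr_conj_le`: take logarithms; `res (conj F A) = det(A)^{d(d-1)} res F` (`res_conj`).
`rr_smul`, `rr_ge`: `res_smul`, `cn_smul`, `res_le`.
-/

namespace Pool.Agent.LNG

open Polynomial

variable {k : Type*} [Field k] {d : ℕ}

theorem Est3_bigM (d : ℕ) : 4 * d + 4 ≤ bigM d := Nat.self_le_factorial _

theorem Est3_mul_linear {v : AbsoluteValue k ℝ} {σ : ℝ} (hσ : SumBound v (bigM d) σ) {P : k[X]}
    {B M : ℝ} (hB : 0 ≤ B) (hM : 0 ≤ M) (hP : ∀ n, v (P.coeff n) ≤ B) {a b : k} (ha : v a ≤ M)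
    (hb : v b ≤ M) (n : ℕ) : v ((P * (C a * X + C b)).coeff n) ≤ B * (σ * M) := by
  have hd := Est3_bigM d
  have hσ0 : 0 ≤ σ := le_trans zero_le_one hσ.one_le
  cases n with
  | zero =>
    have h : (P * (C a * X + C b)).coeff 0 = P.coeff 0 * b := by
      simp [mul_coeff_zero]
    rw [h, map_mul]
    calc v (P.coeff 0) * v b ≤ B * M := mul_le_mul (hP 0) hb (v.nonneg _) hB
      _ ≤ B * (σ * M) := by
        refine mul_le_mul_of_nonneg_left ?_ hB
        calc M = 1 * M := (one_mul _).symm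
          _ ≤ σ * M := mul_le_mul_of_nonneg_right hσ.one_le hM
  | succ n =>
    have h : (P * (C a * X + C b)).coeff (n + 1) = ∑ i : Fin 2, ![P.coeff n * a, P.coeff (n + 1) * b] i := by
      rw [Fin.sum_univ_two]
      simp only [Matrix.cons_val_zero, Matrix.cons_val_one]
      rw [mul_add, coeff_add, coeff_mul_C, ← mul_assoc, coeff_mul_X, coeff_mul_C]
    rw [h]
    have h2 := hσ.bound 2 ![P.coeff n * a, P.coeff (n + 1) * b] (B * M) (by omega)
      (mul_nonneg hB hM) (by
        intro i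
        fin_cases i
        · show v (P.coeff n * a) ≤ B * M
          rw [map_mul]
          exact mul_le_mul (hP n) ha (v.nonneg _) hB
        · show v (P.coeff (n + 1) * b) ≤ B * M
          rw [map_mul]
          exact mul_le_mul (hP (n + 1)) hb (v.nonneg _) hB)
    calc _ ≤ σ * (B * M) := h2
      _ = B * (σ * M) := by ring

theorem Est3_mul_pow {v : AbsoluteValue k ℝ} {σ : ℝ} (hσ : SumBound v (bigM d) σ) {P : k[X]}
    {B M : ℝ} (hB : 0 ≤ B) (hM : 0 ≤ M) (hP : ∀ n, v (P.coeff n) ≤ B) {a b : k} (ha : v a ≤ M)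
    (hb : v b ≤ M) (m : ℕ) : ∀ n : ℕ, v ((P * (C a * X + C b) ^ m).coeff n) ≤ B * (σ * M) ^ m := by
  have hσ0 : 0 ≤ σ := le_trans zero_le_one hσ.one_le
  induction m with
  | zero => intro n; simpa using hP n
  | succ m ih =>
    intro n
    rw [pow_succ, ← mul_assoc, pow_succ, ← mul_assoc]
    exact Est3_mul_linear hσ (mul_nonneg hB (pow_nonneg (mul_nonneg hσ0 hM) _)) hM ih ha hb n

theorem subs_le {v : AbsoluteValue k ℝ} {σ : ℝ} (hσ : SumBound v (bigM d) σ) (F : Coef k d)
    (A : Matrix (Fin 2) (Fin 2) k) : cn v (subs F A) ≤ σ ^ (d + 1) * mn v A ^ d * cn v F := by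
  have hd := Est3_bigM d
  have hσ0 : 0 ≤ σ := le_trans zero_le_one hσ.one_le
  have hM := mn_nonneg v A
  have hc := cn_nonneg v F
  obtain ⟨p, hp⟩ := exists_cn v (subs F A)
  rw [← hp, subs_eq]
  unfold subsPol
  rw [finsetSum_coeff]
  have h := SumBound.finset hσ (Finset.univ : Finset (Fin (d + 1)))
    (fun j => (C (F (p.1, j)) * ((C (A 0 0) * X + C (A 0 1)) ^ (j : ℕ) *
      (C (A 1 0) * X + C (A 1 1)) ^ (d - (j : ℕ)))).coeff (p.2 : ℕ))
    (cn v F * (σ * mn v A) ^ d) (by rw [Finset.card_univ, Fintype.card_fin]; omega)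
    (by positivity) (by
      intro j _
      rw [coeff_C_mul, map_mul]
      refine mul_le_mul (le_cn v F _) ?_ (v.nonneg _) hc
      have h1 : ∀ n, v (((C (A 0 0) * X + C (A 0 1) : k[X]) ^ (j : ℕ)).coeff n)
          ≤ (σ * mn v A) ^ (j : ℕ) := by
        intro n
        have := Est3_mul_pow hσ (P := 1) (B := 1) zero_le_one hM (by
          intro n
          rw [coeff_one]
          split_ifs <;> simp) (le_mn v A 0 0) (le_mn v A 0 1) (j : ℕ) n
        simpa using this
      have h2 := Est3_mul_pow hσ (by positivity) hM h1 (le_mn v A 1 0) (le_mn v A 1 1)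
        (d - (j : ℕ)) (p.2 : ℕ)
      have hj : (j : ℕ) + (d - (j : ℕ)) = d := by have := j.2; omega
      rw [← pow_add, hj] at h2
      exact h2)
  refine h.trans (le_of_eq ?_)
  rw [mul_pow]
  ring

theorem conj_le {v : AbsoluteValue k ℝ} {σ : ℝ} (hσ : SumBound v (bigM d) σ) (F : Coef k d)
    {A : Matrix (Fin 2) (Fin 2) k} (hA : A.det ≠ 0) :
    v A.det * cn v (conj F A) ≤ σ ^ (d + 2) * mn v A ^ (d + 1) * cn v F := by
  have hd := Est3_bigM d
  have hσ0 : 0 ≤ σ := le_trans zero_le_one hσ.one_le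
  have hM := mn_nonneg v A
  have hc := cn_nonneg v F
  obtain ⟨p, hp⟩ := exists_cn v (conj F A)
  rw [← hp, ← map_mul]
  have h1 : A.det * conj F A p = ∑ l : Fin 2, A.adjugate p.1 l * subs F A (l, p.2) := by
    unfold conj
    rw [Finset.mul_sum]
    refine Finset.sum_congr rfl fun l _ => ?_
    rw [Matrix.inv_def, Ring.inverse_eq_inv', Matrix.smul_apply, smul_eq_mul]
    field_simp
  rw [h1]
  have hadj : ∀ i l : Fin 2, v (A.adjugate i l) ≤ mn v A := by
    intro i l
    rw [Matrix.adjugate_fin_two]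
    fin_cases i <;> fin_cases l <;>
      simp only [Fin.zero_eta, Fin.mk_one, Matrix.of_apply, Matrix.cons_val', Matrix.cons_val_zero,
        Matrix.cons_val_one, Matrix.cons_val_fin_one, v.map_neg] <;> exact le_mn v A _ _
  have h2 := SumBound.finset hσ (Finset.univ : Finset (Fin 2))
    (fun l => A.adjugate p.1 l * subs F A (l, p.2))
    (mn v A * (σ ^ (d + 1) * mn v A ^ d * cn v F))
    (by rw [Finset.card_univ, Fintype.card_fin]; omega) (by positivity) (by
      intro l _
      rw [map_mul]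
      exact mul_le_mul (hadj _ _) ((le_cn v _ _).trans (subs_le hσ F A)) (v.nonneg _) hM)
  refine h2.trans (le_of_eq ?_)
  ring

theorem Est3_ne_zero (hd : 1 ≤ d) {F : Coef k d} (hF : res F ≠ 0) : F ≠ 0 := by
  rintro rfl
  apply hF
  have h := res_smul (0 : k) (0 : Coef k d)
  rw [zero_smul, zero_pow (by omega), zero_mul] at h
  exact h

theorem rr_smul (hd : 1 ≤ d) (v : AbsoluteValue k ℝ) {F : Coef k d} (hF : res F ≠ 0) {c : k} (hc : c ≠ 0) :
    rr v (c • F) = rr v F := by
  have h1 : 0 < cn v F := cn_pos v (Est3_ne_zero hd hF)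
  have h2 : 0 < v c := v.pos hc
  have h3 : 0 < v (res F) := v.pos hF
  unfold rr
  rw [cn_smul, res_smul, map_mul, map_pow, Real.log_mul h2.ne' h1.ne',
    Real.log_mul (pow_pos h2 _).ne' h3.ne', Real.log_pow]
  push_cast
  ring

theorem rr_ge {v : AbsoluteValue k ℝ} {σ : ℝ} (hσ : SumBound v (bigM d) σ) (hd : 1 ≤ d)
    {F : Coef k d} (hF : res F ≠ 0) : - Real.log σ ≤ rr v F := by
  have h1 : 0 < cn v F := cn_pos v (Est3_ne_zero hd hF)
  have h3 : 0 < v (res F) := v.pos hF
  have hσ0 : 0 < σ := lt_of_lt_of_le zero_lt_one hσ.one_le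
  have h := Real.log_le_log h3 (res_le hσ F)
  rw [Real.log_mul hσ0.ne' (pow_pos h1 _).ne', Real.log_pow] at h
  unfold rr
  push_cast at h
  linarith

theorem rr_conj_le [Infinite k] {v : AbsoluteValue k ℝ} {σ : ℝ} (hσ : SumBound v (bigM d) σ)
    (hd : 1 ≤ d) {F : Coef k d} (hF : res F ≠ 0) {A : Matrix (Fin 2) (Fin 2) k} (hA : A.det ≠ 0) :
    rr v (conj F A) ≤ rr v F + ((d : ℝ) ^ 2 + d) * (2 * Real.log (mn v A) - Real.log (v A.det))
      + 2 * d * (d + 2) * Real.log σ := by
  have h1 : 0 < cn v F := cn_pos v (Est3_ne_zero hd hF)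
  have h3 : 0 < v (res F) := v.pos hF
  have hdet : 0 < v A.det := v.pos hA
  have hM : 0 < mn v A := mn_pos v hA
  have hσ0 : 0 < σ := lt_of_lt_of_le zero_lt_one hσ.one_le
  have hres := res_conj F hA
  have hF' : res (conj F A) ≠ 0 := by
    rw [hres]
    exact mul_ne_zero (pow_ne_zero _ hA) hF
  have h1' : 0 < cn v (conj F A) := cn_pos v (Est3_ne_zero hd hF')
  have h4 := Real.log_le_log (mul_pos hdet h1') (conj_le hσ F hA)
  rw [Real.log_mul hdet.ne' h1'.ne', Real.log_mul (by positivity) h1.ne',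
    Real.log_mul (by positivity) (by positivity), Real.log_pow, Real.log_pow] at h4
  unfold rr
  rw [hres, map_mul, map_pow, Real.log_mul (pow_pos hdet _).ne' h3.ne', Real.log_pow]
  have hcast : ((d * (d - 1) : ℕ) : ℝ) = (d : ℝ) * (d - 1) := by
    rw [Nat.cast_mul, Nat.cast_sub hd, Nat.cast_one]
  rw [hcast]
  push_cast at h4
  have hd0 : (0 : ℝ) ≤ 2 * d := by positivity
  have h5 := mul_le_mul_of_nonneg_left h4 hd0
  nlinarith [h5]

theorem rr_map {L : Type*} [Field L] (ι : k →+* L) (w : AbsoluteValue L ℝ) (v : AbsoluteValue k ℝ)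
    (h : ∀ x, w (ι x) = v x) (F : Coef k d) : rr w (mapC ι F) = rr v F := by
  unfold rr
  rw [cn_map ι w v h, res_map, h]

end Pool.Agent.LNG
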