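import Mathlib

/-!
# LNG, Seq (difficulty 1): a sequence lemma

`|a_{n+1} - d a_n|` bounded (one-sided constants) implies `a_n / d^n → L` and two-sided bounds with the one-sided constants.
Proof. `b_n = a_n/d^n + c₂... `: `a_n/d^n + U/((d-1)d^n)` is nonincreasing: `a_{n+1}/d^{n+1} + U/((d-1)d^{n+1}) ≤ a_n/d^n + U/d^{n+1} + U/((d-1)d^{n+1})
= a_n/d^n + U/((d-1)d^n)`; similarly `a_n/d^n - Lw/((d-1)d^n)` is nondecreasing; both sequences are bounded by each other (`U + Lw ≥ 0`), so they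
converge to the same limit (difference `→ 0`). Mathlib: `tendsto_atTop_ciInf`/`tendsto_atTop_ciSup` for monotone bounded sequences, or a Cauchy
estimate `cauchySeq_of_le_geometric`.
-/

namespace Pool.Agent.LNG

theorem seq_lemma {d : ℝ} (hd : 1 < d) {a : ℕ → ℝ} {Lw U : ℝ}
    (h1 : ∀ n, a (n + 1) ≤ d * a n + U) (h2 : ∀ n, d * a n - Lw ≤ a (n + 1)) :
    ∃ l : ℝ, Filter.Tendsto (fun n => a n / d ^ n) Filter.atTop (nhds l) ∧
      (∀ n, a n ≤ d ^ n * l + Lw / (d - 1)) ∧ (∀ n, d ^ n * l ≤ a n + U / (d - 1)) := by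
  have hd0 : 0 < d := by linarith
  have hd1 : 0 < d - 1 := by linarith
  obtain ⟨A, hA⟩ : ∃ A, A = U / (d - 1) := ⟨_, rfl⟩
  obtain ⟨B, hB⟩ : ∃ B, B = Lw / (d - 1) := ⟨_, rfl⟩
  have hUA : U = (d - 1) * A := by rw [hA]; field_simp
  have hLB : Lw = (d - 1) * B := by rw [hB]; field_simp
  rw [← hA, ← hB]
  have hAB : 0 ≤ A + B := by
    have h3 : 0 ≤ U + Lw := by
      have := h1 0
      have := h2 0
      linarith
    rw [hUA, hLB] at h3
    have h4 : 0 ≤ (d - 1) * (A + B) := by linarith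
    exact nonneg_of_mul_nonneg_right h4 hd1
  have hpos : ∀ n : ℕ, 0 < d ^ n := fun n => pow_pos hd0 n
  obtain ⟨b, hbdef⟩ : ∃ b : ℕ → ℝ, b = fun n => (a n + A) / d ^ n := ⟨_, rfl⟩
  obtain ⟨c, hcdef⟩ : ∃ c : ℕ → ℝ, c = fun n => (a n - B) / d ^ n := ⟨_, rfl⟩
  have hb : Antitone b := by
    apply antitone_nat_of_succ_le
    intro n
    rw [hbdef]
    show (a (n + 1) + A) / d ^ (n + 1) ≤ (a n + A) / d ^ n
    rw [div_le_div_iff₀ (hpos _) (hpos _), pow_succ]
    have h3 : a (n + 1) + A ≤ d * (a n + A) := by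
      have := h1 n
      rw [hUA] at this
      linarith
    calc (a (n + 1) + A) * d ^ n ≤ d * (a n + A) * d ^ n :=
          mul_le_mul_of_nonneg_right h3 (hpos n).le
      _ = (a n + A) * (d ^ n * d) := by ring
  have hc : Monotone c := by
    apply monotone_nat_of_le_succ
    intro n
    rw [hcdef]
    show (a n - B) / d ^ n ≤ (a (n + 1) - B) / d ^ (n + 1)
    rw [div_le_div_iff₀ (hpos _) (hpos _), pow_succ]
    have h3 : d * (a n - B) ≤ a (n + 1) - B := by
      have := h2 n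
      rw [hLB] at this
      linarith
    calc (a n - B) * (d ^ n * d) = d * (a n - B) * d ^ n := by ring
      _ ≤ (a (n + 1) - B) * d ^ n := mul_le_mul_of_nonneg_right h3 (hpos n).le
  have hcb : ∀ n, c n ≤ b n := by
    intro n
    rw [hbdef, hcdef]
    show (a n - B) / d ^ n ≤ (a n + A) / d ^ n
    exact div_le_div_of_nonneg_right (by linarith) (hpos n).le
  have hbd : BddBelow (Set.range b) :=
    ⟨c 0, by rintro _ ⟨n, rfl⟩; exact (hc (Nat.zero_le n)).trans (hcb n)⟩
  have hbt : Filter.Tendsto b Filter.atTop (nhds (⨅ n, b n)) := tendsto_atTop_ciInf hb hbd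
  have hpow : Filter.Tendsto (fun n : ℕ => (d ^ n)⁻¹) Filter.atTop (nhds 0) :=
    tendsto_inv_atTop_zero.comp (tendsto_pow_atTop_atTop_of_one_lt hd)
  refine ⟨⨅ n, b n, ?_, ?_, ?_⟩
  · have h3 : (fun n => a n / d ^ n) = fun n => b n - A * (d ^ n)⁻¹ := by
      funext n
      rw [hbdef]
      show a n / d ^ n = (a n + A) / d ^ n - A * (d ^ n)⁻¹
      rw [add_div, div_eq_mul_inv A]
      ring
    rw [h3]
    simpa using hbt.sub (hpow.const_mul A)
  · intro n
    have hct : Filter.Tendsto c Filter.atTop (nhds (⨅ n, b n)) := by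
      have h3 : c = fun n => b n - (A + B) * (d ^ n)⁻¹ := by
        funext n
        rw [hbdef, hcdef]
        show (a n - B) / d ^ n = (a n + A) / d ^ n - (A + B) * (d ^ n)⁻¹
        rw [div_eq_mul_inv, div_eq_mul_inv]
        ring
      rw [h3]
      simpa using hbt.sub (hpow.const_mul (A + B))
    have h4 : c n ≤ ⨅ n, b n := hc.ge_of_tendsto hct n
    rw [hcdef] at h4
    have h5 : a n - B ≤ (⨅ n, b n) * d ^ n := (div_le_iff₀ (hpos n)).1 h4
    linarith
  · intro n
    have h4 : (⨅ n, b n) ≤ b n := ciInf_le hbd n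
    have h5 : (⨅ n, b n) * d ^ n ≤ a n + A := by
      rw [← le_div_iff₀ (hpos n)]
      calc (⨅ n, b n) ≤ b n := h4
        _ = (a n + A) / d ^ n := by rw [hbdef]
    linarith

end Pool.Agent.LNG
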