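import Pool.Agent.LNG.Est2
import Pool.Agent.LNG.Est3
import Pool.Agent.LNG.Seq

/-!
# LNG, Gre (difficulty 1-2): the escape rate

`G_spec`: apply `seq_lemma` (real `d > 1`) to `a n = log ‖F^n(X)‖` with `U = log σ + log ‖F‖`, `Lw = 2 log σ + (2d-1) log ‖F‖ - log |Res F|` (from `ev_le`,
`ev_ge`, all norms are positive: `ev_ne_zero`, `vn_pos`, `cn_pos`), `Function.iterate_succ_apply'`; the limit is `G v F X` by
`Filter.Tendsto.limUnder_eq`. Then the two bounds.
-/

namespace Pool.Agent.LNG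

open Polynomial

variable {k : Type*} [Field k] {d : ℕ}

theorem iter_ne_zero (hd : 1 ≤ d) {F : Coef k d} (hF : res F ≠ 0) {X : Fin 2 → k} (hX : X ≠ 0)
    (n : ℕ) : (ev F)^[n] X ≠ 0 := by
  induction n with
  | zero => exact hX
  | succ n ih =>
    rw [Function.iterate_succ_apply']
    exact ev_ne_zero hd hF ih

theorem G_spec {v : AbsoluteValue k ℝ} {σ : ℝ} (hσ : SumBound v (bigM d) σ) (hd : 2 ≤ d)
    {F : Coef k d} (hF : res F ≠ 0) {X : Fin 2 → k} (hX : X ≠ 0) :
    Filter.Tendsto (fun n : ℕ => Real.log (vn v ((ev F)^[n] X)) / (d : ℝ) ^ n) Filter.atTop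
        (nhds (G v F X)) ∧
      (∀ n : ℕ, Real.log (vn v ((ev F)^[n] X)) ≤ (d : ℝ) ^ n * G v F X +
        (2 * Real.log σ + (2 * d - 1) * Real.log (cn v F) - Real.log (v (res F))) / (d - 1)) ∧
      (∀ n : ℕ, (d : ℝ) ^ n * G v F X ≤ Real.log (vn v ((ev F)^[n] X)) +
        (Real.log σ + Real.log (cn v F)) / (d - 1)) := by
  have hd1 : 1 ≤ d := by omega
  have hσ0 : 0 < σ := lt_of_lt_of_le one_pos hσ.one_le
  have hF0 : F ≠ 0 := ne_zero_of_res hd1 hF
  have hcn : 0 < cn v F := cn_pos v hF0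
  have hres : 0 < v (res F) := v.pos hF
  have hdR : (1 : ℝ) < (d : ℝ) := by
    have : (2 : ℝ) ≤ (d : ℝ) := by exact_mod_cast hd
    linarith
  have hpos : ∀ n : ℕ, 0 < vn v ((ev F)^[n] X) := fun n => vn_pos v (iter_ne_zero hd1 hF hX n)
  have h1 : ∀ n : ℕ, Real.log (vn v ((ev F)^[n + 1] X)) ≤
      (d : ℝ) * Real.log (vn v ((ev F)^[n] X)) + (Real.log σ + Real.log (cn v F)) := by
    intro n
    rw [Function.iterate_succ_apply']
    have hp' : 0 < vn v (ev F ((ev F)^[n] X)) := by
      have := hpos (n + 1)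
      rwa [Function.iterate_succ_apply'] at this
    have h := Real.log_le_log hp' (ev_le hσ F ((ev F)^[n] X))
    rw [Real.log_mul (by positivity) (by have := hpos n; positivity),
      Real.log_mul hσ0.ne' hcn.ne', Real.log_pow] at h
    linarith
  have h2 : ∀ n : ℕ, (d : ℝ) * Real.log (vn v ((ev F)^[n] X)) -
      (2 * Real.log σ + (2 * d - 1) * Real.log (cn v F) - Real.log (v (res F))) ≤
      Real.log (vn v ((ev F)^[n + 1] X)) := by
    intro n
    rw [Function.iterate_succ_apply']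
    have hp' : 0 < vn v (ev F ((ev F)^[n] X)) := by
      have := hpos (n + 1)
      rwa [Function.iterate_succ_apply'] at this
    have hpn := hpos n
    have h := Real.log_le_log (by positivity) (ev_ge hσ hd1 F ((ev F)^[n] X))
    rw [Real.log_mul hres.ne' (by positivity), Real.log_mul (by positivity) hp'.ne',
      Real.log_mul (by positivity) (by positivity), Real.log_pow, Real.log_pow, Real.log_pow] at h
    have hc : ((2 * d - 1 : ℕ) : ℝ) = 2 * d - 1 := by
      rw [Nat.cast_sub (by omega)]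
      push_cast
      ring
    rw [hc] at h
    push_cast at h
    linarith
  obtain ⟨l, hl, hA, hB⟩ := seq_lemma hdR (a := fun n : ℕ => Real.log (vn v ((ev F)^[n] X))) h1 h2
  have hG : G v F X = l := by
    unfold G
    exact hl.limUnder_eq
  rw [hG]
  exact ⟨hl, hA, hB⟩

end Pool.Agent.LNG
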