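import Pool.Agent.LNG.Bak0
import Pool.Agent.LNG.Gre

/-!
# LNG, Bak (difficulty 2): the Baker type inequality (B)

`‖F‖ = 1`, `r = rr v F = -log|Res F|`, `l = log σ`, `N = d^K`, `p i ∧ p j ≠ 0`:
`Σ_{i<j} log|p_i ∧ p_j| ≤ N²(r+l)/(2d(d-1)) + (N-1) Σ G(p_i) + N log N + N K (r+2l)`.
Proof: logarithm of `det_bound` (all factors positive), with
`(d-1) Σ_{m<K} log ‖F^m(p_i)‖ ≤ (d-1) Σ_{m<K} (d^m G(p_i) + (r+2l)/(d-1)) = (d^K-1) G(p_i) + K (r+2l)` (`G_spec` with `log (cn v F) = 0`, `geom_sum`),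
`E_K r ≤ E_K (r+l) ≤ N²(r+l)/(2d(d-1))` (`rr_ge`: `r + l ≥ 0`; `E_le`), `log N! ≤ N log N`.
If `K = 0` then `N = 1`, and the left side is `0`, fine. Note `p i ≠ 0`: if `N ≥ 2` it follows from `wd ≠ 0`, for `N = 1` (`K = 0`) the claim is
`0 ≤ (r+l)/(2d(d-1))`; so the hypothesis `hp0` is given to avoid cases. Start with `subst hN`.
-/

namespace Pool.Agent.LNG

open Polynomial

variable {k : Type*} [Field k] {d : ℕ}

theorem baker {v : AbsoluteValue k ℝ} {σ : ℝ} (hσ : SumBound v (bigM d) σ) (hd : 2 ≤ d)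
    {F : Coef k d} (hF : res F ≠ 0) (hcn : cn v F = 1) (K N : ℕ) (hN : N = d ^ K)
    (p : Fin N → Fin 2 → k) (hp0 : ∀ i, p i ≠ 0) (hp : ∀ i j, i < j → wd (p i) (p j) ≠ 0) :
    ∑ i, ∑ j ∈ Finset.Ioi i, Real.log (v (wd (p i) (p j))) ≤
      ((d : ℝ) ^ K) ^ 2 * (rr v F + Real.log σ) / (2 * d * (d - 1)) +
      ((d : ℝ) ^ K - 1) * ∑ i, G v F (p i) + (d : ℝ) ^ K * Real.log ((d : ℝ) ^ K) +
      (d : ℝ) ^ K * K * (rr v F + 2 * Real.log σ) := by
  subst hN
  have hd1 : 1 ≤ d := by omega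
  have hdR : (1 : ℝ) < (d : ℝ) := by exact_mod_cast (by omega : 1 < d)
  have hd0 : (0 : ℝ) < (d : ℝ) := by linarith
  have hdm : (0 : ℝ) < (d : ℝ) - 1 := by linarith
  have hl0 : 0 ≤ Real.log σ := Real.log_nonneg hσ.one_le
  have hres : 0 < v (res F) := v.pos hF
  have hr : rr v F = - Real.log (v (res F)) := by
    unfold rr
    rw [hcn, Real.log_one]
    ring
  have hrl : 0 ≤ rr v F + Real.log σ := by linarith [rr_ge hσ hd1 hF]
  have hvn : ∀ i m, 0 < vn v ((ev F)^[m] (p i)) := fun i m => vn_pos v (iter_ne_zero hd1 hF (hp0 i) m)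
  have hwd : ∀ i, ∀ j ∈ Finset.Ioi i, v (wd (p i) (p j)) ≠ 0 := fun i j hj =>
    (v.pos (hp i j (Finset.mem_Ioi.mp hj))).ne'
  have hb := det_bound hd1 v F K p
  have hLpos : 0 < v (res F) ^ E d K * ∏ i, ∏ j ∈ Finset.Ioi i, v (wd (p i) (p j)) := by
    refine mul_pos (pow_pos hres _) (Finset.prod_pos fun i _ => Finset.prod_pos fun j hj => ?_)
    exact v.pos (hp i j (Finset.mem_Ioi.mp hj))
  have hlog := Real.log_le_log hLpos hb
  have hP1 : (∏ i, ∏ j ∈ Finset.Ioi i, v (wd (p i) (p j))) ≠ 0 :=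
    Finset.prod_ne_zero_iff.mpr fun i _ => Finset.prod_ne_zero_iff.mpr fun j hj => hwd i j hj
  have hP2 : (∏ i, ∏ m ∈ Finset.range K, vn v ((ev F)^[m] (p i)) ^ (d - 1)) ≠ 0 :=
    Finset.prod_ne_zero_iff.mpr fun i _ => Finset.prod_ne_zero_iff.mpr fun m _ =>
      pow_ne_zero _ (hvn i m).ne'
  have hfac0 : ((Nat.factorial (d ^ K) : ℕ) : ℝ) ≠ 0 := by
    exact_mod_cast Nat.factorial_ne_zero _
  rw [Real.log_mul (pow_ne_zero _ hres.ne') hP1, Real.log_pow,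
    Real.log_prod (fun i _ => Finset.prod_ne_zero_iff.mpr fun j hj => hwd i j hj),
    Real.log_mul hfac0 hP2,
    Real.log_prod (fun i _ => Finset.prod_ne_zero_iff.mpr fun m _ =>
      pow_ne_zero _ (hvn i m).ne')] at hlog
  have hL : ∀ i, Real.log (∏ j ∈ Finset.Ioi i, v (wd (p i) (p j))) =
      ∑ j ∈ Finset.Ioi i, Real.log (v (wd (p i) (p j))) := fun i =>
    Real.log_prod (fun j hj => hwd i j hj)
  have hR : ∀ i, Real.log (∏ m ∈ Finset.range K, vn v ((ev F)^[m] (p i)) ^ (d - 1)) ≤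
      ((d : ℝ) ^ K - 1) * G v F (p i) + K * (rr v F + 2 * Real.log σ) := by
    intro i
    rw [Real.log_prod (fun m _ => pow_ne_zero _ (hvn i m).ne')]
    have h1 : ∀ m ∈ Finset.range K, Real.log (vn v ((ev F)^[m] (p i)) ^ (d - 1)) ≤
        (d : ℝ) ^ m * ((d - 1) * G v F (p i)) + (rr v F + 2 * Real.log σ) := by
      intro m _
      have h2 := (G_spec hσ hd hF (hp0 i)).2.1 m
      rw [hcn, Real.log_one, mul_zero, add_zero] at h2
      have h3 := mul_le_mul_of_nonneg_left h2 hdm.le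
      rw [Real.log_pow, Nat.cast_sub hd1, Nat.cast_one]
      refine h3.trans (le_of_eq ?_)
      rw [hr]
      field_simp
      ring
    refine (Finset.sum_le_sum h1).trans (le_of_eq ?_)
    rw [Finset.sum_add_distrib, ← Finset.sum_mul, geom_sum_eq hdR.ne', Finset.sum_const,
      Finset.card_range, nsmul_eq_mul]
    field_simp
  have hE : - ((E d K : ℝ) * Real.log (v (res F))) ≤
      ((d : ℝ) ^ K) ^ 2 * (rr v F + Real.log σ) / (2 * d * (d - 1)) := by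
    have hE1 := E_le hd K
    have hD : (0 : ℝ) < 2 * d * (d - 1) := by positivity
    have hE2 : (E d K : ℝ) ≤ ((d : ℝ) ^ K) ^ 2 / (2 * d * (d - 1)) := by
      rw [le_div_iff₀ hD]
      exact hE1
    calc - ((E d K : ℝ) * Real.log (v (res F))) = (E d K : ℝ) * rr v F := by rw [hr]; ring
      _ ≤ (E d K : ℝ) * (rr v F + Real.log σ) := by
        have : (0 : ℝ) ≤ (E d K : ℝ) := Nat.cast_nonneg _
        nlinarith
      _ ≤ ((d : ℝ) ^ K) ^ 2 / (2 * d * (d - 1)) * (rr v F + Real.log σ) :=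
        mul_le_mul_of_nonneg_right hE2 hrl
      _ = _ := by ring
  have hfac : Real.log ((Nat.factorial (d ^ K) : ℕ) : ℝ) ≤
      (d : ℝ) ^ K * Real.log ((d : ℝ) ^ K) := by
    have h1 : Nat.factorial (d ^ K) ≤ (d ^ K) ^ (d ^ K) := Nat.factorial_le_pow _
    have h2 : ((Nat.factorial (d ^ K) : ℕ) : ℝ) ≤ ((d : ℝ) ^ K) ^ (d ^ K) := by
      exact_mod_cast h1
    have h3 := Real.log_le_log (by exact_mod_cast Nat.factorial_pos _) h2
    rw [Real.log_pow] at h3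
    push_cast at h3
    exact h3
  have hsum := Finset.sum_le_sum (fun i (_ : i ∈ (Finset.univ : Finset (Fin (d ^ K)))) => hR i)
  rw [Finset.sum_add_distrib, ← Finset.mul_sum, Finset.sum_const, Finset.card_univ,
    Fintype.card_fin, nsmul_eq_mul] at hsum
  push_cast at hsum
  simp only [hL] at hlog
  linarith

end Pool.Agent.LNG
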