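import Pool.Agent.LNG.TMat

/-!
# LNG, Bak0 (difficulty 2): the determinant inequality

For `N = d^K` vectors `p i`: `|Res F|^{E_K} ∏_{i<j} |p_i ∧ p_j| ≤ N! ∏_i ∏_{m<K} ‖F^m(p_i)‖^{d-1}`.
Proof. `T` from `exists_T`. Let `W i l = (T.mulVec (mon N (p i))) l`, i.e. `W = (of fun i => mon N (p i)) * Tᵀ`, so `det W = det T * ∏∏ wd (p j) (p i)`
(`det_mon`), and `v (det T) = v (res F)^{E_K}` from the squares. Leibniz (`Matrix.det_apply` or `Matrix.det_apply'`): `v (det W) ≤ Σ_σ ∏_i v (W (σ i) i)`, choose the form in which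
row index `i` of `p i` appears once in every product, so every product is `≤ ∏_i b_i`, `b_i = ∏_{m<K} ‖F^m(p_i)‖^{d-1}`.
-/

namespace Pool.Agent.LNG

open Polynomial

variable {k : Type*} [Field k] {d : ℕ}

theorem Bak0_leibniz (v : AbsoluteValue k ℝ) {N : ℕ} (W : Matrix (Fin N) (Fin N) k)
    (b : Fin N → ℝ) (hb : ∀ i l, v (W i l) ≤ b i) :
    v W.det ≤ (Nat.factorial N : ℝ) * ∏ i, b i := by
  rw [Matrix.det_apply]
  refine (v.sum_le _ _).trans ?_
  have h1 : ∀ σ : Equiv.Perm (Fin N),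
      v (Equiv.Perm.sign σ • ∏ i, W (σ i) i) ≤ ∏ i, b i := by
    intro σ
    have h2 : v (Equiv.Perm.sign σ • ∏ i, W (σ i) i) = ∏ i, v (W (σ i) i) := by
      rcases Int.units_eq_one_or (Equiv.Perm.sign σ) with h | h
      · rw [h, one_smul, map_prod]
      · rw [h, Units.neg_smul, one_smul, v.map_neg, map_prod]
    rw [h2]
    calc ∏ i, v (W (σ i) i) ≤ ∏ i, b (σ i) :=
          Finset.prod_le_prod (fun i _ => v.nonneg _) (fun i _ => hb _ _)
      _ = ∏ i, b i := Equiv.prod_comp σ b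
  calc ∑ σ : Equiv.Perm (Fin N), v (Equiv.Perm.sign σ • ∏ i, W (σ i) i)
      ≤ ∑ _σ : Equiv.Perm (Fin N), ∏ i, b i := Finset.sum_le_sum fun σ _ => h1 σ
    _ = (Nat.factorial N : ℝ) * ∏ i, b i := by
      rw [Finset.sum_const, Finset.card_univ, Fintype.card_perm, Fintype.card_fin, nsmul_eq_mul]

theorem det_bound (hd : 1 ≤ d) (v : AbsoluteValue k ℝ) (F : Coef k d) (K : ℕ)
    (p : Fin (d ^ K) → Fin 2 → k) :
    v (res F) ^ E d K * ∏ i, ∏ j ∈ Finset.Ioi i, v (wd (p i) (p j)) ≤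
      (Nat.factorial (d ^ K) : ℝ) *
        ∏ i, ∏ m ∈ Finset.range K, vn v ((ev F)^[m] (p i)) ^ (d - 1) := by
  obtain ⟨T, hT, hTb⟩ := exists_T hd F K
  have hW : ∀ i l, v (((Matrix.of fun i => mon (d ^ K) (p i)) * T.transpose) i l) ≤
      ∏ m ∈ Finset.range K, vn v ((ev F)^[m] (p i)) ^ (d - 1) := by
    intro i l
    have h : ((Matrix.of fun i => mon (d ^ K) (p i)) * T.transpose) i l =
        T.mulVec (mon (d ^ K) (p i)) l := by
      rw [Matrix.mul_apply, Matrix.mulVec, dotProduct]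
      refine Finset.sum_congr rfl fun j _ => ?_
      rw [Matrix.of_apply, Matrix.transpose_apply, mul_comm]
    rw [h]
    exact hTb v (p i) l
  have h1 := Bak0_leibniz v _ _ hW
  rw [Matrix.det_mul, det_mon, Matrix.det_transpose, map_mul, map_prod] at h1
  have h2 : v T.det = v (res F) ^ E d K := by
    have h3 : (v T.det) ^ 2 = (v (res F) ^ E d K) ^ 2 := by
      rw [← map_pow, hT, map_pow, map_pow]
    exact (pow_left_inj₀ (v.nonneg _) (pow_nonneg (v.nonneg _) _) two_ne_zero).mp h3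
  have h4 : ∀ i, v (∏ j ∈ Finset.Ioi i, wd (p j) (p i)) = ∏ j ∈ Finset.Ioi i, v (wd (p i) (p j)) := by
    intro i
    rw [map_prod]
    refine Finset.prod_congr rfl fun j _ => ?_
    rw [wd_neg_swap, v.map_neg]
  rw [h2, mul_comm] at h1
  simp only [h4] at h1
  exact h1

end Pool.Agent.LNG
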