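import Pool.Agent.LNG.Gre

/-!
# LNG, GrC (difficulty 1-2): the escape rate of a conjugate

`G_conj`: `iter_conj`: `(ev (conj F A))^[n] X = A⁻¹ (F^n (A X))`, and `log ‖A⁻¹ Y‖ - log ‖Y‖` is bounded for `Y ≠ 0` (`vn_mulVec_le` for `A⁻¹` and for `A`, `A (A⁻¹ Y) = Y`), divided by `d^n` it tends to `0`. Uniqueness of
limits (`(G_spec ..).1` for `F` at `A X`; the sequence for `conj F A` then converges to the same limit, and `G v (conj F A) X` is its `limUnder`, `Filter.Tendsto.limUnder_eq`).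
`G_map`: `iter_map`, `vn_map` (equality of the sequences).
-/

namespace Pool.Agent.LNG

open Polynomial

variable {k : Type*} [Field k] {d : ℕ}

private theorem GrC_log_le (v : AbsoluteValue k ℝ) {A : Matrix (Fin 2) (Fin 2) k} (hA : A.det ≠ 0)
    {Y : Fin 2 → k} (hY : Y ≠ 0) :
    Real.log (vn v (A.mulVec Y)) ≤ Real.log (2 * mn v A) + Real.log (vn v Y) := by
  have hAY : A.mulVec Y ≠ 0 := fun h => hY (Matrix.eq_zero_of_mulVec_eq_zero hA h)
  have h1 := vn_mulVec_le v A Y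
  have h2 := vn_pos v hAY
  have h3 := mn_pos v hA
  have h4 := vn_pos v hY
  rw [← Real.log_mul (by positivity) h4.ne']
  exact Real.log_le_log h2 h1

theorem G_conj (v : AbsoluteValue k ℝ) (hd : 2 ≤ d) {F : Coef k d} (hF : res F ≠ 0)
    {X : Fin 2 → k} (hX : X ≠ 0) {A : Matrix (Fin 2) (Fin 2) k} (hA : A.det ≠ 0) :
    G v (conj F A) X = G v F (A.mulVec X) := by
  have hu : IsUnit A.det := isUnit_iff_ne_zero.mpr hA
  have hAX : A.mulVec X ≠ 0 := fun h => hX (Matrix.eq_zero_of_mulVec_eq_zero hA h)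
  have hσ := sumBound_arch v (bigM d) (Nat.succ_le_of_lt (Nat.factorial_pos _))
  have hspec := (G_spec hσ hd hF hAX).1
  have hY : ∀ n, (ev F)^[n] (A.mulVec X) ≠ 0 := iter_ne_zero (by omega) hF hAX
  have hinv : A⁻¹.det ≠ 0 := by
    rw [Matrix.det_nonsing_inv, Ring.inverse_eq_inv']
    exact inv_ne_zero hA
  obtain ⟨Cst, hC⟩ : ∃ Cst : ℝ, Cst = max (Real.log (2 * mn v A⁻¹)) (Real.log (2 * mn v A)) :=
    ⟨_, rfl⟩
  have hbound : ∀ Y : Fin 2 → k, Y ≠ 0 →
      |Real.log (vn v (A⁻¹.mulVec Y)) - Real.log (vn v Y)| ≤ Cst := by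
    intro Y hY0
    have hAY : A⁻¹.mulVec Y ≠ 0 := fun h => hY0 (Matrix.eq_zero_of_mulVec_eq_zero hinv h)
    have h1 := GrC_log_le v hinv hY0
    have h2 := GrC_log_le v hA hAY
    rw [Matrix.mulVec_mulVec, Matrix.mul_nonsing_inv A hu, Matrix.one_mulVec] at h2
    have h3 : Real.log (2 * mn v A⁻¹) ≤ Cst := hC ▸ le_max_left _ _
    have h4 : Real.log (2 * mn v A) ≤ Cst := hC ▸ le_max_right _ _
    rw [abs_le]
    constructor <;> linarith
  have hd1 : (1 : ℝ) < d := by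
    have : 1 < d := by omega
    exact_mod_cast this
  have hdpos : ∀ n : ℕ, (0 : ℝ) < (d : ℝ) ^ n := fun n => pow_pos (by linarith) n
  have hpow : Filter.Tendsto (fun n : ℕ => ((d : ℝ) ^ n)⁻¹) Filter.atTop (nhds 0) :=
    tendsto_inv_atTop_zero.comp (tendsto_pow_atTop_atTop_of_one_lt hd1)
  have hzero : Filter.Tendsto (fun n : ℕ => (Real.log (vn v (A⁻¹.mulVec ((ev F)^[n] (A.mulVec X)))) -
      Real.log (vn v ((ev F)^[n] (A.mulVec X)))) / (d : ℝ) ^ n) Filter.atTop (nhds 0) := by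
    rw [tendsto_zero_iff_abs_tendsto_zero]
    have h0 : Filter.Tendsto (fun n : ℕ => Cst * ((d : ℝ) ^ n)⁻¹) Filter.atTop (nhds 0) := by
      simpa using hpow.const_mul Cst
    refine squeeze_zero (fun n => abs_nonneg _) (fun n => ?_) h0
    show |_ / (d : ℝ) ^ n| ≤ _
    rw [abs_div, abs_of_pos (hdpos n), div_eq_mul_inv]
    exact mul_le_mul_of_nonneg_right (hbound _ (hY n)) (inv_nonneg.2 (hdpos n).le)
  have hsum := hspec.add hzero
  rw [add_zero] at hsum
  show Filter.limUnder Filter.atTop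
    (fun n : ℕ => Real.log (vn v ((ev (conj F A))^[n] X)) / (d : ℝ) ^ n) = _
  refine Filter.Tendsto.limUnder_eq (hsum.congr fun n => ?_)
  rw [iter_conj F hA, ← add_div]
  congr 1
  ring

theorem G_map {L : Type*} [Field L] (ι : k →+* L) (w : AbsoluteValue L ℝ) (v : AbsoluteValue k ℝ)
    (h : ∀ x, w (ι x) = v x) (F : Coef k d) (X : Fin 2 → k) : G w (mapC ι F) (mapV ι X) = G v F X := by
  unfold G
  congr 1
  funext n
  rw [iter_map, vn_map ι w v h]

end Pool.Agent.LNG
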