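import Pool.Agent.LNG.GrV
import Pool.Agent.LNG.GrC

/-!
# LNG, GG (difficulty 1): invariance of the local Green function

All from `G_smul`, `G_conj`, `G_smul_vec`, `res_smul`, `res_conj`, `wd_mulVec`, `wd_smul_left`, ... (real arithmetic; `d - 1 ≠ 0`, `d ≠ 0`).
`gg_conj`: `gg (conj F A) U V = G(AU) + G(AV) - log|U∧V| - (1/(d(d-1))) (d(d-1) log|det A| + log|Res F|)` and `AU ∧ AV = det A (U∧V)`.
-/

namespace Pool.Agent.LNG

open Polynomial

variable {k : Type*} [Field k] {d : ℕ}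

theorem left_ne_zero_of_wd {X Y : Fin 2 → k} (h : wd X Y ≠ 0) : X ≠ 0 := by
  rintro rfl
  exact h (by simp [wd])

theorem right_ne_zero_of_wd {X Y : Fin 2 → k} (h : wd X Y ≠ 0) : Y ≠ 0 := by
  rintro rfl
  exact h (by simp [wd])

theorem gg_smul (v : AbsoluteValue k ℝ) (hd : 2 ≤ d) {F : Coef k d} (hF : res F ≠ 0)
    {X Y : Fin 2 → k} (hXY : wd X Y ≠ 0) {c : k} (hc : c ≠ 0) :
    gg v (c • F) X Y = gg v F X Y := by
  unfold gg
  have hvc : v c ≠ 0 := v.ne_zero hc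
  have hvr : v (res F) ≠ 0 := v.ne_zero hF
  have hd0 : (d : ℝ) ≠ 0 := by
    have : d ≠ 0 := by omega
    exact_mod_cast this
  have hd1 : (d : ℝ) - 1 ≠ 0 := by
    have h1 : (2 : ℝ) ≤ d := by exact_mod_cast hd
    linarith
  rw [G_smul v hd hF (left_ne_zero_of_wd hXY) hc, G_smul v hd hF (right_ne_zero_of_wd hXY) hc,
    res_smul, map_mul, map_pow, Real.log_mul (pow_ne_zero _ hvc) hvr, Real.log_pow]
  push_cast
  field_simp
  ring

theorem gg_conj [Infinite k] (v : AbsoluteValue k ℝ) (hd : 2 ≤ d) {F : Coef k d} (hF : res F ≠ 0)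
    {U V : Fin 2 → k} (hUV : wd U V ≠ 0) {A : Matrix (Fin 2) (Fin 2) k} (hA : A.det ≠ 0) :
    gg v (conj F A) U V = gg v F (A.mulVec U) (A.mulVec V) := by
  unfold gg
  have hvA : v A.det ≠ 0 := v.ne_zero hA
  have hvr : v (res F) ≠ 0 := v.ne_zero hF
  have hvU : v (wd U V) ≠ 0 := v.ne_zero hUV
  have hd0 : (d : ℝ) ≠ 0 := by
    have : d ≠ 0 := by omega
    exact_mod_cast this
  have hd1 : (d : ℝ) - 1 ≠ 0 := by
    have h1 : (2 : ℝ) ≤ d := by exact_mod_cast hd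
    linarith
  have hcast : ((d * (d - 1) : ℕ) : ℝ) = (d : ℝ) * ((d : ℝ) - 1) := by
    rw [Nat.cast_mul, Nat.cast_sub (by omega), Nat.cast_one]
  rw [G_conj v hd hF (left_ne_zero_of_wd hUV) hA, G_conj v hd hF (right_ne_zero_of_wd hUV) hA,
    res_conj F hA, wd_mulVec, map_mul, map_mul, map_pow, Real.log_mul (pow_ne_zero _ hvA) hvr,
    Real.log_mul hvA hvU, Real.log_pow, hcast]
  field_simp
  ring

theorem gg_comm (v : AbsoluteValue k ℝ) (F : Coef k d) (X Y : Fin 2 → k) :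
    gg v F X Y = gg v F Y X := by
  unfold gg
  rw [wd_neg_swap Y X, AbsoluteValue.map_neg]
  ring

theorem gg_smul_left (v : AbsoluteValue k ℝ) (hd : 2 ≤ d) {F : Coef k d} (hF : res F ≠ 0)
    {X Y : Fin 2 → k} (hXY : wd X Y ≠ 0) {c : k} (hc : c ≠ 0) :
    gg v F (c • X) Y = gg v F X Y := by
  unfold gg
  have hvc : v c ≠ 0 := v.ne_zero hc
  have hvU : v (wd X Y) ≠ 0 := v.ne_zero hXY
  rw [G_smul_vec v hd hF (left_ne_zero_of_wd hXY) hc, wd_smul_left, map_mul,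
    Real.log_mul hvc hvU]
  ring

theorem gg_smul_right (v : AbsoluteValue k ℝ) (hd : 2 ≤ d) {F : Coef k d} (hF : res F ≠ 0)
    {X Y : Fin 2 → k} (hXY : wd X Y ≠ 0) {c : k} (hc : c ≠ 0) :
    gg v F X (c • Y) = gg v F X Y := by
  unfold gg
  have hvc : v c ≠ 0 := v.ne_zero hc
  have hvU : v (wd X Y) ≠ 0 := v.ne_zero hXY
  rw [G_smul_vec v hd hF (right_ne_zero_of_wd hXY) hc, wd_smul_right, map_mul,
    Real.log_mul hvc hvU]
  ring

theorem gg_map {L : Type*} [Field L] (ι : k →+* L) (w : AbsoluteValue L ℝ) (v : AbsoluteValue k ℝ)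
    (h : ∀ x, w (ι x) = v x) (F : Coef k d) (X Y : Fin 2 → k) :
    gg w (mapC ι F) (mapV ι X) (mapV ι Y) = gg v F X Y := by
  unfold gg
  rw [G_map ι w v h, G_map ι w v h, wd_map, res_map, h, h]

end Pool.Agent.LNG
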