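import Pool.Agent.LNG.Bak0
import Pool.Agent.LNG.GG

/-!
# LNG, BakN: the Baker inequality for nonarchimedean absolute values, without constants

`Σ_{i<j} g(p_i, p_j) ≥ - N (K+1) r(F)`, `N = d^K`.
-/

namespace Pool.Agent.LNG

open Polynomial

variable {k : Type*} [Field k] {d : ℕ}

theorem BakN_sum {v : AbsoluteValue k ℝ} (hv : IsNonarchimedean v) {ι : Type*} (s : Finset ι)
    (f : ι → k) {B : ℝ} (hB : 0 ≤ B) (h : ∀ i ∈ s, v (f i) ≤ B) : v (∑ i ∈ s, f i) ≤ B := by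
  have h1 := (sumBound_nonarch v hv s.card).finset s f B le_rfl hB h
  rwa [one_mul] at h1

theorem BakN_leibniz {v : AbsoluteValue k ℝ} (hv : IsNonarchimedean v) {N : ℕ}
    (W : Matrix (Fin N) (Fin N) k) (b : Fin N → ℝ) (hb : ∀ i l, v (W i l) ≤ b i) :
    v W.det ≤ ∏ i, b i := by
  rw [Matrix.det_apply]
  have hb0 : ∀ i, 0 ≤ b i := fun i => (v.nonneg _).trans (hb i i)
  refine BakN_sum hv _ _ (Finset.prod_nonneg fun i _ => hb0 i) fun σ _ => ?_
  have h2 : v (Equiv.Perm.sign σ • ∏ i, W (σ i) i) = ∏ i, v (W (σ i) i) := by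
    rcases Int.units_eq_one_or (Equiv.Perm.sign σ) with h | h
    · rw [h, one_smul, map_prod]
    · rw [h, Units.neg_smul, one_smul, v.map_neg, map_prod]
  rw [h2]
  calc ∏ i, v (W (σ i) i) ≤ ∏ i, b (σ i) :=
        Finset.prod_le_prod (fun i _ => v.nonneg _) (fun i _ => hb _ _)
    _ = ∏ i, b i := Equiv.prod_comp σ b

theorem BakN_det_bound {v : AbsoluteValue k ℝ} (hv : IsNonarchimedean v) (hd : 1 ≤ d)
    (F : Coef k d) (K : ℕ) (p : Fin (d ^ K) → Fin 2 → k) :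
    v (res F) ^ E d K * ∏ i, ∏ j ∈ Finset.Ioi i, v (wd (p i) (p j)) ≤
      ∏ i, ∏ m ∈ Finset.range K, vn v ((ev F)^[m] (p i)) ^ (d - 1) := by
  obtain ⟨T, hT, hTb⟩ := exists_T hd F K
  have hW : ∀ i l, v (((Matrix.of fun i => mon (d ^ K) (p i)) * T.transpose) i l) ≤
      ∏ m ∈ Finset.range K, vn v ((ev F)^[m] (p i)) ^ (d - 1) := by
    intro i l
    have h : ((Matrix.of fun i => mon (d ^ K) (p i)) * T.transpose) i l =
        T.mulVec (mon (d ^ K) (p i)) l := by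
      rw [Matrix.mul_apply, Matrix.mulVec, dotProduct]
      refine Finset.sum_congr rfl fun j _ => ?_
      rw [Matrix.of_apply, Matrix.transpose_apply, mul_comm]
    rw [h]
    exact hTb v (p i) l
  have h1 := BakN_leibniz hv _ _ hW
  rw [Matrix.det_mul, det_mon, Matrix.det_transpose, map_mul, map_prod] at h1
  have h2 : v T.det = v (res F) ^ E d K := by
    have h3 : (v T.det) ^ 2 = (v (res F) ^ E d K) ^ 2 := by
      rw [← map_pow, hT, map_pow, map_pow]
    exact (pow_left_inj₀ (v.nonneg _) (pow_nonneg (v.nonneg _) _) two_ne_zero).mp h3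
  have h4 : ∀ i, v (∏ j ∈ Finset.Ioi i, wd (p j) (p i)) = ∏ j ∈ Finset.Ioi i, v (wd (p i) (p j)) := by
    intro i
    rw [map_prod]
    refine Finset.prod_congr rfl fun j _ => ?_
    rw [wd_neg_swap, v.map_neg]
  rw [h2, mul_comm] at h1
  simp only [h4] at h1
  exact h1

theorem BakN_one {v : AbsoluteValue k ℝ} (hv : IsNonarchimedean v) (hd : 2 ≤ d)
    {F : Coef k d} (hF : res F ≠ 0) (hcn : cn v F = 1) (K : ℕ)
    (p : Fin (d ^ K) → Fin 2 → k) (hp0 : ∀ i, p i ≠ 0) (hp : ∀ i j, i < j → wd (p i) (p j) ≠ 0) :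
    ∑ i, ∑ j ∈ Finset.Ioi i, Real.log (v (wd (p i) (p j))) ≤
      ((d : ℝ) ^ K) ^ 2 * rr v F / (2 * d * (d - 1)) +
      ((d : ℝ) ^ K - 1) * ∑ i, G v F (p i) + (d : ℝ) ^ K * K * rr v F := by
  have hσ : SumBound v (bigM d) 1 := sumBound_nonarch v hv _
  have hd1 : 1 ≤ d := by omega
  have hdR : (1 : ℝ) < (d : ℝ) := by exact_mod_cast (by omega : 1 < d)
  have hd0 : (0 : ℝ) < (d : ℝ) := by linarith
  have hdm : (0 : ℝ) < (d : ℝ) - 1 := by linarith
  have hres : 0 < v (res F) := v.pos hF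
  have hr : rr v F = - Real.log (v (res F)) := by
    unfold rr
    rw [hcn, Real.log_one]
    ring
  have hrl : 0 ≤ rr v F := by
    have := rr_ge hσ hd1 hF
    rwa [Real.log_one, neg_zero] at this
  have hvn : ∀ i m, 0 < vn v ((ev F)^[m] (p i)) := fun i m => vn_pos v (iter_ne_zero hd1 hF (hp0 i) m)
  have hwd : ∀ i, ∀ j ∈ Finset.Ioi i, v (wd (p i) (p j)) ≠ 0 := fun i j hj =>
    (v.pos (hp i j (Finset.mem_Ioi.mp hj))).ne'
  have hb := BakN_det_bound hv hd1 F K p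
  have hLpos : 0 < v (res F) ^ E d K * ∏ i, ∏ j ∈ Finset.Ioi i, v (wd (p i) (p j)) := by
    refine mul_pos (pow_pos hres _) (Finset.prod_pos fun i _ => Finset.prod_pos fun j hj => ?_)
    exact v.pos (hp i j (Finset.mem_Ioi.mp hj))
  have hlog := Real.log_le_log hLpos hb
  have hP1 : (∏ i, ∏ j ∈ Finset.Ioi i, v (wd (p i) (p j))) ≠ 0 :=
    Finset.prod_ne_zero_iff.mpr fun i _ => Finset.prod_ne_zero_iff.mpr fun j hj => hwd i j hj
  rw [Real.log_mul (pow_ne_zero _ hres.ne') hP1, Real.log_pow,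
    Real.log_prod (fun i _ => Finset.prod_ne_zero_iff.mpr fun j hj => hwd i j hj),
    Real.log_prod (fun i _ => Finset.prod_ne_zero_iff.mpr fun m _ =>
      pow_ne_zero _ (hvn i m).ne')] at hlog
  have hL : ∀ i, Real.log (∏ j ∈ Finset.Ioi i, v (wd (p i) (p j))) =
      ∑ j ∈ Finset.Ioi i, Real.log (v (wd (p i) (p j))) := fun i =>
    Real.log_prod (fun j hj => hwd i j hj)
  have hR : ∀ i, Real.log (∏ m ∈ Finset.range K, vn v ((ev F)^[m] (p i)) ^ (d - 1)) ≤
      ((d : ℝ) ^ K - 1) * G v F (p i) + K * rr v F := by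
    intro i
    rw [Real.log_prod (fun m _ => pow_ne_zero _ (hvn i m).ne')]
    have h1 : ∀ m ∈ Finset.range K, Real.log (vn v ((ev F)^[m] (p i)) ^ (d - 1)) ≤
        (d : ℝ) ^ m * ((d - 1) * G v F (p i)) + rr v F := by
      intro m _
      have h2 := (G_spec hσ hd hF (hp0 i)).2.1 m
      rw [hcn, Real.log_one, mul_zero, mul_zero, add_zero] at h2
      have h3 := mul_le_mul_of_nonneg_left h2 hdm.le
      rw [Real.log_pow, Nat.cast_sub hd1, Nat.cast_one]
      refine h3.trans (le_of_eq ?_)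
      rw [hr]
      field_simp
      ring
    refine (Finset.sum_le_sum h1).trans (le_of_eq ?_)
    rw [Finset.sum_add_distrib, ← Finset.sum_mul, geom_sum_eq hdR.ne', Finset.sum_const,
      Finset.card_range, nsmul_eq_mul]
    field_simp
  have hE : - ((E d K : ℝ) * Real.log (v (res F))) ≤
      ((d : ℝ) ^ K) ^ 2 * rr v F / (2 * d * (d - 1)) := by
    have hE1 := E_le hd K
    have hD : (0 : ℝ) < 2 * d * (d - 1) := by positivity
    have hE2 : (E d K : ℝ) ≤ ((d : ℝ) ^ K) ^ 2 / (2 * d * (d - 1)) := by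
      rw [le_div_iff₀ hD]
      exact hE1
    calc - ((E d K : ℝ) * Real.log (v (res F))) = (E d K : ℝ) * rr v F := by rw [hr]; ring
      _ ≤ ((d : ℝ) ^ K) ^ 2 / (2 * d * (d - 1)) * rr v F :=
        mul_le_mul_of_nonneg_right hE2 hrl
      _ = _ := by ring
  have hsum := Finset.sum_le_sum (fun i (_ : i ∈ (Finset.univ : Finset (Fin (d ^ K)))) => hR i)
  rw [Finset.sum_add_distrib, ← Finset.mul_sum, Finset.sum_const, Finset.card_univ,
    Fintype.card_fin, nsmul_eq_mul] at hsum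
  push_cast at hsum
  simp only [hL] at hlog
  linarith

theorem BakN_sum_pairs {N : ℕ} (a : Fin N → ℝ) :
    ∑ i, ∑ j ∈ Finset.Ioi i, (a i + a j) = ((N : ℝ) - 1) * ∑ i, a i := by
  classical
  have h1 : ∀ i : Fin N, ∑ j ∈ Finset.Ioi i, (a i + a j) =
      (Finset.Ioi i).card * a i + ∑ j, (if i < j then a j else 0) := by
    intro i
    rw [Finset.sum_add_distrib, Finset.sum_const, nsmul_eq_mul, ← Finset.sum_filter]
    congr 1
    refine Finset.sum_congr ?_ fun _ _ => rfl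
    ext j
    simp
  simp only [h1]
  rw [Finset.sum_add_distrib, Finset.sum_comm]
  have h2 : ∀ j : Fin N, ∑ i : Fin N, (if i < j then a j else 0) = (Finset.Iio j).card * a j := by
    intro j
    rw [← Finset.sum_filter, Finset.sum_const, nsmul_eq_mul]
    congr 3
    ext i
    simp
  simp only [h2]
  rw [← Finset.sum_add_distrib, Finset.mul_sum]
  refine Finset.sum_congr rfl fun i _ => ?_
  rw [Fin.card_Ioi, Fin.card_Iio, ← add_mul]
  congr 1
  have hi := i.2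
  have h3 : N - 1 - (i : ℕ) + (i : ℕ) = N - 1 := by omega
  have h4 : ((N - 1 - (i : ℕ) : ℕ) : ℝ) + ((i : ℕ) : ℝ) = ((N - 1 : ℕ) : ℝ) := by
    exact_mod_cast h3
  rw [h4, Nat.cast_sub (by omega)]
  simp

theorem BakN_gg {v : AbsoluteValue k ℝ} (hv : IsNonarchimedean v) (hd : 2 ≤ d)
    {F : Coef k d} (hF : res F ≠ 0) (hcn : cn v F = 1) (K : ℕ)
    (p : Fin (d ^ K) → Fin 2 → k) (hp0 : ∀ i, p i ≠ 0) (hp : ∀ i j, i < j → wd (p i) (p j) ≠ 0) :
    -((d : ℝ) ^ K * (K + 1) * rr v F) ≤ ∑ i, ∑ j ∈ Finset.Ioi i, gg v F (p i) (p j) := by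
  have hσ : SumBound v (bigM d) 1 := sumBound_nonarch v hv _
  have hd1 : 1 ≤ d := by omega
  have hdR : (2 : ℝ) ≤ (d : ℝ) := by exact_mod_cast hd
  have hd0 : (0 : ℝ) < (d : ℝ) := by linarith
  have hdm : (0 : ℝ) < (d : ℝ) - 1 := by linarith
  have hr : rr v F = - Real.log (v (res F)) := by
    unfold rr
    rw [hcn, Real.log_one]
    ring
  have hrl : 0 ≤ rr v F := by
    have := rr_ge hσ hd1 hF
    rwa [Real.log_one, neg_zero] at this
  have hN : (1 : ℝ) ≤ (d : ℝ) ^ K := one_le_pow₀ (by linarith)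
  have hb := BakN_one hv hd hF hcn K p hp0 hp
  have hS := BakN_sum_pairs (fun i => G v F (p i))
  have hone := BakN_sum_pairs (N := d ^ K) (fun _ => (1 : ℝ) / 2)
  simp only [add_halves, Finset.sum_const, Finset.card_univ, Fintype.card_fin,
    nsmul_eq_mul] at hone
  have hgg : ∑ i, ∑ j ∈ Finset.Ioi i, gg v F (p i) (p j) =
      ∑ i, ∑ j ∈ Finset.Ioi i, (G v F (p i) + G v F (p j)) -
      ∑ i, ∑ j ∈ Finset.Ioi i, Real.log (v (wd (p i) (p j))) +
      (∑ i : Fin (d ^ K), ((Finset.Ioi i).card : ℝ) * 1) * (rr v F / (d * (d - 1))) := by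
    rw [Finset.sum_mul, ← Finset.sum_sub_distrib, ← Finset.sum_add_distrib]
    refine Finset.sum_congr rfl fun i _ => ?_
    rw [mul_one, ← nsmul_eq_mul, ← Finset.sum_const, ← Finset.sum_sub_distrib,
      ← Finset.sum_add_distrib]
    refine Finset.sum_congr rfl fun j _ => ?_
    unfold gg
    rw [hr]
    ring
  rw [hgg, hS, hone]
  push_cast at hb ⊢
  have hX : ((d : ℝ) ^ K) ^ 2 * rr v F / (2 * d * (d - 1)) =
      ((d : ℝ) ^ K) ^ 2 / 2 * (rr v F / (d * (d - 1))) := by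
    field_simp
  rw [hX] at hb
  have hY : rr v F / (d * (d - 1)) ≤ rr v F / 2 := by
    apply div_le_div_of_nonneg_left hrl (by norm_num)
    nlinarith
  have hY0 : 0 ≤ rr v F / (d * (d - 1)) := by positivity
  have h5 : (d : ℝ) ^ K / 2 * (rr v F / (d * (d - 1))) ≤ (d : ℝ) ^ K * rr v F := by
    calc (d : ℝ) ^ K / 2 * (rr v F / (d * (d - 1))) ≤ (d : ℝ) ^ K / 2 * (rr v F / 2) := by
          apply mul_le_mul_of_nonneg_left hY
          positivity
      _ ≤ (d : ℝ) ^ K * rr v F := by nlinarith [mul_nonneg (zero_le_one.trans hN) hrl]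
  nlinarith [hb, h5]

theorem baker_nonarch {v : AbsoluteValue k ℝ} (hv : IsNonarchimedean v) (hd : 2 ≤ d)
    {F : Coef k d} (hF : res F ≠ 0) (K N : ℕ) (hN : N = d ^ K) (p : Fin N → Fin 2 → k)
    (hp0 : ∀ i, p i ≠ 0) (hp : ∀ i j, i < j → wd (p i) (p j) ≠ 0) :
    -((N : ℝ) * (K + 1) * rr v F) ≤ ∑ i, ∑ j ∈ Finset.Ioi i, gg v F (p i) (p j) := by
  subst hN
  have hd1 : 1 ≤ d := by omega
  obtain ⟨q, hq⟩ := exists_cn v F
  have hc0 : 0 < cn v F := cn_pos v (Est3_ne_zero hd1 hF)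
  have hFq : F q ≠ 0 := by
    intro h
    rw [h, map_zero] at hq
    exact hc0.ne hq
  have hc : (F q)⁻¹ ≠ 0 := inv_ne_zero hFq
  have hcn : cn v ((F q)⁻¹ • F) = 1 := by
    rw [cn_smul, map_inv₀, hq, inv_mul_cancel₀ hc0.ne']
  have hres : res ((F q)⁻¹ • F) ≠ 0 := by
    rw [res_smul]
    exact mul_ne_zero (pow_ne_zero _ hc) hF
  have h := BakN_gg hv hd hres hcn K p hp0 hp
  rw [rr_smul hd1 v hF hc] at h
  have h2 : ∑ i, ∑ j ∈ Finset.Ioi i, gg v ((F q)⁻¹ • F) (p i) (p j) =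
      ∑ i, ∑ j ∈ Finset.Ioi i, gg v F (p i) (p j) := by
    refine Finset.sum_congr rfl fun i _ => Finset.sum_congr rfl fun j hj => ?_
    exact gg_smul v hd hF (hp i j (Finset.mem_Ioi.mp hj)) hc
  rw [h2] at h
  push_cast
  exact h

end Pool.Agent.LNG
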