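import Pool.Agent.LNG.Est0

/-!
# LNG, Wdg (difficulty 1): elementary inequalities for `X ∧ Y`

`plucker_le`: from `plucker` (Alg1): `wd X Y • Z = -(wd Y Z • X) - wd Z X • Y` (note: `(X∧Y)Z + (Y∧Z)X + (Z∧X)Y = 0`), `vn_smul`, `vn_add_le`.
`closest`: `Z = αX + βY`, `vn X = vn Y = vn Z = 1`: `Z ∧ Y = α (X ∧ Y)`, `X ∧ Z = β (X ∧ Y)`. `plucker_le` gives
`|X∧Z| ≤ |Z∧Y| + |Y∧X| ≤ 2 |Z∧Y|` (as `|X∧Y| ≤ |Y∧Z|`), so `|β| ≤ 2|α|`, similarly `|α| ≤ 2|β|`.
-/

namespace Pool.Agent.LNG

open Polynomial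

variable {k : Type*} [Field k] {d : ℕ}

theorem plucker_le (v : AbsoluteValue k ℝ) (X Y Z : Fin 2 → k) :
    v (wd X Y) * vn v Z ≤ v (wd Y Z) * vn v X + v (wd Z X) * vn v Y := by
  have h := plucker X Y Z
  have e : wd X Y • Z = (-wd Y Z) • X + (-wd Z X) • Y := by
    rw [neg_smul, neg_smul]
    have h2 : wd X Y • Z = -(wd Y Z • X + wd Z X • Y) := by
      rw [eq_neg_iff_add_eq_zero, ← add_assoc]; exact h
    rw [h2, neg_add]
  have h3 := vn_add_le v ((-wd Y Z) • X) ((-wd Z X) • Y)
  rw [← e, vn_smul, vn_smul, vn_smul, v.map_neg, v.map_neg] at h3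
  exact h3

theorem wd_comb_left (X Y : Fin 2 → k) (α β : k) : wd (α • X + β • Y) Y = α * wd X Y := by
  rw [wd_add_left, wd_smul_left, wd_smul_left, wd_self, mul_zero, add_zero]

theorem wd_comb_right (X Y : Fin 2 → k) (α β : k) : wd X (α • X + β • Y) = β * wd X Y := by
  rw [wd_add_right, wd_smul_right, wd_smul_right, wd_self, mul_zero, zero_add]

theorem closest (v : AbsoluteValue k ℝ) {X Y : Fin 2 → k} {α β : k} (hX : vn v X = 1)
    (hY : vn v Y = 1) (hZ : vn v (α • X + β • Y) = 1) (hXY : wd X Y ≠ 0)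
    (h1 : v (wd X Y) ≤ v (wd Y (α • X + β • Y))) (h2 : v (wd X Y) ≤ v (wd (α • X + β • Y) X)) :
    v α ≤ 2 * v β ∧ v β ≤ 2 * v α := by
  have hpos : 0 < v (wd X Y) := v.pos hXY
  have eα : v (wd Y (α • X + β • Y)) = v α * v (wd X Y) := by
    rw [wd_neg_swap, wd_comb_left, v.map_neg, map_mul]
  have eβ : v (wd (α • X + β • Y) X) = v β * v (wd X Y) := by
    rw [wd_neg_swap, wd_comb_right, v.map_neg, map_mul]
  rw [eα] at h1
  rw [eβ] at h2
  have hα1 : 1 ≤ v α := by
    by_contra h
    have : v α * v (wd X Y) < 1 * v (wd X Y) := mul_lt_mul_of_pos_right (not_le.1 h) hpos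
    linarith
  have hβ1 : 1 ≤ v β := by
    by_contra h
    have : v β * v (wd X Y) < 1 * v (wd X Y) := mul_lt_mul_of_pos_right (not_le.1 h) hpos
    linarith
  -- |α| = |α X| ≤ |Z| + |β Y|
  have t1 : v α ≤ 1 + v β := by
    have : vn v (α • X) ≤ vn v (α • X + β • Y) + vn v ((-β) • Y) := by
      have := vn_add_le v (α • X + β • Y) ((-β) • Y)
      rwa [show α • X + β • Y + (-β) • Y = α • X by rw [neg_smul]; abel] at this
    rw [vn_smul, vn_smul, v.map_neg, hX, hY, hZ, mul_one, mul_one] at this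
    exact this
  have t2 : v β ≤ 1 + v α := by
    have : vn v (β • Y) ≤ vn v (α • X + β • Y) + vn v ((-α) • X) := by
      have := vn_add_le v (α • X + β • Y) ((-α) • X)
      rwa [show α • X + β • Y + (-α) • X = β • Y by rw [neg_smul]; abel] at this
    rw [vn_smul, vn_smul, v.map_neg, hX, hY, hZ, mul_one, mul_one] at this
    exact this
  constructor <;> linarith

theorem mn_tri (v : AbsoluteValue k ℝ) (X Y : Fin 2 → k) (α β : k) (hX : vn v X = 1)
    (hY : vn v Y = 1) : mn v (tri X Y α β) = max (v α) (v β) := by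
  have e00 : tri X Y α β 0 0 = β * Y 0 := rfl
  have e01 : tri X Y α β 0 1 = α * X 0 := rfl
  have e10 : tri X Y α β 1 0 = β * Y 1 := rfl
  have e11 : tri X Y α β 1 1 = α * X 1 := rfl
  have hY0 : v (Y 0) ≤ 1 := by rw [← hY]; exact le_max_left _ _
  have hY1 : v (Y 1) ≤ 1 := by rw [← hY]; exact le_max_right _ _
  have hX0 : v (X 0) ≤ 1 := by rw [← hX]; exact le_max_left _ _
  have hX1 : v (X 1) ≤ 1 := by rw [← hX]; exact le_max_right _ _
  have hβ : ∀ y, v y ≤ 1 → v (β * y) ≤ max (v α) (v β) := by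
    intro y hy
    rw [map_mul]
    exact le_trans (mul_le_of_le_one_right (v.nonneg _) hy) (le_max_right _ _)
  have hα : ∀ y, v y ≤ 1 → v (α * y) ≤ max (v α) (v β) := by
    intro y hy
    rw [map_mul]
    exact le_trans (mul_le_of_le_one_right (v.nonneg _) hy) (le_max_left _ _)
  apply le_antisymm
  · apply mn_le
    intro i j
    fin_cases i <;> fin_cases j
    · exact hβ _ hY0
    · exact hα _ hX0
    · exact hβ _ hY1
    · exact hα _ hX1
  · apply max_le
    · have : v (X 0) = 1 ∨ v (X 1) = 1 := by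
        unfold vn at hX
        rcases max_choice (v (X 0)) (v (X 1)) with h | h
        · left; rw [← h]; exact hX
        · right; rw [← h]; exact hX
      rcases this with h | h
      · have := le_mn v (tri X Y α β) 0 1
        rw [e01, map_mul, h, mul_one] at this
        exact this
      · have := le_mn v (tri X Y α β) 1 1
        rw [e11, map_mul, h, mul_one] at this
        exact this
    · have : v (Y 0) = 1 ∨ v (Y 1) = 1 := by
        unfold vn at hY
        rcases max_choice (v (Y 0)) (v (Y 1)) with h | h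
        · left; rw [← h]; exact hY
        · right; rw [← h]; exact hY
      rcases this with h | h
      · have := le_mn v (tri X Y α β) 0 0
        rw [e00, map_mul, h, mul_one] at this
        exact this
      · have := le_mn v (tri X Y α β) 1 0
        rw [e10, map_mul, h, mul_one] at this
        exact this

end Pool.Agent.LNG
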