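import Pool.Agent.LNG.GG
import Pool.Agent.LNG.Wdg

/-!
# LNG, Crd0: crude lower bound for a triple, nonarchimedean, without constants
-/

namespace Pool.Agent.LNG

open Polynomial

variable {k : Type*} [Field k] {d : ℕ}

theorem Crd0_log_wd (w : AbsoluteValue k ℝ) (hw : IsNonarchimedean w)
    {U V : Fin 2 → k} (hUV : wd U V ≠ 0) :
    Real.log (w (wd U V)) ≤ Real.log (vn w U) + Real.log (vn w V) := by
  have hU := vn_pos w (left_ne_zero_of_wd hUV)
  have hV := vn_pos w (right_ne_zero_of_wd hUV)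
  rw [← Real.log_mul hU.ne' hV.ne']
  exact Real.log_le_log (w.pos hUV) (wd_le_nonarch w hw U V)

theorem Crd0_tri (U V : Fin 2 → k) (α β : k) :
    ∀ i j, tri U V α β i j = (if j = 0 then β * V i else α * U i) := by
  intro i j
  fin_cases i <;> fin_cases j <;> simp [tri]

theorem Crd0_wd {U V : Fin 2 → k} (hUV : wd U V ≠ 0) {α β : k} (hα : α ≠ 0) (hβ : β ≠ 0) :
    wd V (α • U + β • V) ≠ 0 ∧ wd (α • U + β • V) U ≠ 0 := by
  have hVU : wd V U ≠ 0 := by
    rw [wd_neg_swap]
    exact neg_ne_zero.2 hUV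
  constructor
  · rw [wd_add_right, wd_smul_right, wd_smul_right, wd_self, mul_zero, add_zero]
    exact mul_ne_zero hα hVU
  · rw [wd_add_left, wd_smul_left, wd_smul_left, wd_self, mul_zero, zero_add]
    exact mul_ne_zero hβ hVU

theorem Crd0_delta (w : AbsoluteValue k ℝ) (hw : IsNonarchimedean w)
    {U V : Fin 2 → k} (hUV : wd U V ≠ 0) {α β : k} (hα : α ≠ 0) (hβ : β ≠ 0) :
    2 * Real.log (mn w (tri U V α β)) - Real.log (w (tri U V α β).det) ≤
      2 * (Real.log (vn w U) + Real.log (vn w V) + Real.log (vn w (α • U + β • V))) -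
        Real.log (w (wd U V)) - Real.log (w (wd V (α • U + β • V))) -
        Real.log (w (wd (α • U + β • V) U)) := by
  set W : Fin 2 → k := α • U + β • V with hWUV
  obtain ⟨hVW0, hWU0⟩ := Crd0_wd hUV hα hβ
  rw [← hWUV] at hVW0 hWU0
  have hVW : w (wd V W) = w α * w (wd U V) := by
    rw [hWUV, wd_add_right, wd_smul_right, wd_smul_right, wd_self, mul_zero, add_zero, map_mul,
      wd_neg_swap U V, w.map_neg]
  have hWU : w (wd W U) = w β * w (wd U V) := by
    rw [hWUV, wd_add_left, wd_smul_left, wd_smul_left, wd_self, mul_zero, zero_add, map_mul,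
      wd_neg_swap U V, w.map_neg]
  have hdetB : (tri U V α β).det ≠ 0 := by
    rw [tri_det]
    exact neg_ne_zero.2 (mul_ne_zero (mul_ne_zero hα hβ) hUV)
  have hpU := vn_pos w (left_ne_zero_of_wd hUV)
  have hpV := vn_pos w (right_ne_zero_of_wd hUV)
  have hpα := w.pos hα
  have hpβ := w.pos hβ
  have hpUV := w.pos hUV
  have e0 := Crd0_log_wd w hw hUV
  have e1 := Crd0_log_wd w hw hVW0
  have e2 := Crd0_log_wd w hw hWU0
  have e3 : Real.log (w (wd V W)) = Real.log (w α) + Real.log (w (wd U V)) := by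
    rw [hVW, Real.log_mul hpα.ne' hpUV.ne']
  have e4 : Real.log (w (wd W U)) = Real.log (w β) + Real.log (w (wd U V)) := by
    rw [hWU, Real.log_mul hpβ.ne' hpUV.ne']
  have e5 : Real.log (w (tri U V α β).det) =
      Real.log (w α) + Real.log (w β) + Real.log (w (wd U V)) := by
    rw [tri_det, w.map_neg, map_mul, map_mul, Real.log_mul (mul_ne_zero hpα.ne' hpβ.ne') hpUV.ne',
      Real.log_mul hpα.ne' hpβ.ne']
  have hmn : mn w (tri U V α β) ≤ max (w β * vn w V) (w α * vn w U) := by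
    apply mn_le
    intro i j
    rw [Crd0_tri]
    have hVi : ∀ (T : Fin 2 → k) (i : Fin 2), w (T i) ≤ vn w T := by
      intro T i
      fin_cases i
      · exact le_max_left _ _
      · exact le_max_right _ _
    split_ifs
    · rw [map_mul]
      exact le_max_of_le_left (mul_le_mul_of_nonneg_left (hVi V i) (w.nonneg _))
    · rw [map_mul]
      exact le_max_of_le_right (mul_le_mul_of_nonneg_left (hVi U i) (w.nonneg _))
  have hmn0 := mn_pos w hdetB
  rcases le_total (w β * vn w V) (w α * vn w U) with hc | hc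
  · rw [max_eq_right hc] at hmn
    have e6 := Real.log_le_log hmn0 hmn
    rw [Real.log_mul hpα.ne' hpU.ne'] at e6
    rw [e3, e4, e5]
    rw [e3] at e1
    linarith
  · rw [max_eq_left hc] at hmn
    have e6 := Real.log_le_log hmn0 hmn
    rw [Real.log_mul hpβ.ne' hpV.ne'] at e6
    rw [e3, e4, e5]
    rw [e4] at e2
    linarith

theorem Crd0_one [Infinite k] {v : AbsoluteValue k ℝ} (hv : IsNonarchimedean v) (hd : 2 ≤ d)
    {F : Coef k d} (hF : res F ≠ 0) (hcn : cn v F = 1) {U V : Fin 2 → k} (hUV : wd U V ≠ 0)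
    {α β : k} (hα : α ≠ 0) (hβ : β ≠ 0) :
    rr v (conj F (tri U V α β)) / ((d : ℝ) ^ 2 + d) - 7 * rr v F ≤
      gg v F U V + gg v F V (α • U + β • V) + gg v F (α • U + β • V) U := by
  have hσ : SumBound v (bigM d) 1 := sumBound_nonarch v hv _
  have hd1 : 1 ≤ d := by omega
  have hdR : (2 : ℝ) ≤ (d : ℝ) := by exact_mod_cast hd
  have hdm : (0 : ℝ) < (d : ℝ) - 1 := by linarith
  have hr : rr v F = - Real.log (v (res F)) := by
    unfold rr
    rw [hcn, Real.log_one]
    ring
  have hrl : 0 ≤ rr v F := by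
    have := rr_ge hσ hd1 hF
    rwa [Real.log_one, neg_zero] at this
  obtain ⟨hVW0, hWU0⟩ := Crd0_wd hUV hα hβ
  have hdetB : (tri U V α β).det ≠ 0 := by
    rw [tri_det]
    exact neg_ne_zero.2 (mul_ne_zero (mul_ne_zero hα hβ) hUV)
  have hdelta := Crd0_delta v hv hUV hα hβ
  have h1 := rr_conj_le hσ hd1 hF hdetB
  rw [Real.log_one, mul_zero, add_zero] at h1
  have hG : ∀ X : Fin 2 → k, X ≠ 0 → Real.log (vn v X) - rr v F / (d - 1) ≤ G v F X := by
    intro X hX
    have h2 := (G_spec hσ hd hF hX).2.1 0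
    rw [hcn, Real.log_one, mul_zero, mul_zero, add_zero, pow_zero, one_mul,
      Function.iterate_zero, id] at h2
    have h3 : (0 - Real.log (v (res F))) / ((d : ℝ) - 1) = rr v F / (d - 1) := by
      rw [hr]
      ring
    rw [h3] at h2
    linarith
  have gU := hG U (left_ne_zero_of_wd hUV)
  have gV := hG V (right_ne_zero_of_wd hUV)
  have gW := hG (α • U + β • V) (right_ne_zero_of_wd hVW0)
  have hdd : (0 : ℝ) < (d : ℝ) ^ 2 + d := by positivity
  have hR : rr v (conj F (tri U V α β)) / ((d : ℝ) ^ 2 + d) ≤ rr v F +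
      (2 * Real.log (mn v (tri U V α β)) - Real.log (v (tri U V α β).det)) := by
    rw [div_le_iff₀ hdd]
    have h4 : rr v F ≤ rr v F * ((d : ℝ) ^ 2 + d) := by nlinarith
    linarith
  have hq : rr v F / (d - 1) ≤ rr v F := by
    apply div_le_self hrl
    linarith
  have hq2 : 0 ≤ rr v F / (d * (d - 1)) := by positivity
  have hres : Real.log (v (res F)) / (d * (d - 1)) = - (rr v F / (d * (d - 1))) := by
    rw [hr]
    ring
  unfold gg
  rw [hres]
  linarith

theorem crude0 [Infinite k] {v : AbsoluteValue k ℝ} (hv : IsNonarchimedean v) (hd : 2 ≤ d)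
    {F : Coef k d} (hF : res F ≠ 0) {U V : Fin 2 → k} (hUV : wd U V ≠ 0) {α β : k} (hα : α ≠ 0)
    (hβ : β ≠ 0) :
    rr v (conj F (tri U V α β)) / ((d : ℝ) ^ 2 + d) - 7 * rr v F ≤
      gg v F U V + gg v F V (α • U + β • V) + gg v F (α • U + β • V) U := by
  have hd1 : 1 ≤ d := by omega
  obtain ⟨q, hq⟩ := exists_cn v F
  have hc0 : 0 < cn v F := cn_pos v (Est3_ne_zero hd1 hF)
  have hFq : F q ≠ 0 := by
    intro h
    rw [h, map_zero] at hq
    exact hc0.ne hq
  have hc : (F q)⁻¹ ≠ 0 := inv_ne_zero hFq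
  have hcn : cn v ((F q)⁻¹ • F) = 1 := by
    rw [cn_smul, map_inv₀, hq, inv_mul_cancel₀ hc0.ne']
  have hres : res ((F q)⁻¹ • F) ≠ 0 := by
    rw [res_smul]
    exact mul_ne_zero (pow_ne_zero _ hc) hF
  have hdetB : (tri U V α β).det ≠ 0 := by
    rw [tri_det]
    exact neg_ne_zero.2 (mul_ne_zero (mul_ne_zero hα hβ) hUV)
  obtain ⟨hVW0, hWU0⟩ := Crd0_wd hUV hα hβ
  have hrc : res (conj F (tri U V α β)) ≠ 0 := by
    rw [res_conj F hdetB]
    exact mul_ne_zero (pow_ne_zero _ hdetB) hF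
  have h := Crd0_one hv hd hres hcn hUV hα hβ
  rw [rr_smul hd1 v hF hc, gg_smul v hd hF hUV hc, gg_smul v hd hF hVW0 hc,
    gg_smul v hd hF hWU0 hc, conj_smul, rr_smul hd1 v hrc hc] at h
  exact h

end Pool.Agent.LNG
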