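import Pool.Agent.LNG.Alg2

/-!
# LNG, Syl (difficulty 1): evaluation of the Sylvester matrix

Column `j₁` of the left block of `sylvester f g m n` contains `g.coeff (i - j₁)` in row `i` (for `j₁ ≤ i ≤ j₁ + n`), so
`Σ_i X₀^i X₁^(m+n-1-i) g.coeff (i-j₁) = X₀^{j₁} X₁^{m-1-j₁} · hev n g X`; right block similarly with `f`.
Use `Fin.addCases`/`Fin.addCases_left/right`, `Finset.sum_bij` or a shift of the range (`Finset.sum_range`, ...).
-/

namespace Pool.Agent.LNG

open Polynomial

variable {k : Type*} [Field k] {d : ℕ}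

private theorem Syl_aux (N a n : ℕ) (h : a + n + 1 ≤ N) (g : k[X]) (X : Fin 2 → k) :
    ∑ i : Fin N, mon N X i * (if (i : ℕ) ∈ Set.Icc a (a + n) then g.coeff ((i : ℕ) - a) else 0) =
      X 0 ^ a * X 1 ^ (N - 1 - n - a) * hev n g X := by
  unfold mon
  rw [Fin.sum_univ_eq_sum_range (fun i => X 0 ^ i * X 1 ^ (N - 1 - i) *
    (if i ∈ Set.Icc a (a + n) then g.coeff (i - a) else 0)) N]
  obtain ⟨r, rfl⟩ : ∃ r, N = a + (n + 1) + r := ⟨N - (a + n + 1), by omega⟩
  rw [Finset.sum_range_add, Finset.sum_range_add]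
  have h1 : ∑ i ∈ Finset.range a, X 0 ^ i * X 1 ^ (a + (n + 1) + r - 1 - i) *
      (if i ∈ Set.Icc a (a + n) then g.coeff (i - a) else 0) = 0 := by
    refine Finset.sum_eq_zero fun i hi => ?_
    have := Finset.mem_range.mp hi
    rw [if_neg (by rw [Set.mem_Icc]; omega), mul_zero]
  have h2 : ∑ i ∈ Finset.range r, X 0 ^ (a + (n + 1) + i) *
      X 1 ^ (a + (n + 1) + r - 1 - (a + (n + 1) + i)) *
      (if a + (n + 1) + i ∈ Set.Icc a (a + n) then g.coeff (a + (n + 1) + i - a) else 0) = 0 := by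
    refine Finset.sum_eq_zero fun i _ => ?_
    rw [if_neg (by rw [Set.mem_Icc]; omega), mul_zero]
  rw [h1, h2, zero_add, add_zero]
  unfold hev
  rw [Finset.mul_sum]
  refine Finset.sum_congr rfl fun l hl => ?_
  have hl' := Finset.mem_range.mp hl
  rw [if_pos (by rw [Set.mem_Icc]; omega), show a + l - a = l by omega, pow_add,
    show a + (n + 1) + r - 1 - (a + l) = (a + (n + 1) + r - 1 - n - a) + (n - l) by omega, pow_add]
  ring

theorem mon_vecMul_sylvester (m n : ℕ) (f g : k[X]) (hf : f.natDegree ≤ m) (hg : g.natDegree ≤ n)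
    (X : Fin 2 → k) (j : Fin (m + n)) :
    Matrix.vecMul (mon (m + n) X) (sylvester f g m n) j =
      Fin.addCases (motive := fun _ => k) (fun j₁ : Fin m => mon m X j₁ * hev n g X)
        (fun j₁ : Fin n => mon n X j₁ * hev m f X) j := by
  simp only [Matrix.vecMul, dotProduct]
  refine Fin.addCases (fun j₁ => ?_) (fun j₁ => ?_) j
  · have hj := j₁.2
    simp only [sylvester, Matrix.of_apply, Fin.addCases_left]
    rw [Syl_aux (m + n) j₁ n (by omega) g X]
    unfold mon
    rw [show m + n - 1 - n - (j₁ : ℕ) = m - 1 - (j₁ : ℕ) by omega]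
  · have hj := j₁.2
    simp only [sylvester, Matrix.of_apply, Fin.addCases_right]
    rw [Syl_aux (m + n) j₁ m (by omega) f X]
    unfold mon
    rw [show m + n - 1 - m - (j₁ : ℕ) = n - 1 - (j₁ : ℕ) by omega]

end Pool.Agent.LNG
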