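import Pool.Agent.LNG.Est1
import Pool.Agent.LNG.Syl

/-!
# LNG, Est2 (difficulty 2): the lower bound for `‖F(X)‖`

`|Res F| ‖X‖^d ≤ σ² ‖F‖^{2d-1} ‖F(X)‖` (`d ≥ 1`).
Proof. `X = 0`: trivial (both sides `0`; `d ≥ 1`). Let `M = sylvester (pol F 0) (pol F 1) d d`, `w = vecMul (mon (d+d) X) M`; by
`mon_vecMul_sylvester` and `ev_eq_hev` the entries of `w` are `mon d X j₁ * ev F X 1` or `mon d X j₁ * ev F X 0`, so
`v (w j) ≤ ‖X‖^{d-1} ‖F(X)‖`. `w ᵥ* adjugate M = det M • mon (d+d) X` (`Matrix.mul_adjugate`). The entries of the adjugate are determinants of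
size `2d` in which one row is a unit vector (`Matrix.adjugate_apply`: `adjugate A i j = det (A.updateRow j (Pi.single i 1))`): Leibniz:
`(2d)!` terms, each is `0` or a product of `2d - 1` entries of `M` (times `1`), so `≤ σ ‖F‖^{2d-1}`. Hence
`|Res F| |X_0|^{2d-1}`, `|Res F| |X_1|^{2d-1}` (entries `c = 2d-1`, `c = 0` of `mon (d+d) X`) are `≤ σ · ‖X‖^{d-1}‖F(X)‖ · σ‖F‖^{2d-1}`
(sum of `2d ≤ bigM d` terms). So `|Res F| ‖X‖^{2d-1} ≤ σ² ‖X‖^{d-1} ‖F(X)‖ ‖F‖^{2d-1}`; divide by `‖X‖^{d-1}`.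
(If the Leibniz bound with a unit row is inconvenient, expand the cofactor differently; only the final inequality matters.)
-/

namespace Pool.Agent.LNG

open Polynomial

variable {k : Type*} [Field k] {d : ℕ}

theorem Est2_adj_le {v : AbsoluteValue k ℝ} {σ : ℝ} {n : ℕ} (hσ : SumBound v (bigM d) σ)
    (hn : n ≤ 2 * d) (M : Matrix (Fin n) (Fin n) k) {B : ℝ} (hB : 0 ≤ B) (hM : ∀ i j, v (M i j) ≤ B)
    (i j : Fin n) : v (M.adjugate i j) ≤ σ * B ^ (n - 1) := by
  classical
  rw [Matrix.adjugate_apply, Matrix.det_apply']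
  refine SumBound.finset hσ _ _ _ ?_ (pow_nonneg hB _) ?_
  · rw [Finset.card_univ, Fintype.card_perm, Fintype.card_fin]
    unfold bigM
    exact Nat.factorial_le (by omega)
  · intro s _
    have h1 : v (((Equiv.Perm.sign s : ℤ) : k)) = 1 := by
      rcases Int.units_eq_one_or (Equiv.Perm.sign s) with h | h <;> rw [h] <;> simp
    rw [map_mul, h1, one_mul, map_prod, ← Finset.mul_prod_erase Finset.univ _ (Finset.mem_univ (s⁻¹ j))]
    have hsj : s (s⁻¹ j) = j := s.apply_symm_apply j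
    have h2 : v ((M.updateRow j (Pi.single i 1)) (s (s⁻¹ j)) (s⁻¹ j)) ≤ 1 := by
      rw [hsj, Matrix.updateRow_self]
      by_cases h : s⁻¹ j = i
      · rw [h, Pi.single_eq_same, map_one]
      · rw [Pi.single_eq_of_ne h, map_zero]; norm_num
    have h3 : ∏ a ∈ Finset.univ.erase (s⁻¹ j), v ((M.updateRow j (Pi.single i 1)) (s a) a)
        ≤ B ^ (n - 1) := by
      have h4 : (Finset.univ.erase (s⁻¹ j)).card = n - 1 := by
        rw [Finset.card_erase_of_mem (Finset.mem_univ _), Finset.card_univ, Fintype.card_fin]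
      rw [← h4, ← Finset.prod_const]
      refine Finset.prod_le_prod (fun _ _ => v.nonneg _) fun a ha => ?_
      have hne : s a ≠ j := by
        intro h
        apply (Finset.mem_erase.1 ha).1
        rw [← h]
        exact (s.symm_apply_apply a).symm
      rw [Matrix.updateRow_ne hne]
      exact hM _ _
    calc _ ≤ 1 * B ^ (n - 1) := mul_le_mul h2 h3 (Finset.prod_nonneg fun _ _ => v.nonneg _) zero_le_one
      _ = _ := one_mul _

theorem Est2_mon_le (v : AbsoluteValue k ℝ) (n : ℕ) (X : Fin 2 → k) (c : Fin n) :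
    v (mon n X c) ≤ vn v X ^ (n - 1) := by
  unfold mon
  have h0 : v (X 0) ≤ vn v X := le_max_left _ _
  have h1 : v (X 1) ≤ vn v X := le_max_right _ _
  have hc : n - 1 = (c : ℕ) + (n - 1 - (c : ℕ)) := by
    have := c.2
    omega
  rw [map_mul, map_pow, map_pow]
  conv_rhs => rw [hc, pow_add]
  exact mul_le_mul (pow_le_pow_left₀ (v.nonneg _) h0 _) (pow_le_pow_left₀ (v.nonneg _) h1 _)
    (pow_nonneg (v.nonneg _) _) (pow_nonneg (vn_nonneg v X) _)

theorem Est2_vec_eq (F : Coef k d) (X : Fin 2 → k) (c : Fin (d + d)) :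
    res F * mon (d + d) X c = ∑ j, (Matrix.vecMul (mon (d + d) X)
      (sylvester (pol F 0) (pol F 1) d d) j) *
        (sylvester (pol F 0) (pol F 1) d d).adjugate j c := by
  have h : Matrix.vecMul (Matrix.vecMul (mon (d + d) X) (sylvester (pol F 0) (pol F 1) d d))
      (sylvester (pol F 0) (pol F 1) d d).adjugate c
        = res F * mon (d + d) X c := by
    rw [Matrix.vecMul_vecMul, Matrix.mul_adjugate, Matrix.vecMul_smul, Matrix.vecMul_one]
    rfl
  rw [← h]
  rfl

theorem Est2_w_eq (F : Coef k d) (X : Fin 2 → k) (j : Fin (d + d)) :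
    ∃ (i : Fin 2) (j₁ : Fin d), Matrix.vecMul (mon (d + d) X)
      (sylvester (pol F 0) (pol F 1) d d) j = mon d X j₁ * ev F X i := by
  rw [mon_vecMul_sylvester d d (pol F 0) (pol F 1) (pol_natDegree_le F 0) (pol_natDegree_le F 1) X j]
  refine Fin.addCases (fun j₁ => ?_) (fun j₁ => ?_) j
  · refine ⟨1, j₁, ?_⟩
    rw [Fin.addCases_left, ev_eq_hev]
  · refine ⟨0, j₁, ?_⟩
    rw [Fin.addCases_right, ev_eq_hev]

theorem Est2_w_le (v : AbsoluteValue k ℝ) (F : Coef k d) (X : Fin 2 → k) (j : Fin (d + d)) :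
    v (Matrix.vecMul (mon (d + d) X) (sylvester (pol F 0) (pol F 1) d d) j)
      ≤ vn v X ^ (d - 1) * vn v (ev F X) := by
  obtain ⟨i, j₁, h⟩ := Est2_w_eq F X j
  rw [h, map_mul]
  refine mul_le_mul (Est2_mon_le v d X j₁) ?_ (v.nonneg _) (pow_nonneg (vn_nonneg v X) _)
  fin_cases i
  · exact le_max_left _ _
  · exact le_max_right _ _

theorem ev_ge {v : AbsoluteValue k ℝ} {σ : ℝ} (hσ : SumBound v (bigM d) σ) (hd : 1 ≤ d)
    (F : Coef k d) (X : Fin 2 → k) :
    v (res F) * vn v X ^ d ≤ σ ^ 2 * cn v F ^ (2 * d - 1) * vn v (ev F X) := by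
  have hσ0 : 0 ≤ σ := le_trans zero_le_one hσ.one_le
  have hvn : 0 ≤ vn v X := vn_nonneg v X
  have hve : 0 ≤ vn v (ev F X) := vn_nonneg v _
  have hcn : 0 ≤ cn v F := cn_nonneg v F
  have hRHS : 0 ≤ σ ^ 2 * cn v F ^ (2 * d - 1) * vn v (ev F X) := by positivity
  have key : ∀ c : Fin (d + d), v (res F) * v (mon (d + d) X c) ≤
      σ * ((vn v X ^ (d - 1) * vn v (ev F X)) * (σ * cn v F ^ (d + d - 1))) := by
    intro c
    rw [← map_mul, Est2_vec_eq]
    refine SumBound.finset hσ _ _ _ ?_ (by positivity) ?_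
    · rw [Finset.card_univ, Fintype.card_fin]
      unfold bigM
      calc d + d ≤ 4 * d + 4 := by omega
        _ ≤ Nat.factorial (4 * d + 4) := Nat.self_le_factorial _
    · intro j _
      rw [map_mul]
      exact mul_le_mul (Est2_w_le v F X j)
        (Est2_adj_le hσ (by omega) _ hcn (fun a b => sylvester_entry_le F a b) j c)
        (v.nonneg _) (by positivity)
  have h2 : v (res F) * vn v X ^ (d + d - 1) ≤
      σ * ((vn v X ^ (d - 1) * vn v (ev F X)) * (σ * cn v F ^ (d + d - 1))) := by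
    rcases le_total (v (X 0)) (v (X 1)) with h | h
    · have h0 := key ⟨0, by omega⟩
      have : vn v X = v (X 1) := max_eq_right h
      rw [this] at h0 ⊢
      unfold mon at h0
      simpa [map_pow] using h0
    · have h0 := key ⟨d + d - 1, by omega⟩
      have : vn v X = v (X 0) := max_eq_left h
      rw [this] at h0 ⊢
      unfold mon at h0
      simpa [map_pow] using h0
  rcases hvn.eq_or_lt with h0 | hpos
  · rw [← h0, zero_pow (by omega), mul_zero]
    exact hRHS
  · have hp : 0 < vn v X ^ (d - 1) := pow_pos hpos _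
    refine le_of_mul_le_mul_left ?_ hp
    have e1 : vn v X ^ (d + d - 1) = vn v X ^ (d - 1) * vn v X ^ d := by
      rw [← pow_add]; congr 1; omega
    have e2 : d + d - 1 = 2 * d - 1 := by omega
    rw [e1, e2] at h2
    calc vn v X ^ (d - 1) * (v (res F) * vn v X ^ d)
        = v (res F) * (vn v X ^ (d - 1) * vn v X ^ d) := by ring
      _ ≤ _ := h2
      _ = _ := by ring

/-- `F(X) ≠ 0` for `X ≠ 0`. -/
theorem ev_ne_zero (hd : 1 ≤ d) {F : Coef k d} (hF : res F ≠ 0) {X : Fin 2 → k} (hX : X ≠ 0) :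
    ev F X ≠ 0 := by
  intro hev
  have hmon : ∀ c : Fin (d + d), mon (d + d) X c = 0 := by
    intro c
    have h := Est2_vec_eq F X c
    have h0 : ∑ j, (Matrix.vecMul (mon (d + d) X)
      (sylvester (pol F 0) (pol F 1) d d) j) *
        (sylvester (pol F 0) (pol F 1) d d).adjugate j c = 0 := by
      refine Finset.sum_eq_zero fun j _ => ?_
      obtain ⟨i, j₁, hj⟩ := Est2_w_eq F X j
      rw [hj, hev]
      simp
    rw [h0] at h
    exact (mul_eq_zero.1 h).resolve_left hF
  apply hX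
  have e1 : X 1 = 0 := by
    have h := hmon ⟨0, by omega⟩
    unfold mon at h
    simp only [pow_zero, one_mul] at h
    exact eq_zero_of_pow_eq_zero h
  have e0 : X 0 = 0 := by
    have h := hmon ⟨d + d - 1, by omega⟩
    unfold mon at h
    simp only [Nat.sub_self, pow_zero, mul_one] at h
    exact eq_zero_of_pow_eq_zero h
  funext i
  fin_cases i
  · exact e0
  · exact e1

theorem ne_zero_of_res (hd : 1 ≤ d) {F : Coef k d} (hF : res F ≠ 0) : F ≠ 0 := by
  intro h
  have hX : (![1, 0] : Fin 2 → k) ≠ 0 := by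
    intro h0
    have := congrFun h0 0
    simp at this
  apply ev_ne_zero hd hF hX
  funext i
  subst h
  simp [ev]

end Pool.Agent.LNG
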