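import Pool.Agent.LNG.Sgh
import Pool.Agent.LNG.Est2
import Pool.Agent.LNG.Est3

/-!
# LNG, Grr (difficulty 1): the sum of `r_v`

`rr v F = 2 d log (⨆ p, v (F p)) - log (v (res F))`; `Σ_v n_v log (⨆ p, v (F p)) = logHeight F`, `Σ_v n_v log v(res F) = 0`.
-/

namespace Pool.Agent.LNG

open Polynomial NumberField IsDedekindDomain

variable {K : Type} [Field K] [NumberField K] {d : ℕ}

theorem Grr_eq (F : Coef K d) : (fun v : AbsoluteValue K ℝ => rr v F)
    = fun v => (2 * d) * Real.log (⨆ p, v (F p)) + (-1) * Real.log (v (res F)) := by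
  funext v
  unfold rr cn
  ring

theorem FS_rr (hd : 1 ≤ d) {F : Coef K d} (hF : res F ≠ 0) : FS (fun v => rr v F) := by
  have hF0 := ne_zero_of_res hd hF
  rw [Grr_eq]
  exact FS_add (FS_mul _ (FS_height hF0)) (FS_mul _ (FS_log hF))

theorem SA_rr (hd : 1 ≤ d) {F : Coef K d} (hF : res F ≠ 0) :
    SA (fun v => rr v F) = 2 * d * Height.logHeight F := by
  have hF0 := ne_zero_of_res hd hF
  rw [Grr_eq, SA_add (FS_mul _ (FS_height hF0)) (FS_mul _ (FS_log hF)), SA_mul, SA_mul,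
    SA_height hF0, SA_log hF]
  ring

/-- `r_v ≥ 0` at the finite places. -/
theorem rr_nonneg_finite (hd : 1 ≤ d) {F : Coef K d} (hF : res F ≠ 0) (v : FinitePlace K) :
    0 ≤ rr v.val F := by
  have h := rr_ge (sumBound_nonarch v.val (nonarch_of_finite v) (bigM d)) hd hF
  rw [Real.log_one, neg_zero] at h
  exact h

/-- `r_v ≥ - log (bigM d)` everywhere. -/
theorem rr_ge_all (hd : 1 ≤ d) {F : Coef K d} (hF : res F ≠ 0) (v : AbsoluteValue K ℝ) :
    - Real.log (bigM d) ≤ rr v F :=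
  rr_ge (sumBound_arch v (bigM d) (Nat.factorial_pos _)) hd hF

end Pool.Agent.LNG
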