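import Pool.Agent.LNG.Prob2
import Pool.Agent.LNG.Est3
import Pool.Agent.LNG.Grr

/-!
# LNG, Rmn: properties of the local minimal size
-/

namespace Pool.Agent.LNG

open Polynomial NumberField IsDedekindDomain

variable {K : Type} [Field K] [NumberField K] {d : ℕ}

theorem Rmn_nonarch {L : Type} [Field L] (w : AbsoluteValue L ℝ) (h : ∀ n : ℕ, w (n : L) ≤ 1) :
    IsNonarchimedean w := by
  intro x y
  letI : NormedField L := w.toNormedField
  have hn : ∀ z : L, ‖z‖ = w z := fun z => rfl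
  have hu : IsUltrametricDist L := by
    apply IsUltrametricDist.isUltrametricDist_of_forall_norm_natCast_le_one
    intro n
    rw [hn]
    exact h n
  have := hu.norm_add_le_max x y
  rw [hn, hn, hn] at this
  exact this

theorem ext_nonarch {L : Type} [Field L] (v : FinitePlace K) (ι : K →+* L)
    (w : AbsoluteValue L ℝ) (h : ∀ x, w (ι x) = v.val x) : IsNonarchimedean w := by
  apply Rmn_nonarch
  intro n
  rw [← map_natCast ι n, h]
  exact (nonarch_of_finite v).apply_natCast_le_one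

theorem Rmn_bdd (hd : 1 ≤ d) (v : AbsoluteValue K ℝ) {F : Coef K d} (hF : res F ≠ 0) {σ : ℝ}
    (hσ : ∀ (L : Type) [Field L] (ι : K →+* L) (w : AbsoluteValue L ℝ), (∀ x, w (ι x) = v x) →
      SumBound w (bigM d) σ) {r : ℝ} (hr : ∃ (L : Type) (_ : Field L) (ι : K →+* L)
      (w : AbsoluteValue L ℝ) (M : Matrix (Fin 2) (Fin 2) L), (∀ x, w (ι x) = v x) ∧ M.det ≠ 0 ∧
      r = rr w (conj (mapC ι F) M)) : - Real.log σ ≤ r := by
  obtain ⟨L, hL, ι, w, M, hw, hM, rfl⟩ := hr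
  haveI : Infinite L := Infinite.of_injective ι ι.injective
  have hFL : res (mapC ι F) ≠ 0 := by
    rw [res_map]
    exact (map_ne_zero ι).2 hF
  have hFM : res (conj (mapC ι F) M) ≠ 0 := by
    rw [res_conj _ hM]
    exact mul_ne_zero (pow_ne_zero _ hM) hFL
  exact rr_ge (hσ L ι w hw) hd hFM

theorem Rmn_mapC (F : Coef K d) : mapC (RingHom.id K) F = F := rfl

theorem rmin_le (hd : 1 ≤ d) (v : AbsoluteValue K ℝ) {F : Coef K d} (hF : res F ≠ 0)
    {A : Matrix (Fin 2) (Fin 2) K} (hA : A.det ≠ 0) : rmin v F ≤ rr v (conj F A) := by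
  apply csInf_le
  · refine ⟨- Real.log (bigM d), fun r hr => ?_⟩
    exact Rmn_bdd hd v hF (fun L _ ι w _ => sumBound_arch w (bigM d) (Nat.factorial_pos _)) hr
  · exact ⟨K, inferInstance, RingHom.id K, v, A, fun x => rfl, hA, rfl⟩

theorem Rmn_nonempty (v : AbsoluteValue K ℝ) (F : Coef K d) :
    {r : ℝ | ∃ (L : Type) (_ : Field L) (ι : K →+* L) (w : AbsoluteValue L ℝ)
    (M : Matrix (Fin 2) (Fin 2) L), (∀ x, w (ι x) = v x) ∧ M.det ≠ 0 ∧
      r = rr w (conj (mapC ι F) M)}.Nonempty :=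
  ⟨rr v (conj F 1), K, inferInstance, RingHom.id K, v, 1, fun x => rfl, by simp, rfl⟩

theorem rmin_ge (hd : 1 ≤ d) (v : AbsoluteValue K ℝ) {F : Coef K d} (hF : res F ≠ 0) :
    - Real.log (bigM d) ≤ rmin v F := by
  apply le_csInf (Rmn_nonempty v F)
  intro r hr
  exact Rmn_bdd hd v hF (fun L _ ι w _ => sumBound_arch w (bigM d) (Nat.factorial_pos _)) hr

theorem rmin_nonneg (hd : 1 ≤ d) (v : FinitePlace K) {F : Coef K d} (hF : res F ≠ 0) :
    0 ≤ rmin v.val F := by
  apply le_csInf (Rmn_nonempty v.val F)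
  intro r hr
  have h := Rmn_bdd hd v.val hF (σ := 1)
    (fun L _ ι w hw => sumBound_nonarch w (ext_nonarch v ι w hw) (bigM d)) hr
  rwa [Real.log_one, neg_zero] at h

theorem rmin_glb (v : AbsoluteValue K ℝ) {F : Coef K d} {a b : ℝ} (ha : 0 ≤ a)
    (h : ∀ (L : Type) [Field L] (ι : K →+* L) (w : AbsoluteValue L ℝ)
      (M : Matrix (Fin 2) (Fin 2) L), (∀ x, w (ι x) = v x) → M.det ≠ 0 →
        b ≤ a * rr w (conj (mapC ι F) M)) : b ≤ a * rmin v F := by
  rcases ha.eq_or_lt with h0 | h0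
  · have h1 := h K (RingHom.id K) v 1 (fun x => rfl) (by simp)
    rw [← h0, zero_mul] at h1 ⊢
    exact h1
  · rw [← div_le_iff₀' h0]
    apply le_csInf (Rmn_nonempty v F)
    rintro r ⟨L, hL, ι, w, M, hw, hM, rfl⟩
    rw [div_le_iff₀' h0]
    exact h L ι w M hw hM

theorem rmin_potGood (hd : 1 ≤ d) (v : FinitePlace K) {F : Coef K d} (hF : res F ≠ 0)
    (h : PotGood v.val F) : rmin v.val F = 0 := by
  apply le_antisymm _ (rmin_nonneg hd v hF)
  obtain ⟨L, hL, ι, w, hwn, hw, M, a, hM, ha, hle, hres⟩ := h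
  haveI : Infinite L := Infinite.of_injective ι ι.injective
  have hFL : res (mapC ι F) ≠ 0 := by
    rw [res_map]
    exact (map_ne_zero ι).2 hF
  have hFM : res (conj (mapC ι F) M) ≠ 0 := by
    rw [res_conj _ hM]
    exact mul_ne_zero (pow_ne_zero _ hM) hFL
  have h1 : rmin v.val F ≤ rr w (conj (mapC ι F) M) := by
    apply csInf_le
    · refine ⟨- Real.log (bigM d), fun r hr => ?_⟩
      exact Rmn_bdd hd v.val hF
        (fun L _ ι w _ => sumBound_arch w (bigM d) (Nat.factorial_pos _)) hr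
    · exact ⟨L, hL, ι, w, M, hw, hM, rfl⟩
  refine h1.trans ?_
  rw [← rr_smul hd w hFM ha]
  unfold rr
  rw [hres, Real.log_one, sub_zero]
  have hcn : cn w (a • conj (mapC ι F) M) ≤ 1 := by
    obtain ⟨p, hp⟩ := exists_cn w (a • conj (mapC ι F) M)
    rw [← hp]
    exact hle p
  have h2 : Real.log (cn w (a • conj (mapC ι F) M)) ≤ 0 :=
    Real.log_nonpos (cn_nonneg w _) hcn
  have h3 : (0 : ℝ) ≤ 2 * d := by positivity
  exact mul_nonpos_of_nonneg_of_nonpos h3 h2

end Pool.Agent.LNG
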