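import Pool.Agent.LNG.GG
import Pool.Agent.LNG.RC

/-!
# LNG, Xtn: points over an extension in other coordinates
-/

namespace Pool.Agent.LNG

open Polynomial

variable {k : Type*} [Field k] {d : ℕ}

variable {L : Type*} [Field L]

theorem Xtn_det {M : Matrix (Fin 2) (Fin 2) L} (hM : M.det ≠ 0) : M⁻¹.det ≠ 0 := by
  rw [Matrix.det_nonsing_inv, Ring.inverse_eq_inv']
  exact inv_ne_zero hM

theorem Xtn_mul {M : Matrix (Fin 2) (Fin 2) L} (hM : M.det ≠ 0) (Z : Fin 2 → L) :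
    M.mulVec (M⁻¹.mulVec Z) = Z := by
  rw [Matrix.mulVec_mulVec, Matrix.mul_nonsing_inv M (isUnit_iff_ne_zero.mpr hM),
    Matrix.one_mulVec]

theorem Xtn_tri (U V : Fin 2 → k) (α β : k) :
    ∀ i j, tri U V α β i j = (if j = 0 then β * V i else α * U i) := by
  intro i j
  fin_cases i <;> fin_cases j <;> simp [tri]

theorem wd_ext (ι : k →+* L) {M : Matrix (Fin 2) (Fin 2) L} (hM : M.det ≠ 0) {X Y : Fin 2 → k}
    (hXY : wd X Y ≠ 0) : wd (M⁻¹.mulVec (mapV ι X)) (M⁻¹.mulVec (mapV ι Y)) ≠ 0 := by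
  rw [wd_mulVec, wd_map]
  exact mul_ne_zero (Xtn_det hM) ((map_ne_zero ι).2 hXY)

theorem gg_ext [Infinite L] (ι : k →+* L) (w : AbsoluteValue L ℝ) (v : AbsoluteValue k ℝ)
    (h : ∀ x, w (ι x) = v x) (hd : 2 ≤ d) {F : Coef k d} (hF : res F ≠ 0)
    {M : Matrix (Fin 2) (Fin 2) L} (hM : M.det ≠ 0) {X Y : Fin 2 → k} (hXY : wd X Y ≠ 0) :
    gg v F X Y =
      gg w (conj (mapC ι F) M) (M⁻¹.mulVec (mapV ι X)) (M⁻¹.mulVec (mapV ι Y)) := by
  have hFL : res (mapC ι F) ≠ 0 := by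
    rw [res_map]
    exact (map_ne_zero ι).2 hF
  rw [gg_conj w hd hFL (wd_ext ι hM hXY) hM, Xtn_mul hM, Xtn_mul hM, gg_map ι w v h]

theorem rr_ext [Infinite L] (ι : k →+* L) (w : AbsoluteValue L ℝ) (v : AbsoluteValue k ℝ)
    (h : ∀ x, w (ι x) = v x) (F : Coef k d)
    {M : Matrix (Fin 2) (Fin 2) L} (hM : M.det ≠ 0) (A : Matrix (Fin 2) (Fin 2) k) :
    rr v (conj F A) = rr w (conj (conj (mapC ι F) M) (M⁻¹ * A.map ι)) := by
  rw [conj_mul, ← Matrix.mul_assoc, Matrix.mul_nonsing_inv M (isUnit_iff_ne_zero.mpr hM),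
    Matrix.one_mul, conj_map, rr_map ι w v h]

theorem tri_ext (ι : k →+* L) (M : Matrix (Fin 2) (Fin 2) L) (X Y : Fin 2 → k) (α β : k) :
    M⁻¹ * (tri X Y α β).map ι = tri (M⁻¹.mulVec (mapV ι X)) (M⁻¹.mulVec (mapV ι Y)) (ι α) (ι β) := by
  ext i j
  rw [Xtn_tri]
  simp only [Matrix.mul_apply, Matrix.map_apply, Xtn_tri, Matrix.mulVec, dotProduct,
    Fin.sum_univ_two, mapV]
  split_ifs
  · simp only [map_mul]; ring
  · simp only [map_mul]; ring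

theorem comb_ext (ι : k →+* L) (M : Matrix (Fin 2) (Fin 2) L) (X Y : Fin 2 → k) (α β : k) :
    M⁻¹.mulVec (mapV ι (α • X + β • Y)) =
      ι α • M⁻¹.mulVec (mapV ι X) + ι β • M⁻¹.mulVec (mapV ι Y) := by
  rw [← Matrix.mulVec_smul, ← Matrix.mulVec_smul, ← Matrix.mulVec_add]
  congr 1
  funext i
  simp [mapV]

end Pool.Agent.LNG
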