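import Pool.Agent.LNG.BakN
import Pool.Agent.LNG.Crd0
import Pool.Agent.LNG.Xtn
import Pool.Agent.LNG.Rmn

/-!
# LNG, BkC (difficulty 1-2): Baker inequality and crude triple bound with the minimal size

`baker_min`: `rmin_glb` with `a = N (K'+1)`, `b = -Σ gg`: for every extension `(L, ι, w, M)` (`w` nonarchimedean: `ext_nonarch`; `L` infinite) `gg_ext` rewrites every `gg v F (X i) (X j)` as `gg w F₀ (p i) (p j)`, `F₀ = conj (mapC ι F) M`,
`p i = M⁻¹ ι(X i)`; apply `baker_nonarch` (`wd_ext`; `p i ≠ 0`).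
`crude_tri`: `rmin_glb` with `a = 7`, `b = R/(d²+d) - S`: `crude0` over `L` with `gg_ext`, `rr_ext`, `tri_ext`, `comb_ext` (and `wd Y (αX+βY) = -α wd X Y ≠ 0` etc. for `gg_ext`).
-/

namespace Pool.Agent.LNG

open Polynomial NumberField IsDedekindDomain

variable {K : Type} [Field K] [NumberField K] {d : ℕ}

theorem baker_min (hd : 2 ≤ d) (v : FinitePlace K) {F : Coef K d} (hF : res F ≠ 0) (K' N : ℕ)
    (hN : N = d ^ K') (X : Fin N → Fin 2 → K) (hX0 : ∀ i, X i ≠ 0)
    (hX : ∀ i j, i < j → wd (X i) (X j) ≠ 0) :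
    -((N : ℝ) * (K' + 1) * rmin v.val F) ≤
      ∑ i, ∑ j ∈ Finset.Ioi i, gg v.val F (X i) (X j) := by
  have ha : 0 ≤ (N : ℝ) * (K' + 1) := by positivity
  have key : -(∑ i, ∑ j ∈ Finset.Ioi i, gg v.val F (X i) (X j)) ≤
      (N : ℝ) * (K' + 1) * rmin v.val F := by
    refine rmin_glb v.val ha ?_
    intro L _ ι w M hw hM
    have : Infinite L := Infinite.of_injective ι ι.injective
    have hna := ext_nonarch v ι w hw
    have hF0 : res (conj (mapC ι F) M) ≠ 0 := by
      rw [res_conj _ hM, res_map]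
      exact mul_ne_zero (pow_ne_zero _ hM) ((map_ne_zero ι).2 hF)
    have e : ∑ i, ∑ j ∈ Finset.Ioi i, gg v.val F (X i) (X j) =
        ∑ i, ∑ j ∈ Finset.Ioi i, gg w (conj (mapC ι F) M) (M⁻¹.mulVec (mapV ι (X i)))
          (M⁻¹.mulVec (mapV ι (X j))) := by
      refine Finset.sum_congr rfl fun i _ => Finset.sum_congr rfl fun j hj => ?_
      exact gg_ext ι w v.val hw hd hF hM (hX i j (Finset.mem_Ioi.mp hj))
    have hb := baker_nonarch hna hd hF0 K' N hN (fun i => M⁻¹.mulVec (mapV ι (X i)))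
      (fun i hi => hX0 i ?_) (fun i j hij => wd_ext ι hM (hX i j hij))
    · rw [e]
      linarith
    · have h1 : M.mulVec (M⁻¹.mulVec (mapV ι (X i))) = 0 := by
        rw [hi]
        simp
      rw [Matrix.mulVec_mulVec, Matrix.mul_nonsing_inv _ (isUnit_iff_ne_zero.mpr hM),
        Matrix.one_mulVec] at h1
      funext l
      have h2 := congrFun h1 l
      simp only [mapV, Pi.zero_apply] at h2
      exact (map_eq_zero ι).1 h2
  linarith

theorem crude_tri (hd : 2 ≤ d) (v : FinitePlace K) {F : Coef K d} (hF : res F ≠ 0)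
    {X Y : Fin 2 → K} (hXY : wd X Y ≠ 0) {α β : K} (hα : α ≠ 0) (hβ : β ≠ 0) :
    rr v.val (conj F (tri X Y α β)) / ((d : ℝ) ^ 2 + d) - 7 * rmin v.val F ≤
      gg v.val F X Y + gg v.val F Y (α • X + β • Y) + gg v.val F (α • X + β • Y) X := by
  have hYZ : wd Y (α • X + β • Y) ≠ 0 := by
    have : wd Y (α • X + β • Y) = -(α * wd X Y) := by
      simp [wd]
      ring
    rw [this]
    exact neg_ne_zero.mpr (mul_ne_zero hα hXY)
  have hZX : wd (α • X + β • Y) X ≠ 0 := by
    have : wd (α • X + β • Y) X = -(β * wd X Y) := by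
      simp [wd]
      ring
    rw [this]
    exact neg_ne_zero.mpr (mul_ne_zero hβ hXY)
  have key : rr v.val (conj F (tri X Y α β)) / ((d : ℝ) ^ 2 + d) -
      (gg v.val F X Y + gg v.val F Y (α • X + β • Y) + gg v.val F (α • X + β • Y) X) ≤
      7 * rmin v.val F := by
    refine rmin_glb v.val (by norm_num) ?_
    intro L _ ι w M hw hM
    have : Infinite L := Infinite.of_injective ι ι.injective
    have hna := ext_nonarch v ι w hw
    have hF0 : res (conj (mapC ι F) M) ≠ 0 := by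
      rw [res_conj _ hM, res_map]
      exact mul_ne_zero (pow_ne_zero _ hM) ((map_ne_zero ι).2 hF)
    have h := crude0 hna hd hF0 (wd_ext ι hM hXY) ((map_ne_zero ι).2 hα) ((map_ne_zero ι).2 hβ)
    rw [← tri_ext, ← rr_ext ι w v.val hw F hM, ← comb_ext, ← gg_ext ι w v.val hw hd hF hM hXY,
      ← gg_ext ι w v.val hw hd hF hM hYZ, ← gg_ext ι w v.val hw hd hF hM hZX] at h
    linarith
  linarith

end Pool.Agent.LNG
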