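import Pool.Agent.LNG.Can

/-!
# LNG, CaG (difficulty 1): the sum of the Green functions

`gg v F X Y = G(X) + G(Y) - log v(X∧Y) - log v(res F)/(d(d-1))`: `FS_G`, `FS_log`, `FS_add`, `FS_mul`, `SA_add`, `SA_mul`, `SA_log`, `canHeight_eq`.
-/

namespace Pool.Agent.LNG

open Polynomial NumberField IsDedekindDomain

variable {K : Type} [Field K] [NumberField K] {d : ℕ}

theorem CaG_wd_left {X Y : Fin 2 → K} (hXY : wd X Y ≠ 0) : X ≠ 0 := by
  rintro rfl
  apply hXY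
  simp [wd]

theorem CaG_wd_right {X Y : Fin 2 → K} (hXY : wd X Y ≠ 0) : Y ≠ 0 := by
  rintro rfl
  apply hXY
  simp [wd]

theorem CaG_fun (F : Coef K d) (X Y : Fin 2 → K) :
    (fun v : AbsoluteValue K ℝ => gg v F X Y) =
      fun v => (G v F X + G v F Y) +
        ((-1) * Real.log (v (wd X Y)) + (-(1 / ((d : ℝ) * (d - 1)))) * Real.log (v (res F))) := by
  funext v
  unfold gg
  ring

theorem FS_gg (hd : 2 ≤ d) {F : Coef K d} (hF : res F ≠ 0) {X Y : Fin 2 → K} (hXY : wd X Y ≠ 0) :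
    FS (fun v => gg v F X Y) := by
  have hX := CaG_wd_left hXY
  have hY := CaG_wd_right hXY
  rw [CaG_fun]
  exact FS_add (FS_add (FS_G hd hF hX) (FS_G hd hF hY))
    (FS_add (FS_mul _ (FS_log hXY)) (FS_mul _ (FS_log hF)))

theorem SA_gg (hd : 2 ≤ d) {F : Coef K d} (hF : res F ≠ 0) {X Y : Fin 2 → K} (hXY : wd X Y ≠ 0) :
    SA (fun v => gg v F X Y) = Module.finrank ℚ K * (canHeight F X + canHeight F Y) := by
  have hX := CaG_wd_left hXY
  have hY := CaG_wd_right hXY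
  have hK : (Module.finrank ℚ K : ℝ) ≠ 0 := by
    exact_mod_cast (Module.finrank_pos (R := ℚ) (M := K)).ne'
  rw [CaG_fun]
  rw [SA_add (FS_add (FS_G hd hF hX) (FS_G hd hF hY))
    (FS_add (FS_mul _ (FS_log hXY)) (FS_mul _ (FS_log hF))),
    SA_add (FS_G hd hF hX) (FS_G hd hF hY),
    SA_add (FS_mul _ (FS_log hXY)) (FS_mul _ (FS_log hF)), SA_mul, SA_mul, SA_log hXY, SA_log hF,
    canHeight_eq hd hF hX, canHeight_eq hd hF hY]
  field_simp
  ring

end Pool.Agent.LNG
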