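import Pool.Agent.LNG.GlG
import Pool.Agent.LNG.GG

/-!
# LNG, Can (difficulty 1-2): properties of the canonical height

`canHeight_eq` from `height_iter_bound` divided by `d^n` (squeeze) and `Filter.Tendsto.limUnder_eq`.
The others follow from `canHeight_eq` and `G_ev`, `G_smul_vec`, `G_smul`, `G_conj`, `SA_add`, `SA_mul`, `SA_log` (the product formula kills the `log v c` terms), and `canHeight_near` from `height_iter_bound` with `n = 0`.
`canHeight_nonneg`: limit of nonnegative numbers (`Height.logHeight_nonneg`).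
-/

namespace Pool.Agent.LNG

open Polynomial NumberField IsDedekindDomain

variable {K : Type} [Field K] [NumberField K] {d : ℕ}

theorem Can_rpos : (0 : ℝ) < (Module.finrank ℚ K : ℝ) := by
  exact_mod_cast Module.finrank_pos

theorem Can_tendsto (hd : 2 ≤ d) {F : Coef K d} (hF : res F ≠ 0) {P : Fin 2 → K} (hP : P ≠ 0) :
    Filter.Tendsto (fun n : ℕ => absHeight ((ev F)^[n] P) / (d : ℝ) ^ n) Filter.atTop
      (nhds (SA (fun v => G v F P) / Module.finrank ℚ K)) := by
  obtain ⟨C, hC⟩ := height_iter_bound hd hF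
  have hr : (0 : ℝ) < (Module.finrank ℚ K : ℝ) := Can_rpos (K := K)
  have hd1 : (1 : ℝ) < (d : ℝ) := by
    have : (2 : ℝ) ≤ (d : ℝ) := by exact_mod_cast hd
    linarith
  rw [tendsto_iff_norm_sub_tendsto_zero]
  have h0 : Filter.Tendsto (fun n : ℕ => C / (Module.finrank ℚ K : ℝ) * ((d : ℝ)⁻¹) ^ n)
      Filter.atTop (nhds (C / (Module.finrank ℚ K : ℝ) * 0)) := by
    apply Filter.Tendsto.const_mul
    apply tendsto_pow_atTop_nhds_zero_of_lt_one
    · positivity
    · exact inv_lt_one_of_one_lt₀ hd1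
  rw [mul_zero] at h0
  refine squeeze_zero (fun n => norm_nonneg _) (fun n => ?_) h0
  have h1 := hC P hP n
  have hdn : (0 : ℝ) < (d : ℝ) ^ n := by positivity
  have e1 : absHeight ((ev F)^[n] P) / (d : ℝ) ^ n - SA (fun v => G v F P) / Module.finrank ℚ K =
      (Height.logHeight ((ev F)^[n] P) - (d : ℝ) ^ n * SA (fun v => G v F P)) /
        ((Module.finrank ℚ K : ℝ) * (d : ℝ) ^ n) := by
    unfold absHeight
    field_simp
  rw [e1, Real.norm_eq_abs, abs_div, abs_of_pos (mul_pos hr hdn), div_le_iff₀ (mul_pos hr hdn)]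
  calc _ ≤ C := h1
    _ = _ := by
      rw [inv_pow]
      field_simp

theorem canHeight_eq (hd : 2 ≤ d) {F : Coef K d} (hF : res F ≠ 0) {P : Fin 2 → K} (hP : P ≠ 0) :
    canHeight F P = SA (fun v => G v F P) / Module.finrank ℚ K :=
  (Can_tendsto hd hF hP).limUnder_eq

theorem canHeight_nonneg (hd : 2 ≤ d) {F : Coef K d} (hF : res F ≠ 0) {P : Fin 2 → K}
    (hP : P ≠ 0) : 0 ≤ canHeight F P := by
  rw [canHeight_eq hd hF hP]
  refine ge_of_tendsto' (Can_tendsto hd hF hP) (fun n => ?_)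
  unfold absHeight
  have h1 : 0 ≤ Height.logHeight ((ev F)^[n] P) := Height.logHeight_nonneg _
  have hr : (0 : ℝ) < (Module.finrank ℚ K : ℝ) := Can_rpos (K := K)
  positivity

theorem canHeight_iter (hd : 2 ≤ d) {F : Coef K d} (hF : res F ≠ 0) {P : Fin 2 → K}
    (hP : P ≠ 0) (n : ℕ) : canHeight F ((ev F)^[n] P) = (d : ℝ) ^ n * canHeight F P := by
  have hne : ∀ n, (ev F)^[n] P ≠ 0 := fun n => iter_ne_zero (by omega) hF hP n
  have hG : ∀ (v : AbsoluteValue K ℝ) (n : ℕ),
      G v F ((ev F)^[n] P) = (d : ℝ) ^ n * G v F P := by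
    intro v n
    induction n with
    | zero => simp
    | succ n ih =>
      rw [Function.iterate_succ_apply', G_ev v hd hF (hne n), ih, pow_succ]
      ring
  rw [canHeight_eq hd hF (hne n), canHeight_eq hd hF hP]
  simp only [hG]
  rw [SA_mul]
  ring

theorem canHeight_smul_vec (hd : 2 ≤ d) {F : Coef K d} (hF : res F ≠ 0) {P : Fin 2 → K}
    (hP : P ≠ 0) {c : K} (hc : c ≠ 0) : canHeight F (c • P) = canHeight F P := by
  have hcP : c • P ≠ 0 := smul_ne_zero hc hP
  rw [canHeight_eq hd hF hcP, canHeight_eq hd hF hP]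
  have hG : (fun v : AbsoluteValue K ℝ => G v F (c • P)) =
      fun v => G v F P + Real.log (v c) := by
    funext v
    exact G_smul_vec v hd hF hP hc
  rw [hG, SA_add (FS_G hd hF hP) (FS_log hc), SA_log hc, add_zero]

theorem canHeight_smul (hd : 2 ≤ d) {F : Coef K d} (hF : res F ≠ 0) {P : Fin 2 → K}
    (hP : P ≠ 0) {c : K} (hc : c ≠ 0) : canHeight (c • F) P = canHeight F P := by
  have hcF : res (c • F) ≠ 0 := by
    rw [res_smul]
    exact mul_ne_zero (pow_ne_zero _ hc) hF
  rw [canHeight_eq hd hcF hP, canHeight_eq hd hF hP]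
  have hG : (fun v : AbsoluteValue K ℝ => G v (c • F) P) =
      fun v => G v F P + (1 / ((d : ℝ) - 1)) * Real.log (v c) := by
    funext v
    rw [G_smul v hd hF hP hc]
    ring
  rw [hG, SA_add (FS_G hd hF hP) (FS_mul _ (FS_log hc)), SA_mul, SA_log hc, mul_zero, add_zero]

theorem canHeight_conj (hd : 2 ≤ d) {F : Coef K d} (hF : res F ≠ 0) {P : Fin 2 → K}
    (hP : P ≠ 0) {A : Matrix (Fin 2) (Fin 2) K} (hA : A.det ≠ 0) :
    canHeight (conj F A) P = canHeight F (A.mulVec P) := by
  have hu : IsUnit A.det := isUnit_iff_ne_zero.mpr hA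
  have hAP : A.mulVec P ≠ 0 := by
    intro h
    apply hP
    have h1 : A⁻¹.mulVec (A.mulVec P) = P := by
      rw [Matrix.mulVec_mulVec, Matrix.nonsing_inv_mul A hu, Matrix.one_mulVec]
    rw [h, Matrix.mulVec_zero] at h1
    exact h1.symm
  have hres : res (conj F A) ≠ 0 := by
    rw [res_conj F hA]
    exact mul_ne_zero (pow_ne_zero _ hA) hF
  rw [canHeight_eq hd hres hP, canHeight_eq hd hF hAP]
  have hG : (fun v : AbsoluteValue K ℝ => G v (conj F A) P) =
      fun v => G v F (A.mulVec P) := by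
    funext v
    exact G_conj v hd hF hP hA
  rw [hG]

theorem canHeight_near (hd : 2 ≤ d) {F : Coef K d} (hF : res F ≠ 0) :
    ∃ C : ℝ, ∀ P : Fin 2 → K, P ≠ 0 → |absHeight P - canHeight F P| ≤ C := by
  obtain ⟨C, hC⟩ := height_iter_bound hd hF
  have hr : (0 : ℝ) < (Module.finrank ℚ K : ℝ) := Can_rpos (K := K)
  refine ⟨C / (Module.finrank ℚ K : ℝ), fun P hP => ?_⟩
  have h1 := hC P hP 0
  simp only [Function.iterate_zero, id, pow_zero, one_mul] at h1
  rw [canHeight_eq hd hF hP]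
  unfold absHeight
  rw [← sub_div, abs_div, abs_of_pos hr]
  exact div_le_div_of_nonneg_right h1 hr.le

end Pool.Agent.LNG
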