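import Pool.Agent.LNG.GG
import Pool.Agent.LNG.Wdg

/-!
# LNG, Nai (difficulty 1): the crude lower bound for `g`, the crude upper bound for `r(F_A)`

`gg_naive`: `G_spec` at `n = 0` (`log (cn v F) = 0`): `0 = log ‖X‖ ≤ G(X) + (r+2l)/(d-1)`, so
`g(X,Y) ≥ -2(r+2l)/(d-1) - log|X∧Y| + r/(d(d-1)) ≥ -log|X∧Y| - 2(r+2l) - l` (use `r ≥ -l` (`rr_ge`), `d - 1 ≥ 1`, `l ≥ 0`).
`rr_tri_le`: `rr_conj_le` with `mn v (tri X Y α β) = max(|α|,|β|)` (`mn_tri`), `|det| = |α||β||X∧Y|` (`tri_det`), `max(|α|,|β|)² ≤ 2|α||β|`.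
-/

namespace Pool.Agent.LNG

open Polynomial

variable {k : Type*} [Field k] {d : ℕ}

theorem gg_naive {v : AbsoluteValue k ℝ} {σ : ℝ} (hσ : SumBound v (bigM d) σ) (hd : 2 ≤ d)
    {F : Coef k d} (hF : res F ≠ 0) (hcn : cn v F = 1) {X Y : Fin 2 → k} (hX : vn v X = 1)
    (hY : vn v Y = 1) :
    - Real.log (v (wd X Y)) - 2 * rr v F - 5 * Real.log σ ≤ gg v F X Y := by
  have hX0 : X ≠ 0 := by
    rintro rfl
    simp [vn] at hX
  have hY0 : Y ≠ 0 := by
    rintro rfl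
    simp [vn] at hY
  have gX := (G_spec hσ hd hF hX0).2.1 0
  have gY := (G_spec hσ hd hF hY0).2.1 0
  have hr : rr v F = - Real.log (v (res F)) := by
    unfold rr; rw [hcn, Real.log_one]; ring
  have hrge := rr_ge hσ (by omega) hF
  have hl : 0 ≤ Real.log σ := Real.log_nonneg hσ.one_le
  simp only [Function.iterate_zero, id_eq, hX, hcn, Real.log_one, pow_zero, one_mul, mul_zero,
    add_zero] at gX
  simp only [Function.iterate_zero, id_eq, hY, hcn, Real.log_one, pow_zero, one_mul, mul_zero,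
    add_zero] at gY
  have hD : (2 : ℝ) ≤ d := by exact_mod_cast hd
  have hD1 : (0 : ℝ) < (d : ℝ) - 1 := by linarith
  have hD0 : (0 : ℝ) < d := by linarith
  unfold gg
  set r := rr v F with hrdef
  set l := Real.log σ with hl'
  have e1 : 2 * l - Real.log (v (res F)) = 2 * l + r := by rw [hr]; ring
  rw [e1] at gX gY
  have e2 : Real.log (v (res F)) = - r := by rw [hr]; ring
  rw [e2]
  have key : -2 * r - 5 * l ≤ -2 * ((2 * l + r) / ((d : ℝ) - 1)) - -r / ((d : ℝ) * (d - 1)) := by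
    have h3 : -2 * ((2 * l + r) / ((d : ℝ) - 1)) - -r / ((d : ℝ) * (d - 1)) - (-2 * r - 5 * l) =
        (r * (2 * d ^ 2 - 4 * d + 1) + l * (5 * d ^ 2 - 9 * d)) / ((d : ℝ) * (d - 1)) := by
      field_simp
      ring
    have h4 : 0 ≤ r * (2 * (d : ℝ) ^ 2 - 4 * d + 1) + l * (5 * d ^ 2 - 9 * d) := by
      have h5 : 0 ≤ 2 * (d : ℝ) ^ 2 - 4 * d + 1 := by nlinarith
      have h6 : 0 ≤ 3 * (d : ℝ) ^ 2 - 5 * d - 1 := by nlinarith
      have h7 : 0 ≤ (r + l) * (2 * (d : ℝ) ^ 2 - 4 * d + 1) :=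
        mul_nonneg (by linarith) h5
      have h8 : 0 ≤ l * (3 * (d : ℝ) ^ 2 - 5 * d - 1) := mul_nonneg hl h6
      nlinarith
    have h9 : 0 ≤ (r * (2 * (d : ℝ) ^ 2 - 4 * d + 1) + l * (5 * d ^ 2 - 9 * d)) / ((d : ℝ) * (d - 1)) :=
      div_nonneg h4 (by positivity)
    linarith
  linarith

theorem rr_tri_le [Infinite k] {v : AbsoluteValue k ℝ} {σ : ℝ} (hσ : SumBound v (bigM d) σ) (hd : 2 ≤ d)
    {F : Coef k d} (hF : res F ≠ 0) {X Y : Fin 2 → k} {α β : k} (hX : vn v X = 1)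
    (hY : vn v Y = 1) (hXY : wd X Y ≠ 0) (hα : α ≠ 0) (hβ : β ≠ 0) (h1 : v α ≤ 2 * v β)
    (h2 : v β ≤ 2 * v α) :
    rr v (conj F (tri X Y α β)) ≤ rr v F +
      ((d : ℝ) ^ 2 + d) * (Real.log 2 - Real.log (v (wd X Y))) + 2 * d * (d + 2) * Real.log σ := by
  have hdet : (tri X Y α β).det = - (α * β * wd X Y) := tri_det X Y α β
  have hdet0 : (tri X Y α β).det ≠ 0 := by
    rw [hdet, neg_ne_zero]
    exact mul_ne_zero (mul_ne_zero hα hβ) hXY
  have h := rr_conj_le hσ (by omega) hF hdet0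
  rw [mn_tri v X Y α β hX hY, hdet, v.map_neg, map_mul, map_mul] at h
  have pa : 0 < v α := v.pos hα
  have pb : 0 < v β := v.pos hβ
  have pw : 0 < v (wd X Y) := v.pos hXY
  rw [Real.log_mul (by positivity) pw.ne', Real.log_mul pa.ne' pb.ne'] at h
  have hmax : 2 * Real.log (max (v α) (v β)) ≤ Real.log 2 + Real.log (v α) + Real.log (v β) := by
    have h3 : (max (v α) (v β)) ^ 2 ≤ 2 * v α * v β := by
      rcases le_total (v α) (v β) with h | h
      · rw [max_eq_right h]; nlinarith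
      · rw [max_eq_left h]; nlinarith
    have h4 : Real.log ((max (v α) (v β)) ^ 2) ≤ Real.log (2 * v α * v β) :=
      Real.log_le_log (by positivity) h3
    rw [Real.log_pow, Real.log_mul (by positivity) pb.ne', Real.log_mul (by norm_num) pa.ne'] at h4
    exact_mod_cast h4
  have h5 : ((d : ℝ) ^ 2 + d) * (2 * Real.log (max (v α) (v β)) -
      (Real.log (v α) + Real.log (v β) + Real.log (v (wd X Y)))) ≤
      ((d : ℝ) ^ 2 + d) * (Real.log 2 - Real.log (v (wd X Y))) := by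
    apply mul_le_mul_of_nonneg_left _ (by positivity)
    linarith
  linarith

end Pool.Agent.LNG
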