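import Pool.Agent.LNG.Cls
import Pool.Agent.LNG.Nai

/-!
# LNG, ClA (difficulty 2): numerics of the close case

`σ = bigM d` (`sumBound_arch`), `l = log σ ≥ 0`, `c_d = cK d > 0`, `η = c_d/12`, `r = rr v F ≥ -l` (`rr_ge`), `r₊ = max r 1 ≤ r + 1 + (1 + l)`, `h = η r₊ + 1`, `ε = (r+3l)/((d-1)d^n) ≤ η (r₊ + 3l)` by `hn` (`r + 3l ≥ 0`).
`hmin`: `rr v (conj F A) ≥ r - 1 ≥ r₊ - 3 - l` for all invertible `A`.
(a) `close_pair` with `α = β = 1`: `R' = rr(conj F (tri X Y 1 1))`, `2 log(1 + e^h) ≤ 2h + 2 log 2`, so `gg ≥ c_d R' - (l + 2(d+1)) - 3h - 2 log 2 - 3ε`, `3h + 3ε ≤ 6 η r₊ + 3 + 9 η l = (c_d/2) r₊ + 3 + 9 η l`, `c_d R' ≥ c_d (r₊ - 3 - l)`.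
Hence `gg ≥ (c_d/2) r₊ - C ≥ -C`.
(b) `close_pair` with `α, β`: `log(|α| + |β|e^h) ≤ h + log(|α|+|β|)`, `(|α|+|β|)² ≤ 9 |α||β|` (as `|α| ≤ 2|β|`, `|β| ≤ 2|α|`), so `gg ≥ c_d R - (l+2(d+1)) - 3h - log 9 - 3ε` and `(c_d/2) r₊ ≤ (c_d/2)(R + 3 + l)`.
-/

namespace Pool.Agent.LNG

open Polynomial

variable {k : Type*} [Field k] {d : ℕ}

theorem cK_pos_aux (d : ℕ) (hd : 2 ≤ d) : 0 < cK d := by
  unfold cK
  have h2 : (2 : ℝ) ≤ d := by exact_mod_cast hd
  apply div_pos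
  · linarith
  · apply mul_pos
    · positivity
    · linarith

theorem close_num (d : ℕ) (hd : 2 ≤ d) : ∃ C : ℝ, 0 ≤ C ∧
    ∀ (k : Type) [Field k] [Infinite k] (v : AbsoluteValue k ℝ), MProp v →
      ∀ F : Coef k d, res F ≠ 0 → cn v F = 1 →
        (∀ A : Matrix (Fin 2) (Fin 2) k, A.det ≠ 0 → rr v F ≤ rr v (conj F A) + 1) →
        ∀ n : ℕ, 12 / cK d ≤ (d : ℝ) ^ n →
        ∀ (a : Fin 2 → k) (Z : Fin 2 → Fin (d ^ n) → Fin 2 → k),
        (∀ X i, (ev F)^[n] X i = a i * ∏ j, wd X (Z i j)) →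
        ∀ X Y, vn v X = 1 → vn v Y = 1 → wd X Y ≠ 0 →
        (∀ i j, v (wd X (Z i j)) ≤ Real.exp (cK d / 12 * max (rr v F) 1 + 1) * v (wd Y (Z i j))) →
        (∀ i j, v (wd Y (Z i j)) ≤ Real.exp (cK d / 12 * max (rr v F) 1 + 1) * v (wd X (Z i j))) →
        -C ≤ gg v F X Y ∧
        ∀ α β : k, α ≠ 0 → β ≠ 0 → v α ≤ 2 * v β → v β ≤ 2 * v α →
          cK d / 2 * rr v (conj F (tri X Y α β)) - C ≤ gg v F X Y := by
  have hc : 0 < cK d := cK_pos_aux d hd
  have hσ1 : (1 : ℝ) ≤ (bigM d : ℝ) := by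
    have : 1 ≤ bigM d := Nat.factorial_pos _
    exact_mod_cast this
  obtain ⟨l, hldef⟩ : ∃ l : ℝ, l = Real.log (bigM d : ℝ) := ⟨_, rfl⟩
  have hl : 0 ≤ l := by rw [hldef]; exact Real.log_nonneg hσ1
  obtain ⟨c, hcdef⟩ : ∃ c : ℝ, c = cK d := ⟨_, rfl⟩
  have hlog9 : 0 ≤ Real.log 9 := Real.log_nonneg (by norm_num)
  have hlog29 : 2 * Real.log 2 ≤ Real.log 9 := by
    have h1 : 2 * Real.log 2 = Real.log 4 := by
      rw [show (4 : ℝ) = 2 ^ 2 by norm_num, Real.log_pow]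
      norm_num
    rw [h1]
    exact Real.log_le_log (by norm_num) (by norm_num)
  have hd2 : (2 : ℝ) ≤ d := by exact_mod_cast hd
  rw [← hcdef] at hc
  have hcl : 0 ≤ c * l := mul_nonneg hc.le hl
  refine ⟨c * (2 + l) + l + 2 * (d + 1) + 3 + Real.log 9 + c * l, by positivity, ?_⟩
  intro k _ _ v hM F hF hcn hmin n hn a Z hfac X Y hX hY hXY h1 h2
  rw [← hcdef] at hn h1 h2 ⊢
  have hσ : SumBound v (bigM d) (bigM d : ℝ) := sumBound_arch v _ (Nat.factorial_pos _)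
  have hr : -l ≤ rr v F := by rw [hldef]; exact rr_ge hσ (by omega) hF
  set r := rr v F with hrdef
  set rp := max r 1 with hrp
  have hrp1 : 1 ≤ rp := le_max_right _ _
  have hrpr : r ≤ rp := le_max_left _ _
  have hrpl : rp ≤ r + 1 + l := by
    rw [hrp]
    apply max_le <;> linarith
  set h := c / 12 * rp + 1 with hh
  have hh0 : 0 ≤ h := by
    rw [hh]
    positivity
  have hεbound : (r + 3 * l) / (((d : ℝ) - 1) * (d : ℝ) ^ n) ≤ c / 12 * (rp + 3 * l) := by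
    have hnum : 0 ≤ r + 3 * l := by linarith
    have hdn : 0 < (d : ℝ) ^ n := by positivity
    have h3 : (d : ℝ) ^ n ≤ ((d : ℝ) - 1) * (d : ℝ) ^ n := by nlinarith
    have h4 : (r + 3 * l) / (((d : ℝ) - 1) * (d : ℝ) ^ n) ≤ (r + 3 * l) / (d : ℝ) ^ n :=
      div_le_div_of_nonneg_left hnum hdn h3
    have h5 : (r + 3 * l) / (d : ℝ) ^ n ≤ c / 12 * (r + 3 * l) := by
      rw [div_le_iff₀ hdn]
      rw [div_le_iff₀ hc] at hn
      have h6 : 1 ≤ c / 12 * (d : ℝ) ^ n := by linarith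
      nlinarith
    have h7 : c / 12 * (r + 3 * l) ≤ c / 12 * (rp + 3 * l) := by
      apply mul_le_mul_of_nonneg_left _ (by positivity)
      linarith
    linarith
  have hpair : ∀ α β : k, α ≠ 0 → β ≠ 0 → v α ≤ 2 * v β → v β ≤ 2 * v α →
      c * rr v (conj F (tri X Y α β)) ≤ gg v F X Y + (l + 2 * (d + 1)) + 3 * h + Real.log 9 +
        3 * (c / 12 * (rp + 3 * l)) := by
    intro α β hα hβ hαβ hβα
    have h3 := close_pair hM hσ hd hF hcn hfac hX hY hXY hh0 h1 h2 hα hβ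
    rw [← hcdef, ← hldef] at h3
    have hvα : 0 < v α := v.pos hα
    have hvβ : 0 < v β := v.pos hβ
    have hexp : 1 ≤ Real.exp h := Real.one_le_exp hh0
    have h4 : Real.log (v α + v β * Real.exp h) ≤ h + Real.log (v α + v β) := by
      have h5 : v α + v β * Real.exp h ≤ Real.exp h * (v α + v β) := by nlinarith
      calc Real.log (v α + v β * Real.exp h) ≤ Real.log (Real.exp h * (v α + v β)) :=
            Real.log_le_log (by positivity) h5
        _ = h + Real.log (v α + v β) := by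
            rw [Real.log_mul (Real.exp_pos _).ne' (by positivity), Real.log_exp]
    have h6 : 2 * Real.log (v α + v β) ≤ Real.log 9 + Real.log (v α) + Real.log (v β) := by
      have h7 : 2 * Real.log (v α + v β) = Real.log ((v α + v β) ^ 2) := by
        rw [Real.log_pow]
        norm_num
      rw [h7, ← Real.log_mul (by norm_num) hvα.ne', ← Real.log_mul (by positivity) hvβ.ne']
      apply Real.log_le_log (by positivity)
      nlinarith
    linarith
  constructor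
  · have h3 := hpair 1 1 one_ne_zero one_ne_zero (by simp) (by simp)
    have h4 := hmin (tri X Y 1 1) (by
      rw [tri_det]
      simpa using hXY)
    have h5 : c * (r - 1) ≤ c * rr v (conj F (tri X Y 1 1)) :=
      mul_le_mul_of_nonneg_left (by linarith) hc.le
    have h6 : c * (rp - 1 - l) ≤ c * r := mul_le_mul_of_nonneg_left (by linarith) hc.le
    have h7 : 0 ≤ c * rp := by positivity
    nlinarith
  · intro α β hα hβ hαβ hβα
    have h3 := hpair α β hα hβ hαβ hβα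
    have h4 := hmin (tri X Y α β) (by
      rw [tri_det]
      exact neg_ne_zero.mpr (mul_ne_zero (mul_ne_zero hα hβ) hXY))
    have h5 : c * rp ≤ c * (rr v (conj F (tri X Y α β)) + 1 + 1 + l) :=
      mul_le_mul_of_nonneg_left (by linarith) hc.le
    nlinarith

end Pool.Agent.LNG
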