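import Pool.Agent.LNG.Nai

/-!
# LNG, ClB (difficulty 1-2): numerics of the truncated case

`σ = bigM d`, `l = log σ ≥ 0`, `r = rr v F ≥ -l`, `r₊ = max r 1 ≥ 1`, `t = -log|X∧Y| ≥ C' r₊ - log 4`. Take `C' = 4 + 10 l + 2 log 4` or larger, so that `t/2 ≥ 2 r₊ + 5 l ≥ 2r + 5l` and `t ≥ r₊`, `t ≥ 1`.
`gg_naive`: `gg ≥ t - 2r - 5l ≥ t/2 ≥ 0`.
`rr_tri_le`: `R ≤ r + (d²+d)(log 2 + t) + 2d(d+2) l ≤ (1 + d² + d) t + C₃`, `C₃ = (d²+d) log 2 + 2d(d+2) l`; so `gg ≥ t/2 ≥ (R - C₃)/(2(1+d²+d))`: `c = 1/(2(1+d²+d))`, `C = c C₃`.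
-/

namespace Pool.Agent.LNG

open Polynomial

variable {k : Type*} [Field k] {d : ℕ}

theorem trunc_num (d : ℕ) (hd : 2 ≤ d) : ∃ (C' c C : ℝ), 0 < C' ∧ 0 < c ∧ 0 ≤ C ∧
    ∀ (k : Type) [Field k] [Infinite k] (v : AbsoluteValue k ℝ),
      ∀ F : Coef k d, res F ≠ 0 → cn v F = 1 →
        ∀ X Y, vn v X = 1 → vn v Y = 1 → wd X Y ≠ 0 →
        v (wd X Y) ≤ 4 * Real.exp (-(C' * max (rr v F) 1)) →
        0 ≤ gg v F X Y ∧
        ∀ α β : k, α ≠ 0 → β ≠ 0 → v α ≤ 2 * v β → v β ≤ 2 * v α →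
          c * rr v (conj F (tri X Y α β)) - C ≤ gg v F X Y := by
  have hM : 1 ≤ bigM d := Nat.one_le_iff_ne_zero.2 (Nat.factorial_ne_zero _)
  set l : ℝ := Real.log (bigM d : ℝ) with hl
  have hl0 : 0 ≤ l := Real.log_nonneg (by exact_mod_cast hM)
  have hlog2 : 0 < Real.log 2 := Real.log_pos (by norm_num)
  have hlog4 : 0 < Real.log 4 := Real.log_pos (by norm_num)
  set D : ℝ := (d : ℝ) ^ 2 + d with hD
  have hD0 : 0 ≤ D := by positivity
  set C3 : ℝ := D * Real.log 2 + 2 * d * (d + 2) * l with hC3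
  have hC30 : 0 ≤ C3 := by positivity
  refine ⟨4 + 10 * l + 2 * Real.log 4, 1 / (2 * (1 + D)), 1 / (2 * (1 + D)) * C3, by positivity,
    by positivity, by positivity, ?_⟩
  intro k _ _ v F hF hcn X Y hX hY hXY hw
  have hσ : SumBound v (bigM d) (bigM d : ℝ) := sumBound_arch v (bigM d) hM
  have hwpos : 0 < v (wd X Y) := v.pos hXY
  have hr1 : rr v F ≤ max (rr v F) 1 := le_max_left _ _
  have hr2 : 1 ≤ max (rr v F) 1 := le_max_right _ _
  set rp : ℝ := max (rr v F) 1 with hrp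
  have ht : Real.log (v (wd X Y)) ≤ Real.log 4 - (4 + 10 * l + 2 * Real.log 4) * rp := by
    have := Real.log_le_log hwpos hw
    rw [Real.log_mul (by norm_num) (Real.exp_pos _).ne', Real.log_exp] at this
    linarith
  set t : ℝ := - Real.log (v (wd X Y)) with htdef
  have ht1 : 4 * rp + 10 * l ≤ t := by
    have e1 : 10 * l ≤ 10 * l * rp := le_mul_of_one_le_right (by positivity) hr2
    have e2 : 2 * Real.log 4 ≤ 2 * Real.log 4 * rp := le_mul_of_one_le_right (by positivity) hr2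
    have e3 : t = - Real.log (v (wd X Y)) := htdef
    nlinarith
  have hg := gg_naive hσ hd hF hcn hX hY
  have hg' : t / 2 ≤ gg v F X Y := by
    have e3 : t = - Real.log (v (wd X Y)) := htdef
    linarith
  have ht0 : 0 ≤ t := by linarith
  refine ⟨by linarith, ?_⟩
  intro α β hα hβ h1 h2
  have hR := rr_tri_le hσ hd hF hX hY hXY hα hβ h1 h2
  have hR' : rr v (conj F (tri X Y α β)) ≤ (1 + D) * t + C3 := by
    have e3 : t = - Real.log (v (wd X Y)) := htdef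
    have e4 : rr v (conj F (tri X Y α β)) ≤ rr v F + D * (Real.log 2 + t) +
        2 * d * (d + 2) * l := by
      rw [e3]
      simpa [hD, hl, sub_eq_add_neg] using hR
    rw [hC3]
    nlinarith
  have hpos : 0 < 1 / (2 * (1 + D)) := by positivity
  calc 1 / (2 * (1 + D)) * rr v (conj F (tri X Y α β)) - 1 / (2 * (1 + D)) * C3
      ≤ 1 / (2 * (1 + D)) * ((1 + D) * t + C3) - 1 / (2 * (1 + D)) * C3 := by
        have := mul_le_mul_of_nonneg_left hR' hpos.le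
        linarith
    _ = t / 2 := by
        field_simp
        ring
    _ ≤ gg v F X Y := hg'

end Pool.Agent.LNG
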