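import Pool.Agent.LNG.Est0

/-!
# LNG, Clr (difficulty 1-2): the colouring

Put `c(X)_i = L` if `wd X (Z i) = 0`, and otherwise `c(X)_i = min L ⌊(log 2 - log |X ∧ Z_i|)/h⌋₊`. For `X` with `vn v X = 1`, `|X ∧ Z_i| ≤ 2` (`wd_le`), so
`log 2 - log |X ∧ Z_i| ≥ 0`. If `c(X)_i = L` then `X ∧ Z_i = 0` or `(log 2 - log|X ∧ Z_i|)/h ≥ L`, i.e. `|X ∧ Z_i| ≤ 2 e^{-hL}`: second alternative for
`X` and `Y`. If `c(X)_i = c(Y)_i < L`, the floors are equal, so the two logarithms differ by less than `h`: first alternative.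
-/

namespace Pool.Agent.LNG

open Polynomial

variable {k : Type*} [Field k] {d : ℕ}

/-- The colour of a nonnegative real number. -/
noncomputable def Clr_col (L : ℕ) (h a : ℝ) : ℕ :=
  open Classical in if a = 0 then L else min L ⌊(Real.log 2 - Real.log a) / h⌋₊

theorem Clr_col_le (L : ℕ) (h a : ℝ) : Clr_col L h a ≤ L := by
  unfold Clr_col
  split_ifs
  · exact le_refl _
  · exact min_le_left _ _

theorem Clr_col_top {L : ℕ} {h a : ℝ} (hh : 0 < h) (ha : 0 ≤ a) (ha2 : a ≤ 2)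
    (hc : Clr_col L h a = L) : a ≤ 2 * Real.exp (-(h * L)) := by
  by_cases h0 : a = 0
  · rw [h0]; positivity
  · unfold Clr_col at hc
    rw [if_neg h0] at hc
    have ha' : 0 < a := lt_of_le_of_ne ha (Ne.symm h0)
    have h1 : L ≤ ⌊(Real.log 2 - Real.log a) / h⌋₊ := by
      rw [← hc]; exact (min_le_right _ _)
    by_cases hL : L = 0
    · subst hL
      simpa using ha2
    · have h2 : (L : ℝ) ≤ (Real.log 2 - Real.log a) / h := (Nat.le_floor_iff' hL).1 h1
      rw [le_div_iff₀ hh] at h2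
      have h3 : Real.log a ≤ Real.log 2 + -(h * L) := by linarith
      calc a = Real.exp (Real.log a) := (Real.exp_log ha').symm
        _ ≤ Real.exp (Real.log 2 + -(h * L)) := Real.exp_le_exp.2 h3
        _ = 2 * Real.exp (-(h * L)) := by rw [Real.exp_add, Real.exp_log (by norm_num)]

theorem Clr_col_lt {L : ℕ} {h a : ℝ} (hh : 0 < h) (ha : 0 ≤ a) (ha2 : a ≤ 2)
    (hc : Clr_col L h a < L) : 0 < a ∧
      (Clr_col L h a : ℝ) * h ≤ Real.log 2 - Real.log a ∧
      Real.log 2 - Real.log a < ((Clr_col L h a : ℝ) + 1) * h := by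
  by_cases h0 : a = 0
  · unfold Clr_col at hc
    rw [if_pos h0] at hc
    exact absurd hc (lt_irrefl _)
  · have ha' : 0 < a := lt_of_le_of_ne ha (Ne.symm h0)
    have e : Clr_col L h a = ⌊(Real.log 2 - Real.log a) / h⌋₊ := by
      unfold Clr_col at hc ⊢
      rw [if_neg h0] at hc ⊢
      rcases min_lt_iff.1 hc with h1 | h1
      · exact absurd h1 (lt_irrefl _)
      · exact min_eq_right h1.le
    have hlog : Real.log a ≤ Real.log 2 := Real.log_le_log ha' ha2
    have hq : 0 ≤ (Real.log 2 - Real.log a) / h := div_nonneg (by linarith) hh.le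
    refine ⟨ha', ?_, ?_⟩
    · rw [e]
      have := Nat.floor_le hq
      rwa [le_div_iff₀ hh] at this
    · rw [e]
      have := Nat.lt_floor_add_one ((Real.log 2 - Real.log a) / h)
      rwa [div_lt_iff₀ hh] at this

theorem Clr_key {L : ℕ} {h a b : ℝ} (hh : 0 < h) (ha : 0 ≤ a) (ha2 : a ≤ 2) (hb : 0 ≤ b)
    (hb2 : b ≤ 2) (hc : Clr_col L h a = Clr_col L h b) :
    (a ≤ Real.exp h * b ∧ b ≤ Real.exp h * a) ∨
      (a ≤ 2 * Real.exp (-(h * L)) ∧ b ≤ 2 * Real.exp (-(h * L))) := by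
  rcases (Clr_col_le L h a).lt_or_eq with h1 | h1
  · left
    obtain ⟨pa, a1, a2⟩ := Clr_col_lt hh ha ha2 h1
    obtain ⟨pb, b1, b2⟩ := Clr_col_lt hh hb hb2 (hc ▸ h1)
    rw [← hc] at b1 b2
    constructor
    · calc a = Real.exp (Real.log a) := (Real.exp_log pa).symm
        _ ≤ Real.exp (h + Real.log b) := Real.exp_le_exp.2 (by linarith)
        _ = Real.exp h * b := by rw [Real.exp_add, Real.exp_log pb]
    · calc b = Real.exp (Real.log b) := (Real.exp_log pb).symm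
        _ ≤ Real.exp (h + Real.log a) := Real.exp_le_exp.2 (by linarith)
        _ = Real.exp h * a := by rw [Real.exp_add, Real.exp_log pa]
  · right
    exact ⟨Clr_col_top hh ha ha2 h1, Clr_col_top hh hb hb2 (hc ▸ h1)⟩

theorem exists_colour (v : AbsoluteValue k ℝ) (m L : ℕ) {h : ℝ} (hh : 0 < h)
    (Z : Fin m → Fin 2 → k) (hZ : ∀ i, vn v (Z i) = 1) :
    ∃ χ : (Fin 2 → k) → (Fin m → Fin (L + 1)), ∀ X Y, vn v X = 1 → vn v Y = 1 → χ X = χ Y →
      ∀ i, (v (wd X (Z i)) ≤ Real.exp h * v (wd Y (Z i)) ∧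
            v (wd Y (Z i)) ≤ Real.exp h * v (wd X (Z i))) ∨
          (v (wd X (Z i)) ≤ 2 * Real.exp (-(h * L)) ∧ v (wd Y (Z i)) ≤ 2 * Real.exp (-(h * L))) := by
  refine ⟨fun X i => ⟨Clr_col L h (v (wd X (Z i))), Nat.lt_succ_of_le (Clr_col_le _ _ _)⟩, ?_⟩
  intro X Y hX hY hχ i
  have e : Clr_col L h (v (wd X (Z i))) = Clr_col L h (v (wd Y (Z i))) := by
    have := congrFun hχ i
    exact congrArg Fin.val this
  have bd : ∀ W : Fin 2 → k, vn v W = 1 → v (wd W (Z i)) ≤ 2 := by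
    intro W hW
    have := wd_le v W (Z i)
    rw [hW, hZ i] at this
    linarith
  exact Clr_key hh (v.nonneg _) (bd X hX) (v.nonneg _) (bd Y hY) e

end Pool.Agent.LNG
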