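import Pool.Agent.LNG.Est0

/-!
# LNG, Fac (difficulty 2): factorisation of binary forms over an algebraically closed field

Let `P = Σ_j c_j x^j` (natDegree ≤ n), `m = natDegree P`, `P = a ∏_{ρ ∈ roots} (x - ρ)` (`IsAlgClosed.splits`, `Polynomial.Splits.eq_prod_roots` or
`C_leadingCoeff_mul_prod_multiset_X_sub_C`). Then `Σ_j c_j X₀^j X₁^(n-j) = hev n P X = a X₁^{n-m} ∏_ρ (X₀ - ρ X₁)`; `X₀ - ρ X₁ = wd X ![ρ, 1]`, `X₁ = - wd X ![1, 0]`... (with
`wd X Y = X₀Y₁ - X₁Y₀`: `wd X ![1,0] = -X₁`). Normalise every linear factor to `vn v Z = 1` by dividing by the larger coordinate (change `a`). If `P = 0` take `a = 0`, `Z = ![1,0]`.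
It may be easiest to prove the statement by induction on `n` for all polynomials with natDegree ≤ n: if `P.coeff n = 0` split off `X₁`, otherwise
(`n ≥ 1`) take a root `ρ` (`IsAlgClosed.exists_root`), `P = (x - ρ) Q`, `hev_mul`.
-/

namespace Pool.Agent.LNG

open Polynomial

variable {k : Type*} [Field k] {d : ℕ}

theorem Fac_norm (v : AbsoluteValue k ℝ) (ρ : k) :
    ∃ c : k, c ≠ 0 ∧ vn v (c • ![ρ, 1]) = 1 := by
  by_cases h : v ρ ≤ 1
  · refine ⟨1, one_ne_zero, ?_⟩
    simp [vn, h]
  · have hρ : ρ ≠ 0 := by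
      rintro rfl
      simp at h
    have h1 : 1 < v ρ := not_le.mp h
    refine ⟨ρ⁻¹, inv_ne_zero hρ, ?_⟩
    have h2 : v (ρ⁻¹ * ρ) = 1 := by rw [inv_mul_cancel₀ hρ]; exact v.map_one
    have h3 : (v ρ)⁻¹ ≤ 1 := inv_le_one_of_one_le₀ h1.le
    simp only [vn, Pi.smul_apply, smul_eq_mul, Matrix.cons_val_zero, Matrix.cons_val_one,
      mul_one]
    rw [h2, map_inv₀]
    exact max_eq_left h3

theorem form_factor [IsAlgClosed k] (v : AbsoluteValue k ℝ) (n : ℕ) (P : k[X])
    (hP : P.natDegree ≤ n) :
    ∃ (a : k) (Z : Fin n → Fin 2 → k), (∀ i, vn v (Z i) = 1) ∧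
      ∀ X : Fin 2 → k, hev n P X = a * ∏ i, wd X (Z i) := by
  induction n generalizing P with
  | zero =>
    refine ⟨P.coeff 0, fun i => i.elim0, fun i => i.elim0, fun X => ?_⟩
    simp [hev]
  | succ n ih =>
    by_cases hc : P.coeff (n + 1) = 0
    · have hdeg : P.natDegree ≤ n := by
        rw [natDegree_le_iff_coeff_eq_zero] at hP ⊢
        intro m hm
        rcases Nat.lt_or_ge (n + 1) m with h | h
        · exact hP m h
        · have : m = n + 1 := by omega
          rw [this]; exact hc
      obtain ⟨a, Z, hZ, h⟩ := ih P hdeg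
      refine ⟨-a, Fin.cons ![1, 0] Z, ?_, ?_⟩
      · intro i
        refine Fin.cases ?_ (fun i => ?_) i
        · simp [vn]
        · simpa using hZ i
      · intro X
        have h1 : hev (n + 1) P X = X 1 * hev n P X := by
          unfold hev
          rw [Finset.sum_range_succ, hc, zero_mul, add_zero, Finset.mul_sum]
          refine Finset.sum_congr rfl fun m hm => ?_
          have hm' : m ≤ n := by have := Finset.mem_range.mp hm; omega
          rw [show n + 1 - m = (n - m) + 1 by omega, pow_succ]
          ring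
        rw [h1, h X, Fin.prod_univ_succ]
        simp only [Fin.cons_zero, Fin.cons_succ]
        have h2 : wd X ![1, 0] = - X 1 := by simp [wd]
        rw [h2]
        ring
    · have hdeg : P.natDegree = n + 1 :=
        le_antisymm hP (le_natDegree_of_ne_zero hc)
      have hdeg' : P.degree ≠ 0 := by
        intro h0
        have := natDegree_eq_of_degree_eq_some (p := P) (n := 0) (by simpa using h0)
        omega
      obtain ⟨ρ, hρ⟩ := IsAlgClosed.exists_root P hdeg'
      obtain ⟨Q, hQ⟩ := dvd_iff_isRoot.mpr hρ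
      have hP0 : P ≠ 0 := by
        rintro rfl
        simp at hc
      have hQ0 : Q ≠ 0 := by
        rintro rfl
        apply hP0
        rw [hQ, mul_zero]
      have hQdeg : Q.natDegree ≤ n := by
        have h3 : P.natDegree = (Polynomial.X - C ρ).natDegree + Q.natDegree := by
          conv_lhs => rw [hQ]
          exact natDegree_mul (X_sub_C_ne_zero ρ) hQ0
        rw [natDegree_X_sub_C] at h3
        omega
      obtain ⟨a, Z, hZ, h⟩ := ih Q hQdeg
      obtain ⟨c, hc0, hcn⟩ := Fac_norm v ρ
      refine ⟨c⁻¹ * a, Fin.cons (c • ![ρ, 1]) Z, ?_, ?_⟩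
      · intro i
        refine Fin.cases ?_ (fun i => ?_) i
        · simpa using hcn
        · simpa using hZ i
      · intro X
        have h1 : hev (n + 1) P X = hev 1 (Polynomial.X - C ρ) X * hev n Q X := by
          conv_lhs => rw [hQ, add_comm n 1]
          exact hev_mul (natDegree_X_sub_C_le ρ) hQdeg X
        have h2 : hev 1 (Polynomial.X - C ρ) X = wd X ![ρ, 1] := by
          have := hev_linear (1 : k) (-ρ) X
          simp only [map_one, one_mul, map_neg] at this
          rw [sub_eq_add_neg, this]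
          simp [wd]
          ring
        rw [h1, h X, Fin.prod_univ_succ, h2]
        simp only [Fin.cons_zero, Fin.cons_succ]
        rw [wd_smul_right]
        field_simp

end Pool.Agent.LNG
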