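import Pool.Agent.LNG.Alg2

/-!
# LNG, Itr (difficulty 1): the components of the iterates are forms

Induction on `n`: `(ev F)^[n+1] X i = ev F ((ev F)^[n] X) i = Σ_j F(i,j) (F^n(X)_0)^j (F^n(X)_1)^(d-j)` (`Function.iterate_succ_apply'`); with `F^n(X)_l = hev (d^n) (P_l) X` take
`P = Σ_j C (F (i,j)) * (P_0^j * P_1^(d-j))`, natDegree ≤ d^n * d; use `hev_mul`, `hev_pow`, `hev_sum`, `hev_C_mul`.
-/

namespace Pool.Agent.LNG

open Polynomial

variable {k : Type*} [Field k] {d : ℕ}

theorem iter_form (F : Coef k d) (n : ℕ) (i : Fin 2) :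
    ∃ P : k[X], P.natDegree ≤ d ^ n ∧ ∀ X, (ev F)^[n] X i = hev (d ^ n) P X := by
  induction n generalizing i with
  | zero =>
    fin_cases i
    · refine ⟨Polynomial.X, by simp, fun X => ?_⟩
      have h := hev_X_pow (k := k) (n := 1) (m := 1) le_rfl X
      rw [pow_one] at h
      simp only [pow_zero, Function.iterate_zero, id]
      rw [h]
      simp
    · refine ⟨1, by simp, fun X => ?_⟩
      have h := hev_X_pow (k := k) (n := 1) (m := 0) (by norm_num) X
      rw [pow_zero] at h
      simp only [pow_zero, Function.iterate_zero, id]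
      rw [h]
      simp
  | succ n ih =>
    obtain ⟨P0, hP0, h0⟩ := ih 0
    obtain ⟨P1, hP1, h1⟩ := ih 1
    refine ⟨∑ j : Fin (d + 1), C (F (i, j)) * (P0 ^ (j : ℕ) * P1 ^ (d - (j : ℕ))), ?_, fun X => ?_⟩
    · refine natDegree_sum_le_of_forall_le _ _ fun j _ => ?_
      refine (natDegree_C_mul_le _ _).trans ?_
      refine (natDegree_mul_le_of_le (natDegree_pow_le_of_le _ hP0)
        (natDegree_pow_le_of_le _ hP1)).trans ?_
      have hj : (j : ℕ) + (d - (j : ℕ)) = d := by have := j.2; omega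
      rw [← Nat.add_mul, hj, pow_succ, mul_comm]
    · rw [Function.iterate_succ_apply', hev_sum]
      unfold ev
      refine Finset.sum_congr rfl fun j _ => ?_
      have hj : (j : ℕ) + (d - (j : ℕ)) = d := by have := j.2; omega
      have e : d ^ (n + 1) = d ^ n * (j : ℕ) + d ^ n * (d - (j : ℕ)) := by
        rw [← Nat.mul_add, hj, pow_succ]
      rw [hev_C_mul, e, hev_mul ((natDegree_pow_le_of_le _ hP0).trans (by rw [mul_comm]))
        ((natDegree_pow_le_of_le _ hP1).trans (by rw [mul_comm])), hev_pow hP0, hev_pow hP1,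
        ← h0, ← h1]
      rfl

end Pool.Agent.LNG
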