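import Pool.Agent.LNG.Gre
import Pool.Agent.LNG.Fac
import Pool.Agent.LNG.Itr

/-!
# LNG, Cmp (difficulty 2): comparison of escape rates

`hfac`: both components of `F^n` factor with the zeros `Z i j`. If `|V ∧ Z_{ij}| ≤ H |X ∧ Z_{ij}|` for all `i, j`, then `‖F^n(V)‖ ≤ H^{d^n} ‖F^n(X)‖`, hence
`d^n G(V) ≤ log ‖F^n(V)‖ + l/(d-1) ≤ d^n log H + log ‖F^n(X)‖ + l/(d-1) ≤ d^n log H + d^n G(X) + (r+2l)/(d-1) + l/(d-1)` (`G_spec` with `log (cn v F) = 0`, `rr v F = -log|Res F|`).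
Divide by `d^n`. (`F^n(V) ≠ 0`: `iter_ne_zero`.)
`exists_zeros`: `iter_form` + `form_factor`.
-/

namespace Pool.Agent.LNG

open Polynomial

variable {k : Type*} [Field k] {d : ℕ}

theorem exists_zeros [IsAlgClosed k] (v : AbsoluteValue k ℝ) (F : Coef k d) (n : ℕ) :
    ∃ (a : Fin 2 → k) (Z : Fin 2 → Fin (d ^ n) → Fin 2 → k), (∀ i j, vn v (Z i j) = 1) ∧
      ∀ X i, (ev F)^[n] X i = a i * ∏ j, wd X (Z i j) := by
  have h : ∀ i : Fin 2, ∃ (a : k) (Z : Fin (d ^ n) → Fin 2 → k), (∀ j, vn v (Z j) = 1) ∧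
      ∀ X, (ev F)^[n] X i = a * ∏ j, wd X (Z j) := by
    intro i
    obtain ⟨P, hP, h⟩ := iter_form F n i
    obtain ⟨a, Z, hZ, h'⟩ := form_factor v (d ^ n) P hP
    exact ⟨a, Z, hZ, fun X => by rw [h, h']⟩
  choose a Z hZ h using h
  exact ⟨a, Z, hZ, fun X i => h i X⟩

theorem compare {v : AbsoluteValue k ℝ} {σ : ℝ} (hσ : SumBound v (bigM d) σ) (hd : 2 ≤ d)
    {F : Coef k d} (hF : res F ≠ 0) (hcn : cn v F = 1) {n : ℕ} {a : Fin 2 → k}
    {Z : Fin 2 → Fin (d ^ n) → Fin 2 → k}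
    (hfac : ∀ X i, (ev F)^[n] X i = a i * ∏ j, wd X (Z i j))
    {X V : Fin 2 → k} (hX : X ≠ 0) (hV : V ≠ 0) {H : ℝ} (hH : 0 < H)
    (h : ∀ i j, v (wd V (Z i j)) ≤ H * v (wd X (Z i j))) :
    G v F V ≤ G v F X + Real.log H +
      (rr v F + 3 * Real.log σ) / (((d : ℝ) - 1) * (d : ℝ) ^ n) := by
  have hd1 : 1 ≤ d := by omega
  have hposX : 0 < vn v ((ev F)^[n] X) := vn_pos v (iter_ne_zero hd1 hF hX n)
  have hposV : 0 < vn v ((ev F)^[n] V) := vn_pos v (iter_ne_zero hd1 hF hV n)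
  have hcomp : ∀ i, v ((ev F)^[n] V i) ≤ H ^ (d ^ n) * v ((ev F)^[n] X i) := by
    intro i
    rw [hfac, hfac, map_mul, map_mul, map_prod, map_prod]
    have h1 : ∏ j, v (wd V (Z i j)) ≤ ∏ j, (H * v (wd X (Z i j))) :=
      Finset.prod_le_prod (fun j _ => v.nonneg _) (fun j _ => h i j)
    rw [Finset.prod_mul_distrib, Finset.prod_const, Finset.card_univ, Fintype.card_fin] at h1
    calc v (a i) * ∏ j, v (wd V (Z i j))
        ≤ v (a i) * (H ^ (d ^ n) * ∏ j, v (wd X (Z i j))) :=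
          mul_le_mul_of_nonneg_left h1 (v.nonneg _)
      _ = _ := by ring
  have hle : vn v ((ev F)^[n] V) ≤ H ^ (d ^ n) * vn v ((ev F)^[n] X) := by
    have hHn : 0 ≤ H ^ (d ^ n) := by positivity
    unfold vn
    refine max_le ?_ ?_
    · exact (hcomp 0).trans (mul_le_mul_of_nonneg_left (le_max_left _ _) hHn)
    · exact (hcomp 1).trans (mul_le_mul_of_nonneg_left (le_max_right _ _) hHn)
  have hlog : Real.log (vn v ((ev F)^[n] V)) ≤
      (d : ℝ) ^ n * Real.log H + Real.log (vn v ((ev F)^[n] X)) := by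
    have h2 := Real.log_le_log hposV hle
    rw [Real.log_mul (by positivity) hposX.ne', Real.log_pow] at h2
    push_cast at h2
    exact h2
  obtain ⟨-, hG2, -⟩ := G_spec hσ hd hF hX
  obtain ⟨-, -, hG3⟩ := G_spec hσ hd hF hV
  have e2 := hG2 n
  have e3 := hG3 n
  have hrr : rr v F = - Real.log (v (res F)) := by
    unfold rr
    rw [hcn, Real.log_one]
    ring
  rw [hcn, Real.log_one] at e2 e3
  have hdR : (2 : ℝ) ≤ d := by exact_mod_cast hd
  have hd0 : (0 : ℝ) < (d : ℝ) - 1 := by linarith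
  have hdn : (0 : ℝ) < (d : ℝ) ^ n := by positivity
  have key : (d : ℝ) ^ n * G v F V ≤ (d : ℝ) ^ n * (G v F X + Real.log H) +
      (rr v F + 3 * Real.log σ) / ((d : ℝ) - 1) := by
    have e4 : (rr v F + 3 * Real.log σ) / ((d : ℝ) - 1) =
        (2 * Real.log σ + (2 * d - 1) * 0 - Real.log (v (res F))) / (d - 1) +
        (Real.log σ + 0) / (d - 1) := by
      rw [hrr]
      field_simp
      ring
    rw [e4]
    linarith
  have e5 : (rr v F + 3 * Real.log σ) / (((d : ℝ) - 1) * (d : ℝ) ^ n) =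
      ((rr v F + 3 * Real.log σ) / ((d : ℝ) - 1)) / (d : ℝ) ^ n := by
    rw [div_div]
  rw [e5, ← sub_le_iff_le_add', le_div_iff₀ hdn]
  linarith

end Pool.Agent.LNG
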