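import Pool.Agent.LNG.ClA
import Pool.Agent.LNG.ClB
import Pool.Agent.LNG.Clr
import Pool.Agent.LNG.Cmp

/-!
# LNG, ClN (difficulty 2): the class lemma in near-minimal coordinates

Constants: `C_A` from `close_num`, `C', c_B, C_B` from `trunc_num`; `n` with `d^n ≥ 12/cK d`; `L : ℕ` with `(cK d/12) L ≥ C'`; the number of colours is `m = card (Fin (2 * d^n) → Fin (L+1))` (depends on `d` only; `Fintype.equivFin`).
Given `F`: zeros `Z` from `exists_zeros`, indexed by `Fin 2 × Fin (d^n)` (reindex by `finProdFinEquiv` to `Fin (2 * d^n)`), `h = (cK d/12) max (rr v F) 1 + 1 > 0`, colouring from `exists_colour`. Note `h L ≥ C' max (rr v F) 1`.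
`X, Y` unit vectors of the same colour: if all indices are in the first alternative use `close_num`. If some index `i` is in the second alternative: `|X∧Z_i|, |Y∧Z_i| ≤ 2 e^{-hL}`, `vn (Z_i) = 1`, so `plucker_le` gives
`|X∧Y| ≤ |Y∧Z_i| + |Z_i∧X| ≤ 4 e^{-hL} ≤ 4 e^{-C' max r 1}`; use `trunc_num`.
For the closest pair of a triple `closest` (Wdg) gives `|α| ≤ 2|β|`, `|β| ≤ 2|α|`. Take `c = min (cK d/2) c_B`; since `R = rr v (conj F (tri ..)) ≥ -log (bigM d)` (`rr_ge`; `res (conj ..) ≠ 0` by `res_conj`, `tri_det`),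
`c R ≤ (cK d/2) R + (cK d/2) log(bigM d)`, etc.
-/

namespace Pool.Agent.LNG

open Polynomial

variable {k : Type*} [Field k] {d : ℕ}

theorem class_norm (d : ℕ) (hd : 2 ≤ d) : ∃ (m : ℕ) (c C : ℝ), 0 < c ∧ 0 ≤ C ∧
    ∀ (k : Type) [Field k] [IsAlgClosed k] (v : AbsoluteValue k ℝ), MProp v →
      ∀ F : Coef k d, res F ≠ 0 → cn v F = 1 →
        (∀ A : Matrix (Fin 2) (Fin 2) k, A.det ≠ 0 → rr v F ≤ rr v (conj F A) + 1) →
        ∃ χ : (Fin 2 → k) → Fin m,
          (∀ X Y, vn v X = 1 → vn v Y = 1 → wd X Y ≠ 0 → χ X = χ Y → -C ≤ gg v F X Y) ∧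
          (∀ X Y α β, vn v X = 1 → vn v Y = 1 → vn v (α • X + β • Y) = 1 → wd X Y ≠ 0 →
            α ≠ 0 → β ≠ 0 → v (wd X Y) ≤ v (wd Y (α • X + β • Y)) →
            v (wd X Y) ≤ v (wd (α • X + β • Y) X) → χ X = χ Y →
            c * rr v (conj F (tri X Y α β)) - C ≤ gg v F X Y) := by
  classical
  obtain ⟨CA, hCA0, hCA⟩ := close_num d hd
  obtain ⟨C', cB, CB, hC', hcB, hCB0, hCB⟩ := trunc_num d hd
  have hD : (2 : ℝ) ≤ d := by exact_mod_cast hd
  have hcK : 0 < cK d := by
    unfold cK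
    apply div_pos (by linarith)
    apply mul_pos (by positivity) (by linarith)
  obtain ⟨n, hn⟩ := pow_unbounded_of_one_lt (12 / cK d) (show (1 : ℝ) < d by linarith)
  obtain ⟨L, hL⟩ := exists_nat_ge (C' / (cK d / 12))
  have hL' : C' ≤ cK d / 12 * L := by
    rw [div_le_iff₀ (by positivity)] at hL
    linarith
  have hM1 : 1 ≤ bigM d := Nat.factorial_pos _
  set l : ℝ := Real.log (bigM d : ℝ) with hl
  have hl0 : 0 ≤ l := Real.log_nonneg (by exact_mod_cast hM1)
  refine ⟨Fintype.card (Fin (2 * d ^ n) → Fin (L + 1)), min (cK d / 2) cB,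
    CA + CB + cK d / 2 * l + cB * l, lt_min (by positivity) hcB, by positivity, ?_⟩
  intro k _ _ v hM F hF hcn hmin
  obtain ⟨a, Z, hZ, hfac⟩ := exists_zeros v F n
  have hh : 0 < cK d / 12 * max (rr v F) 1 + 1 := by positivity
  obtain ⟨χ, hχ⟩ := exists_colour v (2 * d ^ n) L hh
    (fun q => Z (finProdFinEquiv.symm q).1 (finProdFinEquiv.symm q).2) (fun q => hZ _ _)
  have hF0 : ∀ A : Matrix (Fin 2) (Fin 2) k, A.det ≠ 0 → -l ≤ rr v (conj F A) := by
    intro A hA
    exact rr_ge (sumBound_arch v (bigM d) hM1) (by omega)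
      (by rw [res_conj F hA]; exact mul_ne_zero (pow_ne_zero _ hA) hF)
  -- the two cases
  have hcase : ∀ X Y : Fin 2 → k, vn v X = 1 → vn v Y = 1 → wd X Y ≠ 0 → χ X = χ Y →
      (-(CA + CB + cK d / 2 * l + cB * l) ≤ gg v F X Y) ∧
      (∀ α β : k, α ≠ 0 → β ≠ 0 → v α ≤ 2 * v β → v β ≤ 2 * v α →
        min (cK d / 2) cB * rr v (conj F (tri X Y α β)) - (CA + CB + cK d / 2 * l + cB * l) ≤
          gg v F X Y) := by
    intro X Y hX hY hXY hc
    have hdet : ∀ α β : k, α ≠ 0 → β ≠ 0 → (tri X Y α β).det ≠ 0 := by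
      intro α β hα hβ
      rw [tri_det, neg_ne_zero]
      exact mul_ne_zero (mul_ne_zero hα hβ) hXY
    have h2l : 0 ≤ cK d / 2 * l := by positivity
    have h3l : 0 ≤ cB * l := by positivity
    have hcol := hχ X Y hX hY hc
    by_cases hall : ∀ i j, (v (wd X (Z i j)) ≤ Real.exp (cK d / 12 * max (rr v F) 1 + 1) * v (wd Y (Z i j)) ∧
        v (wd Y (Z i j)) ≤ Real.exp (cK d / 12 * max (rr v F) 1 + 1) * v (wd X (Z i j)))
    · obtain ⟨g1, g2⟩ := hCA k v hM F hF hcn hmin n hn.le a Z hfac X Y hX hY hXY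
        (fun i j => (hall i j).1) (fun i j => (hall i j).2)
      refine ⟨by linarith, ?_⟩
      intro α β hα hβ h1 h2
      have g3 := g2 α β hα hβ h1 h2
      have g4 := hF0 _ (hdet α β hα hβ)
      have g5 : 0 ≤ (cK d / 2 - min (cK d / 2) cB) * (rr v (conj F (tri X Y α β)) + l) :=
        mul_nonneg (sub_nonneg.2 (min_le_left _ _)) (by linarith)
      have g6 : (cK d / 2 - min (cK d / 2) cB) * l ≤ cK d / 2 * l := by
        apply mul_le_mul_of_nonneg_right _ hl0
        have : 0 < min (cK d / 2) cB := lt_min (by positivity) hcB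
        linarith
      nlinarith
    · have hex : ∃ i j, v (wd X (Z i j)) ≤ 2 * Real.exp (-((cK d / 12 * max (rr v F) 1 + 1) * L)) ∧
          v (wd Y (Z i j)) ≤ 2 * Real.exp (-((cK d / 12 * max (rr v F) 1 + 1) * L)) := by
        by_contra hno
        apply hall
        intro i j
        have := hcol (finProdFinEquiv (i, j))
        simp only [Equiv.symm_apply_apply] at this
        rcases this with h | h
        · exact h
        · exact absurd ⟨i, j, h⟩ hno
      obtain ⟨i, j, hx, hy⟩ := hex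
      have hpl := plucker_le v X Y (Z i j)
      rw [hZ i j, hX, hY, mul_one, mul_one, mul_one, wd_neg_swap X (Z i j), v.map_neg] at hpl
      have hexp : Real.exp (-((cK d / 12 * max (rr v F) 1 + 1) * L)) ≤
          Real.exp (-(C' * max (rr v F) 1)) := by
        apply Real.exp_le_exp.2
        have hmx : (0 : ℝ) ≤ max (rr v F) 1 := le_trans zero_le_one (le_max_right _ _)
        have hLn : (0 : ℝ) ≤ L := Nat.cast_nonneg L
        have h7 : C' * max (rr v F) 1 ≤ cK d / 12 * L * max (rr v F) 1 :=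
          mul_le_mul_of_nonneg_right hL' hmx
        nlinarith
      obtain ⟨g1, g2⟩ := hCB k v F hF hcn X Y hX hY hXY (by linarith)
      refine ⟨by linarith, ?_⟩
      intro α β hα hβ h1 h2
      have g3 := g2 α β hα hβ h1 h2
      have g4 := hF0 _ (hdet α β hα hβ)
      have g5 : 0 ≤ (cB - min (cK d / 2) cB) * (rr v (conj F (tri X Y α β)) + l) :=
        mul_nonneg (sub_nonneg.2 (min_le_right _ _)) (by linarith)
      have g6 : (cB - min (cK d / 2) cB) * l ≤ cB * l := by
        apply mul_le_mul_of_nonneg_right _ hl0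
        have : 0 < min (cK d / 2) cB := lt_min (by positivity) hcB
        linarith
      nlinarith
  refine ⟨fun X => Fintype.equivFin _ (χ X), ?_, ?_⟩
  · intro X Y hX hY hXY hc
    exact (hcase X Y hX hY hXY ((Fintype.equivFin _).injective hc)).1
  · intro X Y α β hX hY hZ' hXY hα hβ h1 h2 hc
    obtain ⟨q1, q2⟩ := closest v hX hY hZ' hXY h1 h2
    exact (hcase X Y hX hY hXY ((Fintype.equivFin _).injective hc)).2 α β hα hβ q1 q2

end Pool.Agent.LNG
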