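import Pool.Agent.LNG.ClN

/-!
# LNG, ClU (difficulty 2-3): unit vectors, arbitrary order of the triple

From `class_norm`: same `m`, `c`, new `C`. Let `X, Y, Z = αX + βY` be unit vectors of one colour, pairwise independent (`α, β ≠ 0`). Let `S = g(X,Y)+g(Y,Z)+g(Z,X)`. Three cases:
(a) `(X,Y)` closest: `g(X,Y) ≥ c R - C` with `R = rr(conj F (tri X Y α β))`, other two `≥ -C`.
(b) `(Y,Z)` closest: `X = (-β/α) Y + (1/α) Z`; `class_norm` for `(Y, Z, α', β')`, `α' = -β/α`, `β' = 1/α`: `g(Y,Z) ≥ c R' - C`, `R' = rr(conj F (tri Y Z α' β'))`, and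
 `tri Y Z α' β' = (1/α) • (tri X Y α β * !![1,-1;1,0])`, i.e. `tri X Y α β = α • (tri Y Z α' β' * !![0,1;-1,1])`; so
 `R = rr(conj (conj F (tri Y Z α' β')) !![0,1;-1,1]) ≤ R' + (d²+d)(2 log mn - log 1) + 2d(d+2) l ≤ R' + C` (`conj_mul`, `conj_smul_mat`, `rr_smul`, `rr_conj_le`, `mn ≤ 1`).
(c) `(Z,X)` closest: `Y = (1/β) Z + (-α/β) X`, `class_norm` for `(Z, X, 1/β, -α/β)`, `tri Z X (1/β) (-α/β) = (1/β) • (tri X Y α β * !![0,1;-1,1])`, `tri X Y α β = β • (tri Z X .. * !![1,-1;1,0])`.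
Please double check the matrices.
-/

namespace Pool.Agent.LNG

open Polynomial

variable {k : Type*} [Field k] {d : ℕ}

theorem ClU_mn1 (v : AbsoluteValue k ℝ) : mn v (!![0, 1; -1, 1] : Matrix (Fin 2) (Fin 2) k) ≤ 1 := by
  apply mn_le
  intro i j
  fin_cases i <;> fin_cases j <;> simp

theorem ClU_mn2 (v : AbsoluteValue k ℝ) : mn v (!![1, -1; 1, 0] : Matrix (Fin 2) (Fin 2) k) ≤ 1 := by
  apply mn_le
  intro i j
  fin_cases i <;> fin_cases j <;> simp

theorem ClU_bigM (d : ℕ) : 1 ≤ bigM d := Nat.factorial_pos _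

theorem ClU_rr [Infinite k] (v : AbsoluteValue k ℝ) (hd : 1 ≤ d) {F : Coef k d} (hF : res F ≠ 0)
    {T T' B : Matrix (Fin 2) (Fin 2) k} (hT' : T'.det ≠ 0) {e : k} (he : e ≠ 0)
    (hB : B.det = 1) (hBn : mn v B ≤ 1) (h : T = e • (T' * B)) :
    rr v (conj F T) ≤ rr v (conj F T') + 2 * d * (d + 2) * Real.log (bigM d) := by
  have hres : res (conj F T') ≠ 0 := by
    rw [res_conj F hT']
    exact mul_ne_zero (pow_ne_zero _ hT') hF
  have hB0 : B.det ≠ 0 := by rw [hB]; exact one_ne_zero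
  have hres2 : res (conj (conj F T') B) ≠ 0 := by
    rw [res_conj _ hB0]
    exact mul_ne_zero (pow_ne_zero _ hB0) hres
  have h1 := rr_conj_le (sumBound_arch v (bigM d) (ClU_bigM d)) hd hres hB0
  rw [h, conj_smul_mat hd F he, ← conj_mul, rr_smul hd v hres2 (pow_ne_zero _ he)]
  refine h1.trans ?_
  rw [hB, map_one, Real.log_one]
  have h2 : Real.log (mn v B) ≤ 0 := Real.log_nonpos (mn_nonneg v B) hBn
  have h3 : ((d : ℝ) ^ 2 + d) * (2 * Real.log (mn v B) - 0) ≤ 0 := by
    have : (0 : ℝ) ≤ (d : ℝ) ^ 2 + d := by positivity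
    nlinarith
  linarith

theorem class_unit (d : ℕ) (hd : 2 ≤ d) : ∃ (m : ℕ) (c C : ℝ), 0 < c ∧ 0 ≤ C ∧
    ∀ (k : Type) [Field k] [IsAlgClosed k] (v : AbsoluteValue k ℝ), MProp v →
      ∀ F : Coef k d, res F ≠ 0 → cn v F = 1 →
        (∀ A : Matrix (Fin 2) (Fin 2) k, A.det ≠ 0 → rr v F ≤ rr v (conj F A) + 1) →
        ∃ χ : (Fin 2 → k) → Fin m,
          ∀ X Y α β, vn v X = 1 → vn v Y = 1 → vn v (α • X + β • Y) = 1 → wd X Y ≠ 0 →
            α ≠ 0 → β ≠ 0 → χ X = χ Y → χ Y = χ (α • X + β • Y) →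
            c * rr v (conj F (tri X Y α β)) - C ≤
              gg v F X Y + gg v F Y (α • X + β • Y) + gg v F (α • X + β • Y) X := by
  obtain ⟨m, c, C, hc, hC, H⟩ := class_norm d hd
  have hM0 : 0 ≤ Real.log (bigM d) := Real.log_nonneg (by exact_mod_cast ClU_bigM d)
  have hK0 : (0 : ℝ) ≤ 2 * d * (d + 2) * Real.log (bigM d) := by positivity
  set K : ℝ := 2 * d * (d + 2) * Real.log (bigM d) with hKdef
  refine ⟨m, c, 3 * C + c * K, hc, by positivity, ?_⟩
  intro k _ _ v hM F hF hcn hmin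
  have hd1 : 1 ≤ d := by omega
  have hinf : Infinite k := inferInstance
  obtain ⟨χ, H1, H2⟩ := H k v hM F hF hcn hmin
  refine ⟨χ, ?_⟩
  intro X Y α β hX hY hZ hXY hα hβ hχ1 hχ2
  set Z := α • X + β • Y with hZdef
  have hZ0 : Z 0 = α * X 0 + β * Y 0 := by simp [hZdef]
  have hZ1 : Z 1 = α * X 1 + β * Y 1 := by simp [hZdef]
  have hYZ : wd Y Z = - (α * wd X Y) := by
    simp only [wd, hZ0, hZ1]; ring
  have hZX : wd Z X = - (β * wd X Y) := by
    simp only [wd, hZ0, hZ1]; ring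
  have hYZ0 : wd Y Z ≠ 0 := by
    rw [hYZ]; exact neg_ne_zero.2 (mul_ne_zero hα hXY)
  have hZX0 : wd Z X ≠ 0 := by
    rw [hZX]; exact neg_ne_zero.2 (mul_ne_zero hβ hXY)
  have g1 := H1 X Y hX hY hXY hχ1
  have g2 := H1 Y Z hY hZ hYZ0 hχ2
  have g3 := H1 Z X hZ hX hZX0 (hχ2.symm.trans hχ1.symm)
  have hcK : 0 ≤ c * K := by positivity
  rcases le_total (v (wd X Y)) (v (wd Y Z)) with hab | hab
  · rcases le_total (v (wd X Y)) (v (wd Z X)) with hac | hac
    · -- closest pair `X, Y`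
      have := H2 X Y α β hX hY hZ hXY hα hβ hab hac hχ1
      linarith
    · -- closest pair `Z, X`
      have hYeq : (1 / β) • Z + (-α / β) • X = Y := by
        ext i
        simp only [hZdef, Pi.add_apply, Pi.smul_apply, smul_eq_mul]
        field_simp
        ring
      have h1 := H2 Z X (1 / β) (-α / β) hZ hX (by rw [hYeq]; exact hY) hZX0
        (one_div_ne_zero hβ) (div_ne_zero (neg_ne_zero.2 hα) hβ)
        (by rw [hYeq]; exact hac) (by rw [hYeq]; exact hac.trans hab) (hχ2.symm.trans hχ1.symm)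
      have hT : tri X Y α β = β • (tri Z X (1 / β) (-α / β) * !![1, -1; 1, 0]) := by
        ext i j
        fin_cases i <;> fin_cases j <;> simp [tri, hZ0, hZ1] <;> field_simp <;>
          first | ring1 | (ring_nf; simp)
      have hdet : (tri Z X (1 / β) (-α / β)).det ≠ 0 := by
        rw [tri_det]
        exact neg_ne_zero.2 (mul_ne_zero (mul_ne_zero (one_div_ne_zero hβ)
          (div_ne_zero (neg_ne_zero.2 hα) hβ)) hZX0)
      have h2 := ClU_rr v hd1 hF hdet hβ (B := !![1, -1; 1, 0])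
        (by simp [Matrix.det_fin_two]) (ClU_mn2 v) hT
      have h3 := mul_le_mul_of_nonneg_left h2 hc.le
      rw [mul_add] at h3
      linarith
  · rcases le_total (v (wd Y Z)) (v (wd Z X)) with hbc | hbc
    · -- closest pair `Y, Z`
      have hXeq : (-β / α) • Y + (1 / α) • Z = X := by
        ext i
        simp only [hZdef, Pi.add_apply, Pi.smul_apply, smul_eq_mul]
        field_simp
        ring
      have h1 := H2 Y Z (-β / α) (1 / α) hY hZ (by rw [hXeq]; exact hX) hYZ0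
        (div_ne_zero (neg_ne_zero.2 hβ) hα) (one_div_ne_zero hα)
        (by rw [hXeq]; exact hbc) (by rw [hXeq]; exact hab) hχ2
      have hT : tri X Y α β = α • (tri Y Z (-β / α) (1 / α) * !![0, 1; -1, 1]) := by
        ext i j
        fin_cases i <;> fin_cases j <;> simp [tri, hZ0, hZ1] <;> field_simp <;>
          first | ring1 | (ring_nf; simp)
      have hdet : (tri Y Z (-β / α) (1 / α)).det ≠ 0 := by
        rw [tri_det]
        exact neg_ne_zero.2 (mul_ne_zero (mul_ne_zero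
          (div_ne_zero (neg_ne_zero.2 hβ) hα) (one_div_ne_zero hα)) hYZ0)
      have h2 := ClU_rr v hd1 hF hdet hα (B := !![0, 1; -1, 1])
        (by simp [Matrix.det_fin_two]) (ClU_mn1 v) hT
      have h3 := mul_le_mul_of_nonneg_left h2 hc.le
      rw [mul_add] at h3
      linarith
    · -- closest pair `Z, X`
      have hYeq : (1 / β) • Z + (-α / β) • X = Y := by
        ext i
        simp only [hZdef, Pi.add_apply, Pi.smul_apply, smul_eq_mul]
        field_simp
        ring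
      have h1 := H2 Z X (1 / β) (-α / β) hZ hX (by rw [hYeq]; exact hY) hZX0
        (one_div_ne_zero hβ) (div_ne_zero (neg_ne_zero.2 hα) hβ)
        (by rw [hYeq]; exact hbc.trans hab) (by rw [hYeq]; exact hbc) (hχ2.symm.trans hχ1.symm)
      have hT : tri X Y α β = β • (tri Z X (1 / β) (-α / β) * !![1, -1; 1, 0]) := by
        ext i j
        fin_cases i <;> fin_cases j <;> simp [tri, hZ0, hZ1] <;> field_simp <;>
          first | ring1 | (ring_nf; simp)
      have hdet : (tri Z X (1 / β) (-α / β)).det ≠ 0 := by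
        rw [tri_det]
        exact neg_ne_zero.2 (mul_ne_zero (mul_ne_zero (one_div_ne_zero hβ)
          (div_ne_zero (neg_ne_zero.2 hα) hβ)) hZX0)
      have h2 := ClU_rr v hd1 hF hdet hβ (B := !![1, -1; 1, 0])
        (by simp [Matrix.det_fin_two]) (ClU_mn2 v) hT
      have h3 := mul_le_mul_of_nonneg_left h2 hc.le
      rw [mul_add] at h3
      linarith

end Pool.Agent.LNG
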