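import Pool.Agent.LNG.ClU

/-!
# LNG, Cla (difficulty 2-3): the class lemma

Same constants as `class_unit` (`m` must be `≥ 1`: it is if `k` is nonempty; take `m+1` if convenient). Given `F`, `res F ≠ 0`. The set `{rr v (conj F A) : det A ≠ 0}` is bounded below by `-l` (`rr_ge`, `res_conj`), so there is
`A₀` with `rr v (conj F A₀) ≤ rr v (conj F A) + 1` for all `A` (`exists_lt_of_csInf_lt`). Let `c₀` be a coefficient of `conj F A₀` of maximal absolute value, `F₀ = c₀⁻¹ • conj F A₀`: `cn v F₀ = 1`,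
`res F₀ ≠ 0`, and `rr v F₀ ≤ rr v (conj F₀ B) + 1` for all `B` (`conj_smul`, `conj_mul`, `rr_smul`). Let `χ₀` be the colouring of `class_unit` for `F₀` and `χ(X) = χ₀(A₀⁻¹X / c(X))`, where `c(X)` is the
coordinate of `A₀⁻¹X` of maximal absolute value (so that `vn v (c(X)⁻¹ • A₀⁻¹ X) = 1`). For `X, Y, Z = αX+βY` write `X' = c₁⁻¹ A₀⁻¹X`, `Y' = c₂⁻¹ A₀⁻¹ Y`, `Z' = c₃⁻¹ A₀⁻¹Z = α'X' + β'Y'`, `α' = αc₁/c₃`,
`β' = βc₂/c₃`. Then `tri X' Y' α' β' = c₃⁻¹ • (A₀⁻¹ * tri X Y α β)`, so `rr v (conj F₀ (tri X' Y' α' β')) = rr v (conj F (tri X Y α β))` (`conj_smul_mat`, `conj_mul`, `rr_smul`), and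
`gg v F₀ X' Y' = gg v F X Y` etc. (`gg_smul`, `gg_conj`, `gg_smul_left/right`).
-/

namespace Pool.Agent.LNG

open Polynomial

variable {k : Type*} [Field k] {d : ℕ}

/-- The coordinate of maximal absolute value. -/
noncomputable def nrm (v : AbsoluteValue k ℝ) (X : Fin 2 → k) : k :=
  if v (X 1) ≤ v (X 0) then X 0 else X 1

theorem v_nrm (v : AbsoluteValue k ℝ) (X : Fin 2 → k) : v (nrm v X) = vn v X := by
  unfold nrm vn
  split_ifs with h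
  · exact (max_eq_left h).symm
  · exact (max_eq_right (le_of_lt (not_le.mp h))).symm

theorem nrm_ne_zero (v : AbsoluteValue k ℝ) {X : Fin 2 → k} (hX : X ≠ 0) : nrm v X ≠ 0 := by
  intro h
  have h1 := v_nrm v X
  rw [h, map_zero] at h1
  exact absurd h1 (ne_of_lt (vn_pos v hX))

theorem vn_nrm (v : AbsoluteValue k ℝ) {X : Fin 2 → k} (hX : X ≠ 0) :
    vn v ((nrm v X)⁻¹ • X) = 1 := by
  rw [vn_smul, map_inv₀, v_nrm]
  exact inv_mul_cancel₀ (ne_of_gt (vn_pos v hX))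

/-- Near-minimal coordinates. -/
theorem exists_near_min [Infinite k] (hd : 1 ≤ d) (v : AbsoluteValue k ℝ) {F : Coef k d}
    (hF : res F ≠ 0) : ∃ A₀ : Matrix (Fin 2) (Fin 2) k, A₀.det ≠ 0 ∧
      ∀ A : Matrix (Fin 2) (Fin 2) k, A.det ≠ 0 → rr v (conj F A₀) ≤ rr v (conj F A) + 1 := by
  have hM1 : 1 ≤ bigM d := Nat.factorial_pos _
  have hσ := sumBound_arch v (bigM d) hM1
  let S : Set ℝ := {r | ∃ A : Matrix (Fin 2) (Fin 2) k, A.det ≠ 0 ∧ r = rr v (conj F A)}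
  have hne : S.Nonempty := ⟨rr v (conj F 1), 1, by simp, rfl⟩
  have hbd : BddBelow S := by
    refine ⟨-Real.log (bigM d : ℝ), ?_⟩
    rintro r ⟨A, hA, rfl⟩
    refine rr_ge hσ hd ?_
    rw [res_conj F hA]
    exact mul_ne_zero (pow_ne_zero _ hA) hF
  obtain ⟨r, ⟨A₀, hA₀, rfl⟩, hlt⟩ := Real.lt_sInf_add_pos hne one_pos
  refine ⟨A₀, hA₀, fun A hA => ?_⟩
  have h1 : sInf S ≤ rr v (conj F A) := csInf_le hbd ⟨A, hA, rfl⟩
  linarith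

theorem class_lemma (d : ℕ) (hd : 2 ≤ d) : ∃ (m : ℕ) (c C : ℝ), 0 < m ∧ 0 < c ∧ 0 ≤ C ∧
    ∀ (k : Type) [Field k] [IsAlgClosed k] (v : AbsoluteValue k ℝ), MProp v →
      ∀ F : Coef k d, res F ≠ 0 →
        ∃ χ : (Fin 2 → k) → Fin m,
          ∀ X Y α β, wd X Y ≠ 0 → α ≠ 0 → β ≠ 0 → χ X = χ Y → χ Y = χ (α • X + β • Y) →
            c * rr v (conj F (tri X Y α β)) - C ≤
              gg v F X Y + gg v F Y (α • X + β • Y) + gg v F (α • X + β • Y) X := by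
  obtain ⟨m, c, C, hc, hC, hu⟩ := class_unit d hd
  refine ⟨m + 1, c, C, Nat.succ_pos m, hc, hC, ?_⟩
  intro k _ _ v hM F hF
  have hd1 : 1 ≤ d := by omega
  have : Infinite k := IsAlgClosed.instInfinite
  obtain ⟨A₀, hA₀, hmin⟩ := exists_near_min hd1 v hF
  have hu₀ : IsUnit A₀.det := isUnit_iff_ne_zero.mpr hA₀
  have hF₁ : res (conj F A₀) ≠ 0 := by
    rw [res_conj F hA₀]
    exact mul_ne_zero (pow_ne_zero _ hA₀) hF
  obtain ⟨p, hp⟩ := exists_cn v (conj F A₀)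
  set c₀ : k := conj F A₀ p with hc₀def
  have hcnpos : 0 < cn v (conj F A₀) := cn_pos v (ne_zero_of_res hd1 hF₁)
  have hc₀ : c₀ ≠ 0 := by
    intro h
    rw [h, map_zero] at hp
    exact absurd hp (ne_of_lt hcnpos)
  have hc₀' : c₀⁻¹ ≠ 0 := inv_ne_zero hc₀
  have hcn : cn v (c₀⁻¹ • conj F A₀) = 1 := by
    rw [cn_smul, map_inv₀, hp]
    exact inv_mul_cancel₀ (ne_of_gt hcnpos)
  have hF₀ : res (c₀⁻¹ • conj F A₀) ≠ 0 := by
    rw [res_smul]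
    exact mul_ne_zero (pow_ne_zero _ hc₀') hF₁
  have hconj : ∀ B : Matrix (Fin 2) (Fin 2) k, B.det ≠ 0 →
      rr v (conj (c₀⁻¹ • conj F A₀) B) = rr v (conj F (A₀ * B)) := by
    intro B hB
    have hAB : (A₀ * B).det ≠ 0 := by
      rw [Matrix.det_mul]; exact mul_ne_zero hA₀ hB
    rw [conj_smul, conj_mul]
    refine rr_smul hd1 v ?_ hc₀'
    rw [res_conj F hAB]
    exact mul_ne_zero (pow_ne_zero _ hAB) hF
  have hmin₀ : ∀ A : Matrix (Fin 2) (Fin 2) k, A.det ≠ 0 →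
      rr v (c₀⁻¹ • conj F A₀) ≤ rr v (conj (c₀⁻¹ • conj F A₀) A) + 1 := by
    intro A hA
    rw [hconj A hA, rr_smul hd1 v hF₁ hc₀']
    apply hmin
    rw [Matrix.det_mul]
    exact mul_ne_zero hA₀ hA
  obtain ⟨χ₀, hχ₀⟩ := hu k v hM (c₀⁻¹ • conj F A₀) hF₀ hcn hmin₀
  refine ⟨fun X => Fin.castSucc (χ₀ ((nrm v (A₀⁻¹.mulVec X))⁻¹ • A₀⁻¹.mulVec X)), ?_⟩
  intro X Y α β hXY hα hβ h1 h2
  have h1' := Fin.castSucc_injective m h1
  have h2' := Fin.castSucc_injective m h2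
  have hAi : (A₀⁻¹).det ≠ 0 := by
    rw [Matrix.det_nonsing_inv, Ring.inverse_eq_inv']
    exact inv_ne_zero hA₀
  -- the general invariance of `gg`
  have hgg : ∀ (U V : Fin 2 → k) (a b : k), a ≠ 0 → b ≠ 0 → wd U V ≠ 0 →
      gg v (c₀⁻¹ • conj F A₀) (a • A₀⁻¹.mulVec U) (b • A₀⁻¹.mulVec V) = gg v F U V := by
    intro U V a b ha hb hUV
    have hw : wd (A₀⁻¹.mulVec U) (A₀⁻¹.mulVec V) ≠ 0 := by
      rw [wd_mulVec]; exact mul_ne_zero hAi hUV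
    have hw2 : wd (A₀⁻¹.mulVec U) (b • A₀⁻¹.mulVec V) ≠ 0 := by
      rw [wd_smul_right]; exact mul_ne_zero hb hw
    have hw3 : wd (a • A₀⁻¹.mulVec U) (b • A₀⁻¹.mulVec V) ≠ 0 := by
      rw [wd_smul_left]; exact mul_ne_zero ha hw2
    rw [gg_smul v hd hF₁ hw3 hc₀', gg_smul_left v hd hF₁ hw2 ha, gg_smul_right v hd hF₁ hw hb,
      gg_conj v hd hF hw hA₀, Matrix.mulVec_mulVec, Matrix.mulVec_mulVec,
      Matrix.mul_nonsing_inv A₀ hu₀, Matrix.one_mulVec, Matrix.one_mulVec]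
  set X₁ := A₀⁻¹.mulVec X with hX₁
  set Y₁ := A₀⁻¹.mulVec Y with hY₁
  have hZ₁ : A₀⁻¹.mulVec (α • X + β • Y) = α • X₁ + β • Y₁ := by
    rw [Matrix.mulVec_add, Matrix.mulVec_smul, Matrix.mulVec_smul]
  have hw₁ : wd X₁ Y₁ ≠ 0 := by
    rw [hX₁, hY₁, wd_mulVec]; exact mul_ne_zero hAi hXY
  have hX0 : X₁ ≠ 0 := left_ne_zero_of_wd hw₁
  have hY0 : Y₁ ≠ 0 := right_ne_zero_of_wd hw₁
  have hwZ : wd (α • X₁ + β • Y₁) Y₁ ≠ 0 := by
    rw [wd_comb_left]; exact mul_ne_zero hα hw₁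
  have hZ0 : α • X₁ + β • Y₁ ≠ 0 := left_ne_zero_of_wd hwZ
  have hYZ : wd Y (α • X + β • Y) ≠ 0 := by
    rw [wd_neg_swap, wd_comb_left]; exact neg_ne_zero.mpr (mul_ne_zero hα hXY)
  have hZX : wd (α • X + β • Y) X ≠ 0 := by
    rw [wd_neg_swap, wd_comb_right]; exact neg_ne_zero.mpr (mul_ne_zero hβ hXY)
  have hc1 : nrm v X₁ ≠ 0 := nrm_ne_zero v hX0
  have hc2 : nrm v Y₁ ≠ 0 := nrm_ne_zero v hY0
  have hc3 : nrm v (α • X₁ + β • Y₁) ≠ 0 := nrm_ne_zero v hZ0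
  have hn1 := vn_nrm v hX0
  have hn2 := vn_nrm v hY0
  have hn3 := vn_nrm v hZ0
  rw [hZ₁] at h2'
  set c1 := nrm v X₁ with hc1def
  set c2 := nrm v Y₁ with hc2def
  set c3 := nrm v (α • X₁ + β • Y₁) with hc3def
  have hZ' : (α * c1 / c3) • (c1⁻¹ • X₁) + (β * c2 / c3) • (c2⁻¹ • Y₁) =
      c3⁻¹ • (α • X₁ + β • Y₁) := by
    rw [smul_smul, smul_smul, smul_add, smul_smul, smul_smul]
    congr 2 <;> field_simp
  have hwd' : wd (c1⁻¹ • X₁) (c2⁻¹ • Y₁) ≠ 0 := by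
    rw [wd_smul_left, wd_smul_right]
    exact mul_ne_zero (inv_ne_zero hc1) (mul_ne_zero (inv_ne_zero hc2) hw₁)
  have key := hχ₀ (c1⁻¹ • X₁) (c2⁻¹ • Y₁) (α * c1 / c3) (β * c2 / c3) hn1 hn2
    (by rw [hZ']; exact hn3) hwd' (div_ne_zero (mul_ne_zero hα hc1) hc3)
    (div_ne_zero (mul_ne_zero hβ hc2) hc3) h1' (by rw [hZ']; exact h2')
  rw [hZ'] at key
  have g1 := hgg X Y c1⁻¹ c2⁻¹ (inv_ne_zero hc1) (inv_ne_zero hc2) hXY
  have g2 := hgg Y (α • X + β • Y) c2⁻¹ c3⁻¹ (inv_ne_zero hc2) (inv_ne_zero hc3) hYZ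
  have g3 := hgg (α • X + β • Y) X c3⁻¹ c1⁻¹ (inv_ne_zero hc3) (inv_ne_zero hc1) hZX
  rw [hZ₁] at g2 g3
  rw [← hX₁] at g1 g3
  rw [← hY₁] at g1 g2
  rw [g1, g2, g3] at key
  have htri : tri (c1⁻¹ • X₁) (c2⁻¹ • Y₁) (α * c1 / c3) (β * c2 / c3) =
      c3⁻¹ • (A₀⁻¹ * tri X Y α β) := by
    have e : ∀ i, X₁ i = A₀⁻¹ i 0 * X 0 + A₀⁻¹ i 1 * X 1 := by
      intro i; rw [hX₁]; simp [Matrix.mulVec, dotProduct, Fin.sum_univ_two]
    have e' : ∀ i, Y₁ i = A₀⁻¹ i 0 * Y 0 + A₀⁻¹ i 1 * Y 1 := by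
      intro i; rw [hY₁]; simp [Matrix.mulVec, dotProduct, Fin.sum_univ_two]
    ext i j
    fin_cases i <;> fin_cases j <;>
      simp [tri, Matrix.mul_apply, Fin.sum_univ_two, e, e'] <;> field_simp
  have hT : (tri X Y α β).det ≠ 0 := by
    rw [tri_det]; exact neg_ne_zero.mpr (mul_ne_zero (mul_ne_zero hα hβ) hXY)
  have hAT : (A₀⁻¹ * tri X Y α β).det ≠ 0 := by
    rw [Matrix.det_mul]; exact mul_ne_zero hAi hT
  have hrr : rr v (conj (c₀⁻¹ • conj F A₀) (tri (c1⁻¹ • X₁) (c2⁻¹ • Y₁) (α * c1 / c3)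
      (β * c2 / c3))) = rr v (conj F (tri X Y α β)) := by
    rw [htri, conj_smul_mat hd1 _ (inv_ne_zero hc3), rr_smul hd1 v _ (pow_ne_zero _
      (inv_ne_zero hc3)), hconj _ hAT, ← Matrix.mul_assoc, Matrix.mul_nonsing_inv A₀ hu₀,
      Matrix.one_mul]
    rw [res_conj _ hAT]
    exact mul_ne_zero (pow_ne_zero _ hAT) hF₀
  rw [hrr] at key
  exact key

end Pool.Agent.LNG
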