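import Pool.Agent.LNG.Kpp
import Pool.Agent.LNG.GG

/-!
# LNG, Kpc (difficulty 1-2): (K'') for all conjugates

`kpp`: reduce to `‖F‖ = 1`: let `c` be a coefficient with `v c = cn v F > 0` and `F' = c⁻¹ • F`. `G v F' X = G v F X - log(cn)/(d-1)` (`G_smul`), so `g' = g - log(cn)/(d-1)`;
`rr v F' = rr v F` (`rr_smul`), and `rr v F'/(d(d-1)) = (2d log cn - log|Res F|)/(d(d-1))`, `2g' = 2g - 2 log(cn)/(d-1)`.
`kpp_conj`: apply `kpp` to `conj F A`: `G v (conj F A) ![u,1] = G v F (A ![u,1])` (`G_conj`), `res (conj F A) = det(A)^{d(d-1)} res F` (`res_conj`).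
-/

namespace Pool.Agent.LNG

open Polynomial

variable {k : Type*} [Field k] {d : ℕ}

theorem Kpc_vec_ne (u : k) : (![u, 1] : Fin 2 → k) ≠ 0 := by
  intro h
  have := congrFun h 1
  simp at this

theorem kpp {v : AbsoluteValue k ℝ} (hM : MProp v) {σ : ℝ} (hσ : SumBound v (bigM d) σ)
    (hd : 2 ≤ d) {F : Coef k d} (hF : res F ≠ 0) {g : ℝ}
    (hg : ∀ u, v u = 1 → G v F ![u, 1] ≤ g) :
    cK d * rr v F - (Real.log σ + 2 * (d + 1)) ≤ 2 * g - Real.log (v (res F)) / (d * (d - 1)) := by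
  have hd1 : 1 ≤ d := by omega
  have hdR : (2 : ℝ) ≤ d := by exact_mod_cast hd
  have hd0 : (d : ℝ) ≠ 0 := by linarith
  have hdm : (d : ℝ) - 1 ≠ 0 := by linarith
  have hFne : F ≠ 0 := ne_zero_of_res hd1 hF
  have hcn := cn_pos v hFne
  obtain ⟨q, hq⟩ := exists_cn v F
  set c : k := F q with hc
  have hvc : 0 < v c := by rw [hq]; exact hcn
  have hc0 : c ≠ 0 := by
    intro h
    rw [h, map_zero] at hvc
    exact lt_irrefl _ hvc
  have hci : c⁻¹ ≠ 0 := inv_ne_zero hc0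
  have hF' : res (c⁻¹ • F) ≠ 0 := by
    rw [res_smul]
    exact mul_ne_zero (pow_ne_zero _ hci) hF
  have hcn' : cn v (c⁻¹ • F) = 1 := by
    rw [cn_smul, map_inv₀, ← hq]
    exact inv_mul_cancel₀ hvc.ne'
  have hg' : ∀ u, v u = 1 → G v (c⁻¹ • F) ![u, 1] ≤ g + Real.log (v c⁻¹) / (d - 1) := by
    intro u hu
    rw [G_smul v hd hF (Kpc_vec_ne u) hci]
    have := hg u hu
    linarith
  have h := kpp_norm hM hσ hd hF' hcn' hg'
  rw [rr_smul hd1 v hF hci] at h
  have h1 : Real.log (v c⁻¹) = - Real.log (cn v F) := by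
    rw [map_inv₀, Real.log_inv, hq]
  rw [h1] at h
  have h2 : 2 * (g + - Real.log (cn v F) / ((d : ℝ) - 1)) + rr v F / (d * (d - 1)) =
      2 * g - Real.log (v (res F)) / (d * (d - 1)) := by
    unfold rr
    field_simp
    ring
  linarith

theorem kpp_conj [Infinite k] {v : AbsoluteValue k ℝ} (hM : MProp v) {σ : ℝ}
    (hσ : SumBound v (bigM d) σ)
    (hd : 2 ≤ d) {F : Coef k d} (hF : res F ≠ 0) {A : Matrix (Fin 2) (Fin 2) k} (hA : A.det ≠ 0)
    {g : ℝ} (hg : ∀ u, v u = 1 → G v F (A.mulVec ![u, 1]) ≤ g) :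
    cK d * rr v (conj F A) - (Real.log σ + 2 * (d + 1)) ≤
      2 * g - Real.log (v (res F)) / (d * (d - 1)) - Real.log (v A.det) := by
  have hdR : (2 : ℝ) ≤ d := by exact_mod_cast hd
  have hd0 : (d : ℝ) ≠ 0 := by linarith
  have hdm : (d : ℝ) - 1 ≠ 0 := by linarith
  have hrc := res_conj F hA
  have hF' : res (conj F A) ≠ 0 := by
    rw [hrc]
    exact mul_ne_zero (pow_ne_zero _ hA) hF
  have hg' : ∀ u, v u = 1 → G v (conj F A) ![u, 1] ≤ g := by
    intro u hu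
    rw [G_conj v hd hF (Kpc_vec_ne u) hA]
    exact hg u hu
  have h := kpp hM hσ hd hF' hg'
  have h1 : Real.log (v (res (conj F A))) =
      (d * (d - 1)) * Real.log (v A.det) + Real.log (v (res F)) := by
    rw [hrc, map_mul, map_pow, Real.log_mul (pow_ne_zero _ (v.pos hA).ne') (v.pos hF).ne',
      Real.log_pow]
    have : ((d * (d - 1) : ℕ) : ℝ) = (d : ℝ) * (d - 1) := by
      rw [Nat.cast_mul, Nat.cast_sub (by omega)]
      simp
    rw [this]
  rw [h1, add_div, mul_div_assoc, mul_comm ((d : ℝ) * (d - 1)), div_mul_cancel₀ _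
    (mul_ne_zero hd0 hdm)] at h
  linarith

end Pool.Agent.LNG
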