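import Pool.Agent.LNG.Cmp
import Pool.Agent.LNG.Kpc
import Pool.Agent.LNG.Wdg

/-!
# LNG, Cls (difficulty 2): the close case

`X, Y` unit vectors, all zeros `Z i j` of `F^n` satisfy `|X∧Z| ≤ e^h |Y∧Z|` and `|Y∧Z| ≤ e^h |X∧Z|`. `A = tri X Y α β = (βY | αX)`, `α, β ≠ 0`.
For `|u| = 1`, `V = A ![u,1] = αX + uβY` (`tri_mulVec`) is `≠ 0` (`X, Y` independent) and `|V∧Z| ≤ (|α| + |β| e^h) |X∧Z|`, so by `compare`
`G(V) ≤ G(X) + log(|α| + |β|e^h) + ε`, `ε = (r+3l)/((d-1)d^n)`. `compare` also gives `G(X) ≤ G(Y) + h + ε`. (`kpp_conj` for `A`, `g = G(X) + log(..) + ε`):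
`cK rr(conj F A) - (l+2(d+1)) ≤ 2G(X) + 2 log(|α|+|β|e^h) + 2ε - log|Res F|/(d(d-1)) - log|α| - log|β| - log|X∧Y|`
and `2 G(X) ≤ G(X) + G(Y) + h + ε`.
-/

namespace Pool.Agent.LNG

open Polynomial

variable {k : Type*} [Field k] {d : ℕ}

theorem Cls_ne_zero {v : AbsoluteValue k ℝ} {X : Fin 2 → k} (hX : vn v X = 1) : X ≠ 0 := by
  rintro rfl
  simp [vn] at hX

theorem close_pair [Infinite k] {v : AbsoluteValue k ℝ} (hM : MProp v) {σ : ℝ}
    (hσ : SumBound v (bigM d) σ) (hd : 2 ≤ d)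
    {F : Coef k d} (hF : res F ≠ 0) (hcn : cn v F = 1) {n : ℕ} {a : Fin 2 → k}
    {Z : Fin 2 → Fin (d ^ n) → Fin 2 → k}
    (hfac : ∀ X i, (ev F)^[n] X i = a i * ∏ j, wd X (Z i j))
    {X Y : Fin 2 → k} (hX : vn v X = 1) (hY : vn v Y = 1) (hXY : wd X Y ≠ 0) {h : ℝ} (hh : 0 ≤ h)
    (h1 : ∀ i j, v (wd X (Z i j)) ≤ Real.exp h * v (wd Y (Z i j)))
    (h2 : ∀ i j, v (wd Y (Z i j)) ≤ Real.exp h * v (wd X (Z i j)))
    {α β : k} (hα : α ≠ 0) (hβ : β ≠ 0) :
    cK d * rr v (conj F (tri X Y α β)) ≤ gg v F X Y + (Real.log σ + 2 * (d + 1)) + h +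
      2 * Real.log (v α + v β * Real.exp h) - Real.log (v α) - Real.log (v β) +
      3 * ((rr v F + 3 * Real.log σ) / (((d : ℝ) - 1) * (d : ℝ) ^ n)) := by
  have hX0 : X ≠ 0 := Cls_ne_zero hX
  have hY0 : Y ≠ 0 := Cls_ne_zero hY
  have hvα : 0 < v α := v.pos hα
  have hvβ : 0 < v β := v.pos hβ
  have hvw : 0 < v (wd X Y) := v.pos hXY
  have hdet : (tri X Y α β).det ≠ 0 := by
    rw [tri_det]
    exact neg_ne_zero.mpr (mul_ne_zero (mul_ne_zero hα hβ) hXY)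
  set H : ℝ := v α + v β * Real.exp h with hHdef
  have hH : 0 < H := by positivity
  set ε : ℝ := (rr v F + 3 * Real.log σ) / (((d : ℝ) - 1) * (d : ℝ) ^ n) with hε
  have c1 := compare hσ hd hF hcn hfac (X := Y) (V := X) hY0 hX0 (Real.exp_pos h) h1
  rw [Real.log_exp] at c1
  have c2 : ∀ u, v u = 1 → G v F ((tri X Y α β).mulVec ![u, 1]) ≤ G v F X + Real.log H + ε := by
    intro u hu
    rw [tri_mulVec, one_mul]
    have hV0 : α • X + (u * β) • Y ≠ 0 := by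
      intro h0
      have h3 : wd (α • X + (u * β) • Y) Y = α * wd X Y := wd_comb_left X Y α (u * β)
      rw [h0] at h3
      have h4 : wd (0 : Fin 2 → k) Y = 0 := by simp [wd]
      rw [h4] at h3
      exact mul_ne_zero hα hXY h3.symm
    refine compare hσ hd hF hcn hfac hX0 hV0 hH ?_
    intro i j
    rw [wd_add_left, wd_smul_left, wd_smul_left]
    calc v (α * wd X (Z i j) + u * β * wd Y (Z i j))
        ≤ v (α * wd X (Z i j)) + v (u * β * wd Y (Z i j)) := v.add_le _ _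
      _ = v α * v (wd X (Z i j)) + v β * v (wd Y (Z i j)) := by
          rw [map_mul, map_mul, map_mul, hu, one_mul]
      _ ≤ v α * v (wd X (Z i j)) + v β * (Real.exp h * v (wd X (Z i j))) := by
          have := mul_le_mul_of_nonneg_left (h2 i j) hvβ.le
          linarith
      _ = H * v (wd X (Z i j)) := by rw [hHdef]; ring
  have c3 := kpp_conj hM hσ hd hF hdet c2
  have hlogdet : Real.log (v (tri X Y α β).det) = Real.log (v α) + Real.log (v β) +
      Real.log (v (wd X Y)) := by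
    rw [tri_det, v.map_neg, map_mul, map_mul, Real.log_mul (by positivity) hvw.ne',
      Real.log_mul hvα.ne' hvβ.ne']
  rw [hlogdet] at c3
  unfold gg
  rw [← hε] at c1
  linarith

end Pool.Agent.LNG
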