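import Pool.Agent.LNG.Prob

/-!
# LNG, Cnt (difficulty 2-3): a bound for the number of elements of bounded height, uniform in the field

For `x ∈ K`, `mulHeight₁ x ≤ B`: `NumberField.exists_nat_le_mulHeight₁` gives `1 ≤ n ≤ B` with `y = n x` integral. Every conjugate of `x` satisfies `|φ(x)| ≤ max(1,|φ(x)|) ≤ mulHeight₁ x ≤ B` (one factor of the product defining the height, all factors `≥ 1`), so `|φ(y)| ≤ B²`. The minimal
polynomial of `y` over `ℤ` has degree `≤ D` and coefficients bounded by `max(B²,1)^D * choose` (Mathlib: `NumberField.Embeddings.coeff_bdd_of_norm_le`, used in `Embeddings.finite_of_norm_le`), so it lies in a finite set `S(D,B)` of integer polynomials that does not depend on `K`; each has at most `D`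
roots in `K`. Hence at most `⌊B⌋ · card S · D` elements `x`.
`count_points`: for nonzero vectors `X i` normalise to `(x_i, 1)` or `(1, 0)`; `absHeight X ≤ H` gives `mulHeight₁ x_i ≤ exp (D H)` (`logHeight = [K:Q] absHeight ≤ D |H|`); more than `N + 1` vectors: two have the same class, so `wd = 0`.
-/

namespace Pool.Agent.LNG

open Polynomial NumberField IsDedekindDomain

namespace CntAux

theorem finite_polys (D : ℕ) (C : ℤ) :
    {f : ℤ[X] | f.natDegree ≤ D ∧ ∀ i, f.coeff i ∈ Set.Icc (-C) C}.Finite := by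
  let π : ℤ[X] → Fin (D + 1) → ℤ := fun f i => f.coeff i
  refine ((Set.Finite.pi fun _ => Set.finite_Icc (-C) C).subset <| ?_).of_finite_image
    (?_ : Set.InjOn π _)
  · exact Set.image_subset_iff.2 fun f hf i _ => hf.2 i
  · refine fun x hx y hy hxy => (ext_iff_natDegree_le hx.1 hy.1).2 fun i hi => ?_
    exact id congr_fun hxy ⟨i, Nat.lt_succ_of_le hi⟩

theorem conj_le {K : Type} [Field K] [NumberField K] (x : K) (φ : K →+* ℂ) :
    ‖φ x‖ ≤ Height.mulHeight₁ x := by
  rw [NumberField.mulHeight₁_eq]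
  have h1 : ∀ v : InfinitePlace K, (1 : ℝ) ≤ max (v x) 1 ^ v.mult :=
    fun v => one_le_pow₀ (le_max_right _ _)
  have h2 : (1 : ℝ) ≤ ∏ᶠ v : FinitePlace K, max (v x) 1 :=
    finprod_induction (fun y : ℝ => 1 ≤ y) le_rfl (fun a b ha hb => one_le_mul_of_one_le_of_one_le ha hb)
      (fun v => le_max_right _ _)
  have h3 : ‖φ x‖ ≤ ∏ v : InfinitePlace K, max (v x) 1 ^ v.mult := by
    classical
    have h4 : ‖φ x‖ = InfinitePlace.mk φ x := rfl
    calc ‖φ x‖ ≤ max (InfinitePlace.mk φ x) 1 := by rw [h4]; exact le_max_left _ _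
      _ ≤ max (InfinitePlace.mk φ x) 1 ^ (InfinitePlace.mk φ).mult :=
          le_self_pow₀ (le_max_right _ _) (InfinitePlace.mult_ne_zero)
      _ ≤ _ := by
          rw [← Finset.mul_prod_erase Finset.univ (fun v : InfinitePlace K => max (v x) 1 ^ v.mult)
            (Finset.mem_univ (InfinitePlace.mk φ))]
          refine le_mul_of_one_le_right (by positivity) ?_
          exact Finset.prod_induction _ (fun y : ℝ => 1 ≤ y)
            (fun a b ha hb => one_le_mul_of_one_le_of_one_le ha hb) le_rfl (fun v _ => h1 v)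
  calc ‖φ x‖ ≤ _ := h3
    _ ≤ _ := le_mul_of_one_le_right (by positivity) h2

end CntAux

theorem count_elts (D : ℕ) (B : ℝ) : ∃ N : ℕ, ∀ (K : Type) [Field K] [NumberField K],
    Module.finrank ℚ K ≤ D → {x : K | Height.mulHeight₁ x ≤ B}.ncard ≤ N := by
  classical
  let C : ℕ := Nat.ceil (max (B * B) 1 ^ D * 2 ^ D)
  let S := (CntAux.finite_polys D C).toFinset
  refine ⟨(Nat.floor B) * S.card * D, ?_⟩
  intro K _ _ hD
  let T : Finset K := (Finset.Icc 1 ⌊B⌋₊ ×ˢ S).biUnion (fun p =>
    ((p.2.map (algebraMap ℤ K)).roots.toFinset).image (fun y => y / (p.1 : K)))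
  have hT : T.card ≤ (Nat.floor B) * S.card * D := by
    calc T.card ≤ ∑ p ∈ Finset.Icc 1 ⌊B⌋₊ ×ˢ S, (((p.2.map (algebraMap ℤ K)).roots.toFinset).image
          (fun y => y / (p.1 : K))).card := Finset.card_biUnion_le
      _ ≤ ∑ p ∈ Finset.Icc 1 ⌊B⌋₊ ×ˢ S, D := by
          refine Finset.sum_le_sum fun p hp => ?_
          refine Finset.card_image_le.trans ?_
          refine (Multiset.toFinset_card_le _).trans ?_
          refine (Polynomial.card_roots' _).trans ?_
          refine (Polynomial.natDegree_map_le).trans ?_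
          rw [Finset.mem_product] at hp
          have := hp.2
          simp only [S, Set.Finite.mem_toFinset, Set.mem_ofPred_eq] at this
          exact this.1
      _ = _ := by
          rw [Finset.sum_const, Finset.card_product, smul_eq_mul, Nat.card_Icc]
          simp
  refine le_trans ?_ hT
  rw [← Set.ncard_coe_finset T]
  refine Set.ncard_le_ncard ?_ (Finset.finite_toSet T)
  intro x hx
  simp only [Set.mem_ofPred_eq] at hx
  obtain ⟨n, hn0, hnB, hint⟩ := NumberField.exists_nat_le_mulHeight₁ x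
  have hnB' : (n : ℝ) ≤ B := hnB.trans hx
  have hB0 : 0 ≤ B := le_trans (Nat.cast_nonneg n) hnB'
  have hconj : ∀ φ : K →+* ℂ, ‖φ ((n : K) * x)‖ ≤ B * B := by
    intro φ
    rw [map_mul, norm_mul, map_natCast, Complex.norm_natCast]
    exact mul_le_mul hnB' ((CntAux.conj_le x φ).trans hx) (norm_nonneg _) hB0
  have hmin := minpoly.isIntegrallyClosed_eq_field_fractions' ℚ hint
  have hmem : minpoly ℤ ((n : K) * x) ∈ S := by
    simp only [S, Set.Finite.mem_toFinset, Set.mem_ofPred_eq]
    refine ⟨?_, fun i => ?_⟩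
    · rw [← (minpoly.monic hint).natDegree_map (algebraMap ℤ ℚ), ← hmin]
      exact (minpoly.natDegree_le _).trans hD
    · rw [Set.mem_Icc, ← abs_le]
      have h1 := Embeddings.coeff_bdd_of_norm_le hconj i
      rw [hmin, coeff_map, eq_intCast, Int.norm_cast_rat, Int.norm_eq_abs] at h1
      have h2 : (|(minpoly ℤ ((n : K) * x)).coeff i| : ℝ) ≤ (C : ℝ) := by
        refine h1.trans (le_trans ?_ (Nat.le_ceil _))
        refine mul_le_mul (pow_le_pow_right₀ (le_max_right _ _) hD) ?_ (by positivity)
          (by positivity)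
        have h3 : ((Module.finrank ℚ K).choose (Module.finrank ℚ K / 2)) ≤ 2 ^ D :=
          (Nat.choose_le_two_pow _ _).trans (Nat.pow_le_pow_right (by norm_num) hD)
        exact_mod_cast h3
      exact_mod_cast h2
  have hn1 : n ∈ Finset.Icc 1 ⌊B⌋₊ := by
    rw [Finset.mem_Icc]
    exact ⟨Nat.one_le_iff_ne_zero.mpr hn0, Nat.le_floor hnB'⟩
  simp only [T, Finset.coe_biUnion, Set.mem_iUnion, Finset.mem_coe]
  refine ⟨(n, minpoly ℤ ((n : K) * x)), Finset.mem_product.mpr ⟨hn1, hmem⟩, ?_⟩
  rw [Finset.mem_image]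
  refine ⟨(n : K) * x, ?_, ?_⟩
  · rw [Multiset.mem_toFinset, Polynomial.mem_roots', Polynomial.IsRoot.def, Polynomial.eval_map_algebraMap]
    refine ⟨?_, minpoly.aeval ℤ _⟩
    exact ((minpoly.monic hint).map _).ne_zero
  · have : (n : K) ≠ 0 := by exact_mod_cast hn0
    simp only
    field_simp

theorem count_points (D : ℕ) (H : ℝ) : ∃ N : ℕ, ∀ (K : Type) [Field K] [NumberField K],
    Module.finrank ℚ K ≤ D → ∀ X : ℕ → Fin 2 → K, (∀ i, i ≤ N → X i ≠ 0 ∧ absHeight (X i) ≤ H) →
      ∃ i j, i < j ∧ j ≤ N ∧ wd (X i) (X j) = 0 := by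
  classical
  obtain ⟨N0, hN0⟩ := count_elts D (Real.exp (D * |H|))
  refine ⟨N0 + 1, ?_⟩
  intro K _ _ hD X hX
  have hfin := NumberField.finite_setOfPred_mulHeight₁_le K (Real.exp (D * |H|))
  let t : Finset (Option K) := insert none (hfin.toFinset.image some)
  have ht : t.card < (Finset.range (N0 + 1 + 1)).card := by
    have h1 : t.card ≤ (hfin.toFinset.image (some : K → Option K)).card + 1 :=
      Finset.card_insert_le _ _
    have h2 : (hfin.toFinset.image (some : K → Option K)).card ≤ hfin.toFinset.card :=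
      Finset.card_image_le
    have h3 := hN0 K hD
    rw [Set.ncard_eq_toFinset_card _ hfin] at h3
    rw [Finset.card_range]
    omega
  let c : ℕ → Option K := fun i => if X i 1 = 0 then none else some (X i 0 / X i 1)
  have hc : ∀ i ∈ Finset.range (N0 + 1 + 1), c i ∈ t := by
    intro i hi
    rw [Finset.mem_range] at hi
    obtain ⟨hne, hh⟩ := hX i (by omega)
    by_cases h0 : X i 1 = 0
    · simp only [c, h0, if_true, t]
      exact Finset.mem_insert_self _ _
    · simp only [c, h0, if_false, t]
      refine Finset.mem_insert_of_mem (Finset.mem_image_of_mem _ ?_)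
      rw [Set.Finite.mem_toFinset, Set.mem_ofPred_eq, Height.mulHeight₁_div_eq_mulHeight]
      have hX2 : ![X i 0, X i 1] = X i := by
        ext j; fin_cases j <;> rfl
      rw [hX2]
      have hpos : 0 < Height.mulHeight (X i) := Height.mulHeight_pos _
      have hfr : (0 : ℝ) < Module.finrank ℚ K := by
        exact_mod_cast Module.finrank_pos
      unfold absHeight at hh
      rw [div_le_iff₀ hfr] at hh
      have h5 : Height.logHeight (X i) = Real.log (Height.mulHeight (X i)) := rfl
      rw [← Real.exp_log hpos, ← h5]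
      refine Real.exp_le_exp.mpr (hh.trans ?_)
      calc H * (Module.finrank ℚ K : ℝ) ≤ |H| * (Module.finrank ℚ K : ℝ) :=
            mul_le_mul_of_nonneg_right (le_abs_self H) hfr.le
        _ ≤ |H| * D := mul_le_mul_of_nonneg_left (by exact_mod_cast hD) (abs_nonneg _)
        _ = D * |H| := mul_comm _ _
  obtain ⟨i, hi, j, hj, hij, hcij⟩ := Finset.exists_ne_map_eq_of_card_lt_of_maps_to ht hc
  have key : ∀ i j, c i = c j → wd (X i) (X j) = 0 := by
    intro i j h
    unfold wd
    by_cases h0 : X i 1 = 0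
    · by_cases h1 : X j 1 = 0
      · rw [h0, h1]; ring
      · simp [c, h0, h1] at h
    · by_cases h1 : X j 1 = 0
      · simp [c, h0, h1] at h
      · simp only [c, h0, h1, if_false, Option.some.injEq] at h
        field_simp at h
        linear_combination h
  rw [Finset.mem_range] at hi hj
  rcases lt_or_gt_of_ne hij with h | h
  · exact ⟨i, j, h, by omega, key i j hcij⟩
  · exact ⟨j, i, h, by omega, key j i hcij.symm⟩

end Pool.Agent.LNG
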