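import Mathlib

/-!
# Squad LNG (MP_0b6722_nt): definitions

Rational maps of degree `d` over a field `k` are given by their coefficient vectors
`F : Fin 2 × Fin (d+1) → k`, `F (0, j) = a_j`, `F (1, j) = b_j`:
`φ = (Σ a_j x^j) / (Σ b_j x^j)`, with nonzero resultant.
-/

namespace Pool.Agent.LNG

open Polynomial

/-- Coefficient vectors `(a_0, ..., a_d, b_0, ..., b_d)`. -/
abbrev Coef (k : Type*) (d : ℕ) := Fin 2 × Fin (d + 1) → k

section Algebra

variable {k : Type*} [Field k] {d : ℕ}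

/-- The polynomial `Σ_j F (i, j) x^j` (`i = 0`: numerator, `i = 1`: denominator). -/
noncomputable def pol (F : Coef k d) (i : Fin 2) : k[X] :=
  ∑ j : Fin (d + 1), C (F (i, j)) * X ^ (j : ℕ)

/-- The resultant `Res(F_a, F_b)` (both polynomials are taken with formal degree `d`). -/
noncomputable def res (F : Coef k d) : k := resultant (pol F 0) (pol F 1) d d

/-- The homogeneous lift `(x, y) ↦ (Σ a_j x^j y^(d-j), Σ b_j x^j y^(d-j))` of the rational map. -/
def ev (F : Coef k d) (X : Fin 2 → k) : Fin 2 → k :=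
  fun i => ∑ j : Fin (d + 1), F (i, j) * (X 0 ^ (j : ℕ) * X 1 ^ (d - (j : ℕ)))

/-- The coefficients of the homogeneous map `F ∘ A` (`A` a `2 × 2` matrix): the coefficients of the
two polynomials `Σ_j F (i, j) (A₀₀ x + A₀₁)^j (A₁₀ x + A₁₁)^(d-j)`. -/
noncomputable def subs (F : Coef k d) (A : Matrix (Fin 2) (Fin 2) k) : Coef k d :=
  fun p => (∑ j : Fin (d + 1), C (F (p.1, j)) *
    ((C (A 0 0) * X + C (A 0 1)) ^ (j : ℕ) * (C (A 1 0) * X + C (A 1 1)) ^ (d - (j : ℕ)))).coeff
      (p.2 : ℕ)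

/-- The coefficients of the conjugate `A⁻¹ ∘ F ∘ A`. -/
noncomputable def conj (F : Coef k d) (A : Matrix (Fin 2) (Fin 2) k) : Coef k d :=
  fun p => ∑ l : Fin 2, A⁻¹ p.1 l * subs F A (l, p.2)

/-- The determinant `X ∧ Y` of two vectors. -/
def wd (X Y : Fin 2 → k) : k := X 0 * Y 1 - X 1 * Y 0

/-- The vector of monomials of degree `n - 1`. -/
def mon (n : ℕ) (X : Fin 2 → k) : Fin n → k := fun c => X 0 ^ (c : ℕ) * X 1 ^ (n - 1 - (c : ℕ))

/-- The matrix with columns `βY` and `αX`. -/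
def tri (X Y : Fin 2 → k) (α β : k) : Matrix (Fin 2) (Fin 2) k :=
  !![β * Y 0, α * X 0; β * Y 1, α * X 1]

/-- Coefficients mapped by a ring homomorphism. -/
def mapC {L : Type*} [Field L] (ι : k →+* L) (F : Coef k d) : Coef L d := fun p => ι (F p)

/-- Vector mapped by a ring homomorphism. -/
def mapV {L : Type*} [Field L] (ι : k →+* L) (X : Fin 2 → k) : Fin 2 → L := fun i => ι (X i)

end Algebra

section Local

variable {k : Type*} [Field k] {d : ℕ}

/-- Maximum norm of a vector. -/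
noncomputable def vn (v : AbsoluteValue k ℝ) (X : Fin 2 → k) : ℝ := max (v (X 0)) (v (X 1))

/-- Maximum of the coefficients. -/
noncomputable def cn (v : AbsoluteValue k ℝ) (F : Coef k d) : ℝ := ⨆ p, v (F p)

/-- Maximum of the entries of a matrix. -/
noncomputable def mn (v : AbsoluteValue k ℝ) (A : Matrix (Fin 2) (Fin 2) k) : ℝ :=
  ⨆ p : Fin 2 × Fin 2, v (A p.1 p.2)

/-- Maximum of the coefficients of a polynomial. -/
noncomputable def pn (v : AbsoluteValue k ℝ) (P : k[X]) : ℝ := ⨆ j : Fin (P.natDegree + 1), v (P.coeff j)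

/-- `r_v(F) = 2 d log ‖F‖ - log |Res F|`. -/
noncomputable def rr (v : AbsoluteValue k ℝ) (F : Coef k d) : ℝ :=
  2 * d * Real.log (cn v F) - Real.log (v (res F))

/-- The local escape rate `G_v(X) = lim d^{-n} log ‖F^n(X)‖`. -/
noncomputable def G (v : AbsoluteValue k ℝ) (F : Coef k d) (X : Fin 2 → k) : ℝ :=
  Filter.limUnder Filter.atTop (fun n : ℕ => Real.log (vn v ((ev F)^[n] X)) / (d : ℝ) ^ n)

/-- The local Green function
`g_v(x,y) = G(X) + G(Y) - log |X ∧ Y| - (1/(d(d-1))) log |Res F|`. -/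
noncomputable def gg (v : AbsoluteValue k ℝ) (F : Coef k d) (X Y : Fin 2 → k) : ℝ :=
  G v F X + G v F Y - Real.log (v (wd X Y)) - Real.log (v (res F)) / (d * (d - 1))

/-- Every sum of at most `M` elements is bounded by `σ` times the maximum. -/
structure SumBound (v : AbsoluteValue k ℝ) (M : ℕ) (σ : ℝ) : Prop where
  one_le : 1 ≤ σ
  bound : ∀ (n : ℕ) (f : Fin n → k) (B : ℝ), n ≤ M → 0 ≤ B → (∀ i, v (f i) ≤ B) →
    v (∑ i, f i) ≤ σ * B

/-- The number of terms in the sums we use (for maps of degree `d`). -/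
def bigM (d : ℕ) : ℕ := Nat.factorial (4 * d + 4)

/-- Property (M): finitely many polynomials are simultaneously large at some `x` with `|x| = 1`. -/
def MProp (v : AbsoluteValue k ℝ) : Prop :=
  ∀ (s : ℕ) (P : Fin s → k[X]), (∀ i, P i ≠ 0) →
    ∃ x : k, v x = 1 ∧ ∏ i, ((1 / 2 : ℝ) ^ (P i).natDegree * pn v (P i)) ≤ ∏ i, v ((P i).eval x)

end Local

end Pool.Agent.LNG
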