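import Pool.Agent.LNG.Alg2

/-!
# LNG, Est0 (difficulty 1): sums, norms

`sumBound_arch`: triangle inequality (`AbsoluteValue.sum_le`), `n ≤ M`, `M ≥ 1`.
`sumBound_nonarch`: the sum of elements of absolute value `≤ B` has absolute value `≤ B` (induction on `n`, or
`IsNonarchimedean.apply_sum_univ_le`; `n = 0`: `v 0 = 0 ≤ B`).
The rest: `vn` is the maximum of two numbers, `cn`, `mn`, `pn` are suprema of finite families (`Finite.le_ciSup`, `ciSup_le`,
`exists_eq_ciSup_of_finite`).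
-/

namespace Pool.Agent.LNG

open Polynomial

variable {k : Type*} [Field k] {d : ℕ}

theorem sumBound_arch (v : AbsoluteValue k ℝ) (M : ℕ) (hM : 1 ≤ M) : SumBound v M (M : ℝ) := by
  refine ⟨by exact_mod_cast hM, ?_⟩
  intro n f B hn hB hf
  calc v (∑ i, f i) ≤ ∑ i, v (f i) := v.sum_le _ _
    _ ≤ ∑ _i : Fin n, B := Finset.sum_le_sum fun i _ => hf i
    _ = n * B := by simp
    _ ≤ M * B := by
      have : (n : ℝ) ≤ M := by exact_mod_cast hn
      exact mul_le_mul_of_nonneg_right this hB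

theorem sumBound_nonarch (v : AbsoluteValue k ℝ) (hv : IsNonarchimedean v) (M : ℕ) :
    SumBound v M 1 := by
  refine ⟨le_refl _, ?_⟩
  intro n f B hn hB hf
  rw [one_mul]
  clear hn
  induction n with
  | zero => simpa using hB
  | succ n ih =>
    rw [Fin.sum_univ_succ]
    refine le_trans (hv _ _) (max_le (hf 0) (ih _ fun i => hf _))

/-- `SumBound` for arbitrary finite index sets. -/
theorem SumBound.finset {v : AbsoluteValue k ℝ} {M : ℕ} {σ : ℝ} (h : SumBound v M σ)
    {ι : Type*} (s : Finset ι) (f : ι → k) (B : ℝ) (hs : s.card ≤ M) (hB : 0 ≤ B)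
    (hf : ∀ i ∈ s, v (f i) ≤ B) : v (∑ i ∈ s, f i) ≤ σ * B := by
  classical
  have e := s.equivFin
  have h1 : ∑ i ∈ s, f i = ∑ j : Fin s.card, f (e.symm j) := by
    rw [← Finset.sum_coe_sort s f]
    exact (Equiv.sum_comp e.symm (fun i : s => f i)).symm
  rw [h1]
  exact h.bound _ _ B hs hB fun j => hf _ (e.symm j).2

theorem le_cn (v : AbsoluteValue k ℝ) (F : Coef k d) (p : Fin 2 × Fin (d + 1)) : v (F p) ≤ cn v F := by
  exact le_ciSup (f := fun p => v (F p)) (Set.finite_range _).bddAbove p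

theorem cn_nonneg (v : AbsoluteValue k ℝ) (F : Coef k d) : 0 ≤ cn v F := by
  exact le_trans (v.nonneg (F (0, 0))) (le_cn v F (0, 0))

theorem exists_cn (v : AbsoluteValue k ℝ) (F : Coef k d) : ∃ p, v (F p) = cn v F := by
  exact exists_eq_ciSup_of_finite (f := fun p => v (F p))

theorem cn_smul (v : AbsoluteValue k ℝ) (c : k) (F : Coef k d) : cn v (c • F) = v c * cn v F := by
  unfold cn
  rw [Real.mul_iSup_of_nonneg (v.nonneg c)]
  simp

theorem cn_pos (v : AbsoluteValue k ℝ) {F : Coef k d} (hF : F ≠ 0) : 0 < cn v F := by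
  have : ∃ p, F p ≠ 0 := by
    by_contra h
    push Not at h
    exact hF (funext h)
  obtain ⟨p, hp⟩ := this
  exact lt_of_lt_of_le (v.pos hp) (le_cn v F p)

theorem le_mn (v : AbsoluteValue k ℝ) (A : Matrix (Fin 2) (Fin 2) k) (i j : Fin 2) :
    v (A i j) ≤ mn v A := by
  exact le_ciSup (f := fun p : Fin 2 × Fin 2 => v (A p.1 p.2)) (Set.finite_range _).bddAbove (i, j)

theorem mn_le {v : AbsoluteValue k ℝ} {A : Matrix (Fin 2) (Fin 2) k} {B : ℝ}
    (h : ∀ i j, v (A i j) ≤ B) : mn v A ≤ B := by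
  exact ciSup_le fun p => h p.1 p.2

theorem mn_nonneg (v : AbsoluteValue k ℝ) (A : Matrix (Fin 2) (Fin 2) k) : 0 ≤ mn v A := by
  exact le_trans (v.nonneg (A 0 0)) (le_mn v A 0 0)

theorem mn_pos (v : AbsoluteValue k ℝ) {A : Matrix (Fin 2) (Fin 2) k} (hA : A.det ≠ 0) :
    0 < mn v A := by
  have : ∃ i j, A i j ≠ 0 := by
    by_contra h
    push Not at h
    apply hA
    rw [Matrix.det_fin_two]
    simp [h]
  obtain ⟨i, j, hp⟩ := this
  exact lt_of_lt_of_le (v.pos hp) (le_mn v A i j)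

theorem le_pn (v : AbsoluteValue k ℝ) (P : k[X]) (j : ℕ) : v (P.coeff j) ≤ pn v P := by
  by_cases h : j < P.natDegree + 1
  · exact le_ciSup (f := fun j : Fin (P.natDegree + 1) => v (P.coeff j))
      (Set.finite_range _).bddAbove ⟨j, h⟩
  · rw [Polynomial.coeff_eq_zero_of_natDegree_lt (by omega), map_zero]
    exact le_trans (v.nonneg (P.coeff 0)) (le_ciSup (f := fun j : Fin (P.natDegree + 1) => v (P.coeff j))
      (Set.finite_range _).bddAbove ⟨0, by omega⟩)

theorem pn_nonneg (v : AbsoluteValue k ℝ) (P : k[X]) : 0 ≤ pn v P := by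
  exact le_trans (v.nonneg _) (le_pn v P 0)

theorem pn_pos (v : AbsoluteValue k ℝ) {P : k[X]} (hP : P ≠ 0) : 0 < pn v P := by
  exact lt_of_lt_of_le (v.pos (by simpa using hP : P.coeff P.natDegree ≠ 0)) (le_pn v P _)

theorem vn_nonneg (v : AbsoluteValue k ℝ) (X : Fin 2 → k) : 0 ≤ vn v X := by
  exact le_trans (v.nonneg _) (le_max_left _ _)

theorem vn_pos (v : AbsoluteValue k ℝ) {X : Fin 2 → k} (hX : X ≠ 0) : 0 < vn v X := by
  have : X 0 ≠ 0 ∨ X 1 ≠ 0 := by
    by_contra h
    push Not at h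
    apply hX
    funext i
    fin_cases i
    · exact h.1
    · exact h.2
  rcases this with h | h
  · exact lt_of_lt_of_le (v.pos h) (le_max_left _ _)
  · exact lt_of_lt_of_le (v.pos h) (le_max_right _ _)

theorem vn_smul (v : AbsoluteValue k ℝ) (c : k) (X : Fin 2 → k) : vn v (c • X) = v c * vn v X := by
  unfold vn
  rw [mul_max_of_nonneg _ _ (v.nonneg c)]
  simp

theorem vn_add_le (v : AbsoluteValue k ℝ) (X Y : Fin 2 → k) : vn v (X + Y) ≤ vn v X + vn v Y := by
  unfold vn
  simp only [Pi.add_apply]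
  apply max_le
  · exact le_trans (v.add_le _ _) (add_le_add (le_max_left _ _) (le_max_left _ _))
  · exact le_trans (v.add_le _ _) (add_le_add (le_max_right _ _) (le_max_right _ _))

theorem vn_mulVec_le (v : AbsoluteValue k ℝ) (A : Matrix (Fin 2) (Fin 2) k) (X : Fin 2 → k) :
    vn v (A.mulVec X) ≤ 2 * mn v A * vn v X := by
  have key : ∀ i : Fin 2, v (A.mulVec X i) ≤ 2 * mn v A * vn v X := by
    intro i
    have e : A.mulVec X i = A i 0 * X 0 + A i 1 * X 1 := by
      simp [Matrix.mulVec, dotProduct, Fin.sum_univ_two]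
    rw [e]
    have h0 : v (A i 0 * X 0) ≤ mn v A * vn v X := by
      rw [map_mul]
      exact mul_le_mul (le_mn v A i 0) (le_max_left _ _) (v.nonneg _) (mn_nonneg v A)
    have h1 : v (A i 1 * X 1) ≤ mn v A * vn v X := by
      rw [map_mul]
      exact mul_le_mul (le_mn v A i 1) (le_max_right _ _) (v.nonneg _) (mn_nonneg v A)
    calc _ ≤ _ := v.add_le _ _
      _ ≤ mn v A * vn v X + mn v A * vn v X := add_le_add h0 h1
      _ = _ := by ring
  exact max_le (key 0) (key 1)

theorem vn_eq_iSup (v : AbsoluteValue k ℝ) (X : Fin 2 → k) : vn v X = ⨆ i, v (X i) := by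
  apply le_antisymm
  · apply max_le
    · exact le_ciSup (f := fun i => v (X i)) (Set.finite_range _).bddAbove 0
    · exact le_ciSup (f := fun i => v (X i)) (Set.finite_range _).bddAbove 1
  · apply ciSup_le
    intro i
    fin_cases i
    · exact le_max_left _ _
    · exact le_max_right _ _

theorem wd_le (v : AbsoluteValue k ℝ) (X Y : Fin 2 → k) : v (wd X Y) ≤ 2 * (vn v X * vn v Y) := by
  have h0 : v (X 0 * Y 1) ≤ vn v X * vn v Y := by
    rw [map_mul]
    exact mul_le_mul (le_max_left _ _) (le_max_right _ _) (v.nonneg _) (vn_nonneg v X)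
  have h1 : v (X 1 * Y 0) ≤ vn v X * vn v Y := by
    rw [map_mul]
    exact mul_le_mul (le_max_right _ _) (le_max_left _ _) (v.nonneg _) (vn_nonneg v X)
  calc v (wd X Y) = v (X 0 * Y 1 - X 1 * Y 0) := rfl
    _ ≤ v (X 0 * Y 1) + v (X 1 * Y 0) := by
      have := v.add_le (X 0 * Y 1) (-(X 1 * Y 0))
      rwa [v.map_neg, ← sub_eq_add_neg] at this
    _ ≤ vn v X * vn v Y + vn v X * vn v Y := add_le_add h0 h1
    _ = _ := by ring

theorem wd_le_nonarch (v : AbsoluteValue k ℝ) (hv : IsNonarchimedean v) (X Y : Fin 2 → k) :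
    v (wd X Y) ≤ vn v X * vn v Y := by
  have h0 : v (X 0 * Y 1) ≤ vn v X * vn v Y := by
    rw [map_mul]
    exact mul_le_mul (le_max_left _ _) (le_max_right _ _) (v.nonneg _) (vn_nonneg v X)
  have h1 : v (X 1 * Y 0) ≤ vn v X * vn v Y := by
    rw [map_mul]
    exact mul_le_mul (le_max_right _ _) (le_max_left _ _) (v.nonneg _) (vn_nonneg v X)
  have := hv (X 0 * Y 1) (-(X 1 * Y 0))
  rw [v.map_neg, ← sub_eq_add_neg] at this
  exact le_trans this (max_le h0 h1)

theorem cn_map {L : Type*} [Field L] (ι : k →+* L) (w : AbsoluteValue L ℝ) (v : AbsoluteValue k ℝ)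
    (h : ∀ x, w (ι x) = v x) (F : Coef k d) : cn w (mapC ι F) = cn v F := by
  unfold cn mapC
  simp only [h]

theorem vn_map {L : Type*} [Field L] (ι : k →+* L) (w : AbsoluteValue L ℝ) (v : AbsoluteValue k ℝ)
    (h : ∀ x, w (ι x) = v x) (X : Fin 2 → k) : vn w (mapV ι X) = vn v X := by
  unfold vn mapV
  simp only [h]

end Pool.Agent.LNG
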