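import Pool.Agent.LNG.Est0

/-!
# LNG, Est1 (difficulty 1): the two upper bounds

`ev_le`: `ev F X i` is a sum of `d+1 ≤ bigM d` terms, each of absolute value `≤ cn v F * vn v X ^ d` (`le_cn`,
`v (X 0)^j v (X 1)^(d-j) ≤ vn^d`).
`res_le`: Leibniz formula `Matrix.det_apply` for the `(d+d) x (d+d)` Sylvester matrix: `(2d)! ≤ bigM d` terms, each `±` a product of
`2d` entries, entries are `0` or coefficients, so `≤ cn v F`.
-/

namespace Pool.Agent.LNG

open Polynomial

variable {k : Type*} [Field k] {d : ℕ}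

theorem ev_le {v : AbsoluteValue k ℝ} {σ : ℝ} (hσ : SumBound v (bigM d) σ) (F : Coef k d)
    (X : Fin 2 → k) : vn v (ev F X) ≤ σ * cn v F * vn v X ^ d := by
  have hcard : d + 1 ≤ bigM d := by
    unfold bigM
    exact le_trans (by omega : d + 1 ≤ 4 * d + 4) (Nat.self_le_factorial _)
  have key : ∀ i, v (ev F X i) ≤ σ * (cn v F * vn v X ^ d) := by
    intro i
    unfold ev
    refine hσ.bound (d + 1) _ _ hcard
      (mul_nonneg (cn_nonneg v F) (pow_nonneg (vn_nonneg v X) _)) fun j => ?_
    rw [map_mul, map_mul, map_pow, map_pow]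
    refine mul_le_mul (le_cn v F _) ?_ (mul_nonneg (pow_nonneg (v.nonneg _) _)
      (pow_nonneg (v.nonneg _) _)) (cn_nonneg v F)
    have hj : (j : ℕ) + (d - (j : ℕ)) = d := by have := j.2; omega
    calc v (X 0) ^ (j : ℕ) * v (X 1) ^ (d - (j : ℕ))
        ≤ vn v X ^ (j : ℕ) * vn v X ^ (d - (j : ℕ)) :=
          mul_le_mul (pow_le_pow_left₀ (v.nonneg _) (le_max_left _ _) _)
            (pow_le_pow_left₀ (v.nonneg _) (le_max_right _ _) _)
            (pow_nonneg (v.nonneg _) _) (pow_nonneg (vn_nonneg v X) _)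
      _ = vn v X ^ d := by rw [← pow_add, hj]
  unfold vn at key ⊢
  rw [mul_assoc]
  exact max_le (key 0) (key 1)

theorem sylvester_entry_le {v : AbsoluteValue k ℝ} (F : Coef k d) (i j : Fin (d + d)) :
    v (sylvester (pol F 0) (pol F 1) d d i j) ≤ cn v F := by
  have key : ∀ (l : Fin 2) (a b : ℕ), v (if a ∈ Set.Icc b (b + d) then (pol F l).coeff (a - b) else 0)
      ≤ cn v F := by
    intro l a b
    split_ifs with h
    · rw [Set.mem_Icc] at h
      have := pol_coeff F l ⟨a - b, by omega⟩
      simp only at this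
      rw [this]
      exact le_cn v F _
    · rw [map_zero]
      exact cn_nonneg v F
  refine Fin.addCases (fun j₁ => ?_) (fun j₁ => ?_) j
  · simp only [sylvester, Matrix.of_apply, Fin.addCases_left]
    exact key 1 _ _
  · simp only [sylvester, Matrix.of_apply, Fin.addCases_right]
    exact key 0 _ _

theorem res_le {v : AbsoluteValue k ℝ} {σ : ℝ} (hσ : SumBound v (bigM d) σ) (F : Coef k d) :
    v (res F) ≤ σ * cn v F ^ (2 * d) := by
  unfold res resultant
  rw [Matrix.det_apply]
  refine hσ.finset _ _ _ ?_ (pow_nonneg (cn_nonneg v F) _) fun π _ => ?_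
  · rw [Finset.card_univ, Fintype.card_perm, Fintype.card_fin]
    unfold bigM
    exact Nat.factorial_le (by omega)
  · have h1 : v (Equiv.Perm.sign π • ∏ i, sylvester (pol F 0) (pol F 1) d d (π i) i) =
        ∏ i, v (sylvester (pol F 0) (pol F 1) d d (π i) i) := by
      rcases Int.units_eq_one_or (Equiv.Perm.sign π) with h | h
      · rw [h, one_smul, map_prod]
      · rw [h, Units.neg_smul, one_smul, AbsoluteValue.map_neg, map_prod]
    rw [h1]
    calc ∏ i, v (sylvester (pol F 0) (pol F 1) d d (π i) i)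
        ≤ ∏ _i : Fin (d + d), cn v F :=
          Finset.prod_le_prod (fun i _ => v.nonneg _) fun i _ => sylvester_entry_le F _ _
      _ = cn v F ^ (2 * d) := by
          rw [Finset.prod_const, Finset.card_univ, Fintype.card_fin, two_mul]

end Pool.Agent.LNG
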