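import Pool.Agent.LNG.Est0

/-!
# LNG, ExF (difficulty 3): extension of a nonarchimedean absolute value to an algebraically closed field

Mathlib: the completion `v.Completion` (`AbsoluteValue.Completion`, `Mathlib/Analysis/Normed/Field/WithAbs.lean`, a complete normed field in which `WithAbs v` is dense), which is ultrametric (density, or
`IsUltrametricDist.isUltrametricDist_of_forall_norm_natCast_le_one`: all integers have norm `≤ 1`) and nontrivially normed (`v` is not trivial). Then `AlgebraicClosure v.Completion`
with `spectralNorm` (`Mathlib/Analysis/Normed/Unbundled/SpectralNorm.lean`: multiplicative, nonarchimedean, extends the norm: `spectralNorm_mul`/`spectralAlgNorm`/`spectralMulAlgNorm`, `isNonarchimedean_spectralNorm`,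
`spectralNorm_extends`). Alternatively for a finite place use `v.adicCompletion K` with its normed field instance and `FinitePlace.embedding`. For the trivial absolute value (if you want the statement without `hnt`) use the
trivial absolute value on `AlgebraicClosure K`.
-/

namespace Pool.Agent.LNG

open Polynomial

/-- Integers have absolute value at most `1`. -/
theorem ExF_natCast {K : Type} [Field K] (v : AbsoluteValue K ℝ) (hv : IsNonarchimedean v) (n : ℕ) :
    v (n : K) ≤ 1 := by
  induction n with
  | zero => simp
  | succ n ih =>
    rw [Nat.cast_succ]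
    refine (hv _ _).trans (max_le ih ?_)
    rw [map_one]

/-- The absolute value given by the spectral norm. -/
theorem ExF_spectral (C : Type) [NontriviallyNormedField C] [CompleteSpace C]
    [IsUltrametricDist C] : ∃ w : AbsoluteValue (AlgebraicClosure C) ℝ,
      IsNonarchimedean w ∧ ∀ x : C, w (algebraMap C (AlgebraicClosure C) x) = ‖x‖ := by
  refine ⟨{ toFun := spectralNorm C (AlgebraicClosure C)
            map_mul' := fun x y => spectralAlgNorm_mul x y
            nonneg' := fun x => spectralNorm_nonneg x
            eq_zero' := fun x => ⟨fun h => eq_zero_of_map_spectralNorm_eq_zero h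
              (Algebra.IsAlgebraic.isAlgebraic x), fun h => by rw [h]; exact spectralNorm_zero⟩
            add_le' := fun x y => ?_ }, ?_, ?_⟩
  · refine (isNonarchimedean_spectralNorm x y).trans ?_
    exact max_le (le_add_of_nonneg_right (spectralNorm_nonneg y))
      (le_add_of_nonneg_left (spectralNorm_nonneg x))
  · intro x y
    exact isNonarchimedean_spectralNorm x y
  · intro x
    exact spectralNorm_extends x

theorem exists_ext_nonarch {K : Type} [Field K] [CharZero K] (v : AbsoluteValue K ℝ)
    (hv : IsNonarchimedean v) (hnt : ∃ x, x ≠ 0 ∧ v x < 1) :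
    ∃ (k : Type) (_ : Field k) (_ : IsAlgClosed k) (_ : CharZero k) (w : AbsoluteValue k ℝ)
      (ι : K →+* k), IsNonarchimedean w ∧ ∀ x, w (ι x) = v x := by
  have hnorm : ∀ x : K, ‖((WithAbs.toAbs v x : WithAbs v) : v.Completion)‖ = v x := by
    intro x
    rw [UniformSpace.Completion.norm_coe]
    rfl
  have hu : IsUltrametricDist v.Completion := by
    refine IsUltrametricDist.isUltrametricDist_of_forall_norm_natCast_le_one fun n => ?_
    have h1 : ((n : v.Completion)) = ((WithAbs.toAbs v (n : K) : WithAbs v) : v.Completion) := by
      have h2 : (WithAbs.toAbs v (n : K) : WithAbs v) = (n : WithAbs v) := by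
        exact map_natCast (WithAbs.equiv v).symm n
      rw [h2]
      exact (map_natCast (UniformSpace.Completion.coeRingHom (α := WithAbs v)) n).symm
    rw [h1, hnorm]
    exact ExF_natCast v hv n
  obtain ⟨x, hx0, hx1⟩ := hnt
  letI inst : NontriviallyNormedField v.Completion :=
    { (inferInstance : NormedField v.Completion) with
      non_trivial := by
        refine ⟨((WithAbs.toAbs v x⁻¹ : WithAbs v) : v.Completion), ?_⟩
        rw [hnorm, map_inv₀]
        exact (one_lt_inv₀ (v.pos hx0)).mpr hx1 }
  obtain ⟨w, hw1, hw2⟩ := ExF_spectral v.Completion
  let ι : K →+* AlgebraicClosure v.Completion :=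
    (algebraMap v.Completion (AlgebraicClosure v.Completion)).comp
      ((UniformSpace.Completion.coeRingHom (α := WithAbs v)).comp
        ((WithAbs.equiv v).symm : K →+* WithAbs v))
  refine ⟨AlgebraicClosure v.Completion, inferInstance, inferInstance,
    charZero_of_injective_ringHom ι.injective, w, ι, hw1, fun y => ?_⟩
  have : ι y = algebraMap v.Completion (AlgebraicClosure v.Completion)
      ((WithAbs.toAbs v y : WithAbs v) : v.Completion) := rfl
  rw [this, hw2]
  exact hnorm y

end Pool.Agent.LNG
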