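import Pool.Agent.LNG.Prob
import Pool.Agent.LNG.Est3

/-!
# LNG, MR1 (difficulty 2): the exponents of the minimal resultant

Let `p` be a prime with finite place `v = FinitePlace.mk p` (`v x = ‖embedding p x‖ = N(p)^{-v_p(x)}`; `FinitePlace.norm_embedding'`: `= toNNReal .. (p.valuation K x)`). Let `c` be the inverse of a coefficient of
`conj F A` of maximal absolute value (`exists_cn`, nonzero since `res (conj F A) ≠ 0`); then `F₁ = c • conj F A` has `v (F₁ q) ≤ 1` for all `q`, `= 1` for some `q`, and `v (res F₁) ≤ 1` (`res_le` with `σ = 1`, `sumBound_nonarch`), `res F₁ ≠ 0`.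
Translate to `p.valuation K` (`v x ≤ 1 ↔ p.valuation K x ≤ 1` etc., since `x ↦ N(p)^x` is strictly monotone): `p.valuation K (res F₁) = exp(-n)` for a natural number `n`, so `n` belongs to the set in the definition of `eps p F`,
`eps p F ≤ n` (`Nat.sInf_le`), and `n log N(p) = - log v (res F₁) = rr v F₁ = rr v (conj F A)` (`cn v F₁ = 1`, `rr_smul`).
-/

namespace Pool.Agent.LNG

open Polynomial NumberField IsDedekindDomain

variable {K : Type} [Field K] [NumberField K] {d : ℕ}

theorem MR1_val (p : HeightOneSpectrum (𝓞 K)) (x : K) :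
    (FinitePlace.mk p).val x =
      ((WithZeroMulInt.toNNReal (NumberField.HeightOneSpectrum.absNorm_ne_zero p)
        (p.valuation K x) : NNReal) : ℝ) :=
  FinitePlace.norm_embedding' p x

theorem MR1_le_one (p : HeightOneSpectrum (𝓞 K)) (x : K) :
    (FinitePlace.mk p).val x ≤ 1 ↔ p.valuation K x ≤ 1 := by
  rw [MR1_val]
  have h := WithZeroMulInt.toNNReal_le_one_iff (m := p.valuation K x)
    (NumberField.HeightOneSpectrum.one_lt_absNorm_nnreal p)
  rw [← h]
  exact_mod_cast Iff.rfl

theorem MR1_eq_one (p : HeightOneSpectrum (𝓞 K)) (x : K) :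
    (FinitePlace.mk p).val x = 1 ↔ p.valuation K x = 1 := by
  rw [MR1_val]
  have h := WithZeroMulInt.toNNReal_eq_one_iff (p.valuation K x)
    (NumberField.HeightOneSpectrum.absNorm_ne_zero p)
    (NumberField.HeightOneSpectrum.one_lt_absNorm_nnreal p).ne'
  rw [← h]
  exact_mod_cast Iff.rfl

theorem MR1_exp (p : HeightOneSpectrum (𝓞 K)) (x : K) (m : ℤ)
    (hx : p.valuation K x = WithZero.exp m) :
    (FinitePlace.mk p).val x = (Ideal.absNorm p.asIdeal : ℝ) ^ m := by
  rw [MR1_val, hx, WithZeroMulInt.toNNReal_neg_apply _ WithZero.exp_ne_zero]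
  push_cast
  rfl

theorem eps_le (hd : 1 ≤ d) {F : Coef K d} (hF : res F ≠ 0) {A : Matrix (Fin 2) (Fin 2) K}
    (hA : A.det ≠ 0) (p : HeightOneSpectrum (𝓞 K)) :
    (eps p F : ℝ) * Real.log (Ideal.absNorm p.asIdeal) ≤ rr (FinitePlace.mk p).val (conj F A) := by
  have hnonarch : IsNonarchimedean (FinitePlace.mk p).val := by
    intro x y
    have := NumberField.HeightOneSpectrum.isNonarchimedean_adicAbv K p x y
    have h : ∀ z : K, (FinitePlace.mk p).val z = NumberField.HeightOneSpectrum.adicAbv K p z :=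
      fun z => FinitePlace.norm_embedding p z
    rw [h, h, h]
    exact this
  have hσ : SumBound (FinitePlace.mk p).val (bigM d) 1 := sumBound_nonarch _ hnonarch _
  have hres : res (conj F A) ≠ 0 := by
    rw [res_conj F hA]
    exact mul_ne_zero (pow_ne_zero _ hA) hF
  set F' := conj F A with hF'
  set v := (FinitePlace.mk p).val with hv
  have hF'0 : F' ≠ 0 := by
    intro h0
    apply hres
    have : res (0 : Coef K d) = 0 := by
      have h1 := res_smul (0 : K) (0 : Coef K d)
      rw [zero_smul, zero_pow (by omega), zero_mul] at h1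
      exact h1
    rw [h0, this]
  obtain ⟨q, hq⟩ := exists_cn v F'
  have hcpos : 0 < cn v F' := cn_pos v hF'0
  have hq0 : F' q ≠ 0 := by
    intro h0
    rw [h0, v.map_zero] at hq
    exact hcpos.ne hq
  have hc0 : (F' q)⁻¹ ≠ 0 := inv_ne_zero hq0
  set c : K := (F' q)⁻¹ with hc
  have hcn1 : cn v (c • F') = 1 := by
    rw [cn_smul, hc, map_inv₀, hq, inv_mul_cancel₀ hcpos.ne']
  have hle : ∀ r, v ((c • F') r) ≤ 1 := fun r => hcn1 ▸ le_cn v (c • F') r
  have heq : v ((c • F') q) = 1 := by
    rw [Pi.smul_apply, smul_eq_mul, hc, inv_mul_cancel₀ hq0, v.map_one]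
  have hres1 : res (c • F') ≠ 0 := by
    rw [res_smul]
    exact mul_ne_zero (pow_ne_zero _ hc0) hres
  have hres2 : v (res (c • F')) ≤ 1 := by
    have := res_le hσ (c • F')
    rwa [hcn1, one_pow, one_mul] at this
  have hval0 : p.valuation K (res (c • F')) ≠ 0 := (Valuation.ne_zero_iff _).mpr hres1
  have hval1 : p.valuation K (res (c • F')) ≤ 1 := (MR1_le_one p _).mp hres2
  set m : ℤ := WithZero.log (p.valuation K (res (c • F'))) with hm
  have hexp : p.valuation K (res (c • F')) = WithZero.exp m := (WithZero.exp_log hval0).symm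
  have hm0 : m ≤ 0 := by
    rw [hexp, ← WithZero.exp_zero] at hval1
    exact WithZero.exp_le_exp.mp hval1
  obtain ⟨n, hn⟩ := Int.eq_ofNat_of_zero_le (a := -m) (by omega)
  have hmn : m = -(n : ℤ) := by omega
  have heps : eps p F ≤ n := by
    apply Nat.sInf_le
    refine ⟨A, c, hA, hc0, fun r => (MR1_le_one p _).mp (hle r),
      ⟨q, (MR1_eq_one p _).mp heq⟩, ?_⟩
    rw [← hF', hexp, hmn]
  have hN : 1 < Ideal.absNorm p.asIdeal := NumberField.HeightOneSpectrum.one_lt_absNorm p
  have hN' : (1 : ℝ) < Ideal.absNorm p.asIdeal := by exact_mod_cast hN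
  have hlog : 0 ≤ Real.log (Ideal.absNorm p.asIdeal) := Real.log_nonneg hN'.le
  have hrr : rr v F' = n * Real.log (Ideal.absNorm p.asIdeal) := by
    rw [← rr_smul hd v hres hc0]
    unfold rr
    rw [hcn1, Real.log_one, mul_zero, MR1_exp p _ m hexp, Real.log_zpow, hmn]
    push_cast
    ring
  rw [hrr]
  exact mul_le_mul_of_nonneg_right (by exact_mod_cast heps) hlog

end Pool.Agent.LNG
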