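import Pool.Agent.LNG.Grr
import Pool.Agent.LNG.RC
import Pool.Agent.LNG.MR1

/-!
# LNG, MR2 (difficulty 2): the norm of the minimal resultant

`eps_le` with `A = 1` (`conj_one`) and `FS_rr`: `eps p F = 0` for almost all `p` (`log N(p) > 0`), so the `finprod` has finite support, `absNorm (minRes F) = ∏ᶠ N(p)^{eps p F}` (`map_finprod` for the monoid hom `Ideal.absNorm`), and
`log absNorm (minRes F) = Σᶠ_p eps p F log N(p) ≤ Σᶠ_{v finite} rr v (conj F A) = SA(rr) - Σ_{v infinite} mult(v) rr_v ≤ 2 d logHeight(conj F A) + [K:Q] log(bigM d)` (`eps_le`, `SA_rr`, `rr_ge_all`, `sum_mult`;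
`FinitePlace.equivHeightOneSpectrum` to reindex, `finsum_comp_equiv`).
-/

namespace Pool.Agent.LNG

open Polynomial NumberField IsDedekindDomain

variable {K : Type} [Field K] [NumberField K] {d : ℕ}

theorem log_minRes_le (hd : 1 ≤ d) {F : Coef K d} (hF : res F ≠ 0) {A : Matrix (Fin 2) (Fin 2) K}
    (hA : A.det ≠ 0) :
    Real.log (Ideal.absNorm (minRes F)) ≤
      2 * d * Height.logHeight (conj F A) + Module.finrank ℚ K * Real.log (bigM d) := by
  have hres : res (conj F A) ≠ 0 := by
    rw [res_conj F hA]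
    exact mul_ne_zero (pow_ne_zero _ hA) hF
  set F' := conj F A with hF'
  have hfs : (Function.support (fun v : FinitePlace K => rr v.val F')).Finite := FS_rr hd hres
  set g : HeightOneSpectrum (𝓞 K) → ℝ := fun p => rr (FinitePlace.mk p).val F' with hg
  have hcomp : ∀ v : FinitePlace K, g (FinitePlace.equivHeightOneSpectrum v) = rr v.val F' := by
    intro v
    rw [hg]
    simp only [FinitePlace.equivHeightOneSpectrum_apply, FinitePlace.mk_maximalIdeal]
  have hgs : (Function.support g).Finite := by
    refine (hfs.image FinitePlace.equivHeightOneSpectrum).subset ?_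
    intro p hp
    refine ⟨FinitePlace.equivHeightOneSpectrum.symm p, ?_, by simp⟩
    rw [Function.mem_support] at hp ⊢
    rw [← hcomp, Equiv.apply_symm_apply]
    exact hp
  have hle : ∀ p : HeightOneSpectrum (𝓞 K),
      (eps p F : ℝ) * Real.log (Ideal.absNorm p.asIdeal) ≤ g p := fun p => eps_le hd hF hA p
  have hN : ∀ p : HeightOneSpectrum (𝓞 K), (1 : ℝ) < Ideal.absNorm p.asIdeal := fun p => by
    exact_mod_cast NumberField.HeightOneSpectrum.one_lt_absNorm p
  have heps0 : ∀ p, p ∉ hgs.toFinset → eps p F = 0 := by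
    intro p hp
    have h0 : g p = 0 := by
      by_contra hne
      exact hp (hgs.mem_toFinset.mpr hne)
    have h1 := hle p
    rw [h0] at h1
    have h2 : 0 < Real.log (Ideal.absNorm p.asIdeal) := Real.log_pos (hN p)
    by_contra hne
    have h3 : (0 : ℝ) < eps p F := by exact_mod_cast Nat.pos_of_ne_zero hne
    have := mul_pos h3 h2
    linarith
  have hmin : minRes F = ∏ p ∈ hgs.toFinset, p.asIdeal ^ eps p F := by
    unfold minRes
    apply finprod_eq_prod_of_mulSupport_subset
    intro p hp
    rw [Function.mem_mulSupport] at hp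
    by_contra hnot
    exact hp (by rw [heps0 p (by simpa using hnot), pow_zero])
  have hlog : Real.log (Ideal.absNorm (minRes F)) =
      ∑ p ∈ hgs.toFinset, (eps p F : ℝ) * Real.log (Ideal.absNorm p.asIdeal) := by
    rw [hmin, map_prod, Nat.cast_prod, Real.log_prod]
    · refine Finset.sum_congr rfl fun p _ => ?_
      rw [map_pow, Nat.cast_pow, Real.log_pow]
    · intro p _
      rw [map_pow, Nat.cast_pow]
      have := hN p
      positivity
  have hsum : ∑ p ∈ hgs.toFinset, g p = ∑ᶠ v : FinitePlace K, rr v.val F' := by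
    rw [← finsum_eq_sum_of_support_subset g (s := hgs.toFinset) (by simp),
      ← finsum_comp_equiv FinitePlace.equivHeightOneSpectrum]
    exact finsum_congr hcomp
  have hSA : ∑ v : InfinitePlace K, (v.mult : ℝ) * rr v.val F' +
      ∑ᶠ v : FinitePlace K, rr v.val F' = 2 * d * Height.logHeight F' := SA_rr hd hres
  have hinf : - ((Module.finrank ℚ K : ℝ) * Real.log (bigM d)) ≤
      ∑ v : InfinitePlace K, (v.mult : ℝ) * rr v.val F' := by
    rw [← sum_mult, Finset.sum_mul, ← Finset.sum_neg_distrib]
    refine Finset.sum_le_sum fun v _ => ?_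
    have h1 := rr_ge_all hd hres v.val
    have h2 : (0 : ℝ) ≤ v.mult := Nat.cast_nonneg _
    have := mul_le_mul_of_nonneg_left h1 h2
    linarith
  rw [hlog]
  have hfin : ∑ p ∈ hgs.toFinset, (eps p F : ℝ) * Real.log (Ideal.absNorm p.asIdeal) ≤
      ∑ p ∈ hgs.toFinset, g p := Finset.sum_le_sum fun p _ => hle p
  linarith

end Pool.Agent.LNG
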