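import Pool.Agent.LNG.Sgm

/-!
# LNG, Sgh (difficulty 2): product formula and heights as sums over places

`SA_log`: logarithm of the product formula (`NumberField.prod_abs_eq_one`), `FS_log`: `FinitePlace.hasFiniteMulSupport`.
`SA_height`: logarithm of `NumberField.mulHeight_eq`; `Real.log` of a product and of a `finprod` (Mathlib: `Real.log_finprod`, used in `Height.logHeight₁_eq`; or a finite set containing the support).
`FS_height`: for `x ≠ 0` the numbers `⨆ i, v (x i)` are `1` for almost all finite `v` (each nonzero coordinate has `v (x i) = 1` for almost all `v`; zero coordinates contribute `0`).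
-/

namespace Pool.Agent.LNG

open Polynomial NumberField IsDedekindDomain

variable {K : Type} [Field K] [NumberField K] {d : ℕ}

theorem FS_log {x : K} (hx : x ≠ 0) : FS (fun v => Real.log (v x)) := by
  have h : Set.Finite (Function.mulSupport fun w : FinitePlace K => w x) :=
    FinitePlace.hasFiniteMulSupport hx
  refine h.subset ?_
  intro v hv
  rw [Function.mem_mulSupport]
  intro h1
  apply hv
  show Real.log (v.val x) = 0
  rw [← FinitePlace.coe_apply, h1, Real.log_one]

theorem SA_log {x : K} (hx : x ≠ 0) : SA (fun v => Real.log (v x)) = 0 := by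
  have h := prod_abs_eq_one hx
  have hlog := congrArg Real.log h
  have hf : ∀ v : FinitePlace K, 0 < v x := fun v => by
    rw [FinitePlace.coe_apply]; exact v.val.pos hx
  have hi : ∀ v : InfinitePlace K, 0 < v x := fun v => by
    rw [InfinitePlace.coe_apply]; exact v.val.pos hx
  have hfp : 0 < ∏ᶠ w : FinitePlace K, w x :=
    finprod_induction (fun y : ℝ => 0 < y) one_pos (fun _ _ h1 h2 => mul_pos h1 h2) hf
  have hip : 0 < ∏ w : InfinitePlace K, w x ^ w.mult :=
    Finset.prod_pos fun w _ => pow_pos (hi w) _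
  rw [Real.log_one, Real.log_mul hip.ne' hfp.ne', Real.log_finprod hf,
    Real.log_prod (fun w _ => (pow_pos (hi w) _).ne')] at hlog
  unfold SA Sg
  rw [← hlog]
  congr 1
  apply Finset.sum_congr rfl
  intro w _
  rw [Real.log_pow, InfinitePlace.coe_apply]

theorem FS_height {ι : Type} [Finite ι] {x : ι → K} (hx : x ≠ 0) :
    FS (fun v => Real.log (⨆ i, v (x i))) := by
  have hfin : Set.Finite (⋃ i : {i : ι // x i ≠ 0},
      Function.mulSupport fun w : FinitePlace K => w (x i.1)) :=
    Set.finite_iUnion fun i => FinitePlace.hasFiniteMulSupport i.2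
  refine hfin.subset ?_
  intro v hv
  by_contra hcon
  apply hv
  show Real.log (⨆ i, v.val (x i)) = 0
  have h1 : ∀ i, x i ≠ 0 → v.val (x i) = 1 := by
    intro i hi
    by_contra h2
    apply hcon
    rw [Set.mem_iUnion]
    refine ⟨⟨i, hi⟩, ?_⟩
    rw [Function.mem_mulSupport, FinitePlace.coe_apply]
    exact h2
  obtain ⟨i₀, hi₀⟩ := Function.ne_iff.mp hx
  have : Nonempty ι := ⟨i₀⟩
  have h2 : (⨆ i, v.val (x i)) = 1 := by
    apply le_antisymm
    · apply ciSup_le
      intro i
      by_cases hi : x i = 0
      · rw [hi, map_zero]; norm_num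
      · exact (h1 i hi).le
    · rw [← h1 i₀ hi₀]
      exact le_ciSup (f := fun i => v.val (x i)) (Set.finite_range _).bddAbove i₀
  rw [h2, Real.log_one]

theorem SA_height {ι : Type} [Finite ι] {x : ι → K} (hx : x ≠ 0) :
    SA (fun v => Real.log (⨆ i, v (x i))) = Height.logHeight x := by
  have hs : ∀ v : AbsoluteValue K ℝ, 0 < ⨆ i, v (x i) := by
    intro v
    obtain ⟨i₀, hi₀⟩ := Function.ne_iff.mp hx
    exact lt_of_lt_of_le (v.pos hi₀)
      (le_ciSup (f := fun i => v (x i)) (Set.finite_range _).bddAbove i₀)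
  have hf : ∀ v : FinitePlace K, 0 < ⨆ i, v (x i) := fun v => by
    simp only [FinitePlace.coe_apply]; exact hs v.val
  have hi : ∀ v : InfinitePlace K, 0 < ⨆ i, v (x i) := fun v => by
    simp only [InfinitePlace.coe_apply]; exact hs v.val
  have hfp : 0 < ∏ᶠ w : FinitePlace K, ⨆ i, w (x i) :=
    finprod_induction (fun y : ℝ => 0 < y) one_pos (fun _ _ h1 h2 => mul_pos h1 h2) hf
  have hip : 0 < ∏ w : InfinitePlace K, (⨆ i, w (x i)) ^ w.mult :=
    Finset.prod_pos fun w _ => pow_pos (hi w) _
  rw [Height.logHeight_eq_log_mulHeight, NumberField.mulHeight_eq hx, Real.log_mul hip.ne' hfp.ne',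
    Real.log_finprod hf, Real.log_prod (fun w _ => (pow_pos (hi w) _).ne')]
  unfold SA Sg
  congr 1
  apply Finset.sum_congr rfl
  intro w _
  rw [Real.log_pow]
  simp only [InfinitePlace.coe_apply]

end Pool.Agent.LNG
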