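import Pool.Agent.LNG.Prob2
import Pool.Agent.LNG.Sgh
import Pool.Agent.LNG.RC
import Pool.Agent.LNG.Est2

/-!
# LNG, Mo2 (difficulty 2): the moduli height, uniform in the field

`aeval (conj F A) (g i) = c * aeval F (g i)`, so (`Height.logHeight_smul_eq_logHeight`) `logHeight (g(F)) = logHeight (g(conj F A))`. For `F' = conj F A ≠ 0` and every place `v`: `log ⨆_i v (g_i(F')) ≤ e log ⨆ v(F') + c_v` with `c_v = 0` at finite places (integer coefficients have `v ≤ 1`, ultrametric
inequality for the sum over the monomials, each monomial of degree `e` is `≤ (⨆ v (F' p))^e`) and `c_v = log (1 + Σ_i Σ_monomials |coefficient|)` at infinite places (`v (n : K) = |n|`). Sum over all places (`Sg_mono`, `SA_height`; `FS_height`): `logHeight (g(F')) ≤ e logHeight F' + [K:Q] C`. Divide by `[K:Q]`.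
(Alternatively use Mathlib's `Height.logHeight_eval_le` and bound its constant.) `F' ≠ 0` by `res_conj`, `ne_zero_of_res`; the vector `g(F')` is nonzero by `M.ne_zero`.
-/

namespace Pool.Agent.LNG

open Polynomial NumberField IsDedekindDomain

namespace Mo2

theorem v_int_le {K : Type} [Field K] (v : AbsoluteValue K ℝ) (n : ℤ) : v (n : K) ≤ |(n : ℝ)| := by
  have h := v.apply_nat_le_self n.natAbs
  rcases Int.natAbs_eq n with h1 | h1
  · rw [h1]
    push_cast
    rw [abs_abs]
    simpa using h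
  · rw [h1]
    push_cast
    rw [v.map_neg, abs_neg, abs_abs]
    simpa using h

theorem mono_le {K : Type} [Field K] {ι : Type} [Finite ι] (v : AbsoluteValue K ℝ)
    {p : MvPolynomial ι ℤ} {e : ℕ} (hp : p.IsHomogeneous e) (x : ι → K) {m : ι →₀ ℕ}
    (hm : m ∈ p.support) : v (∏ i ∈ m.support, x i ^ m i) ≤ (⨆ i, v (x i)) ^ e := by
  rw [map_prod]
  simp_rw [v.map_pow]
  rw [hp.degree_eq_sum_deg_support hm, ← Finset.prod_pow_eq_pow_sum]
  apply Finset.prod_le_prod
  · intro i _; positivity
  · intro i _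
    exact pow_le_pow_left₀ (v.nonneg _) (Finite.le_ciSup (fun j => v (x j)) i) _

theorem aeval_eq {K : Type} [Field K] {ι : Type} (p : MvPolynomial ι ℤ) (x : ι → K) :
    MvPolynomial.aeval x p =
      ∑ m ∈ p.support, ((p.coeff m : ℤ) : K) * ∏ i ∈ m.support, x i ^ m i := by
  rw [MvPolynomial.aeval_def, MvPolynomial.eval₂_eq]
  rfl

theorem arch_le {K : Type} [Field K] {ι : Type} [Finite ι] (v : AbsoluteValue K ℝ)
    {p : MvPolynomial ι ℤ} {e : ℕ} (hp : p.IsHomogeneous e) (x : ι → K) :
    v (MvPolynomial.aeval x p) ≤ (∑ m ∈ p.support, |((p.coeff m : ℤ) : ℝ)|) * (⨆ i, v (x i)) ^ e := by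
  rw [aeval_eq, Finset.sum_mul]
  refine (v.sum_le _ _).trans (Finset.sum_le_sum fun m hm => ?_)
  rw [v.map_mul]
  exact mul_le_mul (v_int_le v _) (mono_le v hp x hm) (v.nonneg _) (abs_nonneg _)

theorem na_le {K : Type} [Field K] {ι : Type} [Finite ι] {v : AbsoluteValue K ℝ}
    (hv : IsNonarchimedean v) {p : MvPolynomial ι ℤ} {e : ℕ} (hp : p.IsHomogeneous e) (x : ι → K)
    (hX : 0 ≤ ⨆ i, v (x i)) :
    v (MvPolynomial.aeval x p) ≤ (⨆ i, v (x i)) ^ e := by
  rw [aeval_eq]
  rcases Finset.eq_empty_or_nonempty p.support with h | h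
  · rw [h, Finset.sum_empty, map_zero]; positivity
  obtain ⟨m, hm, h1⟩ := hv.finset_image_add_of_nonempty
    (fun m => ((p.coeff m : ℤ) : K) * ∏ i ∈ m.support, x i ^ m i) h
  refine h1.trans ?_
  rw [v.map_mul]
  have h2 : v ((p.coeff m : ℤ) : K) ≤ 1 := IsNonarchimedean.apply_intCast_le_one hv
  calc _ ≤ 1 * (⨆ i, v (x i)) ^ e :=
        mul_le_mul h2 (mono_le v hp x hm) (v.nonneg _) zero_le_one
    _ = _ := one_mul _

end Mo2

open Mo2 in
theorem modH_le {d : ℕ} (hd : 1 ≤ d) (M : ModInt d) :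
    ∃ C : ℝ, 0 ≤ C ∧ ∀ (K : Type) [Field K] [NumberField K] (F : Coef K d), res F ≠ 0 →
      ∀ A : Matrix (Fin 2) (Fin 2) K, A.det ≠ 0 →
        modH M F ≤ M.e * absHeight (conj F A) + C := by
  set S : ℝ := ∑ i, ∑ m ∈ (M.g i).support, |(((M.g i).coeff m : ℤ) : ℝ)| with hS
  have hS0 : 0 ≤ S := Finset.sum_nonneg fun i _ => Finset.sum_nonneg fun m _ => abs_nonneg _
  refine ⟨Real.log (1 + S), Real.log_nonneg (by linarith), ?_⟩
  intro K _ _ F hF A hA
  have hres : res (conj F A) ≠ 0 := by
    rw [res_conj F hA]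
    exact mul_ne_zero (pow_ne_zero _ hA) hF
  have hF' : conj F A ≠ 0 := ne_zero_of_res hd hres
  obtain ⟨c, hc, hcF⟩ := M.inv K F hF A hA
  set G : Fin (M.n + 1) → K := fun i => MvPolynomial.aeval (conj F A) (M.g i) with hG
  have hGne : G ≠ 0 := by
    obtain ⟨i, hi⟩ := M.ne_zero K (conj F A) hres
    exact fun h => hi (congrFun h i)
  have h1 : Height.logHeight (fun i => MvPolynomial.aeval F (M.g i)) = Height.logHeight G := by
    rw [← Height.logHeight_smul_eq_logHeight (fun i => MvPolynomial.aeval F (M.g i)) hc]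
    congr 1
    funext i
    exact (hcF i).symm
  -- positivity of the suprema
  have hpos : ∀ (ι : Type) [Finite ι] (x : ι → K), x ≠ 0 → ∀ v : AbsoluteValue K ℝ,
      0 < ⨆ i, v (x i) := by
    intro ι _ x hx v
    obtain ⟨i₀, hi₀⟩ := Function.ne_iff.mp hx
    exact lt_of_lt_of_le (v.pos hi₀)
      (le_ciSup (f := fun i => v (x i)) (Set.finite_range _).bddAbove i₀)
  have hX : ∀ v : AbsoluteValue K ℝ, 0 < ⨆ p, v (conj F A p) := hpos _ _ hF'
  have hGp : ∀ v : AbsoluteValue K ℝ, 0 < ⨆ i, v (G i) := hpos _ _ hGne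
  -- local bounds
  have hinf : ∀ v : AbsoluteValue K ℝ, Real.log (⨆ i, v (G i)) ≤
      M.e * Real.log (⨆ p, v (conj F A p)) + Real.log (1 + S) := by
    intro v
    have h2 : (⨆ i, v (G i)) ≤ (1 + S) * (⨆ p, v (conj F A p)) ^ M.e := by
      apply ciSup_le
      intro i
      refine (arch_le v (M.hom i) (conj F A)).trans ?_
      apply mul_le_mul_of_nonneg_right _ (by have := hX v; positivity)
      have h3 : (∑ m ∈ (M.g i).support, |(((M.g i).coeff m : ℤ) : ℝ)|) ≤ S :=
        Finset.single_le_sum (f := fun i => ∑ m ∈ (M.g i).support, |(((M.g i).coeff m : ℤ) : ℝ)|)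
          (fun i _ => Finset.sum_nonneg fun m _ => abs_nonneg _) (Finset.mem_univ i)
      linarith
    have h4 := Real.log_le_log (hGp v) h2
    rw [Real.log_mul (by linarith) (pow_pos (hX v) _).ne', Real.log_pow] at h4
    linarith
  have hfin : ∀ v : AbsoluteValue K ℝ, IsNonarchimedean v → Real.log (⨆ i, v (G i)) ≤
      M.e * Real.log (⨆ p, v (conj F A p)) := by
    intro v hv
    have h2 : (⨆ i, v (G i)) ≤ (⨆ p, v (conj F A p)) ^ M.e := by
      apply ciSup_le
      intro i
      exact na_le hv (M.hom i) (conj F A) (hX v).le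
    have h4 := Real.log_le_log (hGp v) h2
    rwa [Real.log_pow] at h4
  have hFG := FS_height (K := K) hGne
  have hFX := FS_height (K := K) hF'
  have key : SA (K := K) (fun v => Real.log (⨆ i, v (G i))) ≤
      M.e * SA (K := K) (fun v => Real.log (⨆ p, v (conj F A p))) +
        Real.log (1 + S) * Module.finrank ℚ K := by
    have h5 : SA (K := K) (fun v => Real.log (⨆ i, v (G i))) ≤
        Sg (K := K) (fun v => M.e * Real.log (⨆ p, v.val (conj F A p)) + Real.log (1 + S))
          (fun v => M.e * Real.log (⨆ p, v.val (conj F A p)) + 0) := by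
      unfold SA
      apply Sg_mono hFG
      · simp only [add_zero]
        exact FS_mul (M.e : ℝ) hFX
      · intro v; exact hinf v.val
      · intro v; simpa using hfin v.val (nonarch_of_finite v)
    have h6 : Sg (K := K) (fun v => M.e * Real.log (⨆ p, v.val (conj F A p)) + Real.log (1 + S))
          (fun v => M.e * Real.log (⨆ p, v.val (conj F A p)) + 0) =
        M.e * SA (K := K) (fun v => Real.log (⨆ p, v (conj F A p))) +
        Real.log (1 + S) * Module.finrank ℚ K := by
      rw [Sg_add (FS_mul (M.e : ℝ) hFX) (by simp), Sg_mul]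
      congr 1
      unfold Sg
      rw [← sum_mult (K := K)]
      simp only [finsum_zero, add_zero]
      rw [← Finset.sum_mul, mul_comm]
    rw [← h6]; exact h5
  rw [SA_height hGne, SA_height hF'] at key
  unfold modH absHeight
  rw [h1]
  have hfr : (0 : ℝ) < Module.finrank ℚ K := by exact_mod_cast Module.finrank_pos
  rw [div_le_iff₀ hfr]
  calc Height.logHeight G ≤ _ := key
    _ = (M.e * (Height.logHeight (conj F A) / Module.finrank ℚ K) + Real.log (1 + S)) *
      Module.finrank ℚ K := by field_simp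

end Pool.Agent.LNG
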