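import Pool.Agent.LNG.Lo2
import Pool.Agent.LNG.MR2
import Pool.Agent.LNG.Mo2

/-!
# LNG, Fi2: final assembly
-/

namespace Pool.Agent.LNG

open Polynomial NumberField IsDedekindDomain

theorem Fi2_absHeight_nonneg {K : Type} [Field K] [NumberField K] {ι : Type} [Finite ι]
    (x : ι → K) : 0 ≤ absHeight x :=
  div_nonneg (Height.logHeight_nonneg x) (Nat.cast_nonneg _)

theorem final2 (d : ℕ) (hd : 2 ≤ d) (D t : ℕ) (δ : ℝ) (hδ : 0 < δ) (M : ModInt d) :
    ∃ κ : ℝ, 0 < κ ∧ ∀ (K : Type) [Field K] [NumberField K], Module.finrank ℚ K ≤ D →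
      ∀ F : Coef K d, res F ≠ 0 → ∀ T : Finset (FinitePlace K), T.card ≤ t → Conc δ F T →
        ∀ P : Fin 2 → K, P ≠ 0 → ¬ Preper F P →
          ∃ A : Matrix (Fin 2) (Fin 2) K, A.det ≠ 0 ∧
            κ * max (max (Real.log (Ideal.absNorm (minRes F))) (modH M F))
              (1 + absHeight (conj F A)) ≤ canHeight F P := by
  obtain ⟨κ, hκ, hlow⟩ := lower2 d hd D t δ hδ
  have hd1 : 1 ≤ d := le_trans (by norm_num) hd
  have hd0 : (0 : ℝ) < d := by exact_mod_cast (show 0 < d by omega)
  have hbig : 0 ≤ Real.log (bigM d) := Real.log_natCast_nonneg _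
  obtain ⟨C, hC, hmod⟩ := modH_le hd1 M
  have hD0 : (0 : ℝ) ≤ D := Nat.cast_nonneg _
  set B : ℝ := D * (2 * d + Real.log (bigM d)) with hB
  have hBnn : 0 ≤ B := by
    rw [hB]
    exact mul_nonneg hD0 (by linarith)
  set E : ℝ := 1 + B + M.e + C with hE
  have he : (0 : ℝ) ≤ M.e := Nat.cast_nonneg _
  have hEpos : 0 < E := by rw [hE]; linarith
  refine ⟨κ / E, div_pos hκ hEpos, ?_⟩
  intro K _ _ hK F hF T hT hconc P hP hw
  have hn : (0 : ℝ) < Module.finrank ℚ K := Nat.cast_pos.mpr Module.finrank_pos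
  have hnD : (Module.finrank ℚ K : ℝ) ≤ D := by exact_mod_cast hK
  obtain ⟨A, hA, hAl⟩ := hlow K hK F hF T hT hconc P hP hw
  have hh := Fi2_absHeight_nonneg (conj F A)
  have h1 : Real.log (Ideal.absNorm (minRes F)) ≤ B * (1 + absHeight (conj F A)) := by
    have h1 := log_minRes_le hd1 hF hA
    have h2 : Height.logHeight (conj F A) = Module.finrank ℚ K * absHeight (conj F A) := by
      unfold absHeight
      field_simp
    rw [h2] at h1
    have h4 : 2 * (d : ℝ) * (Module.finrank ℚ K * absHeight (conj F A)) +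
        Module.finrank ℚ K * Real.log (bigM d) ≤
        D * (2 * d * absHeight (conj F A) + Real.log (bigM d)) := by
      have h5 : 0 ≤ 2 * (d : ℝ) * absHeight (conj F A) + Real.log (bigM d) := by positivity
      nlinarith [mul_le_mul_of_nonneg_right hnD h5]
    refine h1.trans (h4.trans ?_)
    rw [hB]
    nlinarith [mul_nonneg hD0 (mul_nonneg hbig hh), mul_nonneg hD0 hd0.le]
  have h2 := hmod K F hF A hA
  refine ⟨A, hA, ?_⟩
  have h3 : max (max (Real.log (Ideal.absNorm (minRes F))) (modH M F))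
      (1 + absHeight (conj F A)) ≤ E * (1 + absHeight (conj F A)) := by
    refine max_le (max_le ?_ ?_) ?_
    · refine le_trans h1 (mul_le_mul_of_nonneg_right ?_ (by linarith))
      rw [hE]; linarith
    · refine le_trans h2 ?_
      rw [hE]
      nlinarith [mul_nonneg hBnn hh, mul_nonneg hC hh]
    · rw [hE]
      nlinarith [mul_nonneg hBnn hh, mul_nonneg hC hh, mul_nonneg he hh]
  calc κ / E * max (max (Real.log (Ideal.absNorm (minRes F))) (modH M F))
        (1 + absHeight (conj F A))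
      ≤ κ / E * (E * (1 + absHeight (conj F A))) :=
        mul_le_mul_of_nonneg_left h3 (div_pos hκ hEpos).le
    _ = κ * (1 + absHeight (conj F A)) := by field_simp
    _ ≤ canHeight F P := hAl

end Pool.Agent.LNG
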