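import Pool.Agent.LNG.Prob
import Pool.Agent.LNG.RC

/-!
# LNG, Mod (difficulty 1): the moduli height

`eval (conj F A) (g i) = c * eval F (g i)`, so `logHeight (g(F)) = logHeight (g(conj F A))` (`Height.logHeight_smul_eq_logHeight`), and Mathlib's `Height.logHeight_eval_le` (or `logHeight_eval_le'`; file `Mathlib/NumberTheory/Height/MvPolynomial.lean`):
`logHeight (fun i => eval x (p i)) ≤ C(p) + N * logHeight x` for homogeneous `p i` of degree `N`. Divide by `[K:Q]`.
-/

namespace Pool.Agent.LNG

open Polynomial NumberField IsDedekindDomain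

variable {K : Type} [Field K] [NumberField K] {d : ℕ}

theorem modHeight_le (M : ModuliCoords K d) :
    ∃ C : ℝ, 0 ≤ C ∧ ∀ F : Coef K d, res F ≠ 0 → ∀ A : Matrix (Fin 2) (Fin 2) K, A.det ≠ 0 →
      modHeight M F ≤ M.e * absHeight (conj F A) + C := by
  obtain ⟨C, hC⟩ := Height.logHeight_eval_le' (K := K) (N := M.e) (p := M.g) M.hom
  have hn : (0 : ℝ) < Module.finrank ℚ K := by exact_mod_cast Module.finrank_pos
  refine ⟨|C| / Module.finrank ℚ K, by positivity, fun F hF A hA => ?_⟩
  obtain ⟨c, hc, h⟩ := M.inv F hF A hA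
  have h1 : Height.logHeight (fun i => MvPolynomial.eval (conj F A) (M.g i))
      = Height.logHeight (fun i => MvPolynomial.eval F (M.g i)) := by
    have h2 : (fun i => MvPolynomial.eval (conj F A) (M.g i))
        = c • (fun i => MvPolynomial.eval F (M.g i)) := by
      funext i
      rw [h i]
      rfl
    rw [h2, Height.logHeight_smul_eq_logHeight _ hc]
  have h3 := hC (conj F A)
  rw [h1] at h3
  unfold modHeight absHeight
  rw [mul_div_assoc', ← add_div]
  apply div_le_div_of_nonneg_right _ hn.le
  have h4 := le_abs_self C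
  linarith

end Pool.Agent.LNG
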