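import Pool.Agent.LNG.Low
import Pool.Agent.LNG.MR2
import Pool.Agent.LNG.Mod

/-!
# LNG, Fin: final assembly
-/

namespace Pool.Agent.LNG

open Polynomial NumberField IsDedekindDomain

theorem Fin_absHeight_nonneg {K : Type} [Field K] [NumberField K] {ι : Type} [Finite ι]
    (x : ι → K) : 0 ≤ absHeight x :=
  div_nonneg (Height.logHeight_nonneg x) (Nat.cast_nonneg _)

theorem final_bound (K : Type) [Field K] [NumberField K] (d : ℕ) (hd : 2 ≤ d) (s : ℕ)
    (M : ModuliCoords K d) :
    ∃ κ : ℝ, 0 < κ ∧ ∀ F : Coef K d, res F ≠ 0 → (badPl F).encard ≤ s →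
      ∀ P : Fin 2 → K, P ≠ 0 → ¬ Preper F P →
        ∃ A : Matrix (Fin 2) (Fin 2) K, A.det ≠ 0 ∧
          κ * max (max (Real.log (Ideal.absNorm (minRes F))) (modHeight M F))
            (1 + absHeight (conj F A)) ≤ canHeight F P := by
  obtain ⟨κ, hκ, hlow⟩ := lower_bound K d hd s
  have hn : (0 : ℝ) < Module.finrank ℚ K := Nat.cast_pos.mpr Module.finrank_pos
  have hd1 : 1 ≤ d := le_trans (by norm_num) hd
  have hd0 : (0 : ℝ) < d := by exact_mod_cast (show 0 < d by omega)
  have hbig : 0 ≤ Real.log (bigM d) := Real.log_natCast_nonneg _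
  set B : ℝ := Module.finrank ℚ K * (2 * d + Real.log (bigM d)) with hB
  have hBpos : 0 < B := by
    rw [hB]
    exact mul_pos hn (by linarith)
  -- the norm of the minimal resultant
  have hres : ∀ F : Coef K d, res F ≠ 0 → ∀ A : Matrix (Fin 2) (Fin 2) K, A.det ≠ 0 →
      Real.log (Ideal.absNorm (minRes F)) ≤ B * (1 + absHeight (conj F A)) := by
    intro F hF A hA
    have h1 := log_minRes_le hd1 hF hA
    have h2 : Height.logHeight (conj F A) = Module.finrank ℚ K * absHeight (conj F A) := by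
      unfold absHeight
      field_simp
    rw [h2] at h1
    have h3 := Fin_absHeight_nonneg (conj F A)
    rw [hB]
    nlinarith [mul_nonneg hn.le (mul_nonneg hbig h3), mul_nonneg hn.le hd0.le]
  obtain ⟨C, hC, hmod⟩ := modHeight_le M
  set D : ℝ := 1 + B + M.e + C with hD
  have he : (0 : ℝ) ≤ M.e := Nat.cast_nonneg _
  have hDpos : 0 < D := by rw [hD]; linarith
  refine ⟨κ / D, div_pos hκ hDpos, ?_⟩
  intro F hF hs P hP hw
  obtain ⟨A, hA, hAl⟩ := hlow F hF hs P hP hw
  have hh := Fin_absHeight_nonneg (conj F A)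
  have h1 := hres F hF A hA
  have h2 := hmod F hF A hA
  refine ⟨A, hA, ?_⟩
  have h3 : max (max (Real.log (Ideal.absNorm (minRes F))) (modHeight M F))
      (1 + absHeight (conj F A)) ≤ D * (1 + absHeight (conj F A)) := by
    refine max_le (max_le ?_ ?_) ?_
    · refine le_trans h1 (mul_le_mul_of_nonneg_right ?_ (by linarith))
      rw [hD]; linarith
    · refine le_trans h2 ?_
      rw [hD]
      nlinarith [mul_nonneg hBpos.le hh, mul_nonneg hC hh]
    · rw [hD]
      nlinarith [mul_nonneg hBpos.le hh, mul_nonneg hC hh, mul_nonneg he hh]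
  calc κ / D * max (max (Real.log (Ideal.absNorm (minRes F))) (modHeight M F))
        (1 + absHeight (conj F A))
      ≤ κ / D * (D * (1 + absHeight (conj F A))) :=
        mul_le_mul_of_nonneg_left h3 (div_pos hκ hDpos).le
    _ = κ * (1 + absHeight (conj F A)) := by field_simp
    _ ≤ canHeight F P := hAl

end Pool.Agent.LNG
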