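import Pool.Agent.LNG.Sgh
import Pool.Agent.LNG.Gre
import Pool.Agent.LNG.Est2

/-!
# LNG, GlG (difficulty 2-3): the canonical height is the sum of the local escape rates

For finite `v` with `cn v F = 1`, `v (res F) = 1` (almost all `v`), `G_spec` with `σ = 1` has all constants `0`, so `log ‖F^n X‖ = d^n G v F X` for all `n`.
In general `|log ‖F^n(X)‖_v - d^n G_v(X)| ≤ b_v(F)` with `b_v(F) = |(2 log σ + (2d-1) log cn - log v(res F))/(d-1)| + |(log σ + log cn)/(d-1)|`, `σ = bigM d` at infinite places and `σ = 1` at finite places, and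
`b_v(F) = 0` for almost all finite `v` (`FS_log`, `FS_height`). Summation (`Sg_mono`, `SA_height` for the vector `F^n(X)`, `vn_eq_iSup`): `|logHeight(F^n(X)) - d^n SA(G)| ≤ C_F := Sg b`.
Divide by `d^n`.
-/

namespace Pool.Agent.LNG

open Polynomial NumberField IsDedekindDomain

variable {K : Type} [Field K] [NumberField K] {d : ℕ}

/-- the local error bound -/
noncomputable def GlG_b (σ : ℝ) (F : Coef K d) (v : AbsoluteValue K ℝ) : ℝ :=
  |(2 * Real.log σ + (2 * d - 1) * Real.log (cn v F) - Real.log (v (res F))) / (d - 1)| +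
    |(Real.log σ + Real.log (cn v F)) / (d - 1)|

theorem GlG_le {v : AbsoluteValue K ℝ} {σ : ℝ} (hσ : SumBound v (bigM d) σ) (hd : 2 ≤ d)
    {F : Coef K d} (hF : res F ≠ 0) {X : Fin 2 → K} (hX : X ≠ 0) (n : ℕ) :
    Real.log (⨆ i, v ((ev F)^[n] X i)) ≤ (d : ℝ) ^ n * G v F X + GlG_b σ F v ∧
      (d : ℝ) ^ n * G v F X + (-1) * GlG_b σ F v ≤ Real.log (⨆ i, v ((ev F)^[n] X i)) := by
  rw [← vn_eq_iSup]
  obtain ⟨-, h1, h2⟩ := G_spec hσ hd hF hX
  have h3 := h1 n
  have h4 := h2 n
  have e1 := le_abs_self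
    ((2 * Real.log σ + (2 * d - 1) * Real.log (cn v F) - Real.log (v (res F))) / (d - 1))
  have e2 := le_abs_self ((Real.log σ + Real.log (cn v F)) / (d - 1))
  have e3 := abs_nonneg
    ((2 * Real.log σ + (2 * d - 1) * Real.log (cn v F) - Real.log (v (res F))) / (d - 1))
  have e4 := abs_nonneg ((Real.log σ + Real.log (cn v F)) / (d - 1))
  unfold GlG_b
  constructor <;> linarith

theorem FS_G (hd : 2 ≤ d) {F : Coef K d} (hF : res F ≠ 0) {X : Fin 2 → K} (hX : X ≠ 0) :
    FS (fun v => G v F X) := by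
  have hF0 : F ≠ 0 := ne_zero_of_res (by omega) hF
  have s1 := FS_height hX
  have s2 := FS_height hF0
  have s3 := FS_log hF
  unfold FS at *
  refine ((s1.union s2).union s3).subset ?_
  intro v hv
  by_contra hcon
  simp only [Set.mem_union, Function.mem_support, ne_eq, not_or, not_not] at hcon
  obtain ⟨⟨h1, h2⟩, h3⟩ := hcon
  apply hv
  show G v.val F X = 0
  have hσ := sumBound_nonarch v.val (nonarch_of_finite v) (bigM d)
  obtain ⟨-, g1, g2⟩ := G_spec hσ hd hF hX
  have g3 := g1 0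
  have g4 := g2 0
  have hcn : Real.log (cn v.val F) = 0 := h2
  have hvn : Real.log (vn v.val X) = 0 := by rw [vn_eq_iSup]; exact h1
  simp only [Function.iterate_zero, id, pow_zero, one_mul, Real.log_one, mul_zero, hcn, h3, hvn,
    zero_add, add_zero, sub_zero, zero_div] at g3 g4
  linarith

theorem GlG_FS (hd : 2 ≤ d) {F : Coef K d} (hF : res F ≠ 0) :
    (Function.support (fun v : FinitePlace K => GlG_b 1 F v.val)).Finite := by
  have hF0 : F ≠ 0 := ne_zero_of_res (by omega) hF
  have s2 := FS_height hF0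
  have s3 := FS_log hF
  unfold FS at *
  refine (s2.union s3).subset ?_
  intro v hv
  by_contra hcon
  simp only [Set.mem_union, Function.mem_support, ne_eq, not_or, not_not] at hcon
  obtain ⟨h2, h3⟩ := hcon
  apply hv
  have hcn : Real.log (cn v.val F) = 0 := h2
  show GlG_b 1 F v.val = 0
  unfold GlG_b
  rw [hcn, h3]
  simp

theorem height_iter_bound (hd : 2 ≤ d) {F : Coef K d} (hF : res F ≠ 0) :
    ∃ C : ℝ, ∀ X : Fin 2 → K, X ≠ 0 → ∀ n : ℕ,
      |Height.logHeight ((ev F)^[n] X) - (d : ℝ) ^ n * SA (fun v => G v F X)| ≤ C := by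
  have hM : 1 ≤ bigM d := Nat.one_le_iff_ne_zero.2 (Nat.factorial_ne_zero _)
  refine ⟨Sg (fun v => GlG_b (bigM d : ℝ) F v.val) (fun v => GlG_b 1 F v.val), ?_⟩
  intro X hX n
  have hXn : (ev F)^[n] X ≠ 0 := iter_ne_zero (by omega) hF hX n
  have hfin := GlG_FS hd hF
  have hG := FS_G hd hF hX
  have hH := FS_height hXn
  have hGn : FS (fun v => (d : ℝ) ^ n * G v F X) := FS_mul _ hG
  have hneg : (Function.support (fun v : FinitePlace K => (-1 : ℝ) * GlG_b 1 F v.val)).Finite := by
    refine hfin.subset ?_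
    intro v hv h0
    apply hv
    exact mul_eq_zero.2 (Or.inr h0)
  have hsum : ∀ {g g' : FinitePlace K → ℝ}, (Function.support g).Finite →
      (Function.support g').Finite → (Function.support (fun v => g v + g' v)).Finite := by
    intro g g' h h'
    exact (h.union h').subset (Function.support_add g g')
  rw [← SA_height hXn]
  have hup : SA (fun v => Real.log (⨆ i, v ((ev F)^[n] X i))) ≤
      Sg (fun v => (d : ℝ) ^ n * G v.val F X + GlG_b (bigM d : ℝ) F v.val)
        (fun v => (d : ℝ) ^ n * G v.val F X + GlG_b 1 F v.val) := by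
    refine Sg_mono hH (hsum hGn hfin) ?_ ?_
    · intro v
      exact (GlG_le (sumBound_arch v.val (bigM d) hM) hd hF hX n).1
    · intro v
      exact (GlG_le (sumBound_nonarch v.val (nonarch_of_finite v) (bigM d)) hd hF hX n).1
  have hlow : Sg (fun v => (d : ℝ) ^ n * G v.val F X + (-1) * GlG_b (bigM d : ℝ) F v.val)
        (fun v => (d : ℝ) ^ n * G v.val F X + (-1) * GlG_b 1 F v.val) ≤
      SA (fun v => Real.log (⨆ i, v ((ev F)^[n] X i))) := by
    refine Sg_mono (hsum hGn hneg) hH ?_ ?_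
    · intro v
      exact (GlG_le (sumBound_arch v.val (bigM d) hM) hd hF hX n).2
    · intro v
      exact (GlG_le (sumBound_nonarch v.val (nonarch_of_finite v) (bigM d)) hd hF hX n).2
  rw [Sg_add (f := fun v : InfinitePlace K => (d : ℝ) ^ n * G v.val F X)
    (f' := fun v : InfinitePlace K => GlG_b (bigM d : ℝ) F v.val)
    (g := fun v : FinitePlace K => (d : ℝ) ^ n * G v.val F X)
    (g' := fun v : FinitePlace K => GlG_b 1 F v.val) hGn hfin] at hup
  rw [Sg_add (f := fun v : InfinitePlace K => (d : ℝ) ^ n * G v.val F X)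
    (f' := fun v : InfinitePlace K => (-1) * GlG_b (bigM d : ℝ) F v.val)
    (g := fun v : FinitePlace K => (d : ℝ) ^ n * G v.val F X)
    (g' := fun v : FinitePlace K => (-1) * GlG_b 1 F v.val) hGn hneg] at hlow
  rw [Sg_mul (-1) (fun v : InfinitePlace K => GlG_b (bigM d : ℝ) F v.val)
    (fun v : FinitePlace K => GlG_b 1 F v.val)] at hlow
  have hS : Sg (fun v : InfinitePlace K => (d : ℝ) ^ n * G v.val F X)
      (fun v : FinitePlace K => (d : ℝ) ^ n * G v.val F X) =
      (d : ℝ) ^ n * SA (fun v => G v F X) := SA_mul ((d : ℝ) ^ n) (fun v => G v F X)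
  rw [hS] at hup hlow
  rw [abs_le]
  constructor <;> linarith

end Pool.Agent.LNG
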