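import Pool.Agent.LNG.Rmn
import Pool.Agent.LNG.Grr

/-!
# LNG, Rmf (difficulty 1-2): finiteness

`badPl_finite`: if `rr v F = 0` (`v` finite) then with `c` = inverse of the largest coefficient of `F` the vector `c • F = c • conj (mapC (RingHom.id K) F) 1` (`conj_one`) has coefficients of absolute value `≤ 1` and `v (res (c • F)) = 1`
(`rr_smul`, `cn = 1`), so `PotGood v F` (`L = K`). So `badPl F ⊆ support of rr`, finite by `FS_rr`.
`finsum_bad`: both sums are finite; at `v ∉ badPl F` the number `rmin v F` is `0` (`rmin_potGood`).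
`finsum_mem` conventions: `∑ᶠ v ∈ s, f v = ∑ᶠ v, ∑ᶠ (_ : v ∈ s), f v`; `finsum_mem_def`, `finsum_mem_eq_finite_toFinset_sum`, `finsum_congr`.
-/

namespace Pool.Agent.LNG

open Polynomial NumberField IsDedekindDomain

variable {K : Type} [Field K] [NumberField K] {d : ℕ}

theorem badPl_finite (hd : 1 ≤ d) {F : Coef K d} (hF : res F ≠ 0) : (badPl F).Finite := by
  refine (FS_rr hd hF).subset ?_
  intro v hv
  rw [Function.mem_support]
  intro h0
  refine hv ?_
  obtain ⟨p, hp⟩ := exists_cn v.val F
  have hcn : 0 < cn v.val F := cn_pos v.val (ne_zero_of_res hd hF)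
  have hFp : F p ≠ 0 := by
    intro h
    rw [h, map_zero] at hp
    linarith
  have hres : 0 < v.val (res F) := v.val.pos hF
  have hc : (F p)⁻¹ ≠ 0 := inv_ne_zero hFp
  refine ⟨K, inferInstance, RingHom.id K, v.val, nonarch_of_finite v, fun x => rfl, 1, (F p)⁻¹,
    by simp, hc, ?_, ?_⟩
  · intro q
    have e : conj (mapC (RingHom.id K) F) 1 = F := by
      rw [conj_one]
      rfl
    rw [e]
    simp only [Pi.smul_apply, smul_eq_mul, map_mul, map_inv₀, hp]
    rw [inv_mul_le_iff₀ hcn, mul_one]
    exact le_cn v.val F q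
  · have e : conj (mapC (RingHom.id K) F) 1 = F := by
      rw [conj_one]
      rfl
    rw [e, res_smul, map_mul, map_pow, map_inv₀, hp]
    unfold rr at h0
    have h1 : Real.log (v.val (res F)) = Real.log (cn v.val F ^ (2 * d)) := by
      rw [Real.log_pow]
      push_cast
      linarith
    have h2 : v.val (res F) = cn v.val F ^ (2 * d) :=
      Real.log_injOn_pos (Set.mem_Ioi.mpr hres) (Set.mem_Ioi.mpr (pow_pos hcn _)) h1
    rw [h2, ← mul_pow, inv_mul_cancel₀ hcn.ne', one_pow]

open Classical in
theorem finsum_bad (hd : 1 ≤ d) {F : Coef K d} (hF : res F ≠ 0) (T : Finset (FinitePlace K)) :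
    ∑ᶠ v ∈ (badPl F \ (T : Set (FinitePlace K))), rmin v.val F =
      ∑ᶠ v : FinitePlace K, (if v ∈ T then 0 else rmin v.val F) := by
  rw [finsum_mem_def]
  refine finsum_congr fun v => ?_
  by_cases hT : v ∈ T
  · rw [if_pos hT, Set.indicator_of_notMem]
    intro h
    exact h.2 (Finset.mem_coe.mpr hT)
  · rw [if_neg hT]
    by_cases hb : v ∈ badPl F
    · rw [Set.indicator_of_mem]
      exact ⟨hb, fun h => hT (Finset.mem_coe.mp h)⟩
    · rw [Set.indicator_of_notMem (fun h => hb h.1)]
      have hpg : PotGood v.val F := by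
        by_contra hnot
        exact hb hnot
      rw [rmin_potGood hd v hF hpg]

open Classical in
theorem finite_rmin (hd : 1 ≤ d) {F : Coef K d} (hF : res F ≠ 0) :
    (Function.support (fun v : FinitePlace K => rmin v.val F)).Finite := by
  refine (badPl_finite hd hF).subset fun v hv => ?_
  rw [Function.mem_support] at hv
  intro hpg
  exact hv (rmin_potGood hd v hF hpg)

end Pool.Agent.LNG
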