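import Pool.Agent.LNG.Lcg
import Pool.Agent.LNG.Grr
import Pool.Agent.LNG.CaG
import Pool.Agent.LNG.Rmf

/-!
# LNG, Glo (difficulty 2-3): the global sum

Same as `Mai_sum` in `Mai.lean`, for sums over all triples. Let `n = (D3 N).card`. Compare (`Sg_mono`), at infinite places `a ΣR_τ + n (b max(rmin,0) - C₂)`, at `v ∈ T`: `a ΣR_τ + n (b rmin - C₂)`, at the other finite places `a ΣR_τ - n ε rmin`, with `Σ_τ St`. Finite supports:
`FS_rr`, `FS_gg`, `finite_rmin`, `T` finite. Sums: `SA_rr`, `SA_gg`, `sum_mult`, `finsum_bad`.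
Result: `a 2d Σ_τ H_τ + n [b (Σ_T rmin + Σ_inf mult max(rmin,0)) - ε W - C₂ ([K:Q] + card T)] ≤ [K:Q] Σ_τ 2(ĥ(X_i)+ĥ(X_j)+ĥ(X_l))`.
-/

namespace Pool.Agent.LNG

open Polynomial NumberField IsDedekindDomain

variable {K : Type} [Field K] [NumberField K] {d : ℕ}

theorem Glo_sum {ι : Type} [DecidableEq ι] (s : Finset ι) (f : ι → AbsoluteValue K ℝ → ℝ)
    (h : ∀ i ∈ s, FS (f i)) :
    FS (fun v => ∑ i ∈ s, f i v) ∧ SA (fun v => ∑ i ∈ s, f i v) = ∑ i ∈ s, SA (f i) := by
  induction s using Finset.induction_on with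
  | empty =>
    constructor
    · unfold FS
      simp
    · unfold SA Sg
      simp
  | insert i s hi ih =>
    obtain ⟨h1, h2⟩ := ih (fun j hj => h j (Finset.mem_insert_of_mem hj))
    have h3 := h i (Finset.mem_insert_self _ _)
    have e : (fun v : AbsoluteValue K ℝ => ∑ j ∈ insert i s, f j v) =
        fun v => f i v + ∑ j ∈ s, f j v := by
      funext v
      rw [Finset.sum_insert hi]
    constructor
    · rw [e]
      exact FS_add h3 h1
    · rw [e, SA_add h3 h1, h2, Finset.sum_insert hi]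

theorem glo (hd : 2 ≤ d) {F : Coef K d} (hF : res F ≠ 0) (N : ℕ) (X : Fin N → Fin 2 → K)
    (hX0 : ∀ i, X i ≠ 0) (hX : ∀ i j, i ≠ j → wd (X i) (X j) ≠ 0) (T : Finset (FinitePlace K))
    {a b C₂ ε : ℝ} (ha : 0 ≤ a) (hb : 0 ≤ b) (hC : 0 ≤ C₂) (hε : 0 ≤ ε)
    (hinf : ∀ v : InfinitePlace K, a * ∑ τ ∈ D3 N, rr v.val (conj F (At X τ)) +
      (D3 N).card * (b * max (rmin v.val F) 0 - C₂) ≤ ∑ τ ∈ D3 N, St v.val F X τ)
    (hT : ∀ v ∈ T, a * ∑ τ ∈ D3 N, rr v.val (conj F (At X τ)) +
      (D3 N).card * (b * rmin v.val F - C₂) ≤ ∑ τ ∈ D3 N, St v.val F X τ)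
    (hgood : ∀ v : FinitePlace K, v ∉ T → a * ∑ τ ∈ D3 N, rr v.val (conj F (At X τ)) -
      (D3 N).card * ε * rmin v.val F ≤ ∑ τ ∈ D3 N, St v.val F X τ) :
    a * (2 * d) * ∑ τ ∈ D3 N, Height.logHeight (conj F (At X τ)) +
      (D3 N).card * (b * (∑ v ∈ T, rmin v.val F +
          ∑ v : InfinitePlace K, (v.mult : ℝ) * max (rmin v.val F) 0) -
        ε * (∑ᶠ v ∈ (badPl F \ (T : Set (FinitePlace K))), rmin v.val F) -
        C₂ * (Module.finrank ℚ K + T.card)) ≤
      Module.finrank ℚ K * ∑ τ ∈ D3 N, 2 * (canHeight F (X τ.1) + canHeight F (X τ.2.1) +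
        canHeight F (X τ.2.2)) := by
  classical
  have hd1 : 1 ≤ d := by omega
  have hdist : ∀ τ ∈ D3 N, τ.1 ≠ τ.2.1 ∧ τ.2.1 ≠ τ.2.2 ∧ τ.2.2 ≠ τ.1 := by
    intro τ hτ
    exact (Finset.mem_filter.mp hτ).2
  have hres : ∀ τ ∈ D3 N, res (conj F (At X τ)) ≠ 0 := by
    intro τ hτ
    have hdet := At_det hX hτ
    rw [res_conj F hdet]
    exact mul_ne_zero (pow_ne_zero _ hdet) hF
  set n : ℝ := ((D3 N).card : ℝ) with hn
  obtain ⟨FSR, SAR⟩ := Glo_sum (D3 N) (fun τ v => rr v (conj F (At X τ)))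
    (fun τ hτ => FS_rr hd1 (hres τ hτ))
  have FSt : ∀ τ ∈ D3 N, FS (fun v => St v F X τ) := by
    intro τ hτ
    obtain ⟨h1, h2, h3⟩ := hdist τ hτ
    exact FS_add (FS_add (FS_gg hd hF (hX _ _ h1)) (FS_gg hd hF (hX _ _ h2)))
      (FS_gg hd hF (hX _ _ h3))
  have SAt : ∀ τ ∈ D3 N, SA (fun v => St v F X τ) = Module.finrank ℚ K *
      (2 * (canHeight F (X τ.1) + canHeight F (X τ.2.1) + canHeight F (X τ.2.2))) := by
    intro τ hτ
    obtain ⟨h1, h2, h3⟩ := hdist τ hτ
    change SA (fun v => (gg v F (X τ.1) (X τ.2.1) + gg v F (X τ.2.1) (X τ.2.2)) +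
      gg v F (X τ.2.2) (X τ.1)) = _
    rw [SA_add (FS_add (FS_gg hd hF (hX _ _ h1)) (FS_gg hd hF (hX _ _ h2)))
      (FS_gg hd hF (hX _ _ h3)), SA_add (FS_gg hd hF (hX _ _ h1)) (FS_gg hd hF (hX _ _ h2)),
      SA_gg hd hF (hX _ _ h1), SA_gg hd hF (hX _ _ h2), SA_gg hd hF (hX _ _ h3)]
    ring
  obtain ⟨FSS, SAS⟩ := Glo_sum (D3 N) (fun τ v => St v F X τ) FSt
  -- the second part of the left side
  have hrm := finite_rmin hd1 hF
  have sup1 : (Function.support (fun v : FinitePlace K =>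
      if v ∈ T then b * rmin v.val F - C₂ else 0)).Finite := by
    refine T.finite_toSet.subset fun v hv => ?_
    by_contra hnot
    exact hv (if_neg hnot)
  have sup2 : (Function.support (fun v : FinitePlace K =>
      (-ε) * (if v ∈ T then 0 else rmin v.val F))).Finite := by
    refine hrm.subset fun v hv => ?_
    rw [Function.mem_support] at hv ⊢
    intro h0
    apply hv
    rw [h0]
    simp
  have sup3 : (Function.support (fun v : FinitePlace K =>
      n * ((if v ∈ T then b * rmin v.val F - C₂ else 0) +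
        (-ε) * (if v ∈ T then 0 else rmin v.val F)))).Finite := by
    refine (sup1.union sup2).subset fun v hv => ?_
    rw [Function.mem_support] at hv
    by_contra hnot
    rw [Set.mem_union, not_or, Function.mem_support, Function.mem_support, not_not, not_not] at hnot
    apply hv
    rw [hnot.1, hnot.2]
    ring
  have key : Sg (fun v : InfinitePlace K => a * ∑ τ ∈ D3 N, rr v.val (conj F (At X τ)) +
        n * (b * max (rmin v.val F) 0 - C₂))
      (fun v : FinitePlace K => a * ∑ τ ∈ D3 N, rr v.val (conj F (At X τ)) +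
        n * ((if v ∈ T then b * rmin v.val F - C₂ else 0) +
        (-ε) * (if v ∈ T then 0 else rmin v.val F))) ≤
      Sg (fun v => ∑ τ ∈ D3 N, St v.val F X τ) (fun v => ∑ τ ∈ D3 N, St v.val F X τ) := by
    refine Sg_mono ?_ FSS hinf ?_
    · refine ((FS_mul a FSR).union sup3).subset ?_
      exact Function.support_add _ _
    · intro v
      by_cases hv : v ∈ T
      · have := hT v hv
        simp only [if_pos hv]
        linarith
      · have := hgood v hv
        simp only [if_neg hv]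
        linarith
  rw [Sg_add (FS_mul a FSR) sup3] at key
  have e1 : Sg (fun v : InfinitePlace K => a * ∑ τ ∈ D3 N, rr v.val (conj F (At X τ)))
      (fun v : FinitePlace K => a * ∑ τ ∈ D3 N, rr v.val (conj F (At X τ))) =
      a * (2 * d) * ∑ τ ∈ D3 N, Height.logHeight (conj F (At X τ)) := by
    have h1 := SA_mul a (fun v : AbsoluteValue K ℝ => ∑ τ ∈ D3 N, rr v (conj F (At X τ)))
    rw [SAR] at h1
    have h2 : ∑ τ ∈ D3 N, SA (fun v => rr v (conj F (At X τ))) =
        ∑ τ ∈ D3 N, 2 * d * Height.logHeight (conj F (At X τ)) :=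
      Finset.sum_congr rfl fun τ hτ => SA_rr hd1 (hres τ hτ)
    rw [h2, ← Finset.mul_sum] at h1
    unfold SA at h1
    rw [h1]
    ring
  have e2 : Sg (fun v : InfinitePlace K => n * (b * max (rmin v.val F) 0 - C₂))
      (fun v : FinitePlace K => n * ((if v ∈ T then b * rmin v.val F - C₂ else 0) +
        (-ε) * (if v ∈ T then 0 else rmin v.val F))) =
      n * (b * (∑ v ∈ T, rmin v.val F +
          ∑ v : InfinitePlace K, (v.mult : ℝ) * max (rmin v.val F) 0) -
        ε * (∑ᶠ v ∈ (badPl F \ (T : Set (FinitePlace K))), rmin v.val F) -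
        C₂ * (Module.finrank ℚ K + T.card)) := by
    rw [Sg_mul n (fun v : InfinitePlace K => (b * max (rmin v.val F) 0 - C₂))
      (fun v : FinitePlace K => ((if v ∈ T then b * rmin v.val F - C₂ else 0) +
        (-ε) * (if v ∈ T then 0 else rmin v.val F)))]
    congr 1
    unfold Sg
    have i1 : ∑ v : InfinitePlace K, (v.mult : ℝ) * (b * max (rmin v.val F) 0 - C₂) =
        b * (∑ v : InfinitePlace K, (v.mult : ℝ) * max (rmin v.val F) 0) -
          C₂ * Module.finrank ℚ K := by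
      rw [← sum_mult (K := K), Finset.mul_sum, Finset.mul_sum, ← Finset.sum_sub_distrib]
      exact Finset.sum_congr rfl fun v _ => by ring
    have i2 : ∑ᶠ v : FinitePlace K, ((if v ∈ T then b * rmin v.val F - C₂ else 0) +
        (-ε) * (if v ∈ T then 0 else rmin v.val F)) =
        (b * (∑ v ∈ T, rmin v.val F) - C₂ * T.card) -
        ε * (∑ᶠ v ∈ (badPl F \ (T : Set (FinitePlace K))), rmin v.val F) := by
      rw [finsum_add_distrib sup1 sup2]
      have j1 : ∑ᶠ v : FinitePlace K, (if v ∈ T then b * rmin v.val F - C₂ else 0) =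
          b * (∑ v ∈ T, rmin v.val F) - C₂ * T.card := by
        rw [finsum_eq_sum_of_support_subset (s := T)]
        · rw [Finset.sum_congr rfl (g := fun v : FinitePlace K => b * rmin v.val F - C₂)
            (fun v hv => if_pos hv), Finset.sum_sub_distrib, ← Finset.mul_sum, Finset.sum_const,
            nsmul_eq_mul]
          ring
        · intro v hv
          by_contra hnot
          exact hv (if_neg hnot)
      have j2 : ∑ᶠ v : FinitePlace K, (-ε) * (if v ∈ T then 0 else rmin v.val F) =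
          (-ε) * ∑ᶠ v : FinitePlace K, (if v ∈ T then 0 else rmin v.val F) := by
        have := smul_finsum (-ε) (fun v : FinitePlace K => (if v ∈ T then 0 else rmin v.val F))
        simp only [smul_eq_mul] at this
        exact this.symm
      rw [j1, j2, ← finsum_bad hd1 hF T]
      ring
    rw [i1, i2]
    ring
  have e3 : Sg (fun v : InfinitePlace K => ∑ τ ∈ D3 N, St v.val F X τ)
      (fun v : FinitePlace K => ∑ τ ∈ D3 N, St v.val F X τ) =
      Module.finrank ℚ K * ∑ τ ∈ D3 N, 2 * (canHeight F (X τ.1) + canHeight F (X τ.2.1) +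
        canHeight F (X τ.2.2)) := by
    have h1 : SA (fun v => ∑ τ ∈ D3 N, St v F X τ) = _ := SAS
    rw [Finset.sum_congr rfl SAt, ← Finset.mul_sum] at h1
    exact h1
  rw [e1, e2, e3] at key
  exact key

end Pool.Agent.LNG
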