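import Pool.Agent.LNG.Est0

/-!
# LNG, Gr1 (difficulty 2): greedy choice of the first family

Given (M), `‖F‖ = 1` and `μ = |F(0,a) F(1,b) - F(1,a) F(0,b)| > 0`: for all `n2, n1` there are `u_0, ..., u_{n2-1}`, `|u_j| = 1`, such that with
`Y_j = F(u_j, 1)`:  `∏_{i<j} |Y_i ∧ Y_j| · ∏_j ‖Y_j‖^{n1} ≥ 2^{-d n2 (n1+n2)} μ^{n2(n2-1)/2}`.
Proof. Let `c(x) = Σ_e x^e (F(0,e) F(1,b) - F(1,e) F(0,b))` (polynomial of natDegree ≤ d, `pn ≥ μ`), `F_ι = pol F i₀` with `pn v (pol F i₀) ≥ 1` (`exists_cn`),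
`R_u(x) = F_0(u) F_1(x) - F_1(u) F_0(x)` (polynomial in `x`, `F_i(u) = (pol F i).eval u = ev F ![u,1] i`), whose coefficient of `x^b` is
`F_0(u) F(1,b) - F_1(u) F(0,b) = c(u)`, so `pn v R_u ≥ |c(u)|`; and `R_u(x) = wd (ev F ![u,1]) (ev F ![x,1])`.
Claim by induction on `l ≤ n2`: there are `u : ℕ → k` (or `Fin l → k`) with `|u_j| = 1` and
 `∏_{i<j<l} |R_{u_i}(u_j)| · ∏_{j<l} |c(u_j)|^{n2-l} · ∏_{j<l} |F_ι(u_j)|^{n1} ≥ 2^{-d l (n1+n2)} μ^{Σ_{j<l}(n2-1-j)}`.
Step `l → l+1` (`l < n2`): apply (M) to the list of polynomials `R_{u_j}` (`j < l`), `n2-l-1` copies of `c`, `n1` copies of `F_ι` (all nonzero, since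
`|c(u_j)| > 0` - by the induction hypothesis the product is positive; if `n2 - l = 0` nothing to do), of degrees `≤ d` each and altogether
`l + (n2-l-1) + n1 ≤ n1 + n2` polynomials; (M) gives `u_l` with
`∏_{j<l} |R_{u_j}(u_l)| · |c(u_l)|^{n2-l-1} · |F_ι(u_l)|^{n1} ≥ 2^{-d(n1+n2)} ∏_{j<l} |c(u_j)| · μ^{n2-l-1}`, multiply.
At the end (`l = n2`) use `|F_ι(u_j)| ≤ ‖Y_j‖`. It is convenient to do the induction with sequences `u : ℕ → k` and `Finset.range` products
`∏ j ∈ range l, ∏ i ∈ range j, ...`, and to convert at the end.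
-/

namespace Pool.Agent.LNG

open Polynomial

variable {k : Type*} [Field k] {d : ℕ}

theorem Gr1_list {v : AbsoluteValue k ℝ} (hM : MProp v) (L : List k[X]) (hL : ∀ P ∈ L, P ≠ 0) :
    ∃ x : k, v x = 1 ∧ (L.map fun P => (1 / 2 : ℝ) ^ P.natDegree * pn v P).prod ≤
      (L.map fun P => v (P.eval x)).prod := by
  obtain ⟨x, hx, h⟩ := hM L.length (fun i => L.get i) (fun i => hL _ (List.get_mem L i))
  refine ⟨x, hx, ?_⟩
  have e : ∀ f : k[X] → ℝ, (L.map f).prod = ∏ i : Fin L.length, f (L.get i) := by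
    intro f
    rw [← List.prod_ofFn]
    congr 1
    have := List.ofFn_get L
    conv_lhs => rw [← this]
    rw [List.map_ofFn]
    rfl
  rw [e, e]
  exact h

theorem Gr1_list2 {v : AbsoluteValue k ℝ} (hM : MProp v) (l s n1 : ℕ) (R : ℕ → k[X]) (c f : k[X])
    (hR : ∀ j < l, R j ≠ 0) (hc : c ≠ 0) (hf : f ≠ 0) :
    ∃ x : k, v x = 1 ∧ (∏ j ∈ Finset.range l, ((1 / 2 : ℝ) ^ (R j).natDegree * pn v (R j))) *
      ((1 / 2 : ℝ) ^ c.natDegree * pn v c) ^ s * ((1 / 2 : ℝ) ^ f.natDegree * pn v f) ^ n1 ≤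
      (∏ j ∈ Finset.range l, v ((R j).eval x)) * v (c.eval x) ^ s * v (f.eval x) ^ n1 := by
  obtain ⟨x, hx, h⟩ := Gr1_list hM ((List.range l).map R ++ List.replicate s c ++
    List.replicate n1 f) (by
    intro P hP
    simp only [List.mem_append, List.mem_map, List.mem_range, List.mem_replicate] at hP
    rcases hP with (⟨j, hj, rfl⟩ | ⟨_, rfl⟩) | ⟨_, rfl⟩
    · exact hR j hj
    · exact hc
    · exact hf)
  refine ⟨x, hx, ?_⟩
  simp only [List.map_append, List.map_replicate, List.prod_append, List.prod_replicate,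
    List.map_map] at h
  have e : ∀ g : ℕ → ℝ, ((List.range l).map g).prod = ∏ j ∈ Finset.range l, g j := by
    intro g
    rw [Finset.prod_range, ← List.prod_ofFn]
    congr 1
    apply List.ext_getElem
    · simp
    · intro n h1 h2
      simp
  rw [e, e] at h
  exact h

/-- the polynomial `c` -/
noncomputable def Gr1_c (F : Coef k d) (b : Fin (d + 1)) : k[X] :=
  C (F (1, b)) * pol F 0 - C (F (0, b)) * pol F 1

/-- the polynomial `R_u` -/
noncomputable def Gr1_R (F : Coef k d) (u : k) : k[X] :=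
  C ((pol F 0).eval u) * pol F 1 - C ((pol F 1).eval u) * pol F 0

theorem Gr1_R_eval (F : Coef k d) (u x : k) :
    (Gr1_R F u).eval x = wd (ev F ![u, 1]) (ev F ![x, 1]) := by
  unfold Gr1_R wd
  simp only [eval_sub, eval_mul, eval_C, pol_eval]

theorem Gr1_R_coeff (F : Coef k d) (b : Fin (d + 1)) (u : k) :
    (Gr1_R F u).coeff (b : ℕ) = (Gr1_c F b).eval u := by
  unfold Gr1_R Gr1_c
  simp only [coeff_sub, coeff_C_mul, eval_sub, eval_mul, eval_C, pol_coeff]
  ring

theorem Gr1_c_coeff (F : Coef k d) (a b : Fin (d + 1)) :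
    (Gr1_c F b).coeff (a : ℕ) = F (0, a) * F (1, b) - F (1, a) * F (0, b) := by
  unfold Gr1_c
  simp only [coeff_sub, coeff_C_mul, pol_coeff]
  ring

theorem Gr1_deg (F : Coef k d) (x y : k) (i j : Fin 2) :
    (C x * pol F i - C y * pol F j).natDegree ≤ d := by
  refine (natDegree_sub_le _ _).trans (max_le ?_ ?_)
  · exact (natDegree_C_mul_le _ _).trans (pol_natDegree_le F i)
  · exact (natDegree_C_mul_le _ _).trans (pol_natDegree_le F j)

theorem Gr1_half {m n : ℕ} (h : m ≤ n) : (1 / 2 : ℝ) ^ n ≤ (1 / 2 : ℝ) ^ m :=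
  pow_le_pow_of_le_one (by norm_num) (by norm_num) h

theorem Gr1_ind {v : AbsoluteValue k ℝ} (hM : MProp v) {F : Coef k d} (i0 : Fin 2)
    (hi0 : 1 ≤ pn v (pol F i0))
    (a b : Fin (d + 1)) (hμ : 0 < v (F (0, a) * F (1, b) - F (1, a) * F (0, b))) (n2 n1 : ℕ)
    (l : ℕ) (hl : l ≤ n2) :
    ∃ u : ℕ → k, (∀ j, v (u j) = 1) ∧
      (1 / 2 : ℝ) ^ (d * l * (n1 + n2)) *
        v (F (0, a) * F (1, b) - F (1, a) * F (0, b)) ^ (∑ j ∈ Finset.range l, (n2 - 1 - j)) ≤
      (∏ j ∈ Finset.range l, ∏ i ∈ Finset.range j, v ((Gr1_R F (u i)).eval (u j))) *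
        (∏ j ∈ Finset.range l, v ((Gr1_c F b).eval (u j))) ^ (n2 - l) *
        (∏ j ∈ Finset.range l, v ((pol F i0).eval (u j))) ^ n1 := by
  set μ := v (F (0, a) * F (1, b) - F (1, a) * F (0, b)) with hμd
  induction l with
  | zero => exact ⟨fun _ => 1, fun _ => by simp, by simp⟩
  | succ l ih =>
    obtain ⟨u, hu, hprod⟩ := ih (by omega)
    set A := ∏ j ∈ Finset.range l, ∏ i ∈ Finset.range j, v ((Gr1_R F (u i)).eval (u j)) with hA
    set Cc := ∏ j ∈ Finset.range l, v ((Gr1_c F b).eval (u j)) with hCc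
    set B := ∏ j ∈ Finset.range l, v ((pol F i0).eval (u j)) with hB
    have hA0 : 0 ≤ A := Finset.prod_nonneg fun _ _ => Finset.prod_nonneg fun _ _ => v.nonneg _
    have hC0 : 0 ≤ Cc := Finset.prod_nonneg fun _ _ => v.nonneg _
    have hB0 : 0 ≤ B := Finset.prod_nonneg fun _ _ => v.nonneg _
    have hpos : 0 < A * Cc ^ (n2 - l) * B ^ n1 := lt_of_lt_of_le (by positivity) hprod
    have hCpos : 0 < Cc := by
      rcases hC0.lt_or_eq with h | h
      · exact h
      · rw [← h, zero_pow (by omega), mul_zero, zero_mul] at hpos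
        exact absurd hpos (lt_irrefl _)
    have hcu : ∀ j < l, (Gr1_c F b).eval (u j) ≠ 0 := by
      intro j hj h
      have : Cc = 0 := Finset.prod_eq_zero (Finset.mem_range.2 hj) (by rw [h, map_zero])
      exact hCpos.ne' this
    have hc : Gr1_c F b ≠ 0 := by
      intro h
      have := Gr1_c_coeff F a b
      rw [h, coeff_zero] at this
      rw [hμd, ← this, map_zero] at hμ
      exact lt_irrefl _ hμ
    have hf : pol F i0 ≠ 0 := by
      intro h
      rw [h] at hi0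
      have : pn v (0 : k[X]) = 0 := by
        unfold pn
        simp
      rw [this] at hi0
      exact absurd hi0 (by norm_num)
    obtain ⟨x, hx, hM1⟩ := Gr1_list2 hM l (n2 - l - 1) n1 (fun j => Gr1_R F (u j)) (Gr1_c F b)
      (pol F i0) (by
        intro j hj h
        apply hcu j hj
        rw [← Gr1_R_coeff, h, coeff_zero]) hc hf
    -- lower bound of the left side
    have hlow : (1 / 2 : ℝ) ^ (d * (n1 + n2)) * (Cc * μ ^ (n2 - l - 1)) ≤
        (∏ j ∈ Finset.range l, ((1 / 2 : ℝ) ^ (Gr1_R F (u j)).natDegree * pn v (Gr1_R F (u j)))) *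
      ((1 / 2 : ℝ) ^ (Gr1_c F b).natDegree * pn v (Gr1_c F b)) ^ (n2 - l - 1) *
      ((1 / 2 : ℝ) ^ (pol F i0).natDegree * pn v (pol F i0)) ^ n1 := by
      have b1 : ∏ j ∈ Finset.range l, ((1 / 2 : ℝ) ^ d * v ((Gr1_c F b).eval (u j))) ≤
          ∏ j ∈ Finset.range l, ((1 / 2 : ℝ) ^ (Gr1_R F (u j)).natDegree * pn v (Gr1_R F (u j))) := by
        apply Finset.prod_le_prod
        · intro j _
          exact mul_nonneg (by positivity) (v.nonneg _)
        · intro j _
          apply mul_le_mul (Gr1_half (Gr1_deg F _ _ 1 0)) _ (v.nonneg _) (by positivity)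
          rw [← Gr1_R_coeff]
          exact le_pn v _ _
      rw [Finset.prod_mul_distrib, Finset.prod_const, Finset.card_range, ← hCc] at b1
      have b2 : (1 / 2 : ℝ) ^ d * μ ≤
          (1 / 2 : ℝ) ^ (Gr1_c F b).natDegree * pn v (Gr1_c F b) := by
        apply mul_le_mul (Gr1_half (Gr1_deg F _ _ 0 1)) _ hμ.le (by positivity)
        rw [hμd, ← Gr1_c_coeff]
        exact le_pn v _ _
      have b3 : (1 / 2 : ℝ) ^ d * 1 ≤
          (1 / 2 : ℝ) ^ (pol F i0).natDegree * pn v (pol F i0) :=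
        mul_le_mul (Gr1_half (pol_natDegree_le F i0)) hi0 (by norm_num) (by positivity)
      have b2' := pow_le_pow_left₀ (by positivity) b2 (n2 - l - 1)
      have b3' := pow_le_pow_left₀ (by positivity) b3 n1
      have b4 : ((1 / 2 : ℝ) ^ d) ^ l * Cc * ((1 / 2 : ℝ) ^ d * μ) ^ (n2 - l - 1) *
          ((1 / 2 : ℝ) ^ d * 1) ^ n1 ≤ _ :=
        mul_le_mul (mul_le_mul b1 b2' (by positivity) (le_trans (by positivity) b1)) b3'
          (by positivity) (mul_nonneg (le_trans (by positivity) b1) (le_trans (by positivity) b2'))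
      refine le_trans ?_ b4
      rw [mul_one, mul_pow, ← pow_mul, ← pow_mul, ← pow_mul]
      have e1 : (1 / 2 : ℝ) ^ (d * l) * Cc * ((1 / 2 : ℝ) ^ (d * (n2 - l - 1)) * μ ^ (n2 - l - 1)) *
          (1 / 2 : ℝ) ^ (d * n1) = (1 / 2 : ℝ) ^ (d * l + d * (n2 - l - 1) + d * n1) *
          (Cc * μ ^ (n2 - l - 1)) := by
        rw [pow_add, pow_add]; ring
      rw [e1]
      apply mul_le_mul_of_nonneg_right _ (by positivity)
      apply Gr1_half
      have e2 : d * l + d * (n2 - l - 1) + d * n1 = d * (l + (n2 - l - 1) + n1) := by ring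
      rw [e2]
      exact Nat.mul_le_mul_left d (by omega)
    have hstep := hlow.trans hM1
    set u' : ℕ → k := fun j => if j < l then u j else x with hu'
    have hu'l : ∀ j < l, u' j = u j := fun j hj => by simp [hu', hj]
    have hu'x : u' l = x := by simp [hu']
    refine ⟨u', ?_, ?_⟩
    · intro j
      by_cases hj : j < l
      · rw [hu'l j hj]; exact hu j
      · simp [hu', hj, hx]
    · have eA : ∏ j ∈ Finset.range (l + 1), ∏ i ∈ Finset.range j,
          v ((Gr1_R F (u' i)).eval (u' j)) =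
          A * ∏ j ∈ Finset.range l, v ((Gr1_R F (u j)).eval x) := by
        rw [Finset.prod_range_succ, hA]
        congr 1
        · refine Finset.prod_congr rfl fun j hj => Finset.prod_congr rfl fun i hi => ?_
          rw [Finset.mem_range] at hj hi
          rw [hu'l j hj, hu'l i (by omega)]
        · refine Finset.prod_congr rfl fun j hj => ?_
          rw [Finset.mem_range] at hj
          rw [hu'l j hj, hu'x]
      have eC : ∏ j ∈ Finset.range (l + 1), v ((Gr1_c F b).eval (u' j)) =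
          Cc * v ((Gr1_c F b).eval x) := by
        rw [Finset.prod_range_succ, hCc, hu'x]
        congr 1
        refine Finset.prod_congr rfl fun j hj => ?_
        rw [hu'l j (Finset.mem_range.1 hj)]
      have eB : ∏ j ∈ Finset.range (l + 1), v ((pol F i0).eval (u' j)) =
          B * v ((pol F i0).eval x) := by
        rw [Finset.prod_range_succ, hB, hu'x]
        congr 1
        refine Finset.prod_congr rfl fun j hj => ?_
        rw [hu'l j (Finset.mem_range.1 hj)]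
      rw [eA, eC, eB, Finset.sum_range_succ, pow_add]
      have hn : n2 - (l + 1) = n2 - l - 1 := by omega
      have hn' : n2 - 1 - l = n2 - l - 1 := by omega
      rw [hn, hn', mul_pow, mul_pow]
      have e5 : d * (l + 1) * (n1 + n2) = d * l * (n1 + n2) + d * (n1 + n2) := by ring
      rw [e5, pow_add]
      have e6 : Cc ^ (n2 - l) = Cc ^ (n2 - l - 1) * Cc := by
        rw [← pow_succ]; congr 1; omega
      rw [e6] at hprod
      have hK : 0 ≤ A * Cc ^ (n2 - l - 1) * B ^ n1 := by positivity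
      calc (1 / 2 : ℝ) ^ (d * l * (n1 + n2)) * (1 / 2 : ℝ) ^ (d * (n1 + n2)) *
            (μ ^ (∑ j ∈ Finset.range l, (n2 - 1 - j)) * μ ^ (n2 - l - 1))
          = ((1 / 2 : ℝ) ^ (d * l * (n1 + n2)) * μ ^ (∑ j ∈ Finset.range l, (n2 - 1 - j))) *
            ((1 / 2 : ℝ) ^ (d * (n1 + n2)) * μ ^ (n2 - l - 1)) := by ring
        _ ≤ (A * (Cc ^ (n2 - l - 1) * Cc) * B ^ n1) *
            ((1 / 2 : ℝ) ^ (d * (n1 + n2)) * μ ^ (n2 - l - 1)) :=
            mul_le_mul_of_nonneg_right hprod (by positivity)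
        _ = (A * Cc ^ (n2 - l - 1) * B ^ n1) *
            ((1 / 2 : ℝ) ^ (d * (n1 + n2)) * (Cc * μ ^ (n2 - l - 1))) := by ring
        _ ≤ (A * Cc ^ (n2 - l - 1) * B ^ n1) * ((∏ j ∈ Finset.range l,
            v ((Gr1_R F (u j)).eval x)) * v ((Gr1_c F b).eval x) ^ (n2 - l - 1) *
            v ((pol F i0).eval x) ^ n1) := mul_le_mul_of_nonneg_left hstep hK
        _ = _ := by ring

theorem Gr1_pairs (n : ℕ) (f : ℕ → ℕ → ℝ) :
    ∏ j ∈ Finset.range n, ∏ i ∈ Finset.range j, f i j =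
      ∏ i : Fin n, ∏ j ∈ Finset.Ioi i, f i j := by
  have h1 : ∏ i : Fin n, ∏ j ∈ Finset.Ioi i, f i j = ∏ j : Fin n, ∏ i ∈ Finset.Iio j, f i j := by
    apply Finset.prod_comm'
    intro i j
    simp
  rw [h1, Finset.prod_range]
  refine Finset.prod_congr rfl fun j _ => ?_
  have h2 := Finset.prod_map (Finset.Iio j) Fin.valEmbedding (fun i => f i (j : ℕ))
  rw [Fin.map_valEmbedding_Iio, Nat.Iio_eq_range] at h2
  exact h2

theorem greedy1 {v : AbsoluteValue k ℝ} (hM : MProp v) {F : Coef k d} (hcn : cn v F = 1)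
    (a b : Fin (d + 1)) (hμ : 0 < v (F (0, a) * F (1, b) - F (1, a) * F (0, b))) (n2 n1 : ℕ) :
    ∃ u : Fin n2 → k, (∀ j, v (u j) = 1) ∧
      (1 / 2 : ℝ) ^ (d * n2 * (n1 + n2)) *
        v (F (0, a) * F (1, b) - F (1, a) * F (0, b)) ^ (n2 * (n2 - 1) / 2) ≤
      (∏ i, ∏ j ∈ Finset.Ioi i, v (wd (ev F ![u i, 1]) (ev F ![u j, 1]))) *
        ∏ j, vn v (ev F ![u j, 1]) ^ n1 := by
  obtain ⟨⟨i0, j0⟩, hp⟩ := exists_cn v F
  have hi0 : 1 ≤ pn v (pol F i0) := by
    rw [← hcn, ← hp, ← pol_coeff F i0 j0]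
    exact le_pn v _ _
  obtain ⟨u, hu, h⟩ := Gr1_ind hM i0 hi0 a b hμ n2 n1 n2 le_rfl
  refine ⟨fun j => u j, fun j => hu j, ?_⟩
  have hsum : ∑ j ∈ Finset.range n2, (n2 - 1 - j) = n2 * (n2 - 1) / 2 := by
    have := Finset.sum_range_reflect (fun j => j) n2
    rw [this, Finset.sum_range_id]
  rw [hsum, Nat.sub_self, pow_zero, mul_one] at h
  refine h.trans ?_
  simp only [Gr1_R_eval]
  rw [Gr1_pairs n2 (fun i j => v (wd (ev F ![u i, 1]) (ev F ![u j, 1])))]
  apply mul_le_mul_of_nonneg_left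
  · rw [← Finset.prod_pow, Finset.prod_range]
    apply Finset.prod_le_prod
    · intro j _
      exact pow_nonneg (v.nonneg _) _
    · intro j _
      apply pow_le_pow_left₀ (v.nonneg _)
      rw [pol_eval]
      unfold vn
      fin_cases i0
      · exact le_max_left _ _
      · exact le_max_right _ _
  · exact Finset.prod_nonneg fun _ _ => Finset.prod_nonneg fun _ _ => v.nonneg _

end Pool.Agent.LNG
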