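import Pool.Agent.LNG.Est0

/-!
# LNG, Gr2 (difficulty 2): greedy choice of the second family

Given (M) and nonzero vectors `y_j` (`j < n2`): for all `n1` there are `x_0, ..., x_{n1-1}`, `|x_i| = 1`, with `X_i = (x_i, 1)` and
`∏_{i<i'} |X_i ∧ X_{i'}| · ∏_{i,j} |y_j ∧ X_i| ≥ 2^{-n1 (n1+n2)} ∏_j ‖y_j‖^{n1}`.
Proof. Induction on `n1` (choose `x_{n1}` last): (M) for the polynomials `x - x_i` (`i < n1`; natDegree 1, `pn ≥ 1`; `|x - x_i| = |X_i ∧ (x,1)|`) and
`y_j 0 - y_j 1 * x` (`= y_j ∧ (x,1)`, natDegree ≤ 1, `pn = ‖y_j‖ > 0`), `n1 + n2` polynomials, gives `x_{n1}` with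
`∏_{i<n1} |X_i ∧ X_{n1}| · ∏_j |y_j ∧ X_{n1}| ≥ 2^{-(n1+n2)} ∏_j ‖y_j‖`; multiply with the induction hypothesis. (`n1 (n1+n2) + n1 + n2 ≤ (n1+1)(n1+1+n2)`.)
Use `Fin.snoc`/`Fin.prod_univ_castSucc`, or sequences `ℕ → k` and `Finset.range` products.
-/

namespace Pool.Agent.LNG

open Polynomial

variable {k : Type*} [Field k] {d : ℕ}

theorem Gr2_fin_prod (f : ℕ → ℕ → ℝ) (n : ℕ) :
    ∏ i : Fin n, ∏ j ∈ Finset.Ioi i, f i j =
      ∏ j ∈ Finset.range n, ∏ i ∈ Finset.range j, f i j := by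
  rw [Finset.prod_comm' (s' := fun j : Fin n => Finset.Iio j) (t' := Finset.univ)]
  · rw [Finset.prod_range]
    refine Finset.prod_congr rfl fun j _ => ?_
    rw [← Nat.Iio_eq_range, ← Fin.map_valEmbedding_Iio, Finset.prod_map]
    rfl
  · intro x y
    simp

theorem Gr2_step {v : AbsoluteValue k ℝ} (hM : MProp v) {n2 : ℕ} (y : Fin n2 → Fin 2 → k)
    (hy : ∀ j, y j ≠ 0) (n1 : ℕ) (x : ℕ → k) :
    ∃ x' : k, v x' = 1 ∧ (1 / 2 : ℝ) ^ (n1 + n2) * ∏ j, vn v (y j) ≤
      (∏ i ∈ Finset.range n1, v (wd ![x i, 1] ![x', 1])) * ∏ j, v (wd (y j) ![x', 1]) := by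
  obtain ⟨x', hx', h⟩ := hM (n1 + n2)
    (Fin.append (fun i : Fin n1 => (X : k[X]) - C (x i))
      (fun j : Fin n2 => C (y j 0) - C (y j 1) * X)) (by
      intro i
      refine Fin.addCases (fun i => ?_) (fun j => ?_) i
      · rw [Fin.append_left]
        exact X_sub_C_ne_zero _
      · rw [Fin.append_right]
        intro h0
        apply hy j
        have h1 := congrArg (fun p => coeff p 0) h0
        have h2 := congrArg (fun p => coeff p 1) h0
        simp at h1 h2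
        ext t
        fin_cases t
        · simpa using h1
        · simpa using h2)
  refine ⟨x', hx', ?_⟩
  rw [Fin.prod_univ_add, Fin.prod_univ_add] at h
  simp only [Fin.append_left, Fin.append_right] at h
  have e1 : ∏ i ∈ Finset.range n1, v (wd ![x i, 1] ![x', 1]) =
      ∏ i : Fin n1, v (eval x' ((X : k[X]) - C (x i))) := by
    rw [Finset.prod_range]
    refine Finset.prod_congr rfl fun i _ => ?_
    rw [← AbsoluteValue.map_neg v]
    congr 1
    simp [wd]
  have e2 : ∏ j, v (wd (y j) ![x', 1]) = ∏ j : Fin n2, v (eval x' (C (y j 0) - C (y j 1) * X)) := by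
    refine Finset.prod_congr rfl fun j _ => ?_
    congr 1
    simp [wd]
  rw [e1, e2]
  refine le_trans ?_ h
  have f1 : (1 / 2 : ℝ) ^ n1 ≤ ∏ i : Fin n1, (1 / 2 : ℝ) ^ ((X : k[X]) - C (x i)).natDegree *
      pn v ((X : k[X]) - C (x i)) := by
    have : (1 / 2 : ℝ) ^ n1 = ∏ _i : Fin n1, (1 / 2 : ℝ) := by simp
    rw [this]
    refine Finset.prod_le_prod (fun i _ => by norm_num) fun i _ => ?_
    rw [natDegree_X_sub_C, pow_one]
    have h1 := le_pn v ((X : k[X]) - C (x i)) 1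
    have h2 : ((X : k[X]) - C (x i)).coeff 1 = 1 := by simp
    rw [h2, map_one] at h1
    linarith
  have f2 : (1 / 2 : ℝ) ^ n2 * ∏ j, vn v (y j) ≤
      ∏ j : Fin n2, (1 / 2 : ℝ) ^ (C (y j 0) - C (y j 1) * X).natDegree *
        pn v (C (y j 0) - C (y j 1) * X) := by
    have : (1 / 2 : ℝ) ^ n2 = ∏ _j : Fin n2, (1 / 2 : ℝ) := by simp
    rw [this, ← Finset.prod_mul_distrib]
    refine Finset.prod_le_prod (fun j _ => mul_nonneg (by norm_num) (vn_nonneg v _)) fun j _ => ?_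
    have hd : (C (y j 0) - C (y j 1) * X : k[X]).natDegree ≤ 1 := by
      compute_degree
    have h1 : (1 / 2 : ℝ) ≤ (1 / 2 : ℝ) ^ (C (y j 0) - C (y j 1) * X : k[X]).natDegree := by
      calc (1 / 2 : ℝ) = (1 / 2 : ℝ) ^ 1 := (pow_one _).symm
        _ ≤ _ := pow_le_pow_of_le_one (by norm_num) (by norm_num) hd
    have h2 : vn v (y j) ≤ pn v (C (y j 0) - C (y j 1) * X) := by
      apply max_le
      · have := le_pn v (C (y j 0) - C (y j 1) * X) 0
        simpa using this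
      · have := le_pn v (C (y j 0) - C (y j 1) * X) 1
        simpa using this
    exact mul_le_mul h1 h2 (vn_nonneg v _) (by positivity)
  calc (1 / 2 : ℝ) ^ (n1 + n2) * ∏ j, vn v (y j)
      = (1 / 2 : ℝ) ^ n1 * ((1 / 2 : ℝ) ^ n2 * ∏ j, vn v (y j)) := by rw [pow_add]; ring
    _ ≤ _ := by
      refine mul_le_mul f1 f2 ?_ ?_
      · exact mul_nonneg (by positivity) (Finset.prod_nonneg fun j _ => vn_nonneg v _)
      · exact Finset.prod_nonneg fun i _ => mul_nonneg (by positivity) (pn_nonneg v _)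

theorem Gr2_seq {v : AbsoluteValue k ℝ} (hM : MProp v) {n2 : ℕ} (y : Fin n2 → Fin 2 → k)
    (hy : ∀ j, y j ≠ 0) (n1 : ℕ) :
    ∃ x : ℕ → k, (∀ i < n1, v (x i) = 1) ∧
      (1 / 2 : ℝ) ^ (n1 * (n1 + n2)) * ∏ j, vn v (y j) ^ n1 ≤
      (∏ i' ∈ Finset.range n1, ∏ i ∈ Finset.range i', v (wd ![x i, 1] ![x i', 1])) *
        ∏ i ∈ Finset.range n1, ∏ j, v (wd (y j) ![x i, 1]) := by
  induction n1 with
  | zero => exact ⟨fun _ => 1, fun i hi => absurd hi (Nat.not_lt_zero _), by simp⟩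
  | succ n ih =>
    obtain ⟨x, hx, h⟩ := ih
    obtain ⟨x', hx', h'⟩ := Gr2_step hM y hy n x
    refine ⟨Function.update x n x', ?_, ?_⟩
    · intro i hi
      rcases Nat.lt_succ_iff_lt_or_eq.1 hi with h1 | h1
      · rw [Function.update_of_ne h1.ne]
        exact hx i h1
      · rw [h1, Function.update_self]
        exact hx'
    · rw [Finset.prod_range_succ, Finset.prod_range_succ, Function.update_self]
      have e1 : ∏ i' ∈ Finset.range n, ∏ i ∈ Finset.range i',
          v (wd ![Function.update x n x' i, 1] ![Function.update x n x' i', 1]) =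
          ∏ i' ∈ Finset.range n, ∏ i ∈ Finset.range i', v (wd ![x i, 1] ![x i', 1]) := by
        refine Finset.prod_congr rfl fun i' hi' => Finset.prod_congr rfl fun i hi => ?_
        have h1 : i' < n := Finset.mem_range.1 hi'
        have h2 : i < i' := Finset.mem_range.1 hi
        rw [Function.update_of_ne h1.ne, Function.update_of_ne (h2.trans h1).ne]
      have e2 : ∏ i ∈ Finset.range n, v (wd ![Function.update x n x' i, 1] ![x', 1]) =
          ∏ i ∈ Finset.range n, v (wd ![x i, 1] ![x', 1]) := by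
        refine Finset.prod_congr rfl fun i hi => ?_
        rw [Function.update_of_ne (Finset.mem_range.1 hi).ne]
      have e3 : ∏ i ∈ Finset.range n, ∏ j, v (wd (y j) ![Function.update x n x' i, 1]) =
          ∏ i ∈ Finset.range n, ∏ j, v (wd (y j) ![x i, 1]) := by
        refine Finset.prod_congr rfl fun i hi => ?_
        rw [Function.update_of_ne (Finset.mem_range.1 hi).ne]
      rw [e1, e2, e3]
      have hpos : (0 : ℝ) ≤ ∏ j, vn v (y j) := Finset.prod_nonneg fun j _ => vn_nonneg v _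
      have e4 : ∏ j, vn v (y j) ^ (n + 1) = (∏ j, vn v (y j) ^ n) * ∏ j, vn v (y j) := by
        rw [← Finset.prod_mul_distrib]
        exact Finset.prod_congr rfl fun j _ => pow_succ _ _
      have e5 : (1 / 2 : ℝ) ^ ((n + 1) * (n + 1 + n2)) ≤
          (1 / 2 : ℝ) ^ (n * (n + n2)) * (1 / 2 : ℝ) ^ (n + n2) := by
        rw [← pow_add]
        apply pow_le_pow_of_le_one (by norm_num) (by norm_num)
        nlinarith
      rw [e4]
      calc (1 / 2 : ℝ) ^ ((n + 1) * (n + 1 + n2)) * ((∏ j, vn v (y j) ^ n) * ∏ j, vn v (y j))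
          ≤ ((1 / 2 : ℝ) ^ (n * (n + n2)) * (1 / 2 : ℝ) ^ (n + n2)) *
            ((∏ j, vn v (y j) ^ n) * ∏ j, vn v (y j)) := by
            refine mul_le_mul_of_nonneg_right e5 (mul_nonneg ?_ hpos)
            exact Finset.prod_nonneg fun j _ => pow_nonneg (vn_nonneg v _) _
        _ = ((1 / 2 : ℝ) ^ (n * (n + n2)) * ∏ j, vn v (y j) ^ n) *
            ((1 / 2 : ℝ) ^ (n + n2) * ∏ j, vn v (y j)) := by ring
        _ ≤ ((∏ i' ∈ Finset.range n, ∏ i ∈ Finset.range i', v (wd ![x i, 1] ![x i', 1])) *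
              ∏ i ∈ Finset.range n, ∏ j, v (wd (y j) ![x i, 1])) *
            ((∏ i ∈ Finset.range n, v (wd ![x i, 1] ![x', 1])) *
              ∏ j, v (wd (y j) ![x', 1])) := by
            refine mul_le_mul h h' (mul_nonneg (by positivity) hpos) ?_
            refine mul_nonneg ?_ ?_
            · exact Finset.prod_nonneg fun i _ => Finset.prod_nonneg fun j _ => apply_nonneg v _
            · exact Finset.prod_nonneg fun i _ => Finset.prod_nonneg fun j _ => apply_nonneg v _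
        _ = _ := by ring

theorem greedy2 {v : AbsoluteValue k ℝ} (hM : MProp v) {n2 : ℕ} (y : Fin n2 → Fin 2 → k)
    (hy : ∀ j, y j ≠ 0) (n1 : ℕ) :
    ∃ x : Fin n1 → k, (∀ i, v (x i) = 1) ∧
      (1 / 2 : ℝ) ^ (n1 * (n1 + n2)) * ∏ j, vn v (y j) ^ n1 ≤
      (∏ i, ∏ i' ∈ Finset.Ioi i, v (wd ![x i, 1] ![x i', 1])) *
        ∏ i, ∏ j, v (wd (y j) ![x i, 1]) := by
  obtain ⟨x, hx, h⟩ := Gr2_seq hM y hy n1
  refine ⟨fun i => x i, fun i => hx i i.2, ?_⟩
  rw [Gr2_fin_prod (fun i j => v (wd ![x i, 1] ![x j, 1])) n1]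
  rw [Finset.prod_range (f := fun i => ∏ j, v (wd (y j) ![x i, 1]))] at h
  exact h

end Pool.Agent.LNG
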