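import Pool.Agent.LNG.Gr1
import Pool.Agent.LNG.Gr2
import Pool.Agent.LNG.Est2

/-!
# LNG, Gr3 (difficulty 2): both families together

`p = Fin.append (F(u_j,1))_j ((x_i,1))_i : Fin (n2+n1) → (Fin 2 → k)`: all `p i ≠ 0`, pairwise `wd ≠ 0`, and
`Σ_{i<j} log|p_i ∧ p_j| ≥ (n2(n2-1)/2) log μ - (d+1)(n1+n2)² log 2`.
Proof. `u` from `greedy1` (for `n2`, `n1`), `x` from `greedy2` for `y_j = ev F ![u j, 1] ≠ 0` (`ev_ne_zero`, or positivity of the product if `n1 > 0`). Multiply the two inequalities and cancel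
`∏_j ‖Y_j‖^{n1} > 0`: `∏_{pairs} |p_i ∧ p_j| ≥ 2^{-d n2 (n1+n2) - n1 (n1+n2)} μ^{n2(n2-1)/2} > 0`, where the product over the pairs of `Fin (n2+n1)` splits as
(pairs in the first block)(pairs in the second block)(mixed pairs) (`Fin.prod_univ_add`, `Finset.Ioi` in `Fin (n2+n1)` of `castAdd`/`natAdd`; e.g. write
`∏_{j ∈ Ioi i} g j = ∏ j, if i < j then g j else 1`). Take logarithms; `d n2 (n1+n2) + n1(n1+n2) ≤ (d+1)(n1+n2)²`.
-/

namespace Pool.Agent.LNG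

open Polynomial

variable {k : Type*} [Field k] {d : ℕ}

theorem Gr3_Ioi {n : ℕ} (i : Fin n) (g : Fin n → ℝ) :
    ∏ j ∈ Finset.Ioi i, g j = ∏ j, if i < j then g j else 1 := by
  rw [← Finset.prod_filter]
  congr 1
  ext j
  simp

theorem Gr3_split {n2 n1 : ℕ} (Y : Fin n2 → Fin 2 → k) (Z : Fin n1 → Fin 2 → k)
    (v : AbsoluteValue k ℝ) :
    ∏ i, ∏ j ∈ Finset.Ioi i, v (wd (Fin.append Y Z i) (Fin.append Y Z j)) =
      (∏ i, ∏ j ∈ Finset.Ioi i, v (wd (Y i) (Y j))) *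
        ((∏ i, ∏ j ∈ Finset.Ioi i, v (wd (Z i) (Z j))) * ∏ i, ∏ j, v (wd (Y j) (Z i))) := by
  simp only [Gr3_Ioi]
  rw [Fin.prod_univ_add]
  simp only [Fin.prod_univ_add, Fin.append_left, Fin.append_right]
  have e1 : ∀ i j : Fin n2, (Fin.castAdd n1 i < Fin.castAdd n1 j) ↔ i < j := by
    intro i j; simp only [Fin.lt_def, Fin.val_castAdd]
  have e2 : ∀ (i : Fin n2) (j : Fin n1), (Fin.castAdd n1 i < Fin.natAdd n2 j) := by
    intro i j; simp only [Fin.lt_def, Fin.val_castAdd, Fin.val_natAdd]; omega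
  have e3 : ∀ (i : Fin n1) (j : Fin n2), ¬ (Fin.natAdd n2 i < Fin.castAdd n1 j) := by
    intro i j; simp only [Fin.lt_def, Fin.val_castAdd, Fin.val_natAdd]; omega
  have e4 : ∀ i j : Fin n1, (Fin.natAdd n2 i < Fin.natAdd n2 j) ↔ i < j := by
    intro i j; simp only [Fin.lt_def, Fin.val_natAdd]; omega
  simp only [e1, e2, e3, e4, if_true, if_false, Finset.prod_const_one, one_mul]
  rw [Finset.prod_mul_distrib, Finset.prod_comm (s := (Finset.univ : Finset (Fin n1)))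
    (t := (Finset.univ : Finset (Fin n2)))]
  ring

theorem greedy {v : AbsoluteValue k ℝ} (hM : MProp v) (hd : 1 ≤ d) {F : Coef k d} (hF : res F ≠ 0)
    (hcn : cn v F = 1) (a b : Fin (d + 1))
    (hμ : 0 < v (F (0, a) * F (1, b) - F (1, a) * F (0, b))) (n2 n1 : ℕ) :
    ∃ (u : Fin n2 → k) (x : Fin n1 → k) (p : Fin (n2 + n1) → Fin 2 → k),
      (∀ j, v (u j) = 1) ∧ (∀ i, v (x i) = 1) ∧
      p = Fin.append (fun j => ev F ![u j, 1]) (fun i => ![x i, 1]) ∧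
      (∀ i, p i ≠ 0) ∧ (∀ i j, i < j → wd (p i) (p j) ≠ 0) ∧
      ((n2 * (n2 - 1) / 2 : ℕ) : ℝ) *
          Real.log (v (F (0, a) * F (1, b) - F (1, a) * F (0, b))) -
        (d + 1) * ((n1 : ℝ) + n2) ^ 2 * Real.log 2 ≤
      ∑ i, ∑ j ∈ Finset.Ioi i, Real.log (v (wd (p i) (p j))) := by
  obtain ⟨u, hu, h1⟩ := greedy1 hM hcn a b hμ n2 n1
  set μ := v (F (0, a) * F (1, b) - F (1, a) * F (0, b)) with hμdef
  set Y : Fin n2 → Fin 2 → k := fun j => ev F ![u j, 1] with hY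
  have hY0 : ∀ j, Y j ≠ 0 := by
    intro j
    apply ev_ne_zero hd hF
    intro h
    have := congrFun h 1
    simp at this
  obtain ⟨x, hx, h2⟩ := greedy2 hM Y hY0 n1
  set Z : Fin n1 → Fin 2 → k := fun i => ![x i, 1] with hZ
  have hZ0 : ∀ i, Z i ≠ 0 := by
    intro i h
    have := congrFun h 1
    simp [hZ] at this
  have hQ : 0 < ∏ j, vn v (Y j) ^ n1 :=
    Finset.prod_pos fun j _ => pow_pos (vn_pos v (hY0 j)) _
  have hT := Gr3_split Y Z v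
  set T := ∏ i, ∏ j ∈ Finset.Ioi i, v (wd (Fin.append Y Z i) (Fin.append Y Z j)) with hTdef
  have hA0 : 0 ≤ ∏ i, ∏ j ∈ Finset.Ioi i, v (wd (Y i) (Y j)) :=
    Finset.prod_nonneg fun i _ => Finset.prod_nonneg fun j _ => apply_nonneg v _
  have hmul : (1 / 2 : ℝ) ^ (d * n2 * (n1 + n2) + n1 * (n1 + n2)) * μ ^ (n2 * (n2 - 1) / 2) ≤ T := by
    rw [hT]
    have h3 : ((1 / 2 : ℝ) ^ (d * n2 * (n1 + n2)) * μ ^ (n2 * (n2 - 1) / 2)) *
        ((1 / 2 : ℝ) ^ (n1 * (n1 + n2)) * ∏ j, vn v (Y j) ^ n1) ≤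
        ((∏ i, ∏ j ∈ Finset.Ioi i, v (wd (Y i) (Y j))) * ∏ j, vn v (Y j) ^ n1) *
        ((∏ i, ∏ i' ∈ Finset.Ioi i, v (wd (Z i) (Z i'))) * ∏ i, ∏ j, v (wd (Y j) (Z i))) :=
      mul_le_mul h1 h2 (mul_nonneg (by positivity) hQ.le) (mul_nonneg hA0 hQ.le)
    refine le_of_mul_le_mul_right ?_ hQ
    calc _ = ((1 / 2 : ℝ) ^ (d * n2 * (n1 + n2)) * μ ^ (n2 * (n2 - 1) / 2)) *
        ((1 / 2 : ℝ) ^ (n1 * (n1 + n2)) * ∏ j, vn v (Y j) ^ n1) := by rw [pow_add]; ring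
      _ ≤ _ := h3
      _ = _ := by ring
  have hpos : 0 < (1 / 2 : ℝ) ^ (d * n2 * (n1 + n2) + n1 * (n1 + n2)) * μ ^ (n2 * (n2 - 1) / 2) :=
    mul_pos (by positivity) (pow_pos hμ _)
  have hTpos : 0 < T := lt_of_lt_of_le hpos hmul
  have hne : ∀ i j, i < j → v (wd (Fin.append Y Z i) (Fin.append Y Z j)) ≠ 0 := by
    intro i j hij h0
    apply hTpos.ne'
    rw [hTdef]
    exact Finset.prod_eq_zero (Finset.mem_univ i)
      (Finset.prod_eq_zero (Finset.mem_Ioi.2 hij) h0)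
  refine ⟨u, x, Fin.append Y Z, hu, hx, rfl, ?_, ?_, ?_⟩
  · intro i
    refine Fin.addCases (fun i => ?_) (fun j => ?_) i
    · rw [Fin.append_left]; exact hY0 i
    · rw [Fin.append_right]; exact hZ0 j
  · intro i j hij h0
    apply hne i j hij
    rw [h0, map_zero]
  · have hlog : Real.log T = ∑ i, ∑ j ∈ Finset.Ioi i,
        Real.log (v (wd (Fin.append Y Z i) (Fin.append Y Z j))) := by
      rw [hTdef, Real.log_prod]
      · refine Finset.sum_congr rfl fun i _ => ?_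
        rw [Real.log_prod]
        intro j hj
        exact hne i j (Finset.mem_Ioi.1 hj)
      · intro i _
        exact Finset.prod_ne_zero_iff.2 fun j hj => hne i j (Finset.mem_Ioi.1 hj)
    rw [← hlog]
    have h5 := Real.log_le_log hpos hmul
    rw [Real.log_mul (by positivity) (pow_pos hμ _).ne', Real.log_pow, Real.log_pow,
      one_div, Real.log_inv] at h5
    have h6 : ((d * n2 * (n1 + n2) + n1 * (n1 + n2) : ℕ) : ℝ) ≤ (d + 1) * ((n1 : ℝ) + n2) ^ 2 := by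
      push_cast
      have hn1 : (0 : ℝ) ≤ n1 := Nat.cast_nonneg _
      have hn2 : (0 : ℝ) ≤ n2 := Nat.cast_nonneg _
      have hdd : (0 : ℝ) ≤ d := Nat.cast_nonneg _
      nlinarith [mul_nonneg hn1 hn2, mul_nonneg hn1 hn1, mul_nonneg hn2 hn2,
        mul_nonneg hdd (mul_nonneg hn1 hn2), mul_nonneg hdd (mul_nonneg hn1 hn1),
        mul_nonneg hdd (mul_nonneg hn2 hn2)]
    have h7 : 0 ≤ Real.log 2 := Real.log_nonneg (by norm_num)
    have h8 := mul_le_mul_of_nonneg_right h6 h7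
    linarith

end Pool.Agent.LNG
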