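import Pool.Agent.LNG.Gre

/-!
# LNG, GrV (difficulty 1-2): functional equations of the escape rate

All follow from `(G_spec ...).1` (for `σ = bigM d`, `sumBound_arch`) and uniqueness of limits (`tendsto_nhds_unique`):
`G_ev`: `log‖F^n(F(X))‖/d^n = d · log‖F^{n+1}(X)‖/d^{n+1}` (`Filter.tendsto_add_atTop_iff_nat`).
`G_smul_vec`: `F^n(cX) = c^{d^n} F^n(X)` (induction, `ev_smul_vec`), so `log‖F^n(cX)‖/d^n = log|c| + log‖F^n X‖/d^n`.
`G_smul`: `(ev (c•F))^[n] X = c^(Σ_{i<n} d^i) • (ev F)^[n] X` (induction, `ev_smul`, `ev_smul_vec`), `Σ_{i<n} d^i = (d^n-1)/(d-1)` and `(d^n - 1)/((d-1) d^n) → 1/(d-1)`.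
-/

namespace Pool.Agent.LNG

open Polynomial

variable {k : Type*} [Field k] {d : ℕ}

theorem GrV_tendsto (v : AbsoluteValue k ℝ) (hd : 2 ≤ d) {F : Coef k d} (hF : res F ≠ 0)
    {X : Fin 2 → k} (hX : X ≠ 0) :
    Filter.Tendsto (fun n : ℕ => Real.log (vn v ((ev F)^[n] X)) / (d : ℝ) ^ n) Filter.atTop
        (nhds (G v F X)) :=
  (G_spec (sumBound_arch v (bigM d) (Nat.factorial_pos _)) hd hF hX).1

theorem GrV_smul_vec_iter (F : Coef k d) (X : Fin 2 → k) (c : k) (n : ℕ) :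
    (ev F)^[n] (c • X) = c ^ (d ^ n) • (ev F)^[n] X := by
  induction n with
  | zero => simp
  | succ n ih =>
    rw [Function.iterate_succ_apply', Function.iterate_succ_apply', ih, ev_smul_vec, ← pow_mul,
      ← pow_succ]

theorem GrV_smul_iter (F : Coef k d) (X : Fin 2 → k) (c : k) (n : ℕ) :
    (ev (c • F))^[n] X = c ^ (∑ i ∈ Finset.range n, d ^ i) • (ev F)^[n] X := by
  induction n with
  | zero => simp
  | succ n ih =>
    rw [Function.iterate_succ_apply', Function.iterate_succ_apply', ih, ev_smul, ev_smul_vec,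
      smul_smul]
    congr 1
    rw [← pow_mul, ← pow_succ', Finset.sum_range_succ', Finset.sum_mul]
    simp only [pow_succ, pow_zero]

theorem G_ev (v : AbsoluteValue k ℝ) (hd : 2 ≤ d) {F : Coef k d} (hF : res F ≠ 0)
    {X : Fin 2 → k} (hX : X ≠ 0) : G v F (ev F X) = d * G v F X := by
  have hd1 : 1 ≤ d := by omega
  have hd0 : (d : ℝ) ≠ 0 := by
    have : (0 : ℝ) < (d : ℝ) := by exact_mod_cast (by omega : 0 < d)
    exact this.ne'
  have h1 := GrV_tendsto v hd hF (ev_ne_zero hd1 hF hX)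
  have h2 := (Filter.tendsto_add_atTop_iff_nat 1).mpr (GrV_tendsto v hd hF hX)
  have h3 := h2.const_mul (d : ℝ)
  refine tendsto_nhds_unique h1 (h3.congr fun n => ?_)
  rw [Function.iterate_succ_apply, pow_succ]
  field_simp

theorem G_smul_vec (v : AbsoluteValue k ℝ) (hd : 2 ≤ d) {F : Coef k d} (hF : res F ≠ 0)
    {X : Fin 2 → k} (hX : X ≠ 0) {c : k} (hc : c ≠ 0) :
    G v F (c • X) = G v F X + Real.log (v c) := by
  have hd1 : 1 ≤ d := by omega
  have hd0 : (d : ℝ) ≠ 0 := by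
    have : (0 : ℝ) < (d : ℝ) := by exact_mod_cast (by omega : 0 < d)
    exact this.ne'
  have h1 := GrV_tendsto v hd hF (smul_ne_zero hc hX)
  have h2 := (GrV_tendsto v hd hF hX).add_const (Real.log (v c))
  refine tendsto_nhds_unique h1 (h2.congr fun n => ?_)
  have hpos := vn_pos v (iter_ne_zero hd1 hF hX n)
  rw [GrV_smul_vec_iter, vn_smul, map_pow,
    Real.log_mul (pow_ne_zero _ (v.pos hc).ne') hpos.ne', Real.log_pow]
  push_cast
  have : (d : ℝ) ^ n ≠ 0 := pow_ne_zero _ hd0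
  field_simp
  ring

theorem G_smul (v : AbsoluteValue k ℝ) (hd : 2 ≤ d) {F : Coef k d} (hF : res F ≠ 0)
    {X : Fin 2 → k} (hX : X ≠ 0) {c : k} (hc : c ≠ 0) :
    G v (c • F) X = G v F X + Real.log (v c) / (d - 1) := by
  have hd1 : 1 ≤ d := by omega
  have hdR : (1 : ℝ) < (d : ℝ) := by exact_mod_cast (by omega : 1 < d)
  have hd0 : (d : ℝ) ≠ 0 := by positivity
  have hdm : (d : ℝ) - 1 ≠ 0 := (sub_pos.mpr hdR).ne'
  have hcF : res (c • F) ≠ 0 := by
    rw [res_smul]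
    exact mul_ne_zero (pow_ne_zero _ hc) hF
  have h1 := GrV_tendsto v hd hcF hX
  have h4 : Filter.Tendsto (fun n : ℕ => ((1 : ℝ) / d) ^ n) Filter.atTop (nhds 0) :=
    tendsto_pow_atTop_nhds_zero_of_lt_one (by positivity) (by
      rw [div_lt_one (by positivity)]; exact hdR)
  have h5 : Filter.Tendsto (fun n : ℕ => Real.log (v c) / (d - 1) * (1 - ((1 : ℝ) / d) ^ n))
      Filter.atTop (nhds (Real.log (v c) / (d - 1))) := by
    have := (h4.const_sub 1).const_mul (Real.log (v c) / (d - 1))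
    simpa using this
  have h2 := (GrV_tendsto v hd hF hX).add h5
  refine tendsto_nhds_unique h1 (h2.congr fun n => ?_)
  have hpos := vn_pos v (iter_ne_zero hd1 hF hX n)
  rw [GrV_smul_iter, vn_smul, map_pow,
    Real.log_mul (pow_ne_zero _ (v.pos hc).ne') hpos.ne', Real.log_pow]
  have hg : ((∑ i ∈ Finset.range n, d ^ i : ℕ) : ℝ) = ((d : ℝ) ^ n - 1) / (d - 1) := by
    push_cast
    rw [geom_sum_eq hdR.ne']
  rw [hg]
  have : (d : ℝ) ^ n ≠ 0 := pow_ne_zero _ hd0
  rw [div_pow, one_pow]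
  field_simp
  ring

end Pool.Agent.LNG
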