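import Mathlib

/-!
# LNG, Lim (difficulty 2): the limit `K → ∞` (pure real analysis)

Divide the hypothesis by `N² = (d^K)²` and let `K → ∞` (`ge_of_tendsto`/`le_of_tendsto'`): `(1 - 1/N) → 1`, `log N / N → 0`, `K / N → 0`. One gets
`(2 - 1/d) g ≥ -(r+l)[1/(2d³) + 1/(2d(d-1))] - (d+1) log 2`. Multiply by `2d/(2d-1)`:
`2g + r/(d(d-1)) ≥ r [1/(d(d-1)) - (1/(2d-1))(1/(d-1) + 1/d²)] - l (1/(2d-1))(1/(d-1)+1/d²) - (2d(d+1)/(2d-1)) log 2`, where
`1/(d(d-1)) - (1/(2d-1))(1/(d-1)+1/d²) = (d-1)/(d²(2d-1))`, `(1/(2d-1))(1/(d-1)+1/d²) ≤ 5/12 ≤ 1` and `(2d/(2d-1)) log 2 ≤ 2` for `d ≥ 2`.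
-/

namespace Pool.Agent.LNG

theorem lim_ineq {d : ℝ} (hd : 2 ≤ d) {r l g : ℝ} (hl : 0 ≤ l) (hrl : 0 ≤ r + l)
    (h : ∀ K : ℕ, 1 ≤ K →
      - ((d ^ K) ^ 2 * (r + l) / (2 * d ^ 3)) - (d + 1) * (d ^ K) ^ 2 * Real.log 2 ≤
      (d ^ K) ^ 2 * (r + l) / (2 * d * (d - 1)) + (d ^ K - 1) * (d ^ K * (2 - 1 / d) * g) +
        d ^ K * Real.log (d ^ K) + d ^ K * K * (r + 2 * l)) :
    (d - 1) / (d ^ 2 * (2 * d - 1)) * r - (l + 2 * (d + 1)) ≤ 2 * g + r / (d * (d - 1)) := by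
  have hd1 : 1 < d := by linarith
  have hd0 : 0 < d := by linarith
  have hdm : 0 < d - 1 := by linarith
  have h2d : 0 < 2 * d - 1 := by linarith
  have hA : - ((r + l) / (2 * d ^ 3)) - (d + 1) * Real.log 2 ≤
      (r + l) / (2 * d * (d - 1)) + (1 - 0) * ((2 - 1 / d) * g) + 0 * Real.log d + 0 * (r + 2 * l) := by
    have hlim1 : Filter.Tendsto (fun K : ℕ => ((d : ℝ) ^ K)⁻¹) Filter.atTop (nhds 0) :=
      tendsto_inv_atTop_zero.comp (tendsto_pow_atTop_atTop_of_one_lt hd1)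
    have hlim2 : Filter.Tendsto (fun K : ℕ => (K : ℝ) / d ^ K) Filter.atTop (nhds 0) := by
      have := tendsto_pow_const_div_const_pow_of_one_lt 1 hd1
      simpa using this
    have hlim : Filter.Tendsto (fun K : ℕ => (r + l) / (2 * d * (d - 1)) +
        (1 - ((d : ℝ) ^ K)⁻¹) * ((2 - 1 / d) * g) + ((K : ℝ) / d ^ K) * Real.log d +
        ((K : ℝ) / d ^ K) * (r + 2 * l)) Filter.atTop
        (nhds ((r + l) / (2 * d * (d - 1)) + (1 - 0) * ((2 - 1 / d) * g) + 0 * Real.log d +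
          0 * (r + 2 * l))) := by
      refine Filter.Tendsto.add (Filter.Tendsto.add (Filter.Tendsto.add tendsto_const_nhds ?_) ?_) ?_
      · exact Filter.Tendsto.mul (tendsto_const_nhds.sub hlim1) tendsto_const_nhds
      · exact Filter.Tendsto.mul hlim2 tendsto_const_nhds
      · exact Filter.Tendsto.mul hlim2 tendsto_const_nhds
    refine ge_of_tendsto hlim ?_
    filter_upwards [Filter.eventually_ge_atTop 1] with K hK
    have hN : 0 < d ^ K := pow_pos hd0 K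
    have hh := h K hK
    rw [Real.log_pow] at hh
    have hN2 : 0 < (d ^ K) ^ 2 := pow_pos hN 2
    have key : (d ^ K) ^ 2 * (- ((r + l) / (2 * d ^ 3)) - (d + 1) * Real.log 2) ≤
        (d ^ K) ^ 2 * ((r + l) / (2 * d * (d - 1)) +
        (1 - ((d : ℝ) ^ K)⁻¹) * ((2 - 1 / d) * g) + ((K : ℝ) / d ^ K) * Real.log d +
        ((K : ℝ) / d ^ K) * (r + 2 * l)) := by
      have e1 : (d ^ K) ^ 2 * (- ((r + l) / (2 * d ^ 3)) - (d + 1) * Real.log 2) =
          - ((d ^ K) ^ 2 * (r + l) / (2 * d ^ 3)) - (d + 1) * (d ^ K) ^ 2 * Real.log 2 := by ring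
      have e2 : (d ^ K) ^ 2 * ((r + l) / (2 * d * (d - 1)) +
        (1 - ((d : ℝ) ^ K)⁻¹) * ((2 - 1 / d) * g) + ((K : ℝ) / d ^ K) * Real.log d +
        ((K : ℝ) / d ^ K) * (r + 2 * l)) =
          (d ^ K) ^ 2 * (r + l) / (2 * d * (d - 1)) + (d ^ K - 1) * (d ^ K * (2 - 1 / d) * g) +
        d ^ K * (K * Real.log d) + d ^ K * K * (r + 2 * l) := by
        have hne : d ^ K ≠ 0 := hN.ne'
        have e3 : (d ^ K) ^ 2 * (1 - ((d : ℝ) ^ K)⁻¹) = d ^ K * (d ^ K - 1) := by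
          field_simp
        have e4 : (d ^ K) ^ 2 * ((K : ℝ) / d ^ K) = d ^ K * K := by
          field_simp
        calc _ = (d ^ K) ^ 2 * ((r + l) / (2 * d * (d - 1))) +
              ((d ^ K) ^ 2 * (1 - ((d : ℝ) ^ K)⁻¹)) * ((2 - 1 / d) * g) +
              ((d ^ K) ^ 2 * ((K : ℝ) / d ^ K)) * Real.log d +
              ((d ^ K) ^ 2 * ((K : ℝ) / d ^ K)) * (r + 2 * l) := by ring
          _ = _ := by rw [e3, e4]; ring
      rw [e1, e2]
      exact hh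
    exact le_of_mul_le_mul_left key hN2
  have hlog : Real.log 2 < 0.6931471808 := Real.log_two_lt_d9
  have hlog0 : 0 < Real.log 2 := Real.log_pos (by norm_num)
  -- multiply by `2d/(2d-1)`
  set S : ℝ := 1 / (d ^ 2 * (2 * d - 1)) + 1 / ((2 * d - 1) * (d - 1)) with hS
  have hS1 : S ≤ 1 := by
    have h1 : 1 / (d ^ 2 * (2 * d - 1)) ≤ 1 / 2 := by
      apply one_div_le_one_div_of_le (by norm_num)
      nlinarith
    have h2 : 1 / ((2 * d - 1) * (d - 1)) ≤ 1 / 2 := by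
      apply one_div_le_one_div_of_le (by norm_num)
      nlinarith
    linarith
  have hmul := mul_le_mul_of_nonneg_left hA (by positivity : 0 ≤ 2 * d / (2 * d - 1))
  have f1 : 2 * d / (2 * d - 1) * (- ((r + l) / (2 * d ^ 3)) - (d + 1) * Real.log 2) =
      - ((r + l) * (1 / (d ^ 2 * (2 * d - 1)))) - 2 * d / (2 * d - 1) * ((d + 1) * Real.log 2) := by
    field_simp
  have f2 : 2 * d / (2 * d - 1) * ((r + l) / (2 * d * (d - 1)) + (1 - 0) * ((2 - 1 / d) * g) +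
      0 * Real.log d + 0 * (r + 2 * l)) = (r + l) * (1 / ((2 * d - 1) * (d - 1))) + 2 * g := by
    field_simp
    ring
  have f3 : (d - 1) / (d ^ 2 * (2 * d - 1)) * r = r / (d * (d - 1)) - r * S := by
    have g1 : 2 * d - 1 ≠ 0 := h2d.ne'
    have g2 : d - 1 ≠ 0 := hdm.ne'
    have g3 : d ≠ 0 := hd0.ne'
    have g4 : (d - 1) / (d ^ 2 * (2 * d - 1)) + S = 1 / (d * (d - 1)) := by
      rw [hS]
      have aux : ∀ e : ℝ, e ≠ 0 → e = 2 * d - 1 →
          (d - 1) / (d ^ 2 * e) + (1 / (d ^ 2 * e) + 1 / (e * (d - 1))) = 1 / (d * (d - 1)) := by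
        intro e he h
        field_simp
        rw [h]
        ring
      exact aux _ g1 rfl
    have g5 : r * ((d - 1) / (d ^ 2 * (2 * d - 1)) + S) = r * (1 / (d * (d - 1))) := by rw [g4]
    have g6 : r * (1 / (d * (d - 1))) = r / (d * (d - 1)) := by ring
    linarith
  rw [f1, f2] at hmul
  have h4 : 2 * d / (2 * d - 1) * ((d + 1) * Real.log 2) ≤ 2 * (d + 1) := by
    have h5 : 2 * d / (2 * d - 1) ≤ 4 / 3 := by
      rw [div_le_div_iff₀ h2d (by norm_num)]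
      linarith
    have h6 : (d + 1) * Real.log 2 ≤ (d + 1) * 1 := by
      apply mul_le_mul_of_nonneg_left _ (by linarith)
      linarith
    have h7 : 0 ≤ (d + 1) * Real.log 2 := by positivity
    calc 2 * d / (2 * d - 1) * ((d + 1) * Real.log 2) ≤ 4 / 3 * ((d + 1) * Real.log 2) :=
          mul_le_mul_of_nonneg_right h5 h7
      _ ≤ 4 / 3 * ((d + 1) * 1) := by linarith
      _ ≤ 2 * (d + 1) := by linarith
  have h8 : l * S ≤ l := by
    have := mul_le_mul_of_nonneg_left hS1 hl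
    linarith
  rw [f3]
  have h9 : (r + l) * (1 / (d ^ 2 * (2 * d - 1))) + (r + l) * (1 / ((2 * d - 1) * (d - 1))) =
      r * S + l * S := by
    rw [hS]; ring
  linarith

end Pool.Agent.LNG
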