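import Pool.Agent.LNG.Est1

/-!
# LNG, Rmin (difficulty 1-2): a large 2 x 2 minor of the coefficient matrix

`‖F‖ = 1` implies that some minor `μ = |F(0,a) F(1,b) - F(1,a) F(0,b)|` satisfies `|Res F| ≤ σ μ^d`.
Proof. Let `(i, a)` be with `v (F (i,a)) = 1` (`exists_cn`). Case `i = 0`: `c = F(1,a)/F(0,a)`, `F' = (F_0, F_1 - c F_0)`; `res F' = res F`
(Mathlib `resultant_add_mul_right`), the coefficients of the second form of `F'` are `(F(0,a)F(1,b) - F(1,a)F(0,b))/F(0,a)`, `|F(0,a)| = 1`. Let `μ` be the maximum over `b` of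
their absolute values. Leibniz for the Sylvester matrix of `F'`: each product contains `d` coefficients of the first form (`≤ 1`) and `d` coefficients of the second
form (`≤ μ`) (one entry from every column; left block columns: second form, right block: first form), `(2d)!` terms. Alternatively: scale the second form by `1/c'`, `|c'| = μ`
(if `μ = 0` then the second form is `0` and `res F = 0` for `d ≥ 1`), use `res_le` for the pair `(F_0, (F_1 - cF_0)/c')` with `cn ≤ 1` and `resultant_C_mul_right`.
Case `i = 1`: symmetric (`resultant_add_mul_left`, `resultant_C_mul_left`).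
-/

namespace Pool.Agent.LNG

open Polynomial

variable {k : Type*} [Field k] {d : ℕ}

theorem Rmin_res_le_one {v : AbsoluteValue k ℝ} {σ : ℝ} (hσ : SumBound v (bigM d) σ)
    (P : Coef k d) (hP : ∀ p, v (P p) ≤ 1) : v (res P) ≤ σ := by
  have h1 : cn v P ≤ 1 := by
    obtain ⟨p, hp⟩ := exists_cn v P
    rw [← hp]; exact hP p
  have h2 := res_le hσ P
  have h3 : cn v P ^ (2 * d) ≤ 1 := pow_le_one₀ (cn_nonneg v P) h1
  have h4 : 0 ≤ σ := le_trans zero_le_one hσ.one_le
  calc v (res P) ≤ σ * cn v P ^ (2 * d) := h2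
    _ ≤ σ * 1 := mul_le_mul_of_nonneg_left h3 h4
    _ = σ := mul_one σ

/-- Subtract `c` times the first form from the second one and divide by `e`. -/
def Rmin_F0 (F : Coef k d) (c e : k) : Coef k d :=
  fun p => if p.1 = 0 then F (0, p.2) else e⁻¹ * (F (1, p.2) - c * F (0, p.2))

/-- Subtract `c` times the second form from the first one and divide by `e`. -/
def Rmin_F1 (F : Coef k d) (c e : k) : Coef k d :=
  fun p => if p.1 = 0 then e⁻¹ * (F (0, p.2) - c * F (1, p.2)) else F (1, p.2)

theorem Rmin_res_F0 (F : Coef k d) (c e : k) : res (Rmin_F0 F c e) = (e⁻¹) ^ d * res F := by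
  have h0 : pol (Rmin_F0 F c e) 0 = pol F 0 := by
    unfold pol Rmin_F0
    simp
  have h1 : pol (Rmin_F0 F c e) 1 = C e⁻¹ * (pol F 1 + pol F 0 * C (-c)) := by
    unfold pol Rmin_F0
    rw [Finset.sum_mul, ← Finset.sum_add_distrib, Finset.mul_sum]
    refine Finset.sum_congr rfl fun j _ => ?_
    simp only [one_ne_zero, if_false, map_mul, map_sub, map_neg]
    ring
  unfold res
  rw [h0, h1, resultant_C_mul_right, resultant_add_mul_right]
  · simp
  · exact pol_natDegree_le F 0

theorem Rmin_res_F1 (F : Coef k d) (c e : k) : res (Rmin_F1 F c e) = (e⁻¹) ^ d * res F := by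
  have h0 : pol (Rmin_F1 F c e) 1 = pol F 1 := by
    unfold pol Rmin_F1
    simp
  have h1 : pol (Rmin_F1 F c e) 0 = C e⁻¹ * (pol F 0 + pol F 1 * C (-c)) := by
    unfold pol Rmin_F1
    rw [Finset.sum_mul, ← Finset.sum_add_distrib, Finset.mul_sum]
    refine Finset.sum_congr rfl fun j _ => ?_
    simp only [if_true, map_mul, map_sub, map_neg]
    ring
  unfold res
  rw [h0, h1, resultant_C_mul_left, resultant_add_mul_left]
  · simp
  · exact pol_natDegree_le F 1

/-- If all coefficients of the second form of the reduced pair vanish, the resultant is zero. -/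
theorem Rmin_res_zero0 (hd : 1 ≤ d) (F : Coef k d) (c : k)
    (h : ∀ j, F (1, j) - c * F (0, j) = 0) : res F = 0 := by
  have h1 : pol F 1 = 0 + pol F 0 * C c := by
    unfold pol
    rw [Finset.sum_mul, zero_add]
    refine Finset.sum_congr rfl fun j _ => ?_
    rw [sub_eq_zero.mp (h j), map_mul]
    ring
  unfold res
  rw [h1, resultant_add_mul_right]
  · rw [resultant_zero_right, zero_pow (by omega), zero_mul]
  · simp
  · exact pol_natDegree_le F 0

theorem Rmin_res_zero1 (hd : 1 ≤ d) (F : Coef k d) (c : k)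
    (h : ∀ j, F (0, j) - c * F (1, j) = 0) : res F = 0 := by
  have h1 : pol F 0 = 0 + pol F 1 * C c := by
    unfold pol
    rw [Finset.sum_mul, zero_add]
    refine Finset.sum_congr rfl fun j _ => ?_
    rw [sub_eq_zero.mp (h j), map_mul]
    ring
  unfold res
  rw [h1, resultant_add_mul_left]
  · rw [resultant_zero_left, zero_pow (by omega), zero_mul]
  · simp
  · exact pol_natDegree_le F 1

theorem exists_minor {v : AbsoluteValue k ℝ} {σ : ℝ} (hσ : SumBound v (bigM d) σ) (hd : 1 ≤ d)
    {F : Coef k d} (hF : res F ≠ 0) (hcn : cn v F = 1) :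
    ∃ a b : Fin (d + 1), 0 < v (F (0, a) * F (1, b) - F (1, a) * F (0, b)) ∧
      v (res F) ≤ σ * v (F (0, a) * F (1, b) - F (1, a) * F (0, b)) ^ d := by
  obtain ⟨⟨i, a⟩, hia⟩ := exists_cn v F
  rw [hcn] at hia
  have hle : ∀ p, v (F p) ≤ 1 := fun p => by rw [← hcn]; exact le_cn v F p
  obtain ⟨b, hb⟩ := Finite.exists_max
    (fun b : Fin (d + 1) => v (F (0, a) * F (1, b) - F (1, a) * F (0, b)))
  set m : k := F (0, a) * F (1, b) - F (1, a) * F (0, b) with hm
  have hnz : F (i, a) ≠ 0 := by
    intro h
    rw [h, map_zero] at hia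
    exact zero_ne_one hia
  -- the final step
  have fin : ∀ e : k, v e = v m → v m ≠ 0 → v ((e⁻¹) ^ d * res F) ≤ σ →
      v (res F) ≤ σ * v m ^ d := by
    intro e he hm0 h
    rw [map_mul, map_pow, map_inv₀, he] at h
    have hmpos : 0 < v m := lt_of_le_of_ne (v.nonneg m) (Ne.symm hm0)
    have hp : 0 < v m ^ d := pow_pos hmpos d
    have h2 : (v m)⁻¹ ^ d * v (res F) = v (res F) / v m ^ d := by
      rw [inv_pow]; ring
    rw [h2, div_le_iff₀ hp] at h
    exact h
  refine ⟨a, b, ?_⟩
  rw [← hm]
  by_cases hm0 : v m = 0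
  · -- all minors vanish
    exfalso
    have hall : ∀ b', F (0, a) * F (1, b') - F (1, a) * F (0, b') = 0 := by
      intro b'
      have h1 := hb b'
      have h2 : v (F (0, a) * F (1, b') - F (1, a) * F (0, b')) = 0 :=
        le_antisymm (le_trans h1 hm0.le) (v.nonneg _)
      exact v.eq_zero.mp h2
    apply hF
    fin_cases i
    · refine Rmin_res_zero0 hd F (F (1, a) / F (0, a)) fun j => ?_
      have hnz' : F (0, a) ≠ 0 := hnz
      have := hall j
      field_simp
      linear_combination this
    · refine Rmin_res_zero1 hd F (F (0, a) / F (1, a)) fun j => ?_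
      have hnz' : F (1, a) ≠ 0 := hnz
      have := hall j
      field_simp
      linear_combination - this
  · refine ⟨lt_of_le_of_ne (v.nonneg m) (Ne.symm hm0), ?_⟩
    have hmne : m ≠ 0 := fun h => hm0 (by rw [h, map_zero])
    have hmpos : 0 < v m := lt_of_le_of_ne (v.nonneg m) (Ne.symm hm0)
    fin_cases i
    · have hnz' : F (0, a) ≠ 0 := hnz
      have hia' : v (F (0, a)) = 1 := hia
      have he : v (m / F (0, a)) = v m := by rw [map_div₀, hia', div_one]
      refine fin (m / F (0, a)) he hm0 ?_
      rw [← Rmin_res_F0 F (F (1, a) / F (0, a))]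
      refine Rmin_res_le_one hσ _ fun p => ?_
      unfold Rmin_F0
      split_ifs with h
      · exact hle _
      · have e1 : (m / F (0, a))⁻¹ * (F (1, p.2) - F (1, a) / F (0, a) * F (0, p.2)) =
            (F (0, a) * F (1, p.2) - F (1, a) * F (0, p.2)) / m := by
          field_simp
        rw [e1, map_div₀, div_le_one hmpos]
        exact hb p.2
    · have hnz' : F (1, a) ≠ 0 := hnz
      have hia' : v (F (1, a)) = 1 := hia
      have he : v (m / F (1, a)) = v m := by rw [map_div₀, hia', div_one]
      refine fin (m / F (1, a)) he hm0 ?_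
      rw [← Rmin_res_F1 F (F (0, a) / F (1, a))]
      refine Rmin_res_le_one hσ _ fun p => ?_
      unfold Rmin_F1
      split_ifs with h
      · have e1 : (m / F (1, a))⁻¹ * (F (0, p.2) - F (0, a) / F (1, a) * F (1, p.2)) =
            - ((F (0, a) * F (1, p.2) - F (1, a) * F (0, p.2)) / m) := by
          field_simp
          ring
        rw [e1, AbsoluteValue.map_neg, map_div₀, div_le_one hmpos]
        exact hb p.2
      · exact hle _

end Pool.Agent.LNG
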