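import Pool.Agent.LNG.Gr3
import Pool.Agent.LNG.Bak
import Pool.Agent.LNG.Rmin
import Pool.Agent.LNG.Lim
import Pool.Agent.LNG.GrV

/-!
# LNG, Kpp (difficulty 2): the inequality (K'')

`‖F‖ = 1`, `G(u,1) ≤ g` for all `|u| = 1`. For every `K ≥ 1` let `N = d^K`, `n2 = d^(K-1)`, `n1 = N - n2`. Take `a, b` from `exists_minor`, the points `p` from `greedy`
with `n2 + n1 = d^K` (`baker` takes `p : Fin N → _` with `hN : N = d^K`, so no casts) and insert
them in `baker`: `G(x_i,1) ≤ g`, `G(F(u_j,1)) = d G(u_j,1) ≤ d g` (`G_ev`), so `Σ_i G(p_i) ≤ (n1 + d n2) g = N (2 - 1/d) g`. With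
`log μ ≥ -(r+l)/d` (`r = -log|Res F|` as `‖F‖ = 1`) and `n2(n2-1)/2 ≤ n2²/2 = N²/(2d²)` the lower bound is `≥ -N²(r+l)/(2d³) - (d+1)N² log 2`. Apply `lim_ineq`.
-/

namespace Pool.Agent.LNG

open Polynomial

variable {k : Type*} [Field k] {d : ℕ}

/-- The constant `c_d`. -/
noncomputable def cK (d : ℕ) : ℝ := ((d : ℝ) - 1) / ((d : ℝ) ^ 2 * (2 * d - 1))

theorem kpp_norm {v : AbsoluteValue k ℝ} (hM : MProp v) {σ : ℝ} (hσ : SumBound v (bigM d) σ)
    (hd : 2 ≤ d) {F : Coef k d} (hF : res F ≠ 0) (hcn : cn v F = 1) {g : ℝ}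
    (hg : ∀ u, v u = 1 → G v F ![u, 1] ≤ g) :
    cK d * rr v F - (Real.log σ + 2 * (d + 1)) ≤ 2 * g + rr v F / (d * (d - 1)) := by
  have hd1 : 1 ≤ d := by omega
  have hdR : (2 : ℝ) ≤ d := by exact_mod_cast hd
  have hd0 : (0 : ℝ) < d := by linarith
  obtain ⟨a, b, hμ, hμle⟩ := exists_minor hσ hd1 hF hcn
  set μ : ℝ := v (F (0, a) * F (1, b) - F (1, a) * F (0, b)) with hμdef
  have hσ0 : 0 < σ := lt_of_lt_of_le zero_lt_one hσ.one_le
  have hrr : rr v F = - Real.log (v (res F)) := by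
    unfold rr
    rw [hcn, Real.log_one]
    ring
  have hres0 : 0 < v (res F) := v.pos hF
  have hl0 : 0 ≤ Real.log σ := Real.log_nonneg hσ.one_le
  -- `r + l ≥ 0`
  have hrl : 0 ≤ rr v F + Real.log σ := by
    have h1 := Rmin_res_le_one hσ F (fun p => by rw [← hcn]; exact le_cn v F p)
    have h2 := Real.log_le_log hres0 h1
    rw [hrr]; linarith
  -- `log μ ≥ -(r+l)/d`
  have hlogμ : - (rr v F + Real.log σ) ≤ d * Real.log μ := by
    have h1 := Real.log_le_log hres0 hμle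
    rw [Real.log_mul hσ0.ne' (pow_pos hμ d).ne', Real.log_pow] at h1
    rw [hrr]; linarith
  unfold cK
  refine lim_ineq hdR hl0 hrl ?_
  intro K hK
  obtain ⟨K', rfl⟩ : ∃ K', K = K' + 1 := ⟨K - 1, by omega⟩
  have hpw : d ^ K' ≤ d ^ (K' + 1) := Nat.pow_le_pow_right (by omega) (by omega)
  obtain ⟨n1, hn1⟩ : ∃ n1, d ^ K' + n1 = d ^ (K' + 1) := ⟨d ^ (K' + 1) - d ^ K', by omega⟩
  set n2 : ℕ := d ^ K' with hn2
  obtain ⟨u, x, p, hu, hx, hp, hp0, hpw', hlow⟩ := greedy hM hd1 hF hcn a b hμ n2 n1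
  have hup := baker hσ hd hF hcn (K' + 1) (n2 + n1) hn1 p hp0 hpw'
  -- the sum of the escape rates
  have hG : ∑ i, G v F (p i) ≤ n2 * (d * g) + n1 * g := by
    rw [Fin.sum_univ_add]
    have h1 : ∀ j : Fin n2, G v F (p (Fin.castAdd n1 j)) ≤ d * g := by
      intro j
      rw [hp, Fin.append_left]
      have hne : (![u j, 1] : Fin 2 → k) ≠ 0 := by
        intro h
        have := congrFun h 1
        simp at this
      rw [G_ev v hd hF hne]
      exact mul_le_mul_of_nonneg_left (hg _ (hu j)) hd0.le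
    have h2 : ∀ j : Fin n1, G v F (p (Fin.natAdd n2 j)) ≤ g := by
      intro j
      rw [hp, Fin.append_right]
      exact hg _ (hx j)
    refine add_le_add ?_ ?_
    · calc ∑ i : Fin n2, G v F (p (Fin.castAdd n1 i)) ≤ ∑ i : Fin n2, d * g :=
            Finset.sum_le_sum fun j _ => h1 j
        _ = n2 * (d * g) := by simp
    · calc ∑ i : Fin n1, G v F (p (Fin.natAdd n2 i)) ≤ ∑ i : Fin n1, g :=
            Finset.sum_le_sum fun j _ => h2 j
        _ = n1 * g := by simp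
  -- real versions of the numbers
  have hN : (n2 : ℝ) + n1 = (d : ℝ) ^ (K' + 1) := by exact_mod_cast hn1
  have hn2d : (n2 : ℝ) * d = (d : ℝ) ^ (K' + 1) := by
    rw [hn2]; push_cast; ring
  have hn2R : (n2 : ℝ) = (d : ℝ) ^ (K' + 1) / d := by
    rw [← hn2d]; field_simp
  set N : ℝ := (d : ℝ) ^ (K' + 1) with hNdef
  have hN1 : 1 ≤ N := one_le_pow₀ (by linarith)
  have hGs : (n2 : ℝ) * (d * g) + n1 * g = N * (2 - 1 / d) * g := by
    have : (n1 : ℝ) = N - N / d := by rw [← hn2R]; linarith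
    rw [this, ← mul_assoc, hn2d]
    ring
  rw [hGs] at hG
  have hG2 := mul_le_mul_of_nonneg_left hG (by linarith : 0 ≤ N - 1)
  -- the lower bound
  have hT : ((n2 * (n2 - 1) / 2 : ℕ) : ℝ) ≤ (n2 : ℝ) ^ 2 / 2 := by
    have h1 : n2 * (n2 - 1) / 2 * 2 ≤ n2 * n2 :=
      le_trans (Nat.div_mul_le_self _ _) (Nat.mul_le_mul_left _ (Nat.sub_le _ _))
    have h2 : ((n2 * (n2 - 1) / 2 : ℕ) : ℝ) * 2 ≤ (n2 : ℝ) * n2 := by exact_mod_cast h1
    nlinarith
  have hT0 : (0 : ℝ) ≤ ((n2 * (n2 - 1) / 2 : ℕ) : ℝ) := Nat.cast_nonneg _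
  set T : ℝ := ((n2 * (n2 - 1) / 2 : ℕ) : ℝ) with hTdef
  have hTl : - (N ^ 2 * (rr v F + Real.log σ) / (2 * (d : ℝ) ^ 3)) ≤ T * Real.log μ := by
    have h1 : - ((rr v F + Real.log σ) / d) ≤ Real.log μ := by
      rw [← neg_div, div_le_iff₀ hd0]
      linarith
    have h2 : T * (- ((rr v F + Real.log σ) / d)) ≤ T * Real.log μ :=
      mul_le_mul_of_nonneg_left h1 hT0
    have h3 : T * ((rr v F + Real.log σ) / d) ≤ (n2 : ℝ) ^ 2 / 2 * ((rr v F + Real.log σ) / d) :=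
      mul_le_mul_of_nonneg_right hT (by positivity)
    have h4 : (n2 : ℝ) ^ 2 / 2 * ((rr v F + Real.log σ) / d) =
        N ^ 2 * (rr v F + Real.log σ) / (2 * (d : ℝ) ^ 3) := by
      rw [hn2R]
      field_simp
    linarith
  have hN' : ((n1 : ℝ) + n2) = N := by linarith
  rw [hN'] at hlow
  have e1 : ((K' + 1 : ℕ) : ℝ) = (K' : ℝ) + 1 := by push_cast; ring
  have e2 : (d + 1 : ℝ) * N ^ 2 * Real.log 2 = (d + 1) * N ^ 2 * Real.log 2 := rfl
  linarith

end Pool.Agent.LNG
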