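import Mathlib

/-!
# LNG, Trp (difficulty 1-2): sums over triples

`D3 N`: ordered triples of pairwise distinct elements of `Fin N`. Every ordered pair `(i,j)`, `i ≠ j`, is completed by `N-2` elements, in each of the three positions; and `Σ_{i≠j} g = 2 Σ_{i<j} g` for symmetric `g`.
Suggestion: write every sum as a sum over all triples of `if .. then .. else 0`, `Finset.sum_product`, `Finset.sum_comm`, `Finset.sum_erase` ...; induction is not needed. `card_D3` is the case `g = 1` or a direct count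
(`N (N-1) (N-2)`; for `N ≤ 2` it is `0`).
-/

namespace Pool.Agent.LNG

/-- Ordered triples of pairwise distinct elements of `Fin N`. -/
def D3 (N : ℕ) : Finset (Fin N × Fin N × Fin N) :=
  Finset.univ.filter (fun τ => τ.1 ≠ τ.2.1 ∧ τ.2.1 ≠ τ.2.2 ∧ τ.2.2 ≠ τ.1)

theorem Trp_count {N : ℕ} {a b : Fin N} (hab : a ≠ b) :
    (((Finset.univ : Finset (Fin N)).filter (fun c => b ≠ c ∧ c ≠ a)).card : ℝ) = (N : ℝ) - 2 := by
  have e : (Finset.univ : Finset (Fin N)).filter (fun c => b ≠ c ∧ c ≠ a) =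
      Finset.univ \ {a, b} := by
    ext c
    simp only [Finset.mem_filter, Finset.mem_univ, true_and, Finset.mem_sdiff, Finset.mem_insert,
      Finset.mem_singleton, not_or]
    constructor
    · rintro ⟨h1, h2⟩
      exact ⟨h2, fun h => h1 h.symm⟩
    · rintro ⟨h1, h2⟩
      exact ⟨fun h => h2 h.symm, h1⟩
  have h2 : ({a, b} : Finset (Fin N)).card = 2 := Finset.card_pair hab
  have h3 : ({a, b} : Finset (Fin N)).card ≤ Fintype.card (Fin N) := Finset.card_le_univ _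
  rw [Fintype.card_fin, h2] at h3
  rw [e, Finset.card_sdiff_of_subset (Finset.subset_univ _), h2, Finset.card_univ,
    Fintype.card_fin, Nat.cast_sub h3]
  norm_num

theorem Trp_fst {N : ℕ} (h : Fin N → Fin N → ℝ) :
    ∑ τ ∈ D3 N, h τ.1 τ.2.1 = ((N : ℝ) - 2) * ∑ i, ∑ j, if i ≠ j then h i j else 0 := by
  unfold D3
  rw [Finset.sum_filter, Fintype.sum_prod_type, Finset.mul_sum]
  refine Finset.sum_congr rfl fun a _ => ?_
  rw [Fintype.sum_prod_type, Finset.mul_sum]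
  refine Finset.sum_congr rfl fun b _ => ?_
  by_cases hab : a = b
  · subst hab
    simp
  · simp only [ne_eq, hab, not_false_eq_true, true_and, if_true]
    rw [← Finset.sum_filter, Finset.sum_const, nsmul_eq_mul]
    have := Trp_count hab
    simp only [ne_eq] at this
    rw [this]

theorem card_D3 (N : ℕ) : ((D3 N).card : ℝ) = (N : ℝ) * (N - 1) * (N - 2) := by
  have h := Trp_fst (N := N) (fun _ _ => 1)
  rw [Finset.sum_const, nsmul_eq_mul, mul_one] at h
  have h1 : ∀ i : Fin N, (∑ j : Fin N, if i ≠ j then (1 : ℝ) else 0) = (N : ℝ) - 1 := by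
    intro i
    have h2 : ∀ j : Fin N, (if i ≠ j then (1 : ℝ) else 0) = 1 - (if i = j then 1 else 0) := by
      intro j
      by_cases hij : i = j
      · simp [hij]
      · simp [hij]
    rw [Finset.sum_congr rfl (fun j _ => h2 j), Finset.sum_sub_distrib]
    simp
  rw [Finset.sum_congr rfl (fun i _ => h1 i), Finset.sum_const, Finset.card_univ,
    Fintype.card_fin, nsmul_eq_mul] at h
  rw [h]
  ring

theorem Trp_cyc {N : ℕ} (f : Fin N × Fin N × Fin N → ℝ) :
    ∑ τ ∈ D3 N, f (τ.2.1, τ.2.2, τ.1) = ∑ τ ∈ D3 N, f τ := by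
  refine Finset.sum_nbij' (fun τ => (τ.2.1, τ.2.2, τ.1)) (fun τ => (τ.2.2, τ.1, τ.2.1))
    ?_ ?_ ?_ ?_ ?_
  · rintro ⟨a, b, c⟩ h
    simp only [D3, Finset.mem_filter, Finset.mem_univ, true_and] at h ⊢
    exact ⟨h.2.1, h.2.2, h.1⟩
  · rintro ⟨a, b, c⟩ h
    simp only [D3, Finset.mem_filter, Finset.mem_univ, true_and] at h ⊢
    exact ⟨h.2.2, h.1, h.2.1⟩
  · rintro ⟨a, b, c⟩ h
    rfl
  · rintro ⟨a, b, c⟩ h
    rfl
  · rintro ⟨a, b, c⟩ h
    rfl

theorem Trp_half {N : ℕ} (g : Fin N → Fin N → ℝ) (hg : ∀ i j, g i j = g j i) :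
    (∑ i, ∑ j, if i ≠ j then g i j else 0) = 2 * ∑ i, ∑ j ∈ Finset.Ioi i, g i j := by
  have e1 : ∀ i : Fin N, ∑ j ∈ Finset.Ioi i, g i j = ∑ j, if i < j then g i j else 0 := by
    intro i
    rw [← Finset.sum_filter]
    refine Finset.sum_congr ?_ (fun _ _ => rfl)
    ext j
    simp
  have e2 : (∑ i : Fin N, ∑ j : Fin N, if j < i then g i j else 0) =
      ∑ i : Fin N, ∑ j : Fin N, if i < j then g i j else 0 := by
    rw [Finset.sum_comm]
    refine Finset.sum_congr rfl fun i _ => Finset.sum_congr rfl fun j _ => ?_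
    rw [hg j i]
  have e3 : ∀ i j : Fin N, (if i ≠ j then g i j else 0) =
      (if i < j then g i j else 0) + (if j < i then g i j else 0) := by
    intro i j
    rcases lt_trichotomy i j with h | h | h
    · simp [h, h.ne, not_lt.mpr h.le]
    · simp [h]
    · simp [h, h.ne', not_lt.mpr h.le]
  rw [Finset.sum_congr rfl (fun i _ => e1 i)]
  rw [Finset.sum_congr rfl (fun i _ => Finset.sum_congr rfl (fun j _ => e3 i j))]
  simp only [Finset.sum_add_distrib]
  rw [e2]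
  ring

theorem sum_trip {N : ℕ} (g : Fin N → Fin N → ℝ) (hg : ∀ i j, g i j = g j i) :
    ∑ τ ∈ D3 N, (g τ.1 τ.2.1 + g τ.2.1 τ.2.2 + g τ.2.2 τ.1) =
      6 * ((N : ℝ) - 2) * ∑ i, ∑ j ∈ Finset.Ioi i, g i j := by
  have h1 := Trp_fst g
  have h2 : ∑ τ ∈ D3 N, g τ.2.1 τ.2.2 = ∑ τ ∈ D3 N, g τ.1 τ.2.1 :=
    Trp_cyc (fun τ => g τ.1 τ.2.1)
  have h3 : ∑ τ ∈ D3 N, g τ.2.2 τ.1 = ∑ τ ∈ D3 N, g τ.2.1 τ.2.2 :=
    Trp_cyc (fun τ => g τ.2.1 τ.2.2)
  rw [Finset.sum_add_distrib, Finset.sum_add_distrib, h3, h2, h1, Trp_half g hg]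
  ring

end Pool.Agent.LNG
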