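import Pool.Agent.LNG.BkC
import Pool.Agent.LNG.Trp

/-!
# LNG, Lcg (difficulty 1-2): local inequality for all triples at an arbitrary finite place

`St v F X τ` is the sum of the three Green functions, `At X τ` the matrix of the triple. `Σ_τ St = 6(N-2) Σ_{i<j} gg ≥ - 6(N-2) N (K'+1) rmin` (`sum_trip`, `gg_comm`, `baker_min`; `N ≥ 2` since `N = d^K'`, `K' ≥ 1`) and `Σ_τ St ≥ Σ_τ (R_τ/(d²+d) - 7 rmin)` (`crude_tri`, with `St_eq`).
Take `(1-λ)` times the first plus `λ` times the second; `rmin ≥ 0`, so `(1-λ) 6(N-2)N(K'+1) rmin ≤ 6(N-2)N(K'+1) rmin`.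
`comb_eq`: Cramer (see `Mai_comb` in `Mai.lean`).
-/

namespace Pool.Agent.LNG

open Polynomial NumberField IsDedekindDomain

variable {K : Type} [Field K] [NumberField K] {d : ℕ}

/-- The matrix of a triple of points. -/
noncomputable def At {N : ℕ} (X : Fin N → Fin 2 → K) (τ : Fin N × Fin N × Fin N) :
    Matrix (Fin 2) (Fin 2) K :=
  tri (X τ.1) (X τ.2.1) (wd (X τ.2.2) (X τ.2.1) / wd (X τ.1) (X τ.2.1))
    (wd (X τ.1) (X τ.2.2) / wd (X τ.1) (X τ.2.1))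

/-- The sum of the three Green functions of a triple. -/
noncomputable def St {N : ℕ} (v : AbsoluteValue K ℝ) (F : Coef K d) (X : Fin N → Fin 2 → K)
    (τ : Fin N × Fin N × Fin N) : ℝ :=
  gg v F (X τ.1) (X τ.2.1) + gg v F (X τ.2.1) (X τ.2.2) + gg v F (X τ.2.2) (X τ.1)

theorem comb_eq {X Y Z : Fin 2 → K} (h : wd X Y ≠ 0) :
    (wd Z Y / wd X Y) • X + (wd X Z / wd X Y) • Y = Z := by
  funext i
  simp only [Pi.add_apply, Pi.smul_apply, smul_eq_mul]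
  rw [div_mul_eq_mul_div, div_mul_eq_mul_div, ← add_div, div_eq_iff h]
  fin_cases i <;> simp [wd] <;> ring

theorem At_det {N : ℕ} {X : Fin N → Fin 2 → K} (hX : ∀ i j, i ≠ j → wd (X i) (X j) ≠ 0)
    {τ : Fin N × Fin N × Fin N} (hτ : τ ∈ D3 N) : (At X τ).det ≠ 0 := by
  obtain ⟨h1, h2, h3⟩ := (Finset.mem_filter.mp hτ).2
  have g1 := hX _ _ h1
  have g2 := hX _ _ (Ne.symm h2)
  have g3 := hX _ _ (Ne.symm h3)
  unfold At
  rw [tri_det]
  exact neg_ne_zero.mpr (mul_ne_zero (mul_ne_zero (div_ne_zero g2 g1) (div_ne_zero g3 g1)) g1)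

theorem loc_good (hd : 2 ≤ d) (v : FinitePlace K) {F : Coef K d} (hF : res F ≠ 0) (K' N : ℕ)
    (hK' : 1 ≤ K') (hN : N = d ^ K') (X : Fin N → Fin 2 → K)
    (hX0 : ∀ i, X i ≠ 0) (hX : ∀ i j, i ≠ j → wd (X i) (X j) ≠ 0) {lam : ℝ} (h0 : 0 ≤ lam)
    (h1 : lam ≤ 1) :
    lam / ((d : ℝ) ^ 2 + d) * ∑ τ ∈ D3 N, rr v.val (conj F (At X τ)) -
        (7 * lam * (D3 N).card + 6 * (N - 2) * N * (K' + 1)) * rmin v.val F ≤
      ∑ τ ∈ D3 N, St v.val F X τ := by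
  have hr : 0 ≤ rmin v.val F := rmin_nonneg (by omega) v hF
  have hN2 : (2 : ℝ) ≤ N := by
    have h2 : 2 ≤ N := by
      rw [hN]
      calc 2 ≤ d := hd
        _ = d ^ 1 := (pow_one d).symm
        _ ≤ d ^ K' := Nat.pow_le_pow_right (by omega) hK'
    exact_mod_cast h2
  have e1 : ∑ τ ∈ D3 N, St v.val F X τ = 6 * ((N : ℝ) - 2) *
      ∑ i, ∑ j ∈ Finset.Ioi i, gg v.val F (X i) (X j) :=
    sum_trip (fun i j => gg v.val F (X i) (X j)) (fun i j => gg_comm v.val F (X i) (X j))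
  have b1 := baker_min hd v hF K' N hN X hX0 (fun i j hij => hX i j hij.ne)
  have s1 : -(6 * ((N : ℝ) - 2) * N * (K' + 1) * rmin v.val F) ≤ ∑ τ ∈ D3 N, St v.val F X τ := by
    rw [e1]
    have h6 : 0 ≤ 6 * ((N : ℝ) - 2) := by linarith
    have := mul_le_mul_of_nonneg_left b1 h6
    refine le_trans (le_of_eq ?_) this
    ring
  have s2 : (∑ τ ∈ D3 N, rr v.val (conj F (At X τ))) / ((d : ℝ) ^ 2 + d) -
      7 * (D3 N).card * rmin v.val F ≤ ∑ τ ∈ D3 N, St v.val F X τ := by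
    have e2 : (∑ τ ∈ D3 N, rr v.val (conj F (At X τ))) / ((d : ℝ) ^ 2 + d) -
        7 * (D3 N).card * rmin v.val F =
        ∑ τ ∈ D3 N, (rr v.val (conj F (At X τ)) / ((d : ℝ) ^ 2 + d) - 7 * rmin v.val F) := by
      rw [Finset.sum_sub_distrib, Finset.sum_div, Finset.sum_const, nsmul_eq_mul]
      ring
    rw [e2]
    refine Finset.sum_le_sum fun τ hτ => ?_
    obtain ⟨h1, h2, h3⟩ := (Finset.mem_filter.mp hτ).2
    have g1 := hX _ _ h1
    have g2 := hX _ _ (Ne.symm h2)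
    have g3 := hX _ _ (Ne.symm h3)
    have := crude_tri hd v hF g1 (div_ne_zero g2 g1) (div_ne_zero g3 g1)
    rw [comb_eq g1] at this
    exact this
  have hB : 0 ≤ 6 * ((N : ℝ) - 2) * N * (K' + 1) * rmin v.val F := by
    have : 0 ≤ (N : ℝ) - 2 := by linarith
    positivity
  have t1 := mul_le_mul_of_nonneg_left s1 (sub_nonneg.mpr h1)
  have t2 := mul_le_mul_of_nonneg_left s2 h0
  have t3 : 0 ≤ lam * (6 * ((N : ℝ) - 2) * N * (K' + 1) * rmin v.val F) := mul_nonneg h0 hB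
  have e4 : lam / ((d : ℝ) ^ 2 + d) * ∑ τ ∈ D3 N, rr v.val (conj F (At X τ)) =
      lam * ((∑ τ ∈ D3 N, rr v.val (conj F (At X τ))) / ((d : ℝ) ^ 2 + d)) := by ring
  rw [e4]
  nlinarith

end Pool.Agent.LNG
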