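import Pool.Agent.LNG.Can

/-!
# LNG, Nor (difficulty 2): wandering points have positive canonical height

`wd_ne_zero_of_wandering`: `wd X Y = 0` for nonzero `X, Y` means proportional (`iter_ne_zero`).
`canHeight_pos`: suppose `canHeight F P = 0` (`canHeight_nonneg`). Then `canHeight F (F^n P) = 0` for all `n`, so `absHeight (F^n P) ≤ C` (`canHeight_near`). Points `(x, y)` with `y ≠ 0`:
`Height.logHeight ![x, y] = Height.logHeight₁ (x/y)` (`Height.logHeight₁_div_eq_logHeight`), only finitely many values `x/y` (`NumberField.finite_setOfPred_logHeight₁_le`). Hence the points `F^n P` (`n ∈ ℕ`, infinitely many indices)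
have finitely many classes in `P^1(K)` (one more for `y = 0`): two indices `j < i` have proportional vectors (`Finite.exists_ne_map_eq_of_infinite` for a map `ℕ → Option (finite subtype)`), so `Preper F P`.
-/

namespace Pool.Agent.LNG

open Polynomial NumberField IsDedekindDomain

variable {K : Type} [Field K] [NumberField K] {d : ℕ}

theorem Nor_prop {k : Type*} [Field k] {X Y : Fin 2 → k} (hX : X ≠ 0) (hY : Y ≠ 0)
    (h : wd X Y = 0) : ∃ c : k, c ≠ 0 ∧ X = c • Y := by
  have hw : X 0 * Y 1 = X 1 * Y 0 := sub_eq_zero.1 h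
  by_cases hY0 : Y 0 = 0
  · have hY1 : Y 1 ≠ 0 := by
      intro h1
      apply hY
      funext i
      fin_cases i
      · exact hY0
      · exact h1
    have hX0 : X 0 = 0 := by
      rw [hY0, mul_zero] at hw
      exact (mul_eq_zero.1 hw).resolve_right hY1
    have hX1 : X 1 ≠ 0 := by
      intro h1
      apply hX
      funext i
      fin_cases i
      · exact hX0
      · exact h1
    refine ⟨X 1 / Y 1, div_ne_zero hX1 hY1, ?_⟩
    funext i
    fin_cases i
    · simp [hX0, hY0]
    · simp [div_mul_cancel₀ _ hY1]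
  · have hX1 : X 1 = X 0 / Y 0 * Y 1 := by
      rw [div_mul_eq_mul_div, hw, mul_div_assoc, div_self hY0, mul_one]
    have hX0 : X 0 ≠ 0 := by
      intro h1
      apply hX
      funext i
      fin_cases i
      · exact h1
      · rw [h1] at hX1
        simpa using hX1
    refine ⟨X 0 / Y 0, div_ne_zero hX0 hY0, ?_⟩
    funext i
    fin_cases i
    · simp [div_mul_cancel₀ _ hY0]
    · simpa using hX1

theorem Nor_preper (hd : 2 ≤ d) {F : Coef K d} (hF : res F ≠ 0) {P : Fin 2 → K}
    (hP : P ≠ 0) {i j : ℕ} (hij : i ≠ j)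
    (h : wd ((ev F)^[i] P) ((ev F)^[j] P) = 0) : Preper F P := by
  have hne : ∀ n, (ev F)^[n] P ≠ 0 := fun n => iter_ne_zero (by omega) hF hP n
  rcases lt_or_gt_of_ne hij with hlt | hlt
  · have h' : wd ((ev F)^[j] P) ((ev F)^[i] P) = 0 := by
      rw [wd_neg_swap, h, neg_zero]
    exact ⟨j, i, hlt, Nor_prop (hne j) (hne i) h'⟩
  · exact ⟨i, j, hlt, Nor_prop (hne i) (hne j) h⟩

theorem wd_ne_zero_of_wandering (hd : 2 ≤ d) {F : Coef K d} (hF : res F ≠ 0) {P : Fin 2 → K}
    (hP : P ≠ 0) (hw : ¬ Preper F P) {i j : ℕ} (hij : i ≠ j) :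
    wd ((ev F)^[i] P) ((ev F)^[j] P) ≠ 0 :=
  fun h => hw (Nor_preper hd hF hP hij h)

theorem canHeight_pos (hd : 2 ≤ d) {F : Coef K d} (hF : res F ≠ 0) {P : Fin 2 → K} (hP : P ≠ 0)
    (hw : ¬ Preper F P) : 0 < canHeight F P := by
  classical
  by_contra hcon
  have h0 : canHeight F P = 0 := le_antisymm (not_lt.1 hcon) (canHeight_nonneg hd hF hP)
  have hne : ∀ n, (ev F)^[n] P ≠ 0 := fun n => iter_ne_zero (by omega) hF hP n
  obtain ⟨C, hC⟩ := canHeight_near hd hF
  have hr : (0 : ℝ) < (Module.finrank ℚ K : ℝ) := Can_rpos (K := K)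
  have hb : ∀ n, Height.logHeight ((ev F)^[n] P) ≤ C * Module.finrank ℚ K := by
    intro n
    have h1 := hC _ (hne n)
    rw [canHeight_iter hd hF hP, h0, mul_zero, sub_zero] at h1
    have h2 := (abs_le.1 h1).2
    unfold absHeight at h2
    rwa [div_le_iff₀ hr] at h2
  let S : Set K := {x : K | Height.logHeight₁ x ≤ C * Module.finrank ℚ K}
  have hS : S.Finite := NumberField.finite_setOfPred_logHeight₁_le K _
  have hfin : Finite S := hS
  have hmem : ∀ n, ((ev F)^[n] P) 0 / ((ev F)^[n] P) 1 ∈ S := by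
    intro n
    show Height.logHeight₁ _ ≤ _
    rw [Height.logHeight₁_div_eq_logHeight]
    have e : ![((ev F)^[n] P) 0, ((ev F)^[n] P) 1] = (ev F)^[n] P := by
      funext i
      fin_cases i <;> rfl
    rw [e]
    exact hb n
  let f : ℕ → Option S := fun n =>
    if ((ev F)^[n] P) 1 = 0 then none else some ⟨_, hmem n⟩
  obtain ⟨i, j, hij, hf⟩ := Finite.exists_ne_map_eq_of_infinite f
  apply wd_ne_zero_of_wandering hd hF hP hw hij
  by_cases hi : ((ev F)^[i] P) 1 = 0
  · by_cases hj : ((ev F)^[j] P) 1 = 0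
    · unfold wd
      rw [hi, hj]
      ring
    · exfalso
      simp only [f, if_pos hi, if_neg hj] at hf
      exact absurd hf (by simp)
  · by_cases hj : ((ev F)^[j] P) 1 = 0
    · exfalso
      simp only [f, if_neg hi, if_pos hj] at hf
      exact absurd hf (by simp)
    · simp only [f, if_neg hi, if_neg hj, Option.some.injEq, Subtype.mk.injEq] at hf
      rw [div_eq_div_iff hi hj] at hf
      unfold wd
      rw [hf]
      ring

end Pool.Agent.LNG
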