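import Pool.Agent.LNG.Uni
import Pool.Agent.LNG.Cnt
import Pool.Agent.LNG.Nor

/-!
# LNG, PsU: a uniform positive lower bound when the height of the map is bounded
-/

namespace Pool.Agent.LNG

open Polynomial NumberField IsDedekindDomain

theorem pos_unif (d : ℕ) (hd : 2 ≤ d) (D : ℕ) (B : ℝ) : ∃ ε : ℝ, 0 < ε ∧
    ∀ (K : Type) [Field K] [NumberField K], Module.finrank ℚ K ≤ D →
      ∀ F : Coef K d, res F ≠ 0 → absHeight F ≤ B → ∀ P : Fin 2 → K, P ≠ 0 → ¬ Preper F P →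
        ε ≤ canHeight F P := by
  obtain ⟨C, hC0, hC⟩ := call_silverman d hd
  obtain ⟨N, hN⟩ := count_points D (1 + C * (1 + B))
  have hd1 : (1 : ℝ) ≤ (d : ℝ) := by exact_mod_cast (by omega : 1 ≤ d)
  have hdN : (0 : ℝ) < (d : ℝ) ^ N := by positivity
  refine ⟨1 / (d : ℝ) ^ N, by positivity, ?_⟩
  intro K _ _ hK F hF hFB P hP hw
  by_contra hcon
  push Not at hcon
  have hne : ∀ n, (ev F)^[n] P ≠ 0 := fun n => iter_ne_zero (by omega) hF hP n
  have hc0 : 0 ≤ canHeight F P := canHeight_nonneg hd hF hP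
  have hX : ∀ i, i ≤ N → (ev F)^[i] P ≠ 0 ∧ absHeight ((ev F)^[i] P) ≤ 1 + C * (1 + B) := by
    intro i hi
    refine ⟨hne i, ?_⟩
    have h1 := hC K F hF _ (hne i)
    rw [canHeight_iter hd hF hP i] at h1
    have h2 : (d : ℝ) ^ i * canHeight F P ≤ 1 := by
      calc (d : ℝ) ^ i * canHeight F P ≤ (d : ℝ) ^ N * canHeight F P :=
            mul_le_mul_of_nonneg_right (pow_le_pow_right₀ hd1 hi) hc0
        _ ≤ (d : ℝ) ^ N * (1 / (d : ℝ) ^ N) := mul_le_mul_of_nonneg_left hcon.le hdN.le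
        _ = 1 := by field_simp
    have h3 := (abs_le.1 h1).2
    have h4 : C * (1 + absHeight F) ≤ C * (1 + B) := mul_le_mul_of_nonneg_left (by linarith) hC0
    linarith
  obtain ⟨i, j, hij, _, hwd⟩ := hN K hK (fun i => (ev F)^[i] P) hX
  exact wd_ne_zero_of_wandering hd hF hP hw hij.ne hwd

end Pool.Agent.LNG
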