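import Pool.Agent.LNG.Mn2
import Pool.Agent.LNG.PsU

/-!
# LNG, Lo2 (difficulty 1-2): the lower bound with `1 + h_T`, uniform

`C` from `main2`, `ε` from `pos_unif d hd D (2C)`, `κ = min ε 1/(1 + 2C)`. Given `F, P` and `A` with `absHeight (conj F A) ≤ C (ĥ(P) + 1)`. If `ĥ(P) > 1`: `1 + absHeight ≤ 1 + 2C ĥ(P) ≤ (1 + 2C) ĥ(P)`. If `ĥ(P) ≤ 1`: `absHeight (conj F A) ≤ 2C`; `P' = A⁻¹ P ≠ 0` is wandering for `conj F A`
(`iter_conj`: `(ev (conj F A))^[n] P' = A⁻¹ (F^n P)`, so proportionality of two iterates of `P'` gives it for `P`), `canHeight (conj F A) P' = canHeight F P` (`canHeight_conj`), `res (conj F A) ≠ 0`; so `ĥ(P) ≥ ε` and `1 + absHeight ≤ 1 + 2C`.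
-/

namespace Pool.Agent.LNG

open Polynomial NumberField IsDedekindDomain

theorem lower2 (d : ℕ) (hd : 2 ≤ d) (D t : ℕ) (δ : ℝ) (hδ : 0 < δ) :
    ∃ κ : ℝ, 0 < κ ∧ ∀ (K : Type) [Field K] [NumberField K], Module.finrank ℚ K ≤ D →
      ∀ F : Coef K d, res F ≠ 0 → ∀ T : Finset (FinitePlace K), T.card ≤ t → Conc δ F T →
        ∀ P : Fin 2 → K, P ≠ 0 → ¬ Preper F P →
          ∃ A : Matrix (Fin 2) (Fin 2) K, A.det ≠ 0 ∧
            κ * (1 + absHeight (conj F A)) ≤ canHeight F P := by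
  obtain ⟨C, hC0, hC⟩ := main2 d hd D t δ hδ
  obtain ⟨ε, hε0, hε⟩ := pos_unif d hd D (2 * C)
  have hC1 : 0 < 1 + 2 * C := by linarith
  have hκ0 : 0 < min ε 1 / (1 + 2 * C) := div_pos (lt_min hε0 one_pos) hC1
  refine ⟨min ε 1 / (1 + 2 * C), hκ0, ?_⟩
  intro K _ _ hD F hF T hT hconc P hP hw
  obtain ⟨A, hA, hAh⟩ := hC K hD F hF T hT hconc P hP hw
  refine ⟨A, hA, ?_⟩
  rcases lt_or_ge 1 (canHeight F P) with h1 | h1
  · have h2 : 1 + absHeight (conj F A) ≤ (1 + 2 * C) * canHeight F P := by nlinarith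
    calc min ε 1 / (1 + 2 * C) * (1 + absHeight (conj F A))
        ≤ min ε 1 / (1 + 2 * C) * ((1 + 2 * C) * canHeight F P) :=
          mul_le_mul_of_nonneg_left h2 hκ0.le
      _ = min ε 1 * canHeight F P := by field_simp
      _ ≤ 1 * canHeight F P :=
          mul_le_mul_of_nonneg_right (min_le_right _ _) (by linarith)
      _ = canHeight F P := one_mul _
  · have hu : IsUnit A.det := isUnit_iff_ne_zero.mpr hA
    have h2 : absHeight (conj F A) ≤ 2 * C := by nlinarith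
    have hback : A.mulVec (A⁻¹.mulVec P) = P := by
      rw [Matrix.mulVec_mulVec, Matrix.mul_nonsing_inv A hu, Matrix.one_mulVec]
    have hP' : A⁻¹.mulVec P ≠ 0 := by
      intro h
      rw [h, Matrix.mulVec_zero] at hback
      exact hP hback.symm
    have hres : res (conj F A) ≠ 0 := by
      rw [res_conj F hA]
      exact mul_ne_zero (pow_ne_zero _ hA) hF
    have hw' : ¬ Preper (conj F A) (A⁻¹.mulVec P) := by
      rintro ⟨i, j, hij, c, hc, h⟩
      apply hw
      refine ⟨i, j, hij, c, hc, ?_⟩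
      rw [iter_conj F hA, iter_conj F hA, hback] at h
      have h3 := congrArg (fun X => A.mulVec X) h
      simp only [Matrix.mulVec_smul, Matrix.mulVec_mulVec, Matrix.mul_nonsing_inv A hu,
        Matrix.one_mulVec] at h3
      exact h3
    have h4 := hε K hD (conj F A) hres h2 (A⁻¹.mulVec P) hP' hw'
    rw [canHeight_conj hd hF hP' hA, hback] at h4
    calc min ε 1 / (1 + 2 * C) * (1 + absHeight (conj F A))
        ≤ min ε 1 / (1 + 2 * C) * (1 + 2 * C) :=
          mul_le_mul_of_nonneg_left (by linarith) hκ0.le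
      _ = min ε 1 := by field_simp
      _ ≤ ε := min_le_left _ _
      _ ≤ _ := h4

end Pool.Agent.LNG
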