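import Pool.Agent.LNG.Prob

/-!
# LNG, NoF (difficulty 1): finitely many normalised coefficient vectors of bounded height

If `F q = 1` for some index `q`, then every coordinate satisfies `logHeight₁ (F p) = logHeight ![F p, 1] ≤ logHeight F` (`Height.logHeight₁_eq_logHeight`, `Height.logHeight_comp_le` for the map
`Fin 2 → Fin 2 × Fin (d+1)` choosing `p` and `q`), so `F` lies in a finite set (`Set.Finite.pi`, `NumberField.finite_setOfPred_logHeight₁_le`).
-/

namespace Pool.Agent.LNG

open Polynomial NumberField IsDedekindDomain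

variable {K : Type} [Field K] [NumberField K]

theorem finite_coef (d : ℕ) (B : ℝ) :
    {F : Coef K d | (∃ q, F q = 1) ∧ Height.logHeight F ≤ B}.Finite := by
  have hfin : {x : K | Height.logHeight₁ x ≤ B}.Finite := NumberField.finite_setOfPred_logHeight₁_le K B
  refine (Set.Finite.pi (t := fun _ : Fin 2 × Fin (d + 1) => {x : K | Height.logHeight₁ x ≤ B})
    (fun _ => hfin)).subset ?_
  rintro F ⟨⟨q, hq⟩, hF⟩
  rw [Set.mem_pi]
  intro p _
  have h1 : Height.logHeight₁ (F p) = Height.logHeight (F ∘ ![p, q]) := by
    rw [Height.logHeight₁_eq_logHeight]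
    congr 1
    funext i
    fin_cases i
    · rfl
    · simp [hq]
  show Height.logHeight₁ (F p) ≤ B
  rw [h1]
  exact (Height.logHeight_comp_le _ _).trans hF

end Pool.Agent.LNG
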