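import Pool.Agent.LNG.Mai
import Pool.Agent.LNG.NoF

/-!
# LNG, Low (difficulty 2): the lower bound with `1 + h_T`

`C, N0` from `main_ineq`. Finite set `S = {F₁ | (∃ q, F₁ q = 1) ∧ logHeight F₁ ≤ 2 C [K:Q]}` (`finite_coef`); let `κ₀ > 0` be a lower bound for the positive numbers among `canHeight F₁ ![0,1]`, `F₁ ∈ S`
(finite set of reals: `Set.Finite.exists_...`, or minimum of a finset; if empty take `κ₀ = 1`).
Given `F, P` and `A`, `i`, `c` from `main_ineq`. Case `ĥ(P) ≤ 1`: `absHeight (conj F A) ≤ 2C`. `conj F A = c' • F₁`, where `c'` is a nonzero coefficient, `F₁ = c'⁻¹ • conj F A ∈ S` (`Height.logHeight_smul_eq_logHeight`), and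
`canHeight F₁ ![0,1] = canHeight (conj F A) ![0,1] = canHeight F (A ![0,1]) = canHeight F (F^i P) = d^i ĥ(P)` (`canHeight_smul`, `canHeight_conj`, `canHeight_smul_vec`, `canHeight_iter`) is positive (`canHeight_pos`), so `ĥ(P) ≥ κ₀/d^{N0}`, and `1 + absHeight ≤ 1 + 2C`.
Case `ĥ(P) > 1`: `1 + absHeight(conj F A) ≤ 1 + C(ĥ(P)+1) ≤ (1 + 2C) ĥ(P)`. `κ = min(κ₀/d^{N0}, 1)/(1+2C)`.
-/

namespace Pool.Agent.LNG

open Polynomial NumberField IsDedekindDomain

theorem low_pos_bound {T : Type*} (f : T → ℝ) (S : Set T) (hS : S.Finite) :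
    ∃ κ₀ : ℝ, 0 < κ₀ ∧ ∀ x ∈ S, 0 < f x → κ₀ ≤ f x := by
  refine Set.Finite.induction_on (motive := fun s _ => ∃ κ₀ : ℝ, 0 < κ₀ ∧ ∀ x ∈ s, 0 < f x → κ₀ ≤ f x)
    S hS ⟨1, one_pos, by simp⟩ ?_
  intro a s _ _ ih
  obtain ⟨κ, hκ, h⟩ := ih
  by_cases ha : 0 < f a
  · refine ⟨min κ (f a), lt_min hκ ha, ?_⟩
    intro x hx hpos
    rcases Set.mem_insert_iff.mp hx with rfl | hx
    · exact min_le_right _ _
    · exact (min_le_left _ _).trans (h x hx hpos)
  · refine ⟨κ, hκ, ?_⟩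
    intro x hx hpos
    rcases Set.mem_insert_iff.mp hx with rfl | hx
    · exact absurd hpos ha
    · exact h x hx hpos

theorem lower_bound (K : Type) [Field K] [NumberField K] (d : ℕ) (hd : 2 ≤ d) (s : ℕ) :
    ∃ κ : ℝ, 0 < κ ∧ ∀ F : Coef K d, res F ≠ 0 → (badPl F).encard ≤ s →
      ∀ P : Fin 2 → K, P ≠ 0 → ¬ Preper F P →
        ∃ A : Matrix (Fin 2) (Fin 2) K, A.det ≠ 0 ∧
          κ * (1 + absHeight (conj F A)) ≤ canHeight F P := by
  obtain ⟨C, N0, hC, hmain⟩ := main_ineq K d hd s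
  have hn : (0 : ℝ) < Module.finrank ℚ K := by
    exact_mod_cast Module.finrank_pos
  obtain ⟨κ₀, hκ₀, hκ⟩ := low_pos_bound (fun F₁ : Coef K d => canHeight F₁ ![0, 1])
    {F : Coef K d | (∃ q, F q = 1) ∧ Height.logHeight F ≤ 2 * C * Module.finrank ℚ K}
    (finite_coef d _)
  have hdpos : (0 : ℝ) < d := by
    have : 0 < d := by omega
    exact_mod_cast this
  have hd1 : (1 : ℝ) ≤ d := by
    have : 1 ≤ d := by omega
    exact_mod_cast this
  set κ : ℝ := min (κ₀ / (d : ℝ) ^ N0) 1 / (1 + 2 * C) with hκdef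
  have hmin : 0 < min (κ₀ / (d : ℝ) ^ N0) 1 := lt_min (by positivity) one_pos
  have hκpos : 0 < κ := by positivity
  have hκmul : κ * (1 + 2 * C) = min (κ₀ / (d : ℝ) ^ N0) 1 := by
    rw [hκdef]
    field_simp
  refine ⟨κ, hκpos, ?_⟩
  intro F hF hbad P hP hw
  obtain ⟨A, hA, ⟨i, hi, c, hc, hAP⟩, hineq⟩ := hmain F hF hbad P hP hw
  refine ⟨A, hA, ?_⟩
  have hpos : 0 < canHeight F P := canHeight_pos hd hF hP hw
  by_cases h1 : 1 < canHeight F P
  · have h2 : 1 + absHeight (conj F A) ≤ (1 + 2 * C) * canHeight F P := by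
      nlinarith
    calc κ * (1 + absHeight (conj F A)) ≤ κ * ((1 + 2 * C) * canHeight F P) :=
          mul_le_mul_of_nonneg_left h2 hκpos.le
      _ = min (κ₀ / (d : ℝ) ^ N0) 1 * canHeight F P := by rw [← mul_assoc, hκmul]
      _ ≤ 1 * canHeight F P := mul_le_mul_of_nonneg_right (min_le_right _ _) hpos.le
      _ = canHeight F P := one_mul _
  · have h1' : canHeight F P ≤ 1 := not_lt.mp h1
    have h2 : absHeight (conj F A) ≤ 2 * C := by nlinarith
    have hres : res (conj F A) ≠ 0 := by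
      rw [res_conj F hA]
      exact mul_ne_zero (pow_ne_zero _ hA) hF
    have hne : conj F A ≠ 0 := by
      intro h0
      apply hres
      rw [h0]
      have h3 := res_smul (0 : K) (0 : Coef K d)
      rw [zero_smul, zero_pow (by omega), zero_mul] at h3
      exact h3
    obtain ⟨q, hq⟩ : ∃ q, conj F A q ≠ 0 := by
      by_contra hcon
      push Not at hcon
      exact hne (funext hcon)
    set F₁ : Coef K d := (conj F A q)⁻¹ • conj F A with hF₁
    have hF₁mem : F₁ ∈ {F : Coef K d | (∃ q, F q = 1) ∧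
        Height.logHeight F ≤ 2 * C * Module.finrank ℚ K} := by
      refine ⟨⟨q, ?_⟩, ?_⟩
      · rw [hF₁, Pi.smul_apply, smul_eq_mul, inv_mul_cancel₀ hq]
      · rw [hF₁, Height.logHeight_smul_eq_logHeight _ (inv_ne_zero hq)]
        unfold absHeight at h2
        rw [div_le_iff₀ hn] at h2
        exact h2
    have hv : (![0, 1] : Fin 2 → K) ≠ 0 := by
      intro h0
      have := congrFun h0 1
      simp at this
    have hcan : canHeight F₁ ![0, 1] = (d : ℝ) ^ i * canHeight F P := by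
      rw [hF₁, canHeight_smul hd hres hv (inv_ne_zero hq), canHeight_conj hd hF hv hA, hAP,
        canHeight_smul_vec hd hF (iter_ne_zero (by omega) hF hP i) hc, canHeight_iter hd hF hP]
    have hκ1 : κ₀ ≤ canHeight F₁ ![0, 1] := by
      apply hκ F₁ hF₁mem
      change 0 < canHeight F₁ ![0, 1]
      rw [hcan]
      positivity
    rw [hcan] at hκ1
    have h3 : (d : ℝ) ^ i ≤ (d : ℝ) ^ N0 := pow_le_pow_right₀ hd1 hi.le
    have h4 : κ₀ / (d : ℝ) ^ N0 ≤ canHeight F P := by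
      rw [div_le_iff₀ (by positivity)]
      nlinarith
    calc κ * (1 + absHeight (conj F A)) ≤ κ * (1 + 2 * C) :=
          mul_le_mul_of_nonneg_left (by linarith) hκpos.le
      _ = min (κ₀ / (d : ℝ) ^ N0) 1 := hκmul
      _ ≤ κ₀ / (d : ℝ) ^ N0 := min_le_left _ _
      _ ≤ canHeight F P := h4

end Pool.Agent.LNG
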