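import Pool.Agent.LNG.PGn

/-!
# LNG, PGt (difficulty 2): places of potentially good reduction, the inequalities

`pg_data` with `U = M⁻¹ιX`, `V = M⁻¹ιY`. `pg_nonneg`: `|U∧V| ≤ ‖U‖‖V‖` (`wd_le_nonarch`).
`pg_tri`: `Z = αX + βY`, `W = M⁻¹ιZ = αU + βV` (identify `α` with `ι α`), `B = tri U V α β = M⁻¹ * (tri X Y α β).map ι`. `rr v (conj F (tri X Y α β)) = rr w (conj F' B) ≤ rr w F' + (d²+d)(2 log mn(B) - log|det B|)`
(`rr_conj_le` with `σ = 1`, `log 1 = 0`), `rr w F' = 0`. `mn B = max(|β|‖V‖, |α|‖U‖)`, `det B = -αβ (U∧V)`, `|α| |U∧V| = |W∧V|`, `|β||U∧V| = |U∧W|`. With `δ(U,V) = |U∧V|/(‖U‖‖V‖) ≤ 1` etc.: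
`mn(B)²/|det B| = max(|U∧W|‖V‖, |W∧V|‖U‖)²/(|U∧V||U∧W||W∧V|) = max(δ(U,W), δ(W,V))² / (δ(U,V) δ(U,W) δ(W,V)) ≤ 1/(δ(U,V) δ(U,W) δ(W,V))`, and the logarithm of the last number is
`gg(X,Y) + gg(Y,Z) + gg(Z,X)`. (In Lean: show `2 log(|β|‖V‖) - log|det B| ≤ S` and `2 log(|α|‖U‖) - log|det B| ≤ S` separately, with logs of the `δ`s.)
-/

namespace Pool.Agent.LNG

open Polynomial NumberField IsDedekindDomain

variable {K : Type} [Field K] [NumberField K] {d : ℕ}

theorem PGt_log_wd {L : Type*} [Field L] (w : AbsoluteValue L ℝ) (hw : IsNonarchimedean w)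
    {U V : Fin 2 → L} (hUV : wd U V ≠ 0) :
    Real.log (w (wd U V)) ≤ Real.log (vn w U) + Real.log (vn w V) := by
  have hU := vn_pos w (left_ne_zero_of_wd hUV)
  have hV := vn_pos w (right_ne_zero_of_wd hUV)
  rw [← Real.log_mul hU.ne' hV.ne']
  exact Real.log_le_log (w.pos hUV) (wd_le_nonarch w hw U V)

theorem PGt_tri {L : Type*} [Field L] (U V : Fin 2 → L) (α β : L) :
    ∀ i j, tri U V α β i j = (if j = 0 then β * V i else α * U i) := by
  intro i j
  fin_cases i <;> fin_cases j <;> simp [tri]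

theorem pg_nonneg (hd : 2 ≤ d) (v : AbsoluteValue K ℝ) {F : Coef K d}
    (hF : res F ≠ 0) (hpg : PotGood v F) {X Y : Fin 2 → K} (hXY : wd X Y ≠ 0) :
    0 ≤ gg v F X Y := by
  obtain ⟨L, hL, hInf, ι, w, M, F', hw, hwι, hM, hF', hrr, hgg, hconj⟩ := pg_data hd v hF hpg
  have hMi : M⁻¹.det ≠ 0 := by
    rw [Matrix.det_nonsing_inv, Ring.inverse_eq_inv']
    exact inv_ne_zero hM
  have hUV : wd (M⁻¹.mulVec (mapV ι X)) (M⁻¹.mulVec (mapV ι Y)) ≠ 0 := by
    rw [wd_mulVec, wd_map]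
    exact mul_ne_zero hMi ((map_ne_zero ι).2 hXY)
  have hle := PGt_log_wd w hw hUV
  rw [hgg X Y hXY]
  linarith

theorem pg_tri (hd : 2 ≤ d) (v : AbsoluteValue K ℝ) {F : Coef K d}
    (hF : res F ≠ 0) (hpg : PotGood v F) {X Y : Fin 2 → K} (hXY : wd X Y ≠ 0) {α β : K}
    (hα : α ≠ 0) (hβ : β ≠ 0) :
    rr v (conj F (tri X Y α β)) ≤ ((d : ℝ) ^ 2 + d) *
      (gg v F X Y + gg v F Y (α • X + β • Y) + gg v F (α • X + β • Y) X) := by
  obtain ⟨L, hL, hInf, ι, w, M, F', hw, hwι, hM, hF', hrr, hgg, hconj⟩ := pg_data hd v hF hpg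
  have hMi : M⁻¹.det ≠ 0 := by
    rw [Matrix.det_nonsing_inv, Ring.inverse_eq_inv']
    exact inv_ne_zero hM
  have hια : ι α ≠ 0 := (map_ne_zero ι).2 hα
  have hιβ : ι β ≠ 0 := (map_ne_zero ι).2 hβ
  set Z : Fin 2 → K := α • X + β • Y with hZ
  set U : Fin 2 → L := M⁻¹.mulVec (mapV ι X) with hU
  set V : Fin 2 → L := M⁻¹.mulVec (mapV ι Y) with hV
  set W : Fin 2 → L := M⁻¹.mulVec (mapV ι Z) with hW
  have hWUV : W = ι α • U + ι β • V := by
    rw [hW, hU, hV, ← Matrix.mulVec_smul, ← Matrix.mulVec_smul, ← Matrix.mulVec_add]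
    congr 1
    funext i
    simp [mapV, hZ]
  have hUV : wd U V ≠ 0 := by
    rw [hU, hV, wd_mulVec, wd_map]
    exact mul_ne_zero hMi ((map_ne_zero ι).2 hXY)
  have hYZ : wd Y Z = α * wd Y X := by
    rw [hZ, wd_add_right, wd_smul_right, wd_smul_right, wd_self, mul_zero, add_zero]
  have hZX : wd Z X = β * wd Y X := by
    rw [hZ, wd_add_left, wd_smul_left, wd_smul_left, wd_self, mul_zero, zero_add]
  have hYX : wd Y X ≠ 0 := by
    rw [wd_neg_swap]
    exact neg_ne_zero.2 hXY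
  have hYZ0 : wd Y Z ≠ 0 := by rw [hYZ]; exact mul_ne_zero hα hYX
  have hZX0 : wd Z X ≠ 0 := by rw [hZX]; exact mul_ne_zero hβ hYX
  have hVW : w (wd V W) = w (ι α) * w (wd U V) := by
    rw [hWUV, wd_add_right, wd_smul_right, wd_smul_right, wd_self, mul_zero, add_zero, map_mul,
      wd_neg_swap U V, w.map_neg]
  have hWU : w (wd W U) = w (ι β) * w (wd U V) := by
    rw [hWUV, wd_add_left, wd_smul_left, wd_smul_left, wd_self, mul_zero, zero_add, map_mul,
      wd_neg_swap U V, w.map_neg]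
  have hVW0 : wd V W ≠ 0 := by
    intro h0
    rw [h0, map_zero] at hVW
    exact mul_ne_zero (w.ne_zero hια) (w.ne_zero hUV) hVW.symm
  have hWU0 : wd W U ≠ 0 := by
    intro h0
    rw [h0, map_zero] at hWU
    exact mul_ne_zero (w.ne_zero hιβ) (w.ne_zero hUV) hWU.symm
  have hB : M⁻¹ * (tri X Y α β).map ι = tri U V (ι α) (ι β) := by
    ext i j
    rw [PGt_tri]
    simp only [hU, hV, Matrix.mul_apply, Matrix.map_apply, PGt_tri, Matrix.mulVec, dotProduct,
      Fin.sum_univ_two, mapV]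
    split_ifs
    · simp only [map_mul]; ring
    · simp only [map_mul]; ring
  have htri : (tri X Y α β).det ≠ 0 := by
    rw [tri_det]
    exact neg_ne_zero.2 (mul_ne_zero (mul_ne_zero hα hβ) hXY)
  have hdetB : (tri U V (ι α) (ι β)).det ≠ 0 := by
    rw [tri_det]
    exact neg_ne_zero.2 (mul_ne_zero (mul_ne_zero hια hιβ) hUV)
  have hσ : SumBound w (bigM d) 1 := sumBound_nonarch w hw _
  have h1 := rr_conj_le hσ (by omega) hF' hdetB
  rw [hrr, Real.log_one, mul_zero, add_zero, zero_add] at h1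
  rw [hconj _ htri, hB, hgg X Y hXY, hgg Y Z hYZ0, hgg Z X hZX0]
  refine h1.trans ?_
  apply mul_le_mul_of_nonneg_left _ (by positivity)
  -- logarithms
  have hpU := vn_pos w (left_ne_zero_of_wd hUV)
  have hpV := vn_pos w (right_ne_zero_of_wd hUV)
  have hpα := w.pos hια
  have hpβ := w.pos hιβ
  have hpUV := w.pos hUV
  have e1 := PGt_log_wd w hw hVW0
  have e2 := PGt_log_wd w hw hWU0
  have e3 : Real.log (w (wd V W)) = Real.log (w (ι α)) + Real.log (w (wd U V)) := by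
    rw [hVW, Real.log_mul hpα.ne' hpUV.ne']
  have e4 : Real.log (w (wd W U)) = Real.log (w (ι β)) + Real.log (w (wd U V)) := by
    rw [hWU, Real.log_mul hpβ.ne' hpUV.ne']
  have e5 : Real.log (w (tri U V (ι α) (ι β)).det) =
      Real.log (w (ι α)) + Real.log (w (ι β)) + Real.log (w (wd U V)) := by
    rw [tri_det, w.map_neg, map_mul, map_mul, Real.log_mul (mul_ne_zero hpα.ne' hpβ.ne') hpUV.ne',
      Real.log_mul hpα.ne' hpβ.ne']
  have hmn : mn w (tri U V (ι α) (ι β)) ≤ max (w (ι β) * vn w V) (w (ι α) * vn w U) := by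
    apply mn_le
    intro i j
    rw [PGt_tri]
    have hVi : ∀ (T : Fin 2 → L) (i : Fin 2), w (T i) ≤ vn w T := by
      intro T i
      fin_cases i
      · exact le_max_left _ _
      · exact le_max_right _ _
    split_ifs
    · rw [map_mul]
      exact le_max_of_le_left (mul_le_mul_of_nonneg_left (hVi V i) (w.nonneg _))
    · rw [map_mul]
      exact le_max_of_le_right (mul_le_mul_of_nonneg_left (hVi U i) (w.nonneg _))
  have hmn0 := mn_pos w hdetB
  rcases le_total (w (ι β) * vn w V) (w (ι α) * vn w U) with hc | hc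
  · rw [max_eq_right hc] at hmn
    have e6 := Real.log_le_log hmn0 hmn
    rw [Real.log_mul hpα.ne' hpU.ne'] at e6
    rw [e3, e4, e5]
    rw [e3] at e1
    linarith
  · rw [max_eq_left hc] at hmn
    have e6 := Real.log_le_log hmn0 hmn
    rw [Real.log_mul hpβ.ne' hpV.ne'] at e6
    rw [e3, e4, e5]
    rw [e4] at e2
    linarith

end Pool.Agent.LNG
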