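import Mathlib

/-!
# LNG, Pig (difficulty 1): pigeonhole

`Finset.exists_lt_card_fiber_of_mul_lt_card_of_maps_to` for `f : Fin N → T`, `2 * card T < N`: a fibre with at least three elements; sort them.
-/

namespace Pool.Agent.LNG

theorem three_equal {T : Type} [Fintype T] {N : ℕ} (f : ℕ → T) (hN : 2 * Fintype.card T < N) :
    ∃ i j l : ℕ, i < j ∧ j < l ∧ l < N ∧ f i = f j ∧ f j = f l := by
  classical
  obtain ⟨y, _, hy⟩ := Finset.exists_lt_card_fiber_of_mul_lt_card_of_maps_to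
    (s := Finset.range N) (t := (Finset.univ : Finset T)) (f := f) (n := 2)
    (fun _ _ => Finset.mem_univ _) (by rw [Finset.card_range, Finset.card_univ]; omega)
  obtain ⟨a, b, c, ha, hb, hc, hab, hac, hbc⟩ := Finset.two_lt_card_iff.mp hy
  simp only [Finset.mem_filter, Finset.mem_range] at ha hb hc
  rcases lt_trichotomy a b with h1 | h1 | h1
  · rcases lt_trichotomy b c with h2 | h2 | h2
    · exact ⟨a, b, c, h1, h2, hc.1, by rw [ha.2, hb.2], by rw [hb.2, hc.2]⟩
    · exact absurd h2 hbc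
    · rcases lt_trichotomy a c with h3 | h3 | h3
      · exact ⟨a, c, b, h3, h2, hb.1, by rw [ha.2, hc.2], by rw [hb.2, hc.2]⟩
      · exact absurd h3 hac
      · exact ⟨c, a, b, h3, h1, hb.1, by rw [ha.2, hc.2], by rw [ha.2, hb.2]⟩
  · exact absurd h1 hab
  · rcases lt_trichotomy a c with h2 | h2 | h2
    · exact ⟨b, a, c, h1, h2, hc.1, by rw [ha.2, hb.2], by rw [ha.2, hc.2]⟩
    · exact absurd h2 hac
    · rcases lt_trichotomy b c with h3 | h3 | h3
      · exact ⟨b, c, a, h3, h2, ha.1, by rw [hb.2, hc.2], by rw [ha.2, hc.2]⟩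
      · exact absurd h3 hbc
      · exact ⟨c, b, a, h3, h1, ha.1, by rw [hb.2, hc.2], by rw [ha.2, hb.2]⟩

end Pool.Agent.LNG
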