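import Pool.Agent.LNG.Plc
import Pool.Agent.LNG.PGt
import Pool.Agent.LNG.Grr
import Pool.Agent.LNG.CaG
import Pool.Agent.LNG.Nor
import Pool.Agent.LNG.Pig

/-!
# LNG, Mai (difficulty 3): the main inequality

`m, c, C₁` from `plc d hd`. `N0 = 2 m^(card (InfinitePlace K) + s) + 1`. Given `F`, `P`: `T = (InfinitePlace K → Fin m) × (badPl F → Fin m)` (finite: `encard ≤ s`), card `≤ m^(..)`. Choose for every infinite place and for every finite place in `badPl F`
a colouring (`plc`), `f i = ` colours of `X_i = F^i(P)`. `three_equal`: `i < j < l` with the same colours. `X = X_i`, `Y = X_j`, `Z = X_l` are pairwise independent (`wd_ne_zero_of_wandering`), `Z = αX + βY` with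
`α = wd Z Y / wd X Y`, `β = wd X Z / wd X Y` (nonzero). `A = tri X Y α β`, `det A = -αβ (X∧Y) ≠ 0`, `A ![0,1] = α X` (`tri_mulVec`) `= α F^i(P)`.
Local inequality with `c' = min(c, 1/(d²+d))`, `C₂ = C₁ + c log(bigM d)`:  `c' rr v (conj F A) - b_v ≤ S_v := gg(X,Y)+gg(Y,Z)+gg(Z,X)`, with `b_v = C₂` at infinite places and at bad finite places (`c' rr ≤ c rr + (c - c') log bigM`, by `rr_ge_all`), `b_v = 0` at
the other finite places (`pg_tri`, `rr_nonneg_finite`: `c' rr ≤ rr/(d²+d) ≤ S_v`). Sum over all places (`Sg_mono`): `c' · 2d · logHeight(conj F A) - C₂ ([K:Q] + s) ≤ SA(S) = 2 [K:Q] (ĥ(X)+ĥ(Y)+ĥ(Z)) ≤ 6 [K:Q] d^{N0} ĥ(P)` (`SA_gg`, `SA_rr`, `canHeight_iter`).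
(`conj F A` has `res ≠ 0` by `res_conj`.)
-/

namespace Pool.Agent.LNG

open Polynomial NumberField IsDedekindDomain

/-- The combination `Z = α X + β Y`. -/
theorem Mai_comb {K : Type} [Field K] {X Y Z : Fin 2 → K} (h : wd X Y ≠ 0) :
    (wd Z Y / wd X Y) • X + (wd X Z / wd X Y) • Y = Z := by
  funext i
  simp only [Pi.add_apply, Pi.smul_apply, smul_eq_mul]
  rw [div_mul_eq_mul_div, div_mul_eq_mul_div, ← add_div, div_eq_iff h]
  fin_cases i <;> simp [wd] <;> ring

/-- The local sum `S_v`. -/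
noncomputable def Mai_S {K : Type} [Field K] {d : ℕ} (F : Coef K d) (X Y Z : Fin 2 → K)
    (v : AbsoluteValue K ℝ) : ℝ := gg v F X Y + gg v F Y Z + gg v F Z X

theorem Mai_card {K : Type} [Field K] [NumberField K] {S : Set (FinitePlace K)} [Fintype S] {m s : ℕ}
    [DecidableEq (InfinitePlace K)] [DecidableEq S] (hm : 0 < m) (hS : S.encard ≤ s) :
    2 * Fintype.card ((InfinitePlace K → Fin m) × (S → Fin m)) <
      2 * m ^ (Fintype.card (InfinitePlace K) + s) + 1 := by
  classical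
  have h1 : Fintype.card S ≤ s := by
    have := hS
    rw [Set.encard_eq_coe_toFinset_card, Set.toFinset_card] at this
    exact_mod_cast this
  have h2 : Fintype.card ((InfinitePlace K → Fin m) × (S → Fin m)) =
      m ^ (Fintype.card (InfinitePlace K) + Fintype.card S) := by
    rw [Fintype.card_prod, Fintype.card_fun, Fintype.card_fun, Fintype.card_fin, pow_add]
  have h3 : m ^ (Fintype.card (InfinitePlace K) + Fintype.card S) ≤
      m ^ (Fintype.card (InfinitePlace K) + s) := Nat.pow_le_pow_right hm (by omega)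
  omega

/-- Real arithmetic of the last step. -/
theorem Mai_real {n c' d2 h C₂ s D H : ℝ} (hn : 1 ≤ n) (hc : 0 < c') (hd : 0 < d2)
    (hC : 0 ≤ C₂) (hs : 0 ≤ s) (hH : 0 ≤ H) (hD : 0 ≤ D)
    (hmain : c' * (d2 * h) - C₂ * (n + s) ≤ n * (D * H)) :
    h / n ≤ (D + C₂ * (1 + s)) / (d2 * c') * (H + 1) := by
  have hn0 : 0 < n := by linarith
  rw [div_le_iff₀ hn0]
  have e : (D + C₂ * (1 + s)) / (d2 * c') * (H + 1) * n =
      ((D + C₂ * (1 + s)) * (H + 1) * n) / (d2 * c') := by ring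
  rw [e, le_div_iff₀ (mul_pos hd hc)]
  have h1 : h * (d2 * c') ≤ n * (D * H) + C₂ * (n + s) := by nlinarith
  refine h1.trans ?_
  have h2 : C₂ * (n + s) ≤ C₂ * (1 + s) * n := by
    have : n + s ≤ (1 + s) * n := by nlinarith
    nlinarith
  have h3 : 0 ≤ D * n := mul_nonneg hD hn0.le
  have h4 : 0 ≤ C₂ * (1 + s) * H * n := by positivity
  nlinarith

theorem Mai_sum {K : Type} [Field K] [NumberField K] {d : ℕ} (hd : 2 ≤ d) (s : ℕ)
    {F F' : Coef K d} (hF : res F ≠ 0) (hF' : res F' ≠ 0) (hs : (badPl F).encard ≤ s)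
    {X Y Z : Fin 2 → K} (hXY : wd X Y ≠ 0) (hYZ : wd Y Z ≠ 0) (hZX : wd Z X ≠ 0)
    {c' C₂ : ℝ} (hC₂ : 0 ≤ C₂)
    (hinf : ∀ v : InfinitePlace K, c' * rr v.val F' - C₂ ≤ Mai_S F X Y Z v.val)
    (hbad : ∀ v : FinitePlace K, v ∈ badPl F → c' * rr v.val F' - C₂ ≤ Mai_S F X Y Z v.val)
    (hgood : ∀ v : FinitePlace K, v ∉ badPl F → c' * rr v.val F' ≤ Mai_S F X Y Z v.val) :
    c' * (2 * d * Height.logHeight F') - C₂ * (Module.finrank ℚ K + s) ≤
      Module.finrank ℚ K * (2 * (canHeight F X + canHeight F Y + canHeight F Z)) := by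
  classical
  have hd1 : 1 ≤ d := by omega
  have hfin : (badPl F).Finite := Set.finite_of_encard_le_coe hs
  have hcard : ((badPl F).ncard : ℝ) ≤ s := by
    have h1 := hfin.cast_ncard_eq
    rw [← h1] at hs
    exact_mod_cast hs
  -- finite supports
  have FSrr : FS (fun v => c' * rr v F') := FS_mul c' (FS_rr hd1 hF')
  have FSs : FS (fun v => Mai_S F X Y Z v) :=
    FS_add (FS_add (FS_gg hd hF hXY) (FS_gg hd hF hYZ)) (FS_gg hd hF hZX)
  have hsupp : (Function.support (fun v : FinitePlace K => if v ∈ badPl F then -C₂ else 0)).Finite := by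
    refine hfin.subset fun v hv => ?_
    by_contra hnot
    exact hv (if_neg hnot)
  have key : Sg (fun v : InfinitePlace K => c' * rr v.val F' + -C₂)
      (fun v : FinitePlace K => c' * rr v.val F' + (if v ∈ badPl F then -C₂ else 0)) ≤
      Sg (fun v => Mai_S F X Y Z v.val) (fun v => Mai_S F X Y Z v.val) := by
    refine Sg_mono ?_ FSs ?_ ?_
    · refine (FSrr.union hsupp).subset ?_
      exact Function.support_add _ _
    · intro v
      have := hinf v
      linarith
    · intro v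
      by_cases hv : v ∈ badPl F
      · have := hbad v hv
        simp only [if_pos hv]
        linarith
      · have := hgood v hv
        simp only [if_neg hv]
        linarith
  rw [Sg_add FSrr hsupp] at key
  have e1 : Sg (fun v : InfinitePlace K => c' * rr v.val F')
      (fun v : FinitePlace K => c' * rr v.val F') = c' * (2 * d * Height.logHeight F') := by
    have := SA_mul c' (fun v : AbsoluteValue K ℝ => rr v F')
    rw [SA_rr hd1 hF'] at this
    exact this
  have e2 : Sg (fun _ : InfinitePlace K => -C₂)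
      (fun v : FinitePlace K => if v ∈ badPl F then -C₂ else 0) =
      -(C₂ * (Module.finrank ℚ K + (badPl F).ncard)) := by
    unfold Sg
    rw [← Finset.sum_mul, sum_mult]
    have : ∑ᶠ v : FinitePlace K, (if v ∈ badPl F then -C₂ else 0) = (badPl F).ncard * (-C₂) := by
      rw [finsum_eq_sum_of_support_subset (s := hfin.toFinset)]
      · rw [Finset.sum_congr rfl (g := fun _ => -C₂)]
        · rw [Finset.sum_const, nsmul_eq_mul, Set.ncard_eq_toFinset_card _ hfin]
        · intro v hv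
          rw [if_pos (hfin.mem_toFinset.mp hv)]
      · intro v hv
        rw [Set.Finite.coe_toFinset]
        by_contra hnot
        exact hv (if_neg hnot)
    rw [this]
    ring
  have e3 : Sg (fun v : InfinitePlace K => Mai_S F X Y Z v.val)
      (fun v : FinitePlace K => Mai_S F X Y Z v.val) =
      Module.finrank ℚ K * (2 * (canHeight F X + canHeight F Y + canHeight F Z)) := by
    change SA (fun v => (gg v F X Y + gg v F Y Z) + gg v F Z X) = _
    rw [SA_add (FS_add (FS_gg hd hF hXY) (FS_gg hd hF hYZ)) (FS_gg hd hF hZX),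
      SA_add (FS_gg hd hF hXY) (FS_gg hd hF hYZ), SA_gg hd hF hXY, SA_gg hd hF hYZ,
      SA_gg hd hF hZX]
    ring
  rw [e1, e2, e3] at key
  have : C₂ * (Module.finrank ℚ K + (badPl F).ncard) ≤ C₂ * (Module.finrank ℚ K + s) :=
    mul_le_mul_of_nonneg_left (by linarith) hC₂
  linarith

theorem main_ineq (K : Type) [Field K] [NumberField K] (d : ℕ) (hd : 2 ≤ d) (s : ℕ) :
    ∃ (C : ℝ) (N0 : ℕ), 0 ≤ C ∧ ∀ F : Coef K d, res F ≠ 0 → (badPl F).encard ≤ s →
      ∀ P : Fin 2 → K, P ≠ 0 → ¬ Preper F P →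
        ∃ A : Matrix (Fin 2) (Fin 2) K, A.det ≠ 0 ∧
          (∃ i < N0, ∃ c : K, c ≠ 0 ∧ A.mulVec ![0, 1] = c • (ev F)^[i] P) ∧
          absHeight (conj F A) ≤ C * (canHeight F P + 1) := by
  classical
  obtain ⟨m, c, C₁, hm, hc, hC₁, hplc⟩ := plc d hd
  have hd1 : 1 ≤ d := by omega
  have hdR : (2 : ℝ) ≤ d := by exact_mod_cast hd
  have hD : (0 : ℝ) < (d : ℝ) ^ 2 + d := by positivity
  set c' : ℝ := min c (1 / ((d : ℝ) ^ 2 + d)) with hc'def
  have hc' : 0 < c' := lt_min hc (by positivity)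
  have hc'1 : c' ≤ c := min_le_left _ _
  have hc'2 : c' ≤ 1 / ((d : ℝ) ^ 2 + d) := min_le_right _ _
  have hLb : 0 ≤ Real.log (bigM d) := Real.log_natCast_nonneg _
  set C₂ : ℝ := C₁ + c * Real.log (bigM d) with hC₂def
  have hC₂ : 0 ≤ C₂ := add_nonneg hC₁ (mul_nonneg hc.le hLb)
  set N0 : ℕ := 2 * m ^ (Fintype.card (InfinitePlace K) + s) + 1 with hN0
  refine ⟨(6 * (d : ℝ) ^ N0 + C₂ * (1 + s)) / (2 * d * c'), N0, by positivity, ?_⟩
  intro F hF hbad P hP hw
  have hfin : (badPl F).Finite := Set.finite_of_encard_le_coe hbad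
  have : Fintype (badPl F) := hfin.fintype
  -- colourings
  choose χi hχi using fun v : InfinitePlace K => hplc K v.val (Or.inl v.isInfinitePlace) F hF
  choose χf hχf using fun v : FinitePlace K => hplc K v.val (Or.inr v.isFinitePlace) F hF
  obtain ⟨i, j, l, hij, hjl, hlN, e1, e2⟩ := three_equal
    (T := (InfinitePlace K → Fin m) × (badPl F → Fin m)) (N := N0)
    (fun i => (fun v => χi v ((ev F)^[i] P), fun v => χf v.1 ((ev F)^[i] P)))
    (Mai_card hm hbad)
  set X := (ev F)^[i] P with hX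
  set Y := (ev F)^[j] P with hY
  set Z := (ev F)^[l] P with hZ
  have hXY : wd X Y ≠ 0 := wd_ne_zero_of_wandering hd hF hP hw (by omega)
  have hYZ : wd Y Z ≠ 0 := wd_ne_zero_of_wandering hd hF hP hw (by omega)
  have hZX : wd Z X ≠ 0 := wd_ne_zero_of_wandering hd hF hP hw (by omega)
  have hZY : wd Z Y ≠ 0 := wd_ne_zero_of_wandering hd hF hP hw (by omega)
  have hXZ : wd X Z ≠ 0 := wd_ne_zero_of_wandering hd hF hP hw (by omega)
  set α : K := wd Z Y / wd X Y with hα
  set β : K := wd X Z / wd X Y with hβ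
  have hα0 : α ≠ 0 := div_ne_zero hZY hXY
  have hβ0 : β ≠ 0 := div_ne_zero hXZ hXY
  have hcomb : α • X + β • Y = Z := Mai_comb hXY
  have hdet : (tri X Y α β).det ≠ 0 := by
    rw [tri_det]
    exact neg_ne_zero.mpr (mul_ne_zero (mul_ne_zero hα0 hβ0) hXY)
  have hF' : res (conj F (tri X Y α β)) ≠ 0 := by
    rw [res_conj F hdet]
    exact mul_ne_zero (pow_ne_zero _ hdet) hF
  refine ⟨tri X Y α β, hdet, ⟨i, by omega, α, hα0, ?_⟩, ?_⟩
  · rw [tri_mulVec, one_mul, zero_mul, zero_smul, add_zero]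
  -- local inequalities
  have habs : ∀ r S : ℝ, - Real.log (bigM d) ≤ r → c * r - C₁ ≤ S → c' * r - C₂ ≤ S := by
    intro r S h1 h2
    have h3 : 0 ≤ (c - c') * (r + Real.log (bigM d)) := mul_nonneg (by linarith) (by linarith)
    have h4 : 0 ≤ c' * Real.log (bigM d) := mul_nonneg hc'.le hLb
    rw [hC₂def]
    nlinarith
  have hinf : ∀ v : InfinitePlace K, c' * rr v.val (conj F (tri X Y α β)) - C₂ ≤
      Mai_S F X Y Z v.val := by
    intro v
    refine habs _ _ (rr_ge_all hd1 hF' v.val) ?_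
    have h1 : χi v X = χi v Y := congrFun (congrArg Prod.fst e1) v
    have h2 : χi v Y = χi v Z := congrFun (congrArg Prod.fst e2) v
    have := hχi v X Y α β hXY hα0 hβ0 h1 (by rw [hcomb]; exact h2)
    rw [hcomb] at this
    exact this
  have hbad' : ∀ v : FinitePlace K, v ∈ badPl F → c' * rr v.val (conj F (tri X Y α β)) - C₂ ≤
      Mai_S F X Y Z v.val := by
    intro v hv
    refine habs _ _ (rr_ge_all hd1 hF' v.val) ?_
    have h1 : χf v X = χf v Y := congrFun (congrArg Prod.snd e1) ⟨v, hv⟩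
    have h2 : χf v Y = χf v Z := congrFun (congrArg Prod.snd e2) ⟨v, hv⟩
    have := hχf v X Y α β hXY hα0 hβ0 h1 (by rw [hcomb]; exact h2)
    rw [hcomb] at this
    exact this
  have hgood : ∀ v : FinitePlace K, v ∉ badPl F → c' * rr v.val (conj F (tri X Y α β)) ≤
      Mai_S F X Y Z v.val := by
    intro v hv
    have hpg : PotGood v.val F := by
      by_contra hnot
      exact hv hnot
    have h1 := pg_tri hd v.val hF hpg hXY hα0 hβ0
    rw [hcomb] at h1
    have h2 := rr_nonneg_finite hd1 hF' v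
    have h3 : c' * rr v.val (conj F (tri X Y α β)) ≤
        1 / ((d : ℝ) ^ 2 + d) * rr v.val (conj F (tri X Y α β)) :=
      mul_le_mul_of_nonneg_right hc'2 h2
    refine h3.trans ?_
    rw [one_div, inv_mul_le_iff₀ hD]
    exact h1
  have hsum := Mai_sum hd s hF hF' hbad hXY hYZ hZX hC₂ hinf hbad' hgood
  have hH : 0 ≤ canHeight F P := canHeight_nonneg hd hF hP
  have hle : ∀ a : ℕ, a < N0 → canHeight F ((ev F)^[a] P) ≤ (d : ℝ) ^ N0 * canHeight F P := by
    intro a ha
    rw [canHeight_iter hd hF hP]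
    exact mul_le_mul_of_nonneg_right (pow_le_pow_right₀ (by linarith) ha.le) hH
  have hXle := hle i (by omega)
  have hYle := hle j (by omega)
  have hZle := hle l hlN
  have hn : (1 : ℝ) ≤ Module.finrank ℚ K := by
    exact_mod_cast Module.finrank_pos (R := ℚ) (M := K)
  unfold absHeight
  refine Mai_real hn hc' (by positivity) hC₂ (by positivity) hH (by positivity) (hsum.trans ?_)
  refine mul_le_mul_of_nonneg_left ?_ (by positivity)
  linarith

end Pool.Agent.LNG
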