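import Mathlib

/-!
# LNG, PgN (difficulty 1): pigeonhole for many points

`Finset.exists_lt_card_fiber_of_mul_lt_card_of_maps_to` (see `Pig.lean`): a fibre with more than `n` elements; a subset with exactly `n+1` elements, enumerated increasingly by `Finset.orderEmbOfFin`.
-/

namespace Pool.Agent.LNG

theorem many_equal {T : Type} [Fintype T] {n N : ℕ} (f : ℕ → T) (hN : n * Fintype.card T < N) :
    ∃ e : Fin (n + 1) → ℕ, StrictMono e ∧ (∀ i, e i < N) ∧ ∀ i j, f (e i) = f (e j) := by
  classical
  obtain ⟨y, -, hy⟩ := Finset.exists_lt_card_fiber_of_mul_lt_card_of_maps_to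
    (s := Finset.range N) (t := (Finset.univ : Finset T)) (f := f) (n := n)
    (fun a _ => Finset.mem_univ _) (by
      rw [Finset.card_univ, Finset.card_range, mul_comm]
      exact hN)
  obtain ⟨s, hs, hcard⟩ := Finset.exists_subset_card_eq (Nat.succ_le_of_lt hy)
  refine ⟨s.orderEmbOfFin hcard, (s.orderEmbOfFin hcard).strictMono, ?_, ?_⟩
  · intro i
    have := hs (s.orderEmbOfFin_mem hcard i)
    rw [Finset.mem_filter, Finset.mem_range] at this
    exact this.1
  · intro i j
    have h1 := hs (s.orderEmbOfFin_mem hcard i)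
    have h2 := hs (s.orderEmbOfFin_mem hcard j)
    rw [Finset.mem_filter] at h1 h2
    rw [h1.2, h2.2]

end Pool.Agent.LNG
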