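import Pool.Agent.LNG.Est0

/-!
# LNG, MpC (difficulty 2): property (M) for the complex numbers

Mathlib: `Mathlib/Analysis/Polynomial/MahlerMeasure.lean` (`Polynomial.mahlerMeasure`, multiplicativity `mahlerMeasure_mul`/`prod_mahlerMeasure...`, the bound of the coefficients by the Mahler measure
`norm_coeff_le_choose_mul_mahlerMeasure` or similar, so `‖P‖ ≤ 2^deg P · M(P)`), and `M(Q) ≤ sup_{|x|=1} |Q(x)|` (definition as `exp` of the circle average of `log ‖Q‖`, see `mahlerMeasure_le_...`).
Let `Q = ∏ P_i ≠ 0`. The maximum of `‖Q(x)‖` on the compact unit circle is attained at some `x`, and it is `≥ M(Q) = ∏ M(P_i) ≥ ∏ 2^{-deg P_i} ‖P_i‖`.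
-/

namespace Pool.Agent.LNG

open Polynomial

/-- The usual absolute value of `ℂ`. -/
noncomputable def absC : AbsoluteValue ℂ ℝ := NormedField.toAbsoluteValue ℂ

theorem absC_apply (x : ℂ) : absC x = ‖x‖ := rfl

/-- If `‖Q‖ ≤ 1` on the unit circle then `M(Q) ≤ 1`. -/
theorem MpC_le_one {Q : ℂ[X]} (hQ : Q ≠ 0) (h : ∀ x : ℂ, ‖x‖ = 1 → ‖Q.eval x‖ ≤ 1) :
    Q.mahlerMeasure ≤ 1 := by
  have hint : CircleIntegrable (fun x => Real.log ‖Q.eval x‖) 0 1 := by
    rw [circleIntegrable_def fun z ↦ Real.log ‖Q.eval z‖]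
    exact Q.intervalIntegrable_mahlerMeasure
  have h1 : Q.logMahlerMeasure ≤ 0 := by
    rw [logMahlerMeasure_def]
    apply Real.circleAverage_mono_on_of_le_circle hint
    intro x hx
    rw [abs_one, mem_sphere_zero_iff_norm] at hx
    exact Real.log_nonpos (norm_nonneg _) (h x hx)
  rw [mahlerMeasure, if_pos hQ]
  exact Real.exp_le_one_iff.2 h1

theorem MpC_prod {s : ℕ} (P : Fin s → ℂ[X]) :
    (∏ i, P i).mahlerMeasure = ∏ i, (P i).mahlerMeasure := by
  classical
  induction (Finset.univ : Finset (Fin s)) using Finset.induction_on with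
  | empty => simp
  | insert a t ha ih => rw [Finset.prod_insert ha, Finset.prod_insert ha, mahlerMeasure_mul, ih]

theorem mprop_complex : MProp absC := by
  intro s P hP
  have hQ : (∏ i, P i) ≠ 0 := Finset.prod_ne_zero_iff.2 fun i _ => hP i
  set Q : ℂ[X] := ∏ i, P i with hQdef
  have hcont : ContinuousOn (fun x : ℂ => ‖Q.eval x‖) (Metric.sphere (0 : ℂ) 1) :=
    Q.continuous.norm.continuousOn
  obtain ⟨x, hx, hmax⟩ := (isCompact_sphere (0 : ℂ) 1).exists_isMaxOn
    (NormedSpace.sphere_nonempty.2 zero_le_one) hcont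
  have hx1 : ‖x‖ = 1 := by simpa using hx
  refine ⟨x, hx1, ?_⟩
  have hm : ∀ y : ℂ, ‖y‖ = 1 → ‖Q.eval y‖ ≤ ‖Q.eval x‖ := by
    intro y hy
    exact hmax (by simpa using hy)
  have hmpos : 0 < ‖Q.eval x‖ := by
    rw [norm_pos_iff]
    intro h0
    have h1 : ∀ y ∈ Metric.sphere (0 : ℂ) 1, Q.IsRoot y := by
      intro y hy
      have h2 := hm y (by simpa using hy)
      rw [h0, norm_zero] at h2
      exact norm_le_zero_iff.1 h2
    have h3 : (Metric.sphere (0 : ℂ) 1) ⊆ (Q.roots.toFinset : Set ℂ) := by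
      intro y hy
      simpa [hQ] using h1 y hy
    have h4 : (Metric.sphere (0 : ℂ) 1).Finite := Q.roots.toFinset.finite_toSet.subset h3
    have h5 : (Metric.sphere (0 : ℂ) 1).Infinite := by
      have h6 : Function.Injective (fun n : ℕ =>
          ((Complex.exp ((1 / ((n : ℝ) + 1) : ℝ) * Complex.I)) : ℂ)) := by
        intro a b hab
        simp only at hab
        have h7 := congrArg Complex.arg hab
        have hr : ∀ n : ℕ, Complex.arg (Complex.exp ((1 / ((n : ℝ) + 1) : ℝ) * Complex.I)) =
            1 / ((n : ℝ) + 1) := by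
          intro n
          rw [Complex.arg_exp_mul_I, toIocMod_eq_self]
          have hn : (0 : ℝ) < 1 / ((n : ℝ) + 1) := by positivity
          have hn2 : 1 / ((n : ℝ) + 1) ≤ 1 := by
            rw [div_le_one (by positivity)]
            linarith [Nat.cast_nonneg (α := ℝ) n]
          have hpi := Real.pi_gt_three
          constructor
          · linarith
          · linarith
        rw [hr, hr] at h7
        have h8 : ((a : ℝ) + 1) = (b : ℝ) + 1 := by
          have := congrArg (fun t : ℝ => 1 / t) h7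
          simpa using this
        have h9 : (a : ℝ) = b := by linarith
        exact_mod_cast h9
      refine Set.infinite_of_injective_forall_mem h6 ?_
      intro n
      rw [mem_sphere_zero_iff_norm, Complex.norm_exp_ofReal_mul_I]
    exact h5 h4
  set m : ℝ := ‖Q.eval x‖ with hmdef
  have hc : (C (((1 / m : ℝ)) : ℂ) : ℂ[X]) ≠ 0 := by
    rw [Ne, C_eq_zero, Complex.ofReal_eq_zero]
    positivity
  have hle : Q.mahlerMeasure ≤ m := by
    have h1 := MpC_le_one (Q := C (((1 / m : ℝ)) : ℂ) * Q) (mul_ne_zero hc hQ) (by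
      intro y hy
      rw [eval_mul, eval_C, norm_mul, Complex.norm_real, Real.norm_of_nonneg (by positivity),
        one_div, inv_mul_le_iff₀ hmpos, mul_one]
      exact hm y hy)
    rw [mahlerMeasure_mul, mahlerMeasure_const, Complex.norm_real,
      Real.norm_of_nonneg (by positivity), one_div, inv_mul_le_iff₀ hmpos, mul_one] at h1
    exact h1
  have hprod : ∏ i, absC ((P i).eval x) = m := by
    rw [hmdef, hQdef, eval_prod, norm_prod]
    rfl
  rw [hprod]
  refine le_trans ?_ hle
  rw [hQdef, MpC_prod]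
  apply Finset.prod_le_prod
  · intro i _
    exact mul_nonneg (by positivity) (pn_nonneg _ _)
  · intro i _
    have h1 : pn absC (P i) ≤ 2 ^ (P i).natDegree * (P i).mahlerMeasure := by
      apply ciSup_le
      intro j
      rw [absC_apply]
      refine (norm_coeff_le_choose_mul_mahlerMeasure _ _).trans ?_
      apply mul_le_mul_of_nonneg_right _ (mahlerMeasure_nonneg _)
      exact_mod_cast Nat.choose_le_two_pow _ _
    calc (1 / 2 : ℝ) ^ (P i).natDegree * pn absC (P i)
        ≤ (1 / 2 : ℝ) ^ (P i).natDegree * (2 ^ (P i).natDegree * (P i).mahlerMeasure) :=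
          mul_le_mul_of_nonneg_left h1 (by positivity)
      _ = (P i).mahlerMeasure := by
          rw [← mul_assoc, ← mul_pow]
          norm_num

end Pool.Agent.LNG
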