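import Pool.Agent.LNG.Est0

/-!
# LNG, MpN (difficulty 2): property (M) for nonarchimedean algebraically closed fields of characteristic 0

Let `Q = ∏ P_i ≠ 0`, `R` the set of roots of all `P_i` (`≤ Σ natDegree` many). Choose a prime `ℓ > Σ natDegree + 1` with `v ℓ = 1`: for two different primes `ℓ, ℓ'` not both `v ℓ < 1`, `v ℓ' < 1`
(Bezout: `aℓ + bℓ' = 1`; `v` of integers is `≤ 1` for nonarchimedean `v`, `IsNonarchimedean.apply_intCast_le_one`). The polynomial `X^ℓ - 1` has `ℓ` distinct roots `ζ` (characteristic 0, algebraically closed; or take a primitive `ℓ`-th root of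
unity: `IsAlgClosed`, `HasEnoughRootsOfUnity`/`IsPrimitiveRoot`), `v ζ = 1`, and `∏_{ζ ≠ 1} (1 - ζ) = ℓ` (`IsPrimitiveRoot` / `Polynomial.cyclotomic` at 1: `eval_one_cyclotomic_prime`) with all
`v (1 - ζ) ≤ 1` gives `v (1-ζ) = 1`; so `v (ζ - ζ') = 1` for `ζ ≠ ζ'`.
Each root `ρ ∈ R` satisfies `v (ζ - ρ) < 1` for at most one `ζ` (ultrametric). So some `ζ` has `v (ζ - ρ) ≥ 1` for all `ρ ∈ R`; then `v (ζ - ρ) = max 1 (v ρ)`. For every `P_i = a ∏ (x - ρ)`:
`v (P_i(ζ)) = v a ∏ max(1, v ρ) ≥ pn v P_i` (coefficients = `a` times elementary symmetric functions; by induction on the number of factors: the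
Gauss norm of a product is `≤` the product of the Gauss norms; or by induction over the splitting). `(1/2)^deg ≤ 1`.
-/

namespace Pool.Agent.LNG

open Polynomial

variable {k : Type*} [Field k] {d : ℕ}

theorem MpN_sub_le {v : AbsoluteValue k ℝ} (hv : IsNonarchimedean v) (x y : k) :
    v (x - y) ≤ max (v x) (v y) := by
  rw [sub_eq_add_neg]
  refine (hv x (-y)).trans ?_
  rw [v.map_neg]

theorem MpN_prime {v : AbsoluteValue k ℝ} (hv : IsNonarchimedean v) (N : ℕ) :
    ∃ l : ℕ, l.Prime ∧ N < l ∧ v (l : k) = 1 := by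
  obtain ⟨p, hp1, hp⟩ := Nat.exists_infinite_primes (N + 1)
  obtain ⟨q, hq1, hq⟩ := Nat.exists_infinite_primes (p + 1)
  have hle : ∀ n : ℕ, v (n : k) ≤ 1 := fun n => IsNonarchimedean.apply_natCast_le_one hv
  have hleZ : ∀ n : ℤ, v (n : k) ≤ 1 := by
    intro n
    obtain ⟨m, rfl | rfl⟩ := Int.eq_nat_or_neg n
    · simpa using hle m
    · rw [Int.cast_neg, v.map_neg]
      simpa using hle m
  by_cases h1 : v (p : k) = 1
  · exact ⟨p, hp, by omega, h1⟩
  by_cases h2 : v (q : k) = 1
  · exact ⟨q, hq, by omega, h2⟩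
  exfalso
  have h1' : v (p : k) < 1 := lt_of_le_of_ne (hle p) h1
  have h2' : v (q : k) < 1 := lt_of_le_of_ne (hle q) h2
  have hco : IsCoprime (p : ℤ) (q : ℤ) := by
    rw [Nat.isCoprime_iff_coprime]
    exact (Nat.coprime_primes hp hq).2 (by omega)
  obtain ⟨a, b, hab⟩ := hco
  have h3 : ((a : k) * (p : k) + (b : k) * (q : k)) = 1 := by
    have := congrArg (Int.cast : ℤ → k) hab
    push_cast at this
    exact this
  have h4 := hv ((a : k) * (p : k)) ((b : k) * (q : k))
  rw [h3, map_one, map_mul, map_mul] at h4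
  have h5 : v (a : k) * v (p : k) < 1 := by
    have := mul_le_mul_of_nonneg_right (hleZ a) (v.nonneg (p : k))
    linarith
  have h6 : v (b : k) * v (q : k) < 1 := by
    have := mul_le_mul_of_nonneg_right (hleZ b) (v.nonneg (q : k))
    linarith
  have h7 := max_lt h5 h6
  linarith

/-- Roots of unity at distance one. -/
theorem MpN_roots [IsAlgClosed k] [CharZero k] {v : AbsoluteValue k ℝ}
    (hv : IsNonarchimedean v) (N : ℕ) :
    ∃ (l : ℕ) (z : ℕ → k), N < l ∧ (∀ a, v (z a) = 1) ∧
      ∀ a b, a < l → b < l → a ≠ b → v (z a - z b) = 1 := by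
  classical
  obtain ⟨l, hl, hN, hvl⟩ := MpN_prime hv N
  haveI : Fact l.Prime := ⟨hl⟩
  haveI : NeZero l := ⟨hl.ne_zero⟩
  haveI : NeZero (l : k) := ⟨by exact_mod_cast hl.ne_zero⟩
  have hdeg : (cyclotomic l k).degree ≠ 0 := by
    rw [degree_cyclotomic, Ne, Nat.cast_eq_zero, Nat.totient_eq_zero]
    exact hl.ne_zero
  obtain ⟨ζ, hζ⟩ := IsAlgClosed.exists_root (cyclotomic l k) hdeg
  have hprim : IsPrimitiveRoot ζ l := isRoot_cyclotomic_iff.1 hζ
  have hroot1 : ∀ μ : k, μ ^ l = 1 → v μ = 1 := by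
    intro μ hμ
    have h1 := congrArg v hμ
    rw [map_pow, map_one] at h1
    exact (pow_eq_one_iff_of_nonneg (v.nonneg μ) hl.ne_zero).1 h1
  have hprimv : ∀ μ ∈ primitiveRoots l k, v (1 - μ) = 1 := by
    have hle : ∀ μ ∈ primitiveRoots l k, v (1 - μ) ≤ 1 := by
      intro μ hμ
      have h1 := MpN_sub_le hv 1 μ
      rw [map_one, hroot1 μ ((mem_primitiveRoots hl.pos).1 hμ).pow_eq_one, max_self] at h1
      exact h1
    have hprod : ∏ μ ∈ primitiveRoots l k, v (1 - μ) = 1 := by
      have h1 : eval 1 (cyclotomic l k) = (l : k) := eval_one_cyclotomic_prime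
      rw [cyclotomic_eq_prod_X_sub_primitiveRoots hprim, eval_prod] at h1
      have h2 := congrArg v h1
      rw [map_prod, hvl] at h2
      simpa using h2
    intro μ hμ
    by_contra hne
    have hlt : v (1 - μ) < 1 := lt_of_le_of_ne (hle μ hμ) hne
    have h3 : ∏ μ ∈ primitiveRoots l k, v (1 - μ) < 1 := by
      rw [← Finset.mul_prod_erase _ _ hμ]
      have h4 : ∏ x ∈ (primitiveRoots l k).erase μ, v (1 - x) ≤ 1 :=
        Finset.prod_le_one (fun _ _ => v.nonneg _) fun x hx => hle x (Finset.mem_of_mem_erase hx)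
      calc v (1 - μ) * ∏ x ∈ (primitiveRoots l k).erase μ, v (1 - x)
          ≤ v (1 - μ) * 1 := mul_le_mul_of_nonneg_left h4 (v.nonneg _)
        _ < 1 := by rw [mul_one]; exact hlt
    linarith
  have key : ∀ a b, a < b → b < l → v (ζ ^ a - ζ ^ b) = 1 := by
    intro a b hab hbl
    have h1 : ζ ^ a - ζ ^ b = ζ ^ a * (1 - ζ ^ (b - a)) := by
      rw [mul_sub, mul_one, ← pow_add, Nat.add_sub_cancel' hab.le]
    have h2 : IsPrimitiveRoot (ζ ^ (b - a)) l := by
      apply hprim.pow_of_coprime
      apply Nat.Coprime.symm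
      rw [Nat.Prime.coprime_iff_not_dvd hl]
      intro h3
      have := Nat.le_of_dvd (by omega) h3
      omega
    rw [h1, map_mul, hroot1 (ζ ^ a) (by rw [← pow_mul, mul_comm, pow_mul, hprim.pow_eq_one, one_pow]),
      one_mul]
    exact hprimv _ ((mem_primitiveRoots hl.pos).2 h2)
  refine ⟨l, fun a => ζ ^ a, hN, ?_, ?_⟩
  · intro a
    exact hroot1 _ (by rw [← pow_mul, mul_comm, pow_mul, hprim.pow_eq_one, one_pow])
  · intro a b ha hb hab
    rcases lt_or_gt_of_ne hab with h | h
    · exact key a b h hb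
    · have h1 := key b a h ha
      show v (ζ ^ a - ζ ^ b) = 1
      rw [← v.map_neg, neg_sub]
      exact h1

theorem MpN_coeff {v : AbsoluteValue k ℝ} (hv : IsNonarchimedean v) (s : Multiset k) :
    ∀ n : ℕ, v (((s.map (fun ρ => X - C ρ)).prod).coeff n) ≤ (s.map (fun ρ => max 1 (v ρ))).prod := by
  induction s using Multiset.induction_on with
  | empty =>
    intro n
    simp only [Multiset.map_zero, Multiset.prod_zero, coeff_one]
    split_ifs <;> simp
  | cons ρ s ih =>
    intro n
    simp only [Multiset.map_cons, Multiset.prod_cons]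
    set Q := (s.map (fun ρ => X - C ρ)).prod with hQ
    set B := (s.map (fun ρ => max 1 (v ρ))).prod with hB
    have hB0 : 0 ≤ B := (v.nonneg _).trans (ih 0)
    rw [sub_mul, coeff_sub, coeff_C_mul]
    have h1 : v ((X * Q).coeff n) ≤ B := by
      cases n with
      | zero => rw [mul_coeff_zero, coeff_X_zero, zero_mul, map_zero]; exact hB0
      | succ n => rw [coeff_X_mul]; exact ih n
    refine (MpN_sub_le hv _ _).trans (max_le ?_ ?_)
    · calc v ((X * Q).coeff n) ≤ 1 * B := by rw [one_mul]; exact h1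
        _ ≤ max 1 (v ρ) * B := mul_le_mul_of_nonneg_right (le_max_left _ _) hB0
    · rw [map_mul]
      calc v ρ * v (Q.coeff n) ≤ v ρ * B := mul_le_mul_of_nonneg_left (ih n) (v.nonneg _)
        _ ≤ max 1 (v ρ) * B := mul_le_mul_of_nonneg_right (le_max_right _ _) hB0

theorem MpN_eval {v : AbsoluteValue k ℝ} (s : Multiset k) (x : k)
    (h : ∀ ρ ∈ s, max 1 (v ρ) ≤ v (x - ρ)) :
    (s.map (fun ρ => max 1 (v ρ))).prod ≤ v (s.map (fun ρ => x - ρ)).prod := by
  induction s using Multiset.induction_on with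
  | empty => simp
  | cons ρ s ih =>
    simp only [Multiset.map_cons, Multiset.prod_cons, map_mul]
    have h1 := ih fun ρ' hρ' => h ρ' (Multiset.mem_cons_of_mem hρ')
    have h2 := h ρ (Multiset.mem_cons_self _ _)
    have h3 : (0 : ℝ) ≤ (s.map (fun ρ => max 1 (v ρ))).prod := by
      apply Multiset.prod_nonneg
      intro a ha
      obtain ⟨b, -, rfl⟩ := Multiset.mem_map.1 ha
      exact le_trans zero_le_one (le_max_left _ _)
    exact mul_le_mul h2 h1 h3 (v.nonneg _)

theorem mprop_nonarch [IsAlgClosed k] [CharZero k] (v : AbsoluteValue k ℝ)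
    (hv : IsNonarchimedean v) : MProp v := by
  classical
  intro s P hP
  set R : Finset k := Finset.univ.biUnion (fun i => (P i).roots.toFinset) with hR
  obtain ⟨l, z, hl, hz1, hz2⟩ := MpN_roots hv R.card
  have hex : ∃ a, a < l ∧ ∀ ρ ∈ R, 1 ≤ v (z a - ρ) := by
    by_contra hcon
    push Not at hcon
    choose! f hf1 hf2 using hcon
    have hcard : (Finset.range l).card ≤ R.card := by
      apply Finset.card_le_card_of_injOn f
      · intro a ha
        exact hf1 a (Finset.mem_range.1 ha)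
      · intro a ha b hb hab
        by_contra hne
        have ha' : a < l := by simpa using ha
        have hb' : b < l := by simpa using hb
        have h1 := hz2 a b ha' hb' hne
        have h2 : z a - z b = (z a - f a) - (z b - f b) := by
          rw [hab]; ring
        have h3 := MpN_sub_le hv (z a - f a) (z b - f b)
        rw [← h2, h1] at h3
        have h4 := max_lt (hf2 a ha') (hf2 b hb')
        linarith
    rw [Finset.card_range] at hcard
    omega
  obtain ⟨a, -, ha⟩ := hex
  refine ⟨z a, hz1 a, ?_⟩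
  apply Finset.prod_le_prod
  · intro i _
    exact mul_nonneg (by positivity) (pn_nonneg _ _)
  · intro i _
    have hsp : (P i).Splits := IsAlgClosed.splits _
    have h1 : v ((P i).eval (z a)) =
        v (P i).leadingCoeff * v (((P i).roots.map (fun ρ => z a - ρ)).prod) := by
      rw [hsp.eval_eq_prod_roots, map_mul]
    have h2 : ∀ ρ ∈ (P i).roots, max 1 (v ρ) ≤ v (z a - ρ) := by
      intro ρ hρ
      have hρR : ρ ∈ R := by
        rw [hR, Finset.mem_biUnion]
        exact ⟨i, Finset.mem_univ _, Multiset.mem_toFinset.2 hρ⟩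
      have h3 := ha ρ hρR
      apply max_le h3
      have h4 := MpN_sub_le hv (z a) (z a - ρ)
      rw [sub_sub_cancel, hz1] at h4
      exact h4.trans (max_le h3 le_rfl)
    have h3 := MpN_eval (v := v) (P i).roots (z a) h2
    have h4 : pn v (P i) ≤ v (P i).leadingCoeff * ((P i).roots.map (fun ρ => max 1 (v ρ))).prod := by
      apply ciSup_le
      intro j
      have h5 : (P i).coeff (j : ℕ) = (P i).leadingCoeff *
          (((P i).roots.map (fun ρ => X - C ρ)).prod).coeff (j : ℕ) := by
        have hP' := congrArg (fun Q : k[X] => Q.coeff (j : ℕ)) hsp.eq_prod_roots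
        simp only [coeff_C_mul] at hP'
        exact hP'
      rw [h5, map_mul]
      exact mul_le_mul_of_nonneg_left (MpN_coeff hv _ _) (v.nonneg _)
    have h5 : (1 / 2 : ℝ) ^ (P i).natDegree ≤ 1 := pow_le_one₀ (by norm_num) (by norm_num)
    calc (1 / 2 : ℝ) ^ (P i).natDegree * pn v (P i) ≤ 1 * pn v (P i) :=
          mul_le_mul_of_nonneg_right h5 (pn_nonneg _ _)
      _ = pn v (P i) := one_mul _
      _ ≤ v (P i).leadingCoeff * ((P i).roots.map (fun ρ => max 1 (v ρ))).prod := h4
      _ ≤ v (P i).leadingCoeff * v (((P i).roots.map (fun ρ => z a - ρ)).prod) :=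
          mul_le_mul_of_nonneg_left h3 (v.nonneg _)
      _ = v ((P i).eval (z a)) := h1.symm

end Pool.Agent.LNG
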