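import Pool.Agent.LNG.Defs

/-!
# MP_0b6722_nt: canonical heights, potentially good reduction, minimal resultant, moduli height

`K` is a number field.  A rational map `φ ∈ K(x)` of degree `d` is given by its coefficient vector
`F = (a_0, ..., a_d, b_0, ..., b_d)` with `res F ≠ 0`; the points of `P^1(K)` are given by nonzero
vectors `P : Fin 2 → K`.
-/

namespace Pool.Agent.LNG

open NumberField IsDedekindDomain

variable {K : Type} [Field K] [NumberField K] {d : ℕ}

/-- The absolute logarithmic Weil height of the point of projective space with homogeneous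
coordinates `x` (Mathlib's `Height.logHeight` is the height relative to `K`). -/
noncomputable def absHeight {ι : Type} [Finite ι] (x : ι → K) : ℝ :=
  Height.logHeight x / Module.finrank ℚ K

/-- The canonical height `ĥ_φ(P) = lim d^{-n} h(φ^n(P))`. -/
noncomputable def canHeight (F : Coef K d) (P : Fin 2 → K) : ℝ :=
  Filter.limUnder Filter.atTop (fun n : ℕ => absHeight ((ev F)^[n] P) / (d : ℝ) ^ n)

/-- `P` is preperiodic: `φ^i(P) = φ^j(P)` in `P^1(K)` for some `i > j`. -/
def Preper (F : Coef K d) (P : Fin 2 → K) : Prop :=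
  ∃ i j : ℕ, j < i ∧ ∃ c : K, c ≠ 0 ∧ (ev F)^[i] P = c • (ev F)^[j] P

/-- `φ` has potentially good reduction at the (nonarchimedean) absolute value `v` of `K`: over some
extension `(L, w)` of `(K, v)` there is a conjugate of `φ` with a homogeneous lift that has
`w`-integral coefficients and whose resultant is a `w`-unit. -/
def PotGood (v : AbsoluteValue K ℝ) (F : Coef K d) : Prop :=
  ∃ (L : Type) (_ : Field L) (ι : K →+* L) (w : AbsoluteValue L ℝ),
    IsNonarchimedean w ∧ (∀ x, w (ι x) = v x) ∧
    ∃ (M : Matrix (Fin 2) (Fin 2) L) (a : L), M.det ≠ 0 ∧ a ≠ 0 ∧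
      (∀ p, w ((a • conj (mapC ι F) M) p) ≤ 1) ∧ w (res (a • conj (mapC ι F) M)) = 1

/-- The finite places of `K` at which `φ` does not have potentially good reduction. -/
def badPl (F : Coef K d) : Set (FinitePlace K) := {v | ¬ PotGood v.val F}

/-- The exponent `ε_p(φ)`: the minimum of `v_p(Res)` over all `p`-primitive homogeneous lifts of
conjugates of `φ` by elements of `GL_2(K)`. -/
noncomputable def eps (p : HeightOneSpectrum (𝓞 K)) (F : Coef K d) : ℕ :=
  sInf {n : ℕ | ∃ (A : Matrix (Fin 2) (Fin 2) K) (c : K), A.det ≠ 0 ∧ c ≠ 0 ∧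
    (∀ q, p.valuation K ((c • conj F A) q) ≤ 1) ∧ (∃ q, p.valuation K ((c • conj F A) q) = 1) ∧
    p.valuation K (res (c • conj F A)) = WithZero.exp (-(n : ℤ))}

/-- The minimal resultant ideal `R_φ = ∏ p^{ε_p(φ)}`. -/
noncomputable def minRes (F : Coef K d) : Ideal (𝓞 K) :=
  ∏ᶠ p : HeightOneSpectrum (𝓞 K), p.asIdeal ^ eps p F

/-- Homogeneous coordinates for a map from `M_d` to a projective space: forms `g_0, ..., g_n` of one
degree `e` in the coefficients `a_i, b_i`, without common zero on `Rat_d(K)`, such that the point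
`[g_0(φ) : ... : g_n(φ)]` depends only on the conjugacy class of `φ`. -/
structure ModuliCoords (K : Type) [Field K] (d : ℕ) where
  /-- dimension of the projective space -/
  n : ℕ
  /-- degree of the forms -/
  e : ℕ
  /-- the forms -/
  g : Fin (n + 1) → MvPolynomial (Fin 2 × Fin (d + 1)) K
  hom : ∀ i, (g i).IsHomogeneous e
  ne_zero : ∀ F : Coef K d, res F ≠ 0 → ∃ i, MvPolynomial.eval F (g i) ≠ 0
  inv : ∀ F : Coef K d, res F ≠ 0 → ∀ A : Matrix (Fin 2) (Fin 2) K, A.det ≠ 0 →
    ∃ c : K, c ≠ 0 ∧ ∀ i, MvPolynomial.eval (conj F A) (g i) = c * MvPolynomial.eval F (g i)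

/-- The moduli height `h_{M_d}(⟨φ⟩)`. -/
noncomputable def modHeight (M : ModuliCoords K d) (F : Coef K d) : ℝ :=
  absHeight (fun i => MvPolynomial.eval F (M.g i))

end Pool.Agent.LNG
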