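import Pool.Agent.LNG.Prob
import Pool.Agent.LNG.Est0

/-!
# LNG, Sgm (difficulty 1-2): sums over all places of a number field

`Sg f g = Σ_{v infinite} mult(v) f(v) + Σᶠ_{v finite} g(v)`.
`Sg_add`, `Sg_mul`, `Sg_mono`: `finsum_add_distrib`, `mul_finsum`/`smul_finsum`, `finsum_le_finsum` (or rewrite the finsums as sums over a common finite set, `finsum_eq_sum_of_support_subset`).
`sum_mult`: `InfinitePlace.sum_mult_eq`. `nonarch_of_finite`: `FinitePlace.add_le`.
-/

namespace Pool.Agent.LNG

open Polynomial NumberField IsDedekindDomain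

variable {K : Type} [Field K] [NumberField K] {d : ℕ}

/-- Sum over all places with multiplicities. -/
noncomputable def Sg (f : InfinitePlace K → ℝ) (g : FinitePlace K → ℝ) : ℝ :=
  ∑ v : InfinitePlace K, (v.mult : ℝ) * f v + ∑ᶠ v : FinitePlace K, g v

/-- The same function at all places. -/
noncomputable def SA (f : AbsoluteValue K ℝ → ℝ) : ℝ := Sg (fun v => f v.val) (fun v => f v.val)

/-- Finite support on the finite places. -/
def FS (f : AbsoluteValue K ℝ → ℝ) : Prop :=
  (Function.support (fun v : FinitePlace K => f v.val)).Finite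

theorem FS_add {f f' : AbsoluteValue K ℝ → ℝ} (h : FS f) (h' : FS f') : FS (fun v => f v + f' v) :=
  (h.union h').subset (Function.support_add _ _)

theorem FS_mul (c : ℝ) {f : AbsoluteValue K ℝ → ℝ} (h : FS f) : FS (fun v => c * f v) := by
  refine h.subset ?_
  intro v hv
  rw [Function.mem_support] at hv ⊢
  exact right_ne_zero_of_mul hv

theorem Sg_add {f f' : InfinitePlace K → ℝ} {g g' : FinitePlace K → ℝ}
    (hg : (Function.support g).Finite) (hg' : (Function.support g').Finite) :
    Sg (fun v => f v + f' v) (fun v => g v + g' v) = Sg f g + Sg f' g' := by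
  unfold Sg
  rw [finsum_add_distrib hg hg']
  simp only [mul_add, Finset.sum_add_distrib]
  ring

theorem Sg_mul (c : ℝ) (f : InfinitePlace K → ℝ) (g : FinitePlace K → ℝ) :
    Sg (fun v => c * f v) (fun v => c * g v) = c * Sg f g := by
  unfold Sg
  rw [mul_add, Finset.mul_sum]
  congr 1
  · exact Finset.sum_congr rfl (fun v _ => by ring)
  · have := smul_finsum c g
    simp only [smul_eq_mul] at this
    exact this.symm

theorem SA_add {f f' : AbsoluteValue K ℝ → ℝ} (h : FS f) (h' : FS f') :
    SA (fun v => f v + f' v) = SA f + SA f' := Sg_add h h'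

theorem SA_mul (c : ℝ) (f : AbsoluteValue K ℝ → ℝ) : SA (fun v => c * f v) = c * SA f :=
  Sg_mul c _ _

theorem Sg_mono {f f' : InfinitePlace K → ℝ} {g g' : FinitePlace K → ℝ}
    (hg : (Function.support g).Finite) (hg' : (Function.support g').Finite)
    (hf : ∀ v, f v ≤ f' v) (hgg : ∀ v, g v ≤ g' v) : Sg f g ≤ Sg f' g' := by
  classical
  unfold Sg
  apply add_le_add
  · exact Finset.sum_le_sum (fun v _ => mul_le_mul_of_nonneg_left (hf v) (Nat.cast_nonneg _))
  · have h1 : Function.support g ⊆ ((hg.union hg').toFinset : Set (FinitePlace K)) := by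
      rw [Set.Finite.coe_toFinset]; exact Set.subset_union_left
    have h2 : Function.support g' ⊆ ((hg.union hg').toFinset : Set (FinitePlace K)) := by
      rw [Set.Finite.coe_toFinset]; exact Set.subset_union_right
    rw [finsum_eq_sum_of_support_subset _ h1, finsum_eq_sum_of_support_subset _ h2]
    exact Finset.sum_le_sum (fun v _ => hgg v)

theorem sum_mult : ∑ v : InfinitePlace K, (v.mult : ℝ) = Module.finrank ℚ K := by
  exact_mod_cast InfinitePlace.sum_mult_eq (K := K)

theorem nonarch_of_finite (v : FinitePlace K) : IsNonarchimedean v.val := by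
  intro x y
  exact FinitePlace.add_le v x y

end Pool.Agent.LNG
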