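import Pool.Agent.LNG.ExF
import Pool.Agent.LNG.MpN
import Pool.Agent.LNG.MpC
import Pool.Agent.LNG.Prob
import Pool.Agent.LNG.Cla
import Pool.Agent.LNG.GG
import Pool.Agent.LNG.Sgm

/-!
# LNG, Plc (difficulty 2): the class lemma at the places of a number field

From `class_lemma` with the same constants. For an infinite place `v` take `k = ℂ`, `absC`, `ι = v.embedding` (`InfinitePlace.norm_embedding_eq`, `mprop_complex`); for a finite place `exists_ext_nonarch`
(`v` is nonarchimedean: `FinitePlace.add_le`; nontrivial: some nonzero element of the maximal ideal has `v x < 1`: `FinitePlace.norm_lt_one_iff_mem`), `mprop_nonarch`.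
Pull the colouring back: `χ_K X = χ (mapV ι X)`, and use `gg_map`, `rr_map`, `conj_map`, `wd_map`, `res_map` (`tri (mapV ι X) (mapV ι Y) (ι α) (ι β) = (tri X Y α β).map ι`,
`mapV ι (α • X + β • Y) = ι α • mapV ι X + ι β • mapV ι Y`).
-/

namespace Pool.Agent.LNG

open Polynomial NumberField IsDedekindDomain

theorem Plc_transfer {d : ℕ} {m : ℕ} {c C : ℝ} {K : Type} [Field K]
    (v : AbsoluteValue K ℝ) {k : Type} [Field k] (w : AbsoluteValue k ℝ)
    (ι : K →+* k) (hι : ∀ x, w (ι x) = v x)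
    (H : ∀ F : Coef k d, res F ≠ 0 →
        ∃ χ : (Fin 2 → k) → Fin m,
          ∀ X Y α β, wd X Y ≠ 0 → α ≠ 0 → β ≠ 0 → χ X = χ Y → χ Y = χ (α • X + β • Y) →
            c * rr w (conj F (tri X Y α β)) - C ≤
              gg w F X Y + gg w F Y (α • X + β • Y) + gg w F (α • X + β • Y) X)
    (F : Coef K d) (hF : res F ≠ 0) :
        ∃ χ : (Fin 2 → K) → Fin m,
          ∀ X Y α β, wd X Y ≠ 0 → α ≠ 0 → β ≠ 0 → χ X = χ Y → χ Y = χ (α • X + β • Y) →
            c * rr v (conj F (tri X Y α β)) - C ≤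
              gg v F X Y + gg v F Y (α • X + β • Y) + gg v F (α • X + β • Y) X := by
  have hinj : ∀ x : K, x ≠ 0 → ι x ≠ 0 := fun x hx => (map_ne_zero ι).2 hx
  have hF' : res (mapC ι F) ≠ 0 := by
    rw [res_map]
    exact hinj _ hF
  obtain ⟨χ, hχ⟩ := H (mapC ι F) hF'
  refine ⟨fun X => χ (mapV ι X), ?_⟩
  intro X Y α β hXY hα hβ h1 h2
  have hZ : mapV ι (α • X + β • Y) = ι α • mapV ι X + ι β • mapV ι Y := by
    funext i
    simp [mapV]
  have hw : wd (mapV ι X) (mapV ι Y) ≠ 0 := by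
    rw [wd_map]
    exact hinj _ hXY
  have htri : tri (mapV ι X) (mapV ι Y) (ι α) (ι β) = (tri X Y α β).map ι := by
    ext i j
    fin_cases i <;> fin_cases j <;> simp [tri, mapV]
  have h3 := hχ (mapV ι X) (mapV ι Y) (ι α) (ι β) hw (hinj _ hα) (hinj _ hβ) h1
    (by rw [← hZ]; exact h2)
  rw [← hZ, htri, conj_map, rr_map ι w v hι, gg_map ι w v hι, gg_map ι w v hι,
    gg_map ι w v hι] at h3
  exact h3

theorem Plc_small {K : Type} [Field K] [NumberField K] (v : FinitePlace K) :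
    ∃ x : K, x ≠ 0 ∧ v.val x < 1 := by
  obtain ⟨y, hy, hy0⟩ := Submodule.exists_mem_ne_zero_of_ne_bot v.maximalIdeal.ne_bot
  refine ⟨algebraMap (𝓞 K) K y, ?_, ?_⟩
  · rw [Ne, FaithfulSMul.algebraMap_eq_zero_iff]
    exact hy0
  · have h1 := (FinitePlace.norm_lt_one_iff_mem K v.maximalIdeal y).2 hy
    rw [FinitePlace.norm_embedding_eq] at h1
    exact h1

theorem plc (d : ℕ) (hd : 2 ≤ d) : ∃ (m : ℕ) (c C : ℝ), 0 < m ∧ 0 < c ∧ 0 ≤ C ∧
    ∀ (K : Type) [Field K] [NumberField K] (v : AbsoluteValue K ℝ),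
      (IsInfinitePlace v ∨ IsFinitePlace v) → ∀ F : Coef K d, res F ≠ 0 →
        ∃ χ : (Fin 2 → K) → Fin m,
          ∀ X Y α β, wd X Y ≠ 0 → α ≠ 0 → β ≠ 0 → χ X = χ Y → χ Y = χ (α • X + β • Y) →
            c * rr v (conj F (tri X Y α β)) - C ≤
              gg v F X Y + gg v F Y (α • X + β • Y) + gg v F (α • X + β • Y) X := by
  obtain ⟨m, c, C, hm, hc, hC, H⟩ := class_lemma d hd
  refine ⟨m, c, C, hm, hc, hC, ?_⟩
  intro K _ _ v hv F hF
  rcases hv with hv | hv
  · obtain ⟨w, rfl⟩ := (isInfinitePlace_iff v).1 hv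
    refine Plc_transfer w.val absC w.embedding ?_ (H ℂ absC mprop_complex) F hF
    intro x
    rw [absC_apply, InfinitePlace.norm_embedding_eq]
    rfl
  · obtain ⟨w, rfl⟩ := (isFinitePlace_iff v).1 hv
    obtain ⟨k, _, _, _, u, ι, hu, hι⟩ := exists_ext_nonarch w.val (nonarch_of_finite w)
      (Plc_small w)
    exact Plc_transfer w.val u ι hι (H k u (mprop_nonarch u hu)) F hF

end Pool.Agent.LNG
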