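import Pool.Agent.LNG.Glo
import Pool.Agent.LNG.Plc
import Pool.Agent.LNG.Nor
import Pool.Agent.LNG.PgN

/-!
# LNG, Mn2 (difficulty 3): the main inequality under condition (H), uniform in `K`

Constants. `m, c, C₁` from `plc d hd`. `l = log (bigM d)`. `λ = min (1, c (d²+d)/2, c δ/28) > 0`; `K' ≥ 1` (so large) that `6(K'+1)/(N'-1) ≤ 7λ` and `N' = d^K' ≥ 3`; `ε = 7λ + 6(K'+1)/(N'-1) ≤ 14 λ`; `a = λ/(d²+d) ≤ c/2`; `b = c/2`; `C₂ = C₁ + c l`.
`N0 = (N'-1) m^(D+t) + 1`. Given `K`, `F`, `T`, `P`: colour the indices by all infinite places (`card (InfinitePlace K) ≤ finrank ≤ D`) and the places of `T`; `many_equal` gives `e : Fin N' → ℕ` strictly increasing (`N' = (N'-1)+1`), `X i = F^{e i}(P)`, all of one colour everywhere.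
Pairwise independent: `wd_ne_zero_of_wandering`. For `τ ∈ D3 N'`: `At X τ = tri X Y α β` with `αX+βY = Z` (`comb_eq`), `α, β ≠ 0`; `plc` gives `c R_τ - C₁ ≤ St` at infinite places and at `v ∈ T`; since `R_τ ≥ rmin` (`rmin_le`, `At_det`), `R_τ ≥ -l` (`rr_ge_all`), `rmin ≥ max(rmin,0) - l` (`rmin_ge`):
`c R_τ - C₁ ≥ a R_τ + (c/2) max(rmin,0) - C₂` (note `(c/2 - a) R_τ ≥ -(c/2) l`). `hgood`: `loc_good`, `(7λ n + 6(N'-2)N'(K'+1)) = n ε` (`card_D3`).
`glo` and (H) for every `A = At X τ`, summed: `n W ≤ n Z/δ + Σ H_τ/(14(d+1))`; with `ε ≤ 14λ`, `14λ/δ ≤ c/2`: `(λ/(d+1)) Σ_τ H_τ ≤ n [C₂ (D + t) + D 6 d^{N0} ĥ(P)]` (`canHeight_iter`, `finrank ≤ D`). So some `τ` has `H_τ ≤ ((d+1)/λ)[..]`, and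
`absHeight = H_τ/[K:Q] ≤ H_τ` (`H_τ ≥ 0`).
-/

namespace Pool.Agent.LNG

open Polynomial NumberField IsDedekindDomain

theorem Mn2_sq (n : ℕ) : (n + 4) ^ 2 ≤ 2 ^ (n + 4) := by
  induction n with
  | zero => norm_num
  | succ n ih =>
    have h1 : 2 ^ (n + 1 + 4) = 2 * 2 ^ (n + 4) := by
      rw [show n + 1 + 4 = (n + 4) + 1 by omega, pow_succ]
      ring
    rw [h1]
    have h2 : (n + 1 + 4) ^ 2 ≤ 2 * (n + 4) ^ 2 := by
      have e : 2 * (n + 4) ^ 2 = (n + 1 + 4) ^ 2 + (n * n + 6 * n + 7) := by ring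
      rw [e]
      exact Nat.le_add_right _ _
    exact h2.trans (Nat.mul_le_mul_left _ ih)

/-- Choice of `K'`. -/
theorem Mn2_choice (d : ℕ) (hd : 2 ≤ d) {lam : ℝ} (hl : 0 < lam) :
    ∃ K' : ℕ, 1 ≤ K' ∧ 3 ≤ d ^ K' ∧ 6 * ((K' : ℝ) + 1) ≤ 7 * lam * ((d : ℝ) ^ K' - 1) := by
  obtain ⟨n, hn⟩ := exists_nat_gt (1 / lam)
  have h1 : (n + 4) ^ 2 ≤ d ^ (n + 4) := (Mn2_sq n).trans (Nat.pow_le_pow_left hd _)
  refine ⟨n + 4, by omega, ?_, ?_⟩
  · refine le_trans ?_ h1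
    have e : (n + 4) ^ 2 = 3 + (n * n + 8 * n + 13) := by ring
    rw [e]
    exact Nat.le_add_right _ _
  · have h2 : ((n : ℝ) + 4) ^ 2 ≤ (d : ℝ) ^ (n + 4) := by exact_mod_cast h1
    have h3 : 1 < lam * n := by
      rw [div_lt_iff₀ hl] at hn
      linarith
    push_cast
    have hn0 : (0 : ℝ) ≤ n := Nat.cast_nonneg n
    have h4 : 6 * ((n : ℝ) + 4 + 1) ≤ 7 * lam * (((n : ℝ) + 4) ^ 2 - 1) := by
      have e : ((n : ℝ) + 4) ^ 2 - 1 = ((n : ℝ) + 5) * ((n : ℝ) + 3) := by ring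
      rw [e]
      have h5 : 1 ≤ lam * ((n : ℝ) + 3) := by nlinarith
      nlinarith
    have h6 : 7 * lam * (((n : ℝ) + 4) ^ 2 - 1) ≤ 7 * lam * ((d : ℝ) ^ (n + 4) - 1) :=
      mul_le_mul_of_nonneg_left (by linarith) (by positivity)
    exact h4.trans h6

theorem Mn2_card {K : Type} [Field K] [NumberField K] {D t m n : ℕ} (hm : 0 < m)
    (hD : Module.finrank ℚ K ≤ D) (T : Finset (FinitePlace K)) (hT : T.card ≤ t)
    [DecidableEq (InfinitePlace K)] [DecidableEq T] :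
    n * Fintype.card ((InfinitePlace K → Fin m) × (T → Fin m)) < n * m ^ (D + t) + 1 := by
  have h1 : Fintype.card (InfinitePlace K) ≤ Module.finrank ℚ K := by
    rw [← InfinitePlace.sum_mult_eq (K := K), Fintype.card_eq_sum_ones]
    exact Finset.sum_le_sum fun v _ => v.mult_pos
  have h2 : Fintype.card ((InfinitePlace K → Fin m) × (T → Fin m)) =
      m ^ (Fintype.card (InfinitePlace K) + T.card) := by
    rw [Fintype.card_prod, Fintype.card_fun, Fintype.card_fun, Fintype.card_fin, pow_add,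
      Fintype.card_coe]
  have h3 : m ^ (Fintype.card (InfinitePlace K) + T.card) ≤ m ^ (D + t) :=
    Nat.pow_le_pow_right hm (by omega)
  rw [h2]
  exact Nat.lt_succ_of_le (Nat.mul_le_mul_left _ h3)

/-- The local inequality for one triple. -/
theorem Mn2_loc {c C₁ l a R S M : ℝ} (hc : 0 < c) (hl : 0 ≤ l) (ha : 0 ≤ a) (hac : a ≤ c / 2)
    (hR : M - l ≤ R) (hR2 : -l ≤ R) (h : c * R - C₁ ≤ S) :
    a * R + (c / 2 * M - (C₁ + c * l)) ≤ S := by
  have h1 : 0 ≤ (c / 2) * (R - (M - l)) := mul_nonneg (by linarith) (by linarith)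
  have h2 : 0 ≤ (c / 2 - a) * (R + l) := mul_nonneg (by linarith) (by linarith)
  have h3 : 0 ≤ a * l := mul_nonneg ha hl
  nlinarith

theorem main2 (d : ℕ) (hd : 2 ≤ d) (D t : ℕ) (δ : ℝ) (hδ : 0 < δ) :
    ∃ C : ℝ, 0 ≤ C ∧ ∀ (K : Type) [Field K] [NumberField K], Module.finrank ℚ K ≤ D →
      ∀ F : Coef K d, res F ≠ 0 → ∀ T : Finset (FinitePlace K), T.card ≤ t → Conc δ F T →
        ∀ P : Fin 2 → K, P ≠ 0 → ¬ Preper F P →
          ∃ A : Matrix (Fin 2) (Fin 2) K, A.det ≠ 0 ∧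
            absHeight (conj F A) ≤ C * (canHeight F P + 1) := by
  classical
  obtain ⟨m, c, C₁, hm, hc, hC₁, hplc⟩ := plc d hd
  have hd1 : 1 ≤ d := by omega
  have hdR : (2 : ℝ) ≤ d := by exact_mod_cast hd
  have hDD : (0 : ℝ) < (d : ℝ) ^ 2 + d := by positivity
  set l : ℝ := Real.log (bigM d) with hl
  have hl0 : 0 ≤ l := Real.log_natCast_nonneg _
  obtain ⟨lam, hlam0, hlam1, hlam2, hlam3⟩ : ∃ lam : ℝ, 0 < lam ∧ lam ≤ 1 ∧
      lam ≤ c * ((d : ℝ) ^ 2 + d) / 2 ∧ lam ≤ c * δ / 28 := by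
    refine ⟨min 1 (min (c * ((d : ℝ) ^ 2 + d) / 2) (c * δ / 28)), ?_, min_le_left _ _,
      (min_le_right _ _).trans (min_le_left _ _), (min_le_right _ _).trans (min_le_right _ _)⟩
    refine lt_min one_pos (lt_min (by positivity) (by positivity))
  obtain ⟨K', hK1, hK3, hK⟩ := Mn2_choice d hd hlam0
  obtain ⟨n', hn'⟩ : ∃ n', d ^ K' = n' + 1 := ⟨d ^ K' - 1, by omega⟩
  set a : ℝ := lam / ((d : ℝ) ^ 2 + d) with ha
  have ha0 : 0 < a := div_pos hlam0 hDD
  have hac : a ≤ c / 2 := by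
    rw [ha, div_le_iff₀ hDD]
    linarith
  set C₂ : ℝ := C₁ + c * l with hC₂
  have hC₂0 : 0 ≤ C₂ := add_nonneg hC₁ (mul_nonneg hc.le hl0)
  set N0 : ℕ := n' * m ^ (D + t) + 1 with hN0
  refine ⟨((d : ℝ) + 1) / lam * (C₂ * (D + t) + 6 * D * (d : ℝ) ^ N0), by positivity, ?_⟩
  intro K _ _ hKD F hF T hTt hconc P hP hw
  choose χi hχi using fun v : InfinitePlace K => hplc K v.val (Or.inl v.isInfinitePlace) F hF
  choose χf hχf using fun v : FinitePlace K => hplc K v.val (Or.inr v.isFinitePlace) F hF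
  obtain ⟨e, he1, he2, he3⟩ := many_equal
    (T := (InfinitePlace K → Fin m) × (T → Fin m)) (n := n') (N := N0)
    (fun i => (fun v => χi v ((ev F)^[i] P), fun v => χf v.1 ((ev F)^[i] P)))
    (Mn2_card hm hKD T hTt)
  set X : Fin (n' + 1) → Fin 2 → K := fun i => (ev F)^[e i] P with hX
  have hX0 : ∀ i, X i ≠ 0 := fun i => iter_ne_zero (by omega) hF hP _
  have hXX : ∀ i j, i ≠ j → wd (X i) (X j) ≠ 0 := fun i j hij =>
    wd_ne_zero_of_wandering hd hF hP hw (fun h => hij (he1.injective h))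
  have hres : ∀ τ ∈ D3 (n' + 1), res (conj F (At X τ)) ≠ 0 := by
    intro τ hτ
    have hdet := At_det hXX hτ
    rw [res_conj F hdet]
    exact mul_ne_zero (pow_ne_zero _ hdet) hF
  set n : ℝ := ((D3 (n' + 1)).card : ℝ) with hn
  have hn1 : n = ((n' : ℝ) + 1) * n' * (n' - 1) := by
    rw [hn, card_D3]
    push_cast
    ring
  have hn2 : (2 : ℝ) ≤ n' := by
    have : 2 ≤ n' := by omega
    exact_mod_cast this
  have hn0 : 0 < n := by
    rw [hn1]
    have : 0 < (n' : ℝ) - 1 := by linarith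
    positivity
  -- lower bounds for the sizes
  have hRl : ∀ (v : AbsoluteValue K ℝ), ∀ τ ∈ D3 (n' + 1), -l ≤ rr v (conj F (At X τ)) :=
    fun v τ hτ => rr_ge_all hd1 (hres τ hτ) v
  have hRm : ∀ (v : AbsoluteValue K ℝ), ∀ τ ∈ D3 (n' + 1),
      rmin v F ≤ rr v (conj F (At X τ)) :=
    fun v τ hτ => rmin_le hd1 v hF (At_det hXX hτ)
  have hRM : ∀ (v : AbsoluteValue K ℝ), ∀ τ ∈ D3 (n' + 1),
      max (rmin v F) 0 - l ≤ rr v (conj F (At X τ)) := by
    intro v τ hτ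
    rcases max_cases (rmin v F) 0 with ⟨h, -⟩ | ⟨h, -⟩
    · rw [h]
      have := hRm v τ hτ
      linarith
    · rw [h]
      have := hRl v τ hτ
      linarith
  have htri : ∀ (v : AbsoluteValue K ℝ) (χ : (Fin 2 → K) → Fin m),
      (∀ X Y α β, wd X Y ≠ 0 → α ≠ 0 → β ≠ 0 → χ X = χ Y → χ Y = χ (α • X + β • Y) →
            c * rr v (conj F (tri X Y α β)) - C₁ ≤
              gg v F X Y + gg v F Y (α • X + β • Y) + gg v F (α • X + β • Y) X) →
      (∀ i j, χ (X i) = χ (X j)) → ∀ τ ∈ D3 (n' + 1),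
        c * rr v (conj F (At X τ)) - C₁ ≤ St v F X τ := by
    intro v χ hχ hcol τ hτ
    obtain ⟨h1, h2, h3⟩ := (Finset.mem_filter.mp hτ).2
    have g1 := hXX _ _ h1
    have g2 := hXX _ _ (Ne.symm h2)
    have g3 := hXX _ _ (Ne.symm h3)
    have := hχ (X τ.1) (X τ.2.1) _ _ g1 (div_ne_zero g2 g1) (div_ne_zero g3 g1)
      (hcol _ _) (by rw [comb_eq g1]; exact hcol _ _)
    rw [comb_eq g1] at this
    exact this
  have hinf : ∀ v : InfinitePlace K, a * ∑ τ ∈ D3 (n' + 1), rr v.val (conj F (At X τ)) +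
      (D3 (n' + 1)).card * (c / 2 * max (rmin v.val F) 0 - C₂) ≤
        ∑ τ ∈ D3 (n' + 1), St v.val F X τ := by
    intro v
    rw [Finset.mul_sum, ← nsmul_eq_mul, ← Finset.sum_const, ← Finset.sum_add_distrib]
    refine Finset.sum_le_sum fun τ hτ => ?_
    refine Mn2_loc hc hl0 ha0.le hac (hRM v.val τ hτ) (hRl v.val τ hτ) ?_
    exact htri v.val (χi v) (hχi v) (fun i j => congrFun (congrArg Prod.fst (he3 i j)) v) τ hτ
  have hT : ∀ v ∈ T, a * ∑ τ ∈ D3 (n' + 1), rr v.val (conj F (At X τ)) +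
      (D3 (n' + 1)).card * (c / 2 * rmin v.val F - C₂) ≤
        ∑ τ ∈ D3 (n' + 1), St v.val F X τ := by
    intro v hv
    rw [Finset.mul_sum, ← nsmul_eq_mul, ← Finset.sum_const, ← Finset.sum_add_distrib]
    refine Finset.sum_le_sum fun τ hτ => ?_
    refine Mn2_loc hc hl0 ha0.le hac ?_ (hRl v.val τ hτ) ?_
    · have := hRm v.val τ hτ
      linarith
    · exact htri v.val (χf v) (hχf v)
        (fun i j => congrFun (congrArg Prod.snd (he3 i j)) ⟨v, hv⟩) τ hτ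
  have hNR : (((n' + 1 : ℕ) : ℝ)) = (n' : ℝ) + 1 := by push_cast; ring
  have hKn : 6 * ((K' : ℝ) + 1) ≤ 7 * lam * n' := by
    have h1 : ((d : ℝ) ^ K') = (n' : ℝ) + 1 := by exact_mod_cast hn'
    rw [h1] at hK
    linarith
  have hgood : ∀ v : FinitePlace K, v ∉ T → a * ∑ τ ∈ D3 (n' + 1), rr v.val (conj F (At X τ)) -
      (D3 (n' + 1)).card * (14 * lam) * rmin v.val F ≤ ∑ τ ∈ D3 (n' + 1), St v.val F X τ := by
    intro v _
    have h1 := loc_good hd v hF K' (n' + 1) hK1 hn'.symm X hX0 hXX hlam0.le hlam1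
    refine le_trans ?_ h1
    have hr : 0 ≤ rmin v.val F := rmin_nonneg hd1 v hF
    have h2 : 7 * lam * (D3 (n' + 1)).card +
        6 * ((((n' + 1 : ℕ) : ℝ)) - 2) * ((n' + 1 : ℕ) : ℝ) * (K' + 1) ≤
        (D3 (n' + 1)).card * (14 * lam) := by
      rw [← hn, hn1, hNR]
      have h3 : 0 ≤ ((n' : ℝ) - 1) * (n' + 1) := by
        have : 0 ≤ (n' : ℝ) - 1 := by linarith
        positivity
      have h4 := mul_le_mul_of_nonneg_left hKn h3
      nlinarith
    have h3 := mul_le_mul_of_nonneg_right h2 hr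
    rw [← ha]
    linarith
  have hglo := glo hd hF (n' + 1) X hX0 hXX T ha0.le (by positivity : 0 ≤ c / 2) hC₂0
    (by positivity : 0 ≤ 14 * lam) hinf hT hgood
  -- the hypothesis (H)
  set V : ℝ := ∑ v ∈ T, rmin v.val F +
    ∑ v : InfinitePlace K, (v.mult : ℝ) * max (rmin v.val F) 0 with hV
  set W : ℝ := ∑ᶠ v ∈ (badPl F \ (T : Set (FinitePlace K))), rmin v.val F with hW
  set H : ℝ := ∑ τ ∈ D3 (n' + 1), Height.logHeight (conj F (At X τ)) with hH
  have hV0 : 0 ≤ V := by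
    refine add_nonneg (Finset.sum_nonneg fun v _ => rmin_nonneg hd1 v hF)
      (Finset.sum_nonneg fun v _ => mul_nonneg (Nat.cast_nonneg _) (le_max_right _ _))
  have hWV : n * W ≤ n * (V / δ) + H / (14 * (d + 1)) := by
    have h1 : ∑ _τ ∈ D3 (n' + 1), W ≤ ∑ τ ∈ D3 (n' + 1),
        (V / δ + Height.logHeight (conj F (At X τ)) / (14 * (d + 1))) :=
      Finset.sum_le_sum fun τ hτ => hconc _ (At_det hXX hτ)
    rw [Finset.sum_const, nsmul_eq_mul, Finset.sum_add_distrib, Finset.sum_const, nsmul_eq_mul,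
      ← Finset.sum_div] at h1
    exact h1
  have hH0 : 0 ≤ canHeight F P := canHeight_nonneg hd hF hP
  have hle : ∀ i, canHeight F (X i) ≤ (d : ℝ) ^ N0 * canHeight F P := by
    intro i
    rw [hX]
    simp only
    rw [canHeight_iter hd hF hP]
    exact mul_le_mul_of_nonneg_right (pow_le_pow_right₀ (by linarith) (he2 i).le) hH0
  have hfin1 : (1 : ℝ) ≤ Module.finrank ℚ K := by
    exact_mod_cast Module.finrank_pos (R := ℚ) (M := K)
  have hfinD : (Module.finrank ℚ K : ℝ) ≤ D := by exact_mod_cast hKD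
  have hTt' : (T.card : ℝ) ≤ t := by exact_mod_cast hTt
  have hrhs : Module.finrank ℚ K * ∑ τ ∈ D3 (n' + 1), 2 * (canHeight F (X τ.1) +
      canHeight F (X τ.2.1) + canHeight F (X τ.2.2)) ≤
      D * (n * (6 * ((d : ℝ) ^ N0 * canHeight F P))) := by
    have h1 : ∑ τ ∈ D3 (n' + 1), 2 * (canHeight F (X τ.1) +
        canHeight F (X τ.2.1) + canHeight F (X τ.2.2)) ≤
        n * (6 * ((d : ℝ) ^ N0 * canHeight F P)) := by
      rw [hn, ← nsmul_eq_mul, ← Finset.sum_const]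
      refine Finset.sum_le_sum fun τ _ => ?_
      have h1 := hle τ.1
      have h2 := hle τ.2.1
      have h3 := hle τ.2.2
      linarith
    have h0 : 0 ≤ n * (6 * ((d : ℝ) ^ N0 * canHeight F P)) := by positivity
    calc _ ≤ (Module.finrank ℚ K : ℝ) * (n * (6 * ((d : ℝ) ^ N0 * canHeight F P))) :=
          mul_le_mul_of_nonneg_left h1 (by linarith)
      _ ≤ _ := mul_le_mul_of_nonneg_right hfinD h0
  have hdd1 : (0 : ℝ) < (d : ℝ) + 1 := by positivity
  have ha2 : a * (2 * d) = 2 * (lam / (d + 1)) := by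
    rw [ha]
    field_simp
  have hkey : lam / (d + 1) * H ≤ n * (C₂ * (D + t) + 6 * D * (d : ℝ) ^ N0 * canHeight F P) := by
    have h1 : 14 * lam * (n * W) ≤ 14 * lam * (n * (V / δ) + H / (14 * (d + 1))) :=
      mul_le_mul_of_nonneg_left hWV (by positivity)
    have h2 : 14 * lam * (n * (V / δ) + H / (14 * (d + 1))) =
        n * (14 * lam * V / δ) + lam / (d + 1) * H := by
      field_simp
    have h3 : 14 * lam * V / δ ≤ c / 2 * V := by
      rw [div_le_iff₀ hδ]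
      have : 14 * lam ≤ c / 2 * δ := by linarith
      have := mul_le_mul_of_nonneg_right this hV0
      linarith
    have h4 := mul_le_mul_of_nonneg_left h3 hn0.le
    have h5 : C₂ * (Module.finrank ℚ K + T.card) ≤ C₂ * (D + t) :=
      mul_le_mul_of_nonneg_left (by linarith) hC₂0
    have h6 := mul_le_mul_of_nonneg_left h5 hn0.le
    rw [ha2] at hglo
    have h7 := hglo.trans hrhs
    nlinarith
  obtain ⟨τ, hτ, hτle⟩ : ∃ τ ∈ D3 (n' + 1), lam / (d + 1) * Height.logHeight (conj F (At X τ)) ≤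
      C₂ * (D + t) + 6 * D * (d : ℝ) ^ N0 * canHeight F P := by
    by_contra hnot
    push Not at hnot
    have hne : (D3 (n' + 1)).Nonempty := by
      rw [← Finset.card_pos]
      have h0 : (0 : ℝ) < ((D3 (n' + 1)).card : ℝ) := hn0
      exact_mod_cast h0
    have h1 := Finset.sum_lt_sum_of_nonempty hne hnot
    rw [Finset.sum_const, nsmul_eq_mul, ← Finset.mul_sum] at h1
    exact absurd h1 (not_lt.mpr hkey)
  refine ⟨At X τ, At_det hXX hτ, ?_⟩
  unfold absHeight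
  rw [div_le_iff₀ (by linarith)]
  have hq : Height.logHeight (conj F (At X τ)) ≤
      ((d : ℝ) + 1) / lam * (C₂ * (D + t) + 6 * D * (d : ℝ) ^ N0 * canHeight F P) := by
    have h1 := mul_le_mul_of_nonneg_left hτle (by positivity : 0 ≤ ((d : ℝ) + 1) / lam)
    refine le_trans (le_of_eq ?_) h1
    field_simp
  have hB : 0 ≤ ((d : ℝ) + 1) / lam * (C₂ * (D + t) + 6 * D * (d : ℝ) ^ N0) *
      (canHeight F P + 1) := by positivity
  have hB2 : ((d : ℝ) + 1) / lam * (C₂ * (D + t) + 6 * D * (d : ℝ) ^ N0 * canHeight F P) ≤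
      ((d : ℝ) + 1) / lam * (C₂ * (D + t) + 6 * D * (d : ℝ) ^ N0) * (canHeight F P + 1) := by
    rw [mul_assoc (((d : ℝ) + 1) / lam)]
    refine mul_le_mul_of_nonneg_left ?_ (by positivity)
    have h1 : 0 ≤ C₂ * (D + t) * canHeight F P := by positivity
    have h2 : 0 ≤ 6 * D * (d : ℝ) ^ N0 := by positivity
    nlinarith
  refine hq.trans (hB2.trans ?_)
  exact le_mul_of_one_le_right hB hfin1

end Pool.Agent.LNG
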