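import Pool.Agent.LNG.Prob
import Pool.Agent.LNG.GG
import Pool.Agent.LNG.RC

/-!
# LNG, PGn (difficulty 2): places of potentially good reduction, the data over `L`

Over `L` let `F' = a • conj (mapC ι F) M` with integral coefficients and unit resultant, `w` nonarchimedean (`SumBound w (bigM d) 1`, `sumBound_nonarch`).
`res_le` (`σ = 1`): `1 = w (res F') ≤ cn^{2d}`, and `cn w F' ≤ 1`, so `cn w F' = 1`, `rr w F' = 0`, and `G_spec` with `n = 0` (all constants are `0`) gives `G w F' U = log ‖U‖`.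
So `gg w F' U V = log‖U‖ + log‖V‖ - log|U∧V|`. And `gg w F' U V = gg w (conj (mapC ι F) M) U V = gg w (mapC ι F) (M U) (M V)` (`gg_smul`, `gg_conj`); put `U = M⁻¹ ιX`, `V = M⁻¹ ιY` (`M U = ιX`), `gg_map`.
`rr v (conj F A) = rr w (conj (mapC ι F) (A.map ι))` (`rr_map`, `conj_map`) `= rr w (conj (conj (mapC ι F) M) (M⁻¹ * A.map ι))` (`conj_mul`) `= rr w (conj F' (M⁻¹ * A.map ι))` (`conj_smul`, `rr_smul`).
`L` is infinite because `K` is: `Infinite.of_injective ι`.
-/

namespace Pool.Agent.LNG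

open Polynomial NumberField IsDedekindDomain

variable {K : Type} [Field K] [NumberField K] {d : ℕ}

theorem pg_data (hd : 2 ≤ d) (v : AbsoluteValue K ℝ) {F : Coef K d}
    (hF : res F ≠ 0) (hpg : PotGood v F) :
    ∃ (L : Type) (_ : Field L) (_ : Infinite L) (ι : K →+* L) (w : AbsoluteValue L ℝ)
      (M : Matrix (Fin 2) (Fin 2) L) (F' : Coef L d),
      IsNonarchimedean w ∧ (∀ x, w (ι x) = v x) ∧ M.det ≠ 0 ∧ res F' ≠ 0 ∧ rr w F' = 0 ∧
      (∀ X Y : Fin 2 → K, wd X Y ≠ 0 → gg v F X Y =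
        Real.log (vn w (M⁻¹.mulVec (mapV ι X))) + Real.log (vn w (M⁻¹.mulVec (mapV ι Y))) -
          Real.log (w (wd (M⁻¹.mulVec (mapV ι X)) (M⁻¹.mulVec (mapV ι Y))))) ∧
      (∀ A : Matrix (Fin 2) (Fin 2) K, A.det ≠ 0 →
        rr v (conj F A) = rr w (conj F' (M⁻¹ * A.map ι))) := by
  obtain ⟨L, hL, ι, w, hw, hwι, M, a, hM, ha, hint, hunit⟩ := hpg
  have hinj : Function.Injective ι := ι.injective
  have hinf : Infinite L := Infinite.of_injective ι hinj
  set F' : Coef L d := a • conj (mapC ι F) M with hF'def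
  have hFL : res (mapC ι F) ≠ 0 := by
    rw [res_map]
    exact (map_ne_zero ι).2 hF
  have hFM : res (conj (mapC ι F) M) ≠ 0 := by
    rw [res_conj _ hM]
    exact mul_ne_zero (pow_ne_zero _ hM) hFL
  have hF' : res F' ≠ 0 := by
    intro h0
    rw [h0, map_zero] at hunit
    exact zero_ne_one hunit
  have hσ : SumBound w (bigM d) 1 := sumBound_nonarch w hw _
  have hcn : cn w F' = 1 := by
    obtain ⟨p, hp⟩ := exists_cn w F'
    have h1 : cn w F' ≤ 1 := by rw [← hp]; exact hint p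
    have h2 := res_le hσ F'
    rw [hunit, one_mul] at h2
    by_contra hne
    have h3 : cn w F' < 1 := lt_of_le_of_ne h1 hne
    have h4 : cn w F' ^ (2 * d) < 1 := pow_lt_one₀ (cn_nonneg w F') h3 (by omega)
    linarith
  have hMu : IsUnit M.det := isUnit_iff_ne_zero.mpr hM
  have hMi : M⁻¹.det ≠ 0 := by
    rw [Matrix.det_nonsing_inv, Ring.inverse_eq_inv']
    exact inv_ne_zero hM
  have hG : ∀ U : Fin 2 → L, U ≠ 0 → G w F' U = Real.log (vn w U) := by
    intro U hU
    obtain ⟨-, h1, h2⟩ := G_spec hσ hd hF' hU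
    have h3 := h1 0
    have h4 := h2 0
    simp only [Function.iterate_zero, id, pow_zero, one_mul, hcn, hunit, Real.log_one, mul_zero,
      add_zero, sub_zero, zero_div] at h3 h4
    linarith
  refine ⟨L, hL, hinf, ι, w, M, F', hw, hwι, hM, hF', ?_, ?_, ?_⟩
  · unfold rr
    rw [hcn, hunit, Real.log_one]
    ring
  · intro X Y hXY
    have hUV : wd (M⁻¹.mulVec (mapV ι X)) (M⁻¹.mulVec (mapV ι Y)) ≠ 0 := by
      rw [wd_mulVec, wd_map]
      exact mul_ne_zero hMi ((map_ne_zero ι).2 hXY)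
    have hU0 := left_ne_zero_of_wd hUV
    have hV0 := right_ne_zero_of_wd hUV
    have hmul : ∀ Z : Fin 2 → L, M.mulVec (M⁻¹.mulVec Z) = Z := by
      intro Z
      rw [Matrix.mulVec_mulVec, Matrix.mul_nonsing_inv M hMu, Matrix.one_mulVec]
    have h1 : gg v F X Y = gg w F' (M⁻¹.mulVec (mapV ι X)) (M⁻¹.mulVec (mapV ι Y)) := by
      rw [hF'def, gg_smul w hd hFM hUV ha, gg_conj w hd hFL hUV hM, hmul, hmul,
        gg_map ι w v hwι]
    rw [h1]
    unfold gg
    rw [hG _ hU0, hG _ hV0, hunit, Real.log_one, zero_div, sub_zero]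
  · intro A hA
    have hAL : (A.map ι).det ≠ 0 := by
      have h1 : (A.map ι).det = ι A.det := by
        rw [RingHom.map_det]; rfl
      rw [h1]
      exact (map_ne_zero ι).2 hA
    have hres : res (conj (mapC ι F) (A.map ι)) ≠ 0 := by
      rw [res_conj _ hAL]
      exact mul_ne_zero (pow_ne_zero _ hAL) hFL
    rw [hF'def, conj_smul, conj_mul, ← Matrix.mul_assoc, Matrix.mul_nonsing_inv M hMu,
      Matrix.one_mul, rr_smul (by omega) w hres ha, conj_map, rr_map ι w v hwι]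

end Pool.Agent.LNG
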