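import Pool.Agent.LNG.Prob

/-!
# MP_0b6722_nt: local minimal sizes, concentration of the bad height, moduli height over `ℤ`
-/

namespace Pool.Agent.LNG

open NumberField IsDedekindDomain

/-- The local minimal size `r_v(φ)` at the absolute value `v` of `K`: the infimum of
`2 d log ‖F'‖ - log |Res F'|` over all conjugates `F'` of `φ` over all extensions `(L, w)` of
`(K, v)`; for nonarchimedean `v` it is nonnegative, and it is `0` if `φ` has potentially good
reduction at `v`. -/
noncomputable def rmin {K : Type} [Field K] {d : ℕ} (v : AbsoluteValue K ℝ) (F : Coef K d) : ℝ :=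
  sInf {r : ℝ | ∃ (L : Type) (_ : Field L) (ι : K →+* L) (w : AbsoluteValue L ℝ)
    (M : Matrix (Fin 2) (Fin 2) L), (∀ x, w (ι x) = v x) ∧ M.det ≠ 0 ∧
      r = rr w (conj (mapC ι F) M)}

/-- Condition (H) for `φ`, a finite set `T` of finite places and `δ > 0`: the minimal sizes at the
finite places outside `T` that are not of potentially good reduction add up to at most `1/δ` times the
contribution of `T` and of the infinite places, plus `1/(14(d+1))` times the height (relative to
`K`) of every conjugate of `φ` over `K`. -/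
def Conc {K : Type} [Field K] [NumberField K] {d : ℕ} (δ : ℝ) (F : Coef K d)
    (T : Finset (FinitePlace K)) : Prop :=
  ∀ A : Matrix (Fin 2) (Fin 2) K, A.det ≠ 0 →
    ∑ᶠ v ∈ (badPl F \ (T : Set (FinitePlace K))), rmin v.val F ≤
      (∑ v ∈ T, rmin v.val F +
        ∑ v : InfinitePlace K, (v.mult : ℝ) * max (rmin v.val F) 0) / δ +
      Height.logHeight (conj F A) / (14 * (d + 1))

/-- Homogeneous coordinates for a map from `M_d` to a projective space: forms `g_0, ..., g_n` of one
degree `e` with integer coefficients in the coefficients `a_i, b_i` of `φ`, without common zero on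
`Rat_d`, such that the point `[g_0(φ) : ... : g_n(φ)]` depends only on the conjugacy class of `φ`. -/
structure ModInt (d : ℕ) where
  /-- dimension of the projective space -/
  n : ℕ
  /-- degree of the forms -/
  e : ℕ
  /-- the forms -/
  g : Fin (n + 1) → MvPolynomial (Fin 2 × Fin (d + 1)) ℤ
  hom : ∀ i, (g i).IsHomogeneous e
  ne_zero : ∀ (K : Type) [Field K] [NumberField K] (F : Coef K d), res F ≠ 0 →
    ∃ i, MvPolynomial.aeval F (g i) ≠ 0
  inv : ∀ (K : Type) [Field K] [NumberField K] (F : Coef K d), res F ≠ 0 →
    ∀ A : Matrix (Fin 2) (Fin 2) K, A.det ≠ 0 →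
      ∃ c : K, c ≠ 0 ∧ ∀ i, MvPolynomial.aeval (conj F A) (g i) = c * MvPolynomial.aeval F (g i)

/-- The moduli height `h_{M_d}(⟨φ⟩)`. -/
noncomputable def modH {K : Type} [Field K] [NumberField K] {d : ℕ} (M : ModInt d)
    (F : Coef K d) : ℝ :=
  absHeight (fun i => MvPolynomial.aeval F (M.g i))

end Pool.Agent.LNG
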