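import Pool.Agent.LNG.Alg2

/-!
# LNG, RC1 (difficulty 1-2): the resultant of `B ∘ F`, `B` a 2 x 2 matrix

`Res(αf+βg, γf+δg) = (αδ-βγ)^d Res(f,g)` (formal degrees `d`, `d`).
Proof with Mathlib's `resultant_add_mul_right`, `resultant_add_mul_left`, `resultant_C_mul_left/right`, `resultant_comm`.
`α ≠ 0`: with `f' = αf+βg`, `γf+δg = (γ/α) f' + ((αδ-βγ)/α) g`, so
`Res(f', γf+δg) = Res(f', ((αδ-βγ)/α) g) = ((αδ-βγ)/α)^d Res(αf+βg, g) = ((αδ-βγ)/α)^d Res(αf, g) = (αδ-βγ)^d Res(f,g)`.
`α = 0`: `Res(βg, γf+δg) = β^d Res(g, γf+δg) = β^d Res(g, γf) = (βγ)^d Res(g,f) = (-1)^{d·d} (βγ)^d Res(f,g)` and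
`(-1)^{d·d} = (-1)^d`.
-/

namespace Pool.Agent.LNG

open Polynomial

variable {k : Type*} [Field k] {d : ℕ}

/-- The coefficient vector of `B ∘ F`. -/
def lin (B : Matrix (Fin 2) (Fin 2) k) (F : Coef k d) : Coef k d :=
  fun p => ∑ l : Fin 2, B p.1 l * F (l, p.2)

private theorem RC1_pol_lin (B : Matrix (Fin 2) (Fin 2) k) (F : Coef k d) (i : Fin 2) :
    pol (lin B F) i = C (B i 0) * pol F 0 + C (B i 1) * pol F 1 := by
  unfold pol lin
  rw [Finset.mul_sum, Finset.mul_sum, ← Finset.sum_add_distrib]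
  refine Finset.sum_congr rfl fun j _ => ?_
  simp only [Fin.sum_univ_two, map_add, map_mul]
  ring

private theorem RC1_aux (f g : k[X]) (hf : f.natDegree ≤ d) (hg : g.natDegree ≤ d)
    (α β γ δ : k) :
    resultant (C α * f + C β * g) (C γ * f + C δ * g) d d =
      (α * δ - β * γ) ^ d * resultant f g d d := by
  by_cases hα : α = 0
  · subst hα
    have e1 : C (0 : k) * f + C β * g = C β * g := by simp
    have e2 : C γ * f + C δ * g = C γ * f + g * C δ := by ring
    rw [e1, e2, resultant_C_mul_left, resultant_add_mul_right _ _ _ _ _ (by simp) hg,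
      resultant_C_mul_right, resultant_comm g f]
    have h1 : (-1 : k) ^ (d * d) = (-1) ^ d := by
      rw [pow_mul]
      rcases Nat.even_or_odd d with h | h
      · rw [h.neg_one_pow, one_pow]
      · rw [h.neg_one_pow, h.neg_one_pow]
    rw [h1, zero_mul, zero_sub, ← neg_one_mul (β * γ), mul_pow, mul_pow]
    ring
  · have e2 : C γ * f + C δ * g =
        C ((α * δ - β * γ) / α) * g + (C α * f + C β * g) * C (γ / α) := by
      have h1 : C ((α * δ - β * γ) / α) = C δ - C β * C (γ / α) := by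
        rw [← C_mul, ← C_sub]
        congr 1
        field_simp
      have h2 : C γ = C α * C (γ / α) := by
        rw [← C_mul]
        congr 1
        field_simp
      rw [h1, h2]
      ring
    have hf' : (C α * f + C β * g).natDegree ≤ d :=
      (natDegree_add_le _ _).trans (max_le ((natDegree_C_mul_le _ _).trans hf)
        ((natDegree_C_mul_le _ _).trans hg))
    have e3 : C α * f + C β * g = C α * f + g * C β := by ring
    rw [e2, resultant_add_mul_right _ _ _ _ _ (by simp) hf', resultant_C_mul_right, e3,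
      resultant_add_mul_left _ _ _ _ _ (by simp) hg, resultant_C_mul_left, ← mul_assoc, ← mul_pow,
      div_mul_cancel₀ _ hα]

theorem res_lin (B : Matrix (Fin 2) (Fin 2) k) (F : Coef k d) :
    res (lin B F) = B.det ^ d * res F := by
  unfold res
  rw [RC1_pol_lin, RC1_pol_lin, RC1_aux _ _ (pol_natDegree_le F 0) (pol_natDegree_le F 1),
    Matrix.det_fin_two]

end Pool.Agent.LNG
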