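import Pool.Agent.LNG.Alg2

/-!
# LNG, Van: the homogeneous Vandermonde determinant
-/

namespace Pool.Agent.LNG

open Polynomial

variable {k : Type*} [Field k] {d : ℕ}

/-- Mathlib: `Matrix.det_projVandermonde` (rows `(v i)^j (w i)^(rev j)`), with `v i = Z i 0`, `w i = Z i 1`. -/
theorem det_mon (n : ℕ) (Z : Fin n → Fin 2 → k) :
    (Matrix.of fun i => mon n (Z i)).det = ∏ i : Fin n, ∏ j ∈ Finset.Ioi i, wd (Z j) (Z i) := by
  have h : (Matrix.of fun i => mon n (Z i)) =
      Matrix.projVandermonde (fun i => Z i 0) (fun i => Z i 1) := by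
    ext i j
    rw [Matrix.projVandermonde_apply, Matrix.of_apply, mon, Fin.val_rev]
    congr 2
    omega
  rw [h, Matrix.det_projVandermonde]
  refine Finset.prod_congr rfl fun i _ => Finset.prod_congr rfl fun j _ => ?_
  unfold wd
  ring

end Pool.Agent.LNG
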