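import Pool.Agent.LNG.Syl
import Pool.Agent.LNG.Van

/-!
# LNG, SMat (difficulty 3): the determinant of the products `x^l F_a^j F_b^{t-1-j}`

For `d ≥ 1`, `t ≥ 1` the `dt` forms `x^l y^{d-1-l} F_a^j F_b^{t-1-j}` (`l < d`, `j < t`) of degree `dt - 1` have, up to sign, the
determinant `Res(F)^{t(t-1)/2}` with respect to the monomials.
Here: `f = pol F 0`, `g = pol F 1`; the row with index `finProdFinEquiv (l, j)` of `S` contains the coefficients of the polynomial
`p_{l,j} = X^l f^j g^{t-1-j}` (natDegree ≤ dt-1). The evaluation property is `hev` of a product (`hev_mul`, `hev_pow`, `hev_X_pow`,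
`ev_eq_hev`), `mon t Y j = Y₀^j Y₁^{t-1-j}`.
Determinant by induction on `t` (we only need it up to sign, so everything is stated with squares, and reindexing both sides by
arbitrary equivalences does not matter): `t = 1`: `S` is the identity. `t → t+1`: with `N = d t`, `sylvester f (g^t) d (d t)` is a matrix of
size `d + d t`; its columns are `X^l g^t` (`l < d`; left block) and `X^i f` (`i < dt`; right block). For `j ≥ 1`,
`p^{(t+1)}_{l,j} = f · p^{(t)}_{l,j-1} = Σ_i (S_t)_{(l,j-1),i} X^i f` and `p^{(t+1)}_{l,0} = X^l g^t`. Hence (up to the order of rows)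
`S_{t+1}ᵀ = sylvester f (g^t) d (dt) * fromBlocks 1 0 0 S_tᵀ`, so `det² = Res(f, g^t; d, dt)² det(S_t)²`.
Finally `Res(f, g^t; d, dt) = Res(f,g;d,d)^t`: more generally `Res(f, g₁g₂; m, n₁+n₂) = Res(f,g₁;m,n₁) Res(f,g₂;m,n₂)` for
natDegree f ≤ m, natDegree g_i ≤ n_i (Mathlib: `resultant_mul_right` for the true degrees of `g_i`, plus `resultant_add_right_deg`:
`resultant f g m (n + k) = f.coeff m ^ k * resultant f g m n`).
You may of course organise the proof differently (for instance first a lemma for an arbitrary family of polynomials).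
-/

namespace Pool.Agent.LNG

open Polynomial

variable {k : Type*} [Field k] {d : ℕ}

theorem resultant_mul_right_formal (f g₁ g₂ : k[X]) (m n₁ n₂ : ℕ) (hf : f.natDegree ≤ m)
    (h₁ : g₁.natDegree ≤ n₁) (h₂ : g₂.natDegree ≤ n₂) :
    resultant f (g₁ * g₂) m (n₁ + n₂) = resultant f g₁ m n₁ * resultant f g₂ m n₂ := by
  obtain ⟨a, rfl⟩ := Nat.exists_eq_add_of_le h₁
  obtain ⟨b, rfl⟩ := Nat.exists_eq_add_of_le h₂
  rw [resultant_add_right_deg f g₁ m _ a le_rfl, resultant_add_right_deg f g₂ m _ b le_rfl]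
  have e : g₁.natDegree + a + (g₂.natDegree + b) = g₁.natDegree + g₂.natDegree + (a + b) := by ring
  rw [e, resultant_add_right_deg f (g₁ * g₂) m _ (a + b) natDegree_mul_le,
    resultant_mul_right f g₁ g₂ m hf]
  ring

theorem SMat_res_pow (f g : k[X]) (m n : ℕ) (hf : f.natDegree ≤ m) (hg : g.natDegree ≤ n) (t : ℕ) :
    resultant f (g ^ t) m (n * t) = resultant f g m n ^ t := by
  induction t with
  | zero =>
    rw [pow_zero, pow_zero, Nat.mul_zero]
    simp
  | succ t ih =>
    rw [pow_succ, Nat.mul_succ, resultant_mul_right_formal f (g ^ t) g m (n * t) n hf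
      (natDegree_pow_le_of_le t hg |>.trans (by rw [mul_comm])) hg, ih, pow_succ]

/-- the polynomial in row `(l, j)` -/
noncomputable def SMat_p (F : Coef k d) (t l j : ℕ) : k[X] :=
  X ^ l * ((pol F 0) ^ j * (pol F 1) ^ (t - 1 - j))

/-- the matrix -/
noncomputable def SMat_S (F : Coef k d) (t : ℕ) : Matrix (Fin (d * t)) (Fin (d * t)) k :=
  fun r c => (SMat_p F t ((finProdFinEquiv.symm r).1 : ℕ) ((finProdFinEquiv.symm r).2 : ℕ)).coeff
    (c : ℕ)

theorem SMat_hev (F : Coef k d) (t : ℕ) (l : Fin d) (j : Fin t) (X : Fin 2 → k) :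
    hev (d * t - 1) (SMat_p F t l j) X = mon d X l * mon t (ev F X) j := by
  have hl := l.2
  have hj := j.2
  have e : d * t - 1 = (d - 1) + (d * (j : ℕ) + d * (t - 1 - (j : ℕ))) := by
    have h1 : d * t = d * ((j : ℕ) + (t - 1 - (j : ℕ)) + 1) := by congr 1; omega
    rw [h1, Nat.mul_add, Nat.mul_add]
    omega
  have h0 : ((Polynomial.X : k[X]) ^ (l : ℕ)).natDegree ≤ d - 1 := by
    rw [natDegree_X_pow]; omega
  have h1 : ((pol F 0) ^ (j : ℕ)).natDegree ≤ d * (j : ℕ) :=
    (natDegree_pow_le_of_le _ (pol_natDegree_le F 0)).trans (by rw [mul_comm])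
  have h2 : ((pol F 1) ^ (t - 1 - (j : ℕ))).natDegree ≤ d * (t - 1 - (j : ℕ)) :=
    (natDegree_pow_le_of_le _ (pol_natDegree_le F 1)).trans (by rw [mul_comm])
  unfold SMat_p
  rw [e, hev_mul h0 (natDegree_mul_le_of_le h1 h2), hev_mul h1 h2,
    hev_pow (pol_natDegree_le F 0), hev_pow (pol_natDegree_le F 1), hev_X_pow (by omega),
    ← ev_eq_hev, ← ev_eq_hev]
  rfl

theorem SMat_mulVec (F : Coef k d) (t : ℕ) (l : Fin d) (j : Fin t) (X : Fin 2 → k) :
    (SMat_S F t).mulVec (mon (d * t) X) (finProdFinEquiv (l, j)) =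
      mon d X l * mon t (ev F X) j := by
  rw [← SMat_hev]
  have hd : 0 < d * t := Nat.mul_pos l.pos j.pos
  unfold hev
  rw [Nat.sub_add_cancel hd, Finset.sum_range]
  simp only [Matrix.mulVec, dotProduct, SMat_S, Equiv.symm_apply_apply, mon]

theorem SMat_det_sq {m n : Type*} [Fintype m] [Fintype n] [DecidableEq m] [DecidableEq n]
    (A : Matrix n n k) (e e' : m ≃ n) : (A.submatrix e e').det ^ 2 = A.det ^ 2 := by
  have h1 : A.submatrix e e' = (A.submatrix id (e.symm.trans e')).submatrix e e := by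
    ext i j
    simp
  rw [h1, Matrix.det_submatrix_equiv_self, Matrix.det_permute', mul_pow]
  have h2 : ((((Equiv.Perm.sign (e.symm.trans e')) : ℤˣ) : ℤ) : k) ^ 2 = 1 := by
    rcases Int.units_eq_one_or (Equiv.Perm.sign (e.symm.trans e')) with h | h <;> rw [h] <;> simp
  rw [h2, one_mul]

/-- splitting off `j = 0` -/
noncomputable def SMat_E (d t : ℕ) : Fin d ⊕ (Fin d × Fin t) ≃ Fin d × Fin (t + 1) :=
  Equiv.ofBijective (Sum.elim (fun l => (l, 0)) (fun p => (p.1, p.2.succ))) (by
    constructor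
    · rintro (l | p) (l' | p') h
      · simp only [Sum.elim_inl, Prod.mk.injEq, and_true] at h
        rw [h]
      · simp only [Sum.elim_inl, Sum.elim_inr, Prod.mk.injEq] at h
        exact absurd h.2.symm (Fin.succ_ne_zero _)
      · simp only [Sum.elim_inl, Sum.elim_inr, Prod.mk.injEq] at h
        exact absurd h.2 (Fin.succ_ne_zero _)
      · simp only [Sum.elim_inr, Prod.mk.injEq, Fin.succ_inj] at h
        rw [Prod.ext h.1 h.2]
    · rintro ⟨l, j⟩
      refine Fin.cases ?_ (fun j => ?_) j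
      · exact ⟨Sum.inl l, rfl⟩
      · exact ⟨Sum.inr (l, j), rfl⟩)

theorem SMat_coeff (f q : k[X]) (n c : ℕ) (hq : q.natDegree < n ∨ q = 0) (d : ℕ)
    (hf : f.natDegree ≤ d) :
    (f * q).coeff c = ∑ i : Fin n, q.coeff (i : ℕ) *
      (if c ∈ Set.Icc (i : ℕ) ((i : ℕ) + d) then f.coeff (c - (i : ℕ)) else 0) := by
  have h1 : q = ∑ i ∈ Finset.range n, C (q.coeff i) * X ^ i := by
    rcases hq with h | h
    · simpa only [C_mul_X_pow_eq_monomial] using as_sum_range' q n h
    · rw [h]; simp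
  conv_lhs => rw [h1]
  rw [Finset.mul_sum, finsetSum_coeff, Finset.sum_range]
  refine Finset.sum_congr rfl fun i _ => ?_
  have e : f * (C (q.coeff (i : ℕ)) * X ^ (i : ℕ)) = C (q.coeff (i : ℕ)) * (X ^ (i : ℕ) * f) := by
    ring
  rw [e, coeff_C_mul, coeff_X_pow_mul']
  congr 1
  by_cases h2 : (i : ℕ) ≤ c
  · by_cases h3 : c ≤ (i : ℕ) + d
    · rw [if_pos h2, if_pos ⟨h2, h3⟩]
    · rw [if_pos h2, if_neg (fun h => h3 h.2)]
      exact coeff_eq_zero_of_natDegree_lt (by omega)
  · rw [if_neg h2, if_neg (fun h => h2 h.1)]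

theorem SMat_step (F : Coef k d) (t : ℕ) :
    (SMat_S F (t + 1)).det ^ 2 =
      (SMat_S F t).det ^ 2 * (resultant (pol F 0) (pol F 1 ^ t) d (d * t)) ^ 2 := by
  have hfd := pol_natDegree_le F 0
  have hgd : (pol F 1 ^ t).natDegree ≤ d * t :=
    (natDegree_pow_le_of_le t (pol_natDegree_le F 1)).trans (by rw [mul_comm])
  set er : Fin d ⊕ Fin (d * t) ≃ Fin (d * (t + 1)) :=
    ((Equiv.sumCongr (Equiv.refl (Fin d)) finProdFinEquiv.symm).trans (SMat_E d t)).trans
      finProdFinEquiv with her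
  set ec : Fin d ⊕ Fin (d * t) ≃ Fin (d * (t + 1)) :=
    finSumFinEquiv.trans (finCongr (by ring)) with hec
  have hecv : ∀ c, ((ec c : Fin (d * (t + 1))) : ℕ) = (finSumFinEquiv c : Fin (d + d * t)) := by
    intro c
    simp [hec]
  have hM : (SMat_S F (t + 1)).submatrix er ec =
      Matrix.fromBlocks (1 : Matrix (Fin d) (Fin d) k) 0 0 (SMat_S F t) *
        ((sylvester (pol F 0) (pol F 1 ^ t) d (d * t)).submatrix finSumFinEquiv
          finSumFinEquiv).transpose := by
    ext r c
    rw [Matrix.mul_apply, Fintype.sum_sum_type]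
    rcases r with l | r
    · simp only [Matrix.fromBlocks_apply₁₁, Matrix.fromBlocks_apply₁₂, Matrix.zero_apply, zero_mul,
        Finset.sum_const_zero, add_zero, Matrix.transpose_apply, Matrix.submatrix_apply,
        Matrix.one_apply, ite_mul, one_mul, Finset.sum_ite_eq, Finset.mem_univ, if_true]
      rw [finSumFinEquiv_apply_left, sylvester, Matrix.of_apply, Fin.addCases_left]
      have e1 : er (Sum.inl l) = finProdFinEquiv (l, (0 : Fin (t + 1))) := rfl
      unfold SMat_S
      rw [e1, Equiv.symm_apply_apply, hecv]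
      unfold SMat_p
      simp only [Fin.val_zero, pow_zero, one_mul, Nat.add_sub_cancel, Nat.sub_zero]
      rw [coeff_X_pow_mul']
      by_cases h2 : (l : ℕ) ≤ ((finSumFinEquiv c : Fin (d + d * t)) : ℕ)
      · by_cases h3 : ((finSumFinEquiv c : Fin (d + d * t)) : ℕ) ≤ (l : ℕ) + d * t
        · rw [if_pos h2, if_pos ⟨h2, h3⟩]
        · rw [if_pos h2, if_neg (fun h => h3 h.2)]
          exact coeff_eq_zero_of_natDegree_lt (by omega)
      · rw [if_neg h2, if_neg (fun h => h2 h.1)]
    · simp only [Matrix.fromBlocks_apply₂₁, Matrix.fromBlocks_apply₂₂, Matrix.zero_apply, zero_mul,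
        Finset.sum_const_zero, zero_add, Matrix.transpose_apply, Matrix.submatrix_apply]
      have e1 : er (Sum.inr r) = finProdFinEquiv ((finProdFinEquiv.symm r).1,
        (finProdFinEquiv.symm r).2.succ) := rfl
      have hsyl : ∀ i : Fin (d * t), sylvester (pol F 0) (pol F 1 ^ t) d (d * t)
          (finSumFinEquiv c) (finSumFinEquiv (Sum.inr i)) =
          if ((finSumFinEquiv c : Fin (d + d * t)) : ℕ) ∈ Set.Icc (i : ℕ) ((i : ℕ) + d) then
            (pol F 0).coeff (((finSumFinEquiv c : Fin (d + d * t)) : ℕ) - (i : ℕ)) else 0 := by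
        intro i
        rw [finSumFinEquiv_apply_right, sylvester, Matrix.of_apply, Fin.addCases_right]
      simp only [hsyl]
      set l := (finProdFinEquiv.symm r).1 with hl
      set j := (finProdFinEquiv.symm r).2 with hj
      have hq : (SMat_p F t l j).natDegree < d * t := by
        have hlt := l.2
        have hjt := j.2
        unfold SMat_p
        have h0 : ((Polynomial.X : k[X]) ^ (l : ℕ)).natDegree ≤ d - 1 := by
          rw [natDegree_X_pow]; omega
        have h1 : ((pol F 0) ^ (j : ℕ)).natDegree ≤ d * (j : ℕ) :=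
          (natDegree_pow_le_of_le _ (pol_natDegree_le F 0)).trans (by rw [mul_comm])
        have h2 : ((pol F 1) ^ (t - 1 - (j : ℕ))).natDegree ≤ d * (t - 1 - (j : ℕ)) :=
          (natDegree_pow_le_of_le _ (pol_natDegree_le F 1)).trans (by rw [mul_comm])
        have h3 := natDegree_mul_le_of_le h0 (natDegree_mul_le_of_le h1 h2)
        have e : d * t = (d - 1) + (d * (j : ℕ) + d * (t - 1 - (j : ℕ))) + 1 := by
          have h1 : d * t = d * ((j : ℕ) + (t - 1 - (j : ℕ)) + 1) := by congr 1; omega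
          rw [h1, Nat.mul_add, Nat.mul_add]
          omega
        omega
      have hS : ∀ i, SMat_S F t r i = (SMat_p F t l j).coeff (i : ℕ) := fun i => rfl
      simp only [hS]
      rw [← SMat_coeff (pol F 0) (SMat_p F t l j) (d * t) _ (Or.inl hq) d hfd]
      unfold SMat_S
      rw [e1, Equiv.symm_apply_apply, hecv]
      congr 1
      unfold SMat_p
      simp only [Fin.val_succ]
      have e2 : t + 1 - 1 - ((j : ℕ) + 1) = t - 1 - (j : ℕ) := by omega
      rw [e2, pow_succ]
      ring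
  rw [← SMat_det_sq (SMat_S F (t + 1)) er ec, hM, Matrix.det_mul, Matrix.det_fromBlocks_zero₁₂,
    Matrix.det_one, one_mul, Matrix.det_transpose, Matrix.det_submatrix_equiv_self, mul_pow]
  rfl

theorem SMat_det (F : Coef k d) (t : ℕ) :
    (SMat_S F t).det ^ 2 = (res F ^ (t * (t - 1) / 2)) ^ 2 := by
  induction t with
  | zero =>
    have : IsEmpty (Fin (d * 0)) := by rw [Nat.mul_zero]; infer_instance
    rw [Matrix.det_isEmpty]
    simp
  | succ t ih =>
    rw [SMat_step, ih, SMat_res_pow _ _ _ _ (pol_natDegree_le F 0) (pol_natDegree_le F 1)]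
    unfold res
    rw [← mul_pow, ← pow_add]
    congr 2
    rw [Nat.add_sub_cancel]
    have h1 : (t + 1) * t = t * (t - 1) + t * 2 := by
      cases t with
      | zero => rfl
      | succ t => rw [Nat.add_sub_cancel]; ring
    rw [h1, Nat.add_mul_div_right _ _ (by norm_num)]

theorem exists_S (hd : 1 ≤ d) (F : Coef k d) (t : ℕ) (ht : 1 ≤ t) :
    ∃ S : Matrix (Fin (d * t)) (Fin (d * t)) k,
      S.det ^ 2 = (res F ^ (t * (t - 1) / 2)) ^ 2 ∧
      ∀ (X : Fin 2 → k) (l : Fin d) (j : Fin t),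
        S.mulVec (mon (d * t) X) (finProdFinEquiv (l, j)) = mon d X l * mon t (ev F X) j :=
  ⟨SMat_S F t, SMat_det F t, fun X l j => SMat_mulVec F t l j X⟩

end Pool.Agent.LNG
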