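import Pool.Agent.LNG.SMat

/-!
# LNG, TMat (difficulty 2): the basis `∏_{m<K} h_{l_m}(F^m(X))`

Induction on `K`; `K = 0`: `T = 1` (1 x 1; `mon 1 X = ![1]`). Step: let `t = d^K`, `T` for `K`, `S` from `exists_S` for `t`. Let
`T' = reindex ((1 : Matrix (Fin d) (Fin d) k) ⊗ₖ T) * S` where the rows `(l, l')` are numbered by `finProdFinEquiv : Fin d × Fin t ≃ Fin (d*t)`
and `d ^ (K+1) = d * d^K` (`pow_succ'`). Then `det T' ^2 = (det T ^ d)^2 det S ^2` (`Matrix.det_kronecker`), which gives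
`E (K+1) = d * E K + t(t-1)/2`, and
`(T' mon_{dt}(X))_{(l,l')} = Σ_j T_{l',j} mon d X l · mon t (ev F X) j = mon d X l · (T mon_t(ev F X))_{l'}`, whose absolute value is
`≤ ‖X‖^{d-1} ∏_{j<K} ‖F^j(F(X))‖^{d-1} = ∏_{j<K+1} ‖F^j(X)‖^{d-1}`.
-/

namespace Pool.Agent.LNG

open Polynomial

variable {k : Type*} [Field k] {d : ℕ}

/-- The exponent of the resultant. -/
def E (d : ℕ) : ℕ → ℕ
  | 0 => 0
  | K + 1 => d * E d K + d ^ K * (d ^ K - 1) / 2

theorem E_le (hd : 2 ≤ d) (K : ℕ) : (E d K : ℝ) * (2 * d * (d - 1)) ≤ ((d : ℝ) ^ K) ^ 2 := by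
  have hd2 : (2 : ℝ) ≤ d := by exact_mod_cast hd
  induction K with
  | zero => simp [E]
  | succ K ih =>
    have ht : 1 ≤ d ^ K := Nat.one_le_pow _ _ (by omega)
    have h1 : ((d ^ K * (d ^ K - 1) / 2 : ℕ) : ℝ) ≤ ((d : ℝ) ^ K * ((d : ℝ) ^ K - 1)) / 2 := by
      refine (Nat.cast_div_le).trans ?_
      rw [Nat.cast_mul, Nat.cast_sub ht]
      simp
    have h2 : (E d (K + 1) : ℝ) = d * E d K + ((d ^ K * (d ^ K - 1) / 2 : ℕ) : ℝ) := by
      simp only [E]
      rw [Nat.cast_add, Nat.cast_mul]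
    have ht' : (0 : ℝ) ≤ (d : ℝ) ^ K := by positivity
    rw [h2, pow_succ]
    have hpos : (0 : ℝ) ≤ 2 * d * (d - 1) := by nlinarith
    calc ((d : ℝ) * E d K + ((d ^ K * (d ^ K - 1) / 2 : ℕ) : ℝ)) * (2 * d * (d - 1))
        = d * (E d K * (2 * d * (d - 1)))
          + ((d ^ K * (d ^ K - 1) / 2 : ℕ) : ℝ) * (2 * d * (d - 1)) := by ring
      _ ≤ d * ((d : ℝ) ^ K) ^ 2
          + ((d : ℝ) ^ K * ((d : ℝ) ^ K - 1)) / 2 * (2 * d * (d - 1)) := by
          refine add_le_add (mul_le_mul_of_nonneg_left ih (by linarith)) ?_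
          exact mul_le_mul_of_nonneg_right h1 hpos
      _ = ((d : ℝ) ^ K * d) ^ 2 - (d : ℝ) ^ K * (d * (d - 1)) := by ring
      _ ≤ ((d : ℝ) ^ K * d) ^ 2 := by
          have : 0 ≤ (d : ℝ) ^ K * (d * (d - 1)) := by
            apply mul_nonneg ht'
            nlinarith
          linarith

theorem v_mon_le (v : AbsoluteValue k ℝ) (X : Fin 2 → k) (n : ℕ) (l : Fin n) :
    v (mon n X l) ≤ vn v X ^ (n - 1) := by
  have h0 : v (X 0) ≤ vn v X := le_max_left _ _
  have h1 : v (X 1) ≤ vn v X := le_max_right _ _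
  have hn : 0 ≤ vn v X := le_trans (v.nonneg _) h0
  have hl : (l : ℕ) + (n - 1 - (l : ℕ)) = n - 1 := by have := l.2; omega
  unfold mon
  rw [map_mul, map_pow, map_pow]
  calc v (X 0) ^ (l : ℕ) * v (X 1) ^ (n - 1 - (l : ℕ))
      ≤ vn v X ^ (l : ℕ) * vn v X ^ (n - 1 - (l : ℕ)) :=
        mul_le_mul (pow_le_pow_left₀ (v.nonneg _) h0 _) (pow_le_pow_left₀ (v.nonneg _) h1 _)
          (pow_nonneg (v.nonneg _) _) (pow_nonneg hn _)
    _ = vn v X ^ (n - 1) := by rw [← pow_add, hl]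

theorem exists_T (hd : 1 ≤ d) (F : Coef k d) (K : ℕ) :
    ∃ T : Matrix (Fin (d ^ K)) (Fin (d ^ K)) k,
      T.det ^ 2 = (res F ^ E d K) ^ 2 ∧
      ∀ (v : AbsoluteValue k ℝ) (X : Fin 2 → k) (l : Fin (d ^ K)),
        v (T.mulVec (mon (d ^ K) X) l) ≤ ∏ j ∈ Finset.range K, vn v ((ev F)^[j] X) ^ (d - 1) := by
  induction K with
  | zero =>
    refine ⟨1, by rw [Matrix.det_one]; simp [E], ?_⟩
    intro v X l
    rw [Matrix.one_mulVec]
    refine (v_mon_le v X _ l).trans ?_
    simp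
  | succ K ih =>
    obtain ⟨T, hT, hTv⟩ := ih
    have ht : 1 ≤ d ^ K := Nat.one_le_pow _ _ (by omega)
    obtain ⟨S, hS, hSv⟩ := exists_S hd F (d ^ K) ht
    have e : d ^ (K + 1) = d * d ^ K := pow_succ' d K
    rw [e]
    refine ⟨Matrix.reindex finProdFinEquiv finProdFinEquiv
      (Matrix.kroneckerMap (fun a b => a * b) (1 : Matrix (Fin d) (Fin d) k) T) * S, ?_, ?_⟩
    · rw [Matrix.det_mul, Matrix.det_reindex_self, Matrix.det_kronecker, Matrix.det_one, one_pow,
        one_mul, Fintype.card_fin, mul_pow, hS, ← pow_mul, mul_comm d 2, pow_mul, hT]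
      simp only [E]
      rw [← pow_mul, ← pow_mul, ← pow_mul, ← pow_mul, ← pow_add]
      congr 1
      ring
    · intro v X i
      obtain ⟨⟨l, l'⟩, rfl⟩ := finProdFinEquiv.surjective i
      have key : (Matrix.reindex finProdFinEquiv finProdFinEquiv
          (Matrix.kroneckerMap (fun a b => a * b) (1 : Matrix (Fin d) (Fin d) k) T) * S).mulVec (mon (d * d ^ K) X)
            (finProdFinEquiv (l, l')) = mon d X l * T.mulVec (mon (d ^ K) (ev F X)) l' := by
        rw [← Matrix.mulVec_mulVec, Matrix.mulVec, dotProduct, ← finProdFinEquiv.sum_comp,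
          Fintype.sum_prod_type]
        rw [Finset.sum_eq_single l]
        · rw [Matrix.mulVec, dotProduct, Finset.mul_sum]
          refine Finset.sum_congr rfl fun j _ => ?_
          rw [hSv, Matrix.reindex_apply, Matrix.submatrix_apply, Equiv.symm_apply_apply,
            Equiv.symm_apply_apply]
          simp [Matrix.kroneckerMap_apply]
          ring
        · intro b _ hb
          refine Finset.sum_eq_zero fun j _ => ?_
          rw [Matrix.reindex_apply, Matrix.submatrix_apply, Equiv.symm_apply_apply,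
            Equiv.symm_apply_apply]
          simp [Matrix.kroneckerMap_apply, Matrix.one_apply_ne (Ne.symm hb)]
        · intro h; exact absurd (Finset.mem_univ _) h
      rw [key, map_mul, Finset.prod_range_succ', mul_comm]
      have h1 := v_mon_le v X d l
      have h2 := hTv v (ev F X) l'
      have h3 : ∀ j, (ev F)^[j] (ev F X) = (ev F)^[j + 1] X := fun j => by
        rw [Function.iterate_succ_apply]
      simp only [h3] at h2
      exact mul_le_mul h2 h1 (v.nonneg _) (le_trans (v.nonneg _) h2)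

end Pool.Agent.LNG
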