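import Pool.Agent.LNG.Can
import Pool.Agent.LNG.Grr

/-!
# LNG, Uni (difficulty 2-3): the Call-Silverman inequality with explicit dependence on the map

`|absHeight X - canHeight F X| ≤ C(d) (1 + absHeight F)`.
Both sides are invariant under `F → cF` (`canHeight_smul`, `Height.logHeight_smul_eq_logHeight`), so we may assume that some coefficient of `F` is `1`; then `cn v F ≥ 1` for all `v`. For every place, `G_spec` with `n = 0` (`σ = bigM d` at infinite places, `l_v = log (bigM d)`; `σ = 1`, `l_v = 0` at finite places):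
`|log‖X‖_v - G_v(X)| ≤ b_v := (3 l_v + (2d+... ) log cn_v + |log v(res F)|)/(d-1) `, `|log v (res F)| = |2d log cn_v - rr_v| ≤ 2d log cn_v + rr_v + 2 l_v` (`rr_v ≥ -l_v`), so `b_v ≤ C(d)(l_v + log cn_v + rr_v + l_v)`, and
`Σ_v n_v log cn_v = logHeight F`, `Σ_v n_v rr_v = 2d logHeight F` (`SA_height`, `SA_rr`), `Σ_{v infinite} n_v l_v = [K:Q] log (bigM d)`. Sum over all places as in `GlG.lean` (`Sg_mono`, for `±`), divide by `[K:Q]` (`canHeight_eq`).
-/

namespace Pool.Agent.LNG

open Polynomial NumberField IsDedekindDomain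

namespace UniAux

variable {K : Type} [Field K] [NumberField K] {d : ℕ}

theorem one_le_cn (v : AbsoluteValue K ℝ) {F : Coef K d} {p : Fin 2 × Fin (d + 1)}
    (hp : F p = 1) : 1 ≤ cn v F := by
  have h1 : v (F p) ≤ cn v F := le_ciSup (f := fun p => v (F p)) (Set.finite_range _).bddAbove p
  rwa [hp, map_one] at h1

/-- bound of the local error -/
theorem b_le {v : AbsoluteValue K ℝ} {σ l : ℝ} (hl : Real.log σ = l) (hl0 : 0 ≤ l) (hd : 2 ≤ d)
    {F : Coef K d} {p : Fin 2 × Fin (d + 1)} (hp : F p = 1) (hrr : -l ≤ rr v F) :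
    GlG_b σ F v ≤ 5 * l + (2 * Real.log (cn v F) + rr v F) := by
  have hc : 0 ≤ Real.log (cn v F) := Real.log_nonneg (one_le_cn v hp)
  have hd1 : (1 : ℝ) ≤ (d : ℝ) - 1 := by
    have : (2 : ℝ) ≤ d := by exact_mod_cast hd
    linarith
  have hd0 : (0 : ℝ) < (d : ℝ) - 1 := by linarith
  unfold GlG_b
  rw [hl, abs_div, abs_div, abs_of_pos hd0]
  have e1 : 2 * l + (2 * (d : ℝ) - 1) * Real.log (cn v F) - Real.log (v (res F)) =
      2 * l - Real.log (cn v F) + rr v F := by
    unfold rr; ring
  rw [e1]
  have h1 : |2 * l - Real.log (cn v F) + rr v F| ≤ 4 * l + Real.log (cn v F) + rr v F := by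
    rw [abs_le]; constructor <;> linarith
  have h2 : |l + Real.log (cn v F)| ≤ l + Real.log (cn v F) := by
    rw [abs_le]; constructor <;> linarith
  have h3 : |2 * l - Real.log (cn v F) + rr v F| / ((d : ℝ) - 1) ≤
      |2 * l - Real.log (cn v F) + rr v F| := div_le_self (abs_nonneg _) hd1
  have h4 : |l + Real.log (cn v F)| / ((d : ℝ) - 1) ≤ |l + Real.log (cn v F)| :=
    div_le_self (abs_nonneg _) hd1
  linarith

theorem main (hd : 2 ≤ d) {F : Coef K d} (hF : res F ≠ 0) {p : Fin 2 × Fin (d + 1)}
    (hp : F p = 1) {X : Fin 2 → K} (hX : X ≠ 0) :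
    |Height.logHeight X - SA (fun v => G v F X)| ≤
      5 * Real.log (bigM d) * Module.finrank ℚ K + (2 + 2 * d) * Height.logHeight F := by
  have hM : 1 ≤ bigM d := Nat.one_le_iff_ne_zero.2 (Nat.factorial_ne_zero _)
  have hM0 : 0 ≤ Real.log (bigM d : ℝ) := Real.log_nonneg (by exact_mod_cast hM)
  have hF0 : F ≠ 0 := ne_zero_of_res (by omega) hF
  have hG := FS_G hd hF hX
  have hH := FS_height hX
  -- the error function
  have hE1 : FS (fun v : AbsoluteValue K ℝ => 2 * Real.log (⨆ p, v (F p)) + rr v F) :=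
    FS_add (FS_mul _ (FS_height hF0)) (FS_rr (by omega) hF)
  have hE : SA (fun v : AbsoluteValue K ℝ => 2 * Real.log (⨆ p, v (F p)) + rr v F) =
      (2 + 2 * d) * Height.logHeight F := by
    rw [SA_add (FS_mul _ (FS_height hF0)) (FS_rr (by omega) hF), SA_mul, SA_height hF0,
      SA_rr (by omega) hF]
    ring
  have hzero : (Function.support (fun _ : FinitePlace K => (0 : ℝ))).Finite := by
    simp
  have hL : Sg (fun _ : InfinitePlace K => 5 * Real.log (bigM d : ℝ)) (fun _ : FinitePlace K => (0 : ℝ)) =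
      5 * Real.log (bigM d) * Module.finrank ℚ K := by
    unfold Sg
    rw [finsum_zero, add_zero, ← Finset.sum_mul, sum_mult]
    ring
  have hEe : Sg (fun v : InfinitePlace K => 5 * Real.log (bigM d : ℝ) +
        (2 * Real.log (⨆ p, v.val (F p)) + rr v.val F))
      (fun v : FinitePlace K => 0 + (2 * Real.log (⨆ p, v.val (F p)) + rr v.val F)) =
      5 * Real.log (bigM d) * Module.finrank ℚ K + (2 + 2 * d) * Height.logHeight F := by
    rw [Sg_add (f := fun _ : InfinitePlace K => 5 * Real.log (bigM d : ℝ))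
      (f' := fun v : InfinitePlace K => 2 * Real.log (⨆ p, v.val (F p)) + rr v.val F)
      (g := fun _ : FinitePlace K => (0 : ℝ))
      (g' := fun v : FinitePlace K => 2 * Real.log (⨆ p, v.val (F p)) + rr v.val F) hzero hE1, hL]
    congr 1
  have hfinE : (Function.support (fun v : FinitePlace K =>
      0 + (2 * Real.log (⨆ p, v.val (F p)) + rr v.val F))).Finite := by
    have e0 : (fun v : FinitePlace K => 0 + (2 * Real.log (⨆ p, v.val (F p)) + rr v.val F)) =
        (fun v : FinitePlace K => 2 * Real.log (⨆ p, v.val (F p)) + rr v.val F) := by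
      funext v; rw [zero_add]
    rw [e0]
    exact hE1
  have hsum : ∀ {g g' : FinitePlace K → ℝ}, (Function.support g).Finite →
      (Function.support g').Finite → (Function.support (fun v => g v + g' v)).Finite := by
    intro g g' h h'
    exact (h.union h').subset (Function.support_add g g')
  have hneg : (Function.support (fun v : FinitePlace K => (-1 : ℝ) *
      (0 + (2 * Real.log (⨆ p, v.val (F p)) + rr v.val F)))).Finite := by
    refine hfinE.subset ?_
    intro v hv h0
    apply hv
    exact mul_eq_zero.2 (Or.inr h0)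
  have bA : ∀ v : InfinitePlace K, GlG_b (bigM d : ℝ) F v.val ≤
      5 * Real.log (bigM d : ℝ) + (2 * Real.log (⨆ p, v.val (F p)) + rr v.val F) := fun v =>
    b_le rfl hM0 hd hp (rr_ge_all (by omega) hF v.val)
  have bN : ∀ v : FinitePlace K, GlG_b 1 F v.val ≤
      0 + (2 * Real.log (⨆ p, v.val (F p)) + rr v.val F) := fun v => by
    have := b_le (σ := 1) (l := 0) Real.log_one le_rfl hd hp
      (by rw [neg_zero]; exact rr_nonneg_finite (by omega) hF v)
    rw [mul_zero] at this
    exact this
  have hup : SA (fun v => Real.log (⨆ i, v (X i))) ≤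
      Sg (fun v => G v.val F X + (5 * Real.log (bigM d : ℝ) +
          (2 * Real.log (⨆ p, v.val (F p)) + rr v.val F)))
        (fun v => G v.val F X + (0 + (2 * Real.log (⨆ p, v.val (F p)) + rr v.val F))) := by
    refine Sg_mono hH (hsum hG hfinE) ?_ ?_
    · intro v
      have h1 := (GlG_le (sumBound_arch v.val (bigM d) hM) hd hF hX 0).1
      simp only [Function.iterate_zero, id, pow_zero, one_mul] at h1
      have h2 := bA v
      linarith
    · intro v
      have h1 := (GlG_le (sumBound_nonarch v.val (nonarch_of_finite v) (bigM d)) hd hF hX 0).1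
      simp only [Function.iterate_zero, id, pow_zero, one_mul] at h1
      have h2 := bN v
      linarith
  have hlow : Sg (fun v => G v.val F X + (-1) * (5 * Real.log (bigM d : ℝ) +
          (2 * Real.log (⨆ p, v.val (F p)) + rr v.val F)))
        (fun v => G v.val F X + (-1) * (0 + (2 * Real.log (⨆ p, v.val (F p)) + rr v.val F))) ≤
      SA (fun v => Real.log (⨆ i, v (X i))) := by
    refine Sg_mono (hsum hG hneg) hH ?_ ?_
    · intro v
      have h1 := (GlG_le (sumBound_arch v.val (bigM d) hM) hd hF hX 0).2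
      simp only [Function.iterate_zero, id, pow_zero, one_mul] at h1
      have h2 := bA v
      linarith
    · intro v
      have h1 := (GlG_le (sumBound_nonarch v.val (nonarch_of_finite v) (bigM d)) hd hF hX 0).2
      simp only [Function.iterate_zero, id, pow_zero, one_mul] at h1
      have h2 := bN v
      linarith
  rw [Sg_add (f := fun v : InfinitePlace K => G v.val F X)
    (f' := fun v : InfinitePlace K => 5 * Real.log (bigM d : ℝ) +
          (2 * Real.log (⨆ p, v.val (F p)) + rr v.val F))
    (g := fun v : FinitePlace K => G v.val F X)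
    (g' := fun v : FinitePlace K => 0 + (2 * Real.log (⨆ p, v.val (F p)) + rr v.val F))
    hG hfinE, hEe, SA_height hX] at hup
  rw [Sg_add (f := fun v : InfinitePlace K => G v.val F X)
    (f' := fun v : InfinitePlace K => (-1) * (5 * Real.log (bigM d : ℝ) +
          (2 * Real.log (⨆ p, v.val (F p)) + rr v.val F)))
    (g := fun v : FinitePlace K => G v.val F X)
    (g' := fun v : FinitePlace K => (-1) * (0 + (2 * Real.log (⨆ p, v.val (F p)) + rr v.val F)))
    hG hneg, Sg_mul, hEe, SA_height hX] at hlow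
  have hS : Sg (fun v : InfinitePlace K => G v.val F X) (fun v : FinitePlace K => G v.val F X) =
      SA (fun v => G v F X) := rfl
  rw [hS] at hup hlow
  rw [abs_le]
  constructor <;> linarith

end UniAux

theorem call_silverman (d : ℕ) (hd : 2 ≤ d) : ∃ C : ℝ, 0 ≤ C ∧
    ∀ (K : Type) [Field K] [NumberField K] (F : Coef K d), res F ≠ 0 →
      ∀ X : Fin 2 → K, X ≠ 0 → |absHeight X - canHeight F X| ≤ C * (1 + absHeight F) := by
  have hM : 1 ≤ bigM d := Nat.one_le_iff_ne_zero.2 (Nat.factorial_ne_zero _)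
  have hM0 : 0 ≤ Real.log (bigM d : ℝ) := Real.log_nonneg (by exact_mod_cast hM)
  refine ⟨5 * Real.log (bigM d) + (2 + 2 * d), by positivity, ?_⟩
  intro K _ _ F hF X hX
  have hr : (0 : ℝ) < (Module.finrank ℚ K : ℝ) := Can_rpos (K := K)
  -- normalise
  have hF0 : F ≠ 0 := ne_zero_of_res (by omega) hF
  obtain ⟨p, hp⟩ : ∃ p, F p ≠ 0 := by
    by_contra h
    push Not at h
    exact hF0 (funext h)
  have hc : (F p)⁻¹ ≠ 0 := inv_ne_zero hp
  have hF' : res ((F p)⁻¹ • F) ≠ 0 := by
    rw [res_smul]
    exact mul_ne_zero (pow_ne_zero _ hc) hF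
  have hp' : ((F p)⁻¹ • F) p = 1 := by
    rw [Pi.smul_apply, smul_eq_mul, inv_mul_cancel₀ hp]
  have key := UniAux.main hd hF' hp' hX
  rw [Height.logHeight_smul_eq_logHeight _ hc] at key
  rw [← canHeight_smul hd hF hX hc, canHeight_eq hd hF' hX]
  unfold absHeight
  rw [← sub_div, abs_div, abs_of_pos hr, div_le_iff₀ hr]
  have hh : 0 ≤ Height.logHeight F := Height.logHeight_nonneg _
  have e : (5 * Real.log (bigM d) + (2 + 2 * d)) * (1 + Height.logHeight F / Module.finrank ℚ K) *
      Module.finrank ℚ K = 5 * Real.log (bigM d) * Module.finrank ℚ K +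
        (2 + 2 * d) * Height.logHeight F + ((2 + 2 * d) * Module.finrank ℚ K +
          5 * Real.log (bigM d) * Height.logHeight F) := by
    field_simp
    ring
  rw [e]
  have : 0 ≤ (2 + 2 * (d : ℝ)) * Module.finrank ℚ K + 5 * Real.log (bigM d) * Height.logHeight F := by
    positivity
  linarith

end Pool.Agent.LNG
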